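import Mathlib

set_option autoImplicit false

open Set Metric Filter Topology

namespace Pool.Agent.Helper857

variable {E F : Type*} [NormedAddCommGroup E] [NormedSpace ℂ E] [NormedAddCommGroup F]
  [NormedSpace ℂ F]

/-- Uniform limits of holomorphic maps on a ball are holomorphic. -/
theorem differentiableOn_of_tendstoUniformlyOn_ball [CompleteSpace F] {f : ℕ → E → F} {g : E → F}
    {c : E} {R : ℝ} (hf : ∀ n, DifferentiableOn ℂ (f n) (ball c R))
    (hg : TendstoUniformlyOn f g atTop (ball c R)) : DifferentiableOn ℂ g (ball c R) := by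
  intro x hx
  obtain ⟨δ, hδ, hsub⟩ : ∃ δ > 0, ball x (2 * δ) ⊆ ball c R := by
    obtain ⟨ε, hε, h⟩ := Metric.isOpen_iff.1 (isOpen_ball : IsOpen (ball c R)) x hx
    exact ⟨ε / 2, by positivity, by rwa [mul_div_cancel₀ _ (two_ne_zero)]⟩
  have hcau : UniformCauchySeqOn (fun n y => fderiv ℂ (f n) y) atTop (ball x δ) := by
    rw [Metric.uniformCauchySeqOn_iff]
    intro ε hε
    have hfc := hg.uniformCauchySeqOn
    rw [Metric.uniformCauchySeqOn_iff] at hfc
    obtain ⟨N, hN⟩ := hfc (ε * δ / 4) (by positivity)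
    refine ⟨N, fun m hm n hn y hy => ?_⟩
    have hby : ball y δ ⊆ ball c R := by
      refine Subset.trans ?_ hsub
      intro z hz
      have h1 := mem_ball.1 hz
      have h2 := mem_ball.1 hy
      have := dist_triangle z y x
      exact mem_ball.2 (by linarith)
    have hyc : ball y δ ∈ 𝓝 y := ball_mem_nhds _ hδ
    have hmy : DifferentiableAt ℂ (f m) y := ((hf m).mono hby).differentiableAt hyc
    have hny : DifferentiableAt ℂ (f n) y := ((hf n).mono hby).differentiableAt hyc
    rw [dist_eq_norm, ← fderiv_sub hmy hny]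
    have hd : DifferentiableOn ℂ (f m - f n) (ball y δ) :=
      ((hf m).mono hby).sub ((hf n).mono hby)
    have hmaps : MapsTo (f m - f n) (ball y δ) (closedBall ((f m - f n) y) (ε * δ / 2)) := by
      intro z hz
      have h1 := hN m hm n hn z (hby hz)
      have h2 := hN m hm n hn y (hby (mem_ball_self hδ))
      rw [dist_eq_norm] at h1 h2
      rw [mem_closedBall, dist_eq_norm, Pi.sub_apply, Pi.sub_apply]
      have h3 := norm_sub_le (f m z - f n z) (f m y - f n y)
      linarith
    have h4 := Complex.norm_fderiv_le_div_of_mapsTo_ball hd hmaps hδ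
    refine lt_of_le_of_lt h4 ?_
    rw [div_lt_iff₀ hδ]
    nlinarith
  have hcs : ∀ y ∈ ball x δ, ∃ L, Tendsto (fun n => fderiv ℂ (f n) y) atTop (𝓝 L) := by
    intro y hy
    exact cauchySeq_tendsto_of_complete (hcau.cauchySeq hy)
  choose! g' hg' using hcs
  have hunif : TendstoUniformlyOn (fun n y => fderiv ℂ (f n) y) g' atTop (ball x δ) :=
    hcau.tendstoUniformlyOn_of_tendsto hg'
  have hsub' : ball x δ ⊆ ball c R := Subset.trans (ball_subset_ball (by linarith)) hsub
  have := hasFDerivAt_of_tendstoUniformlyOn (isOpen_ball : IsOpen (ball x δ)) hunif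
    (fun n y hy => (((hf n).mono hsub').differentiableAt (isOpen_ball.mem_nhds hy)).hasFDerivAt)
    (fun y hy => hg.tendsto_at (hsub' hy)) (mem_ball_self hδ)
  exact this.differentiableAt.differentiableWithinAt

/-- second order estimate along a complex line -/
theorem line_estimate {φ : ℂ → F} [CompleteSpace F] (hφ : Differentiable ℂ φ) {M : ℝ}
    (hM : ∀ s : ℂ, ‖s‖ ≤ 3 → ‖φ s‖ ≤ M) {t : ℂ} (ht : ‖t‖ ≤ 1) :
    ‖φ t - φ 0 - t • deriv φ 0‖ ≤ M * ‖t‖ ^ 2 := by
  have hφ' : Differentiable ℂ (deriv φ) := by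
    intro z
    exact ((hφ.contDiff (n := 2)).differentiable_deriv_two) z
  have h1 : ∀ s : ℂ, ‖s‖ ≤ 2 → ‖deriv φ s‖ ≤ M := by
    intro s hs
    have := Complex.norm_deriv_le_of_forall_mem_sphere_norm_le (c := s) (R := 1) (C := M)
      (f := φ) one_pos hφ.diffContOnCl ?_
    · simpa using this
    · intro z hz
      apply hM
      have : ‖z‖ ≤ ‖s‖ + ‖z - s‖ := by
        have := norm_add_le s (z - s)
        simpa using this
      have h2 : ‖z - s‖ = 1 := by simpa [dist_eq_norm] using hz
      linarith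
  have h2 : ∀ s : ℂ, ‖s‖ ≤ 1 → ‖deriv (deriv φ) s‖ ≤ M := by
    intro s hs
    have := Complex.norm_deriv_le_of_forall_mem_sphere_norm_le (c := s) (R := 1) (C := M)
      (f := deriv φ) one_pos hφ'.diffContOnCl ?_
    · simpa using this
    · intro z hz
      apply h1
      have : ‖z‖ ≤ ‖s‖ + ‖z - s‖ := by
        have := norm_add_le s (z - s)
        simpa using this
      have h2 : ‖z - s‖ = 1 := by simpa [dist_eq_norm] using hz
      linarith
  have h3 : ∀ s : ℂ, ‖s‖ ≤ 1 → ‖deriv φ s - deriv φ 0‖ ≤ M * ‖s‖ := by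
    intro s hs
    have := (convex_closedBall (0 : ℂ) 1).norm_image_sub_le_of_norm_deriv_le (𝕜 := ℂ)
      (f := deriv φ) (C := M) (x := 0) (y := s) (fun x _ => hφ' x)
      (fun x hx => h2 x (by simpa using hx)) (by simp) (by simpa using hs)
    simpa using this
  have hM0 : 0 ≤ M := le_trans (norm_nonneg _) (hM 0 (by simp))
  have hd : ∀ x : ℂ, HasDerivAt (fun s => φ s - s • deriv φ 0) (deriv φ x - deriv φ 0) x := by
    intro x
    have ha := (hφ x).hasDerivAt
    have hb : HasDerivAt (fun s : ℂ => s • deriv φ 0) ((1 : ℂ) • deriv φ 0) x :=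
      (hasDerivAt_id x).smul_const _
    simpa using ha.fun_sub hb
  have h4 := (convex_closedBall (0 : ℂ) ‖t‖).norm_image_sub_le_of_norm_deriv_le (𝕜 := ℂ)
      (f := fun s => φ s - s • deriv φ 0) (C := M * ‖t‖) (x := 0) (y := t)
      (fun x _ => (hd x).differentiableAt)
      (fun x hx => by
        have hx' : ‖x‖ ≤ ‖t‖ := by simpa using hx
        rw [(hd x).deriv]
        exact le_trans (h3 x (le_trans hx' ht)) (mul_le_mul_of_nonneg_left hx' hM0))
      (by simp) (by simp)
  simp only [zero_smul, sub_zero] at h4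
  calc ‖φ t - φ 0 - t • deriv φ 0‖ = ‖φ t - t • deriv φ 0 - φ 0‖ := by congr 1; abel
    _ ≤ M * ‖t‖ * ‖t‖ := h4
    _ = M * ‖t‖ ^ 2 := by ring

/-- directional derivatives of entire maps are entire -/
theorem differentiable_fderiv_apply [FiniteDimensional ℂ E] [CompleteSpace F] {f : E → F}
    (hf : Differentiable ℂ f) (v : E) : Differentiable ℂ (fun x => fderiv ℂ f x v) := by
  have : ProperSpace E := FiniteDimensional.proper ℂ E
  intro x₀
  set R : ℝ := ‖x₀‖ + 1 with hR
  have hRpos : 0 < R := by positivity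
  obtain ⟨M, hM⟩ : ∃ M, ∀ x ∈ closedBall (0 : E) (R + 3 * ‖v‖), ‖f x‖ ≤ M :=
    (isCompact_closedBall _ _).exists_bound_of_continuousOn hf.continuous.continuousOn
  have hlim : TendstoUniformlyOn
      (fun (n : ℕ) x => ((1 : ℂ) / ((n : ℂ) + 1))⁻¹ • (f (x + ((1 : ℂ) / ((n : ℂ) + 1)) • v) - f x))
      (fun x => fderiv ℂ f x v) atTop (ball 0 R) := by
    rw [Metric.tendstoUniformlyOn_iff]
    intro ε hε
    have h1 : Tendsto (fun n : ℕ => M * (1 / ((n : ℝ) + 1))) atTop (𝓝 0) := by
      simpa using (tendsto_one_div_add_atTop_nhds_zero_nat (𝕜 := ℝ)).const_mul M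
    filter_upwards [h1.eventually (gt_mem_nhds hε)] with n hn x hx
    set t : ℂ := (1 : ℂ) / ((n : ℂ) + 1) with htdef
    have hnorm : ‖t‖ = 1 / ((n : ℝ) + 1) := by
      rw [htdef, norm_div, norm_one]
      congr 1
      have : ((n : ℂ) + 1) = (((n : ℝ) + 1 : ℝ) : ℂ) := by push_cast; ring
      rw [this, Complex.norm_real, Real.norm_of_nonneg (by positivity)]
    have htpos : 0 < ‖t‖ := by rw [hnorm]; positivity
    have ht1 : ‖t‖ ≤ 1 := by
      rw [hnorm, div_le_one (by positivity)]
      have : (0 : ℝ) ≤ n := Nat.cast_nonneg n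
      linarith
    have ht0 : t ≠ 0 := norm_pos_iff.1 htpos
    have hxn : ‖x‖ < R := by simpa using hx
    have hline : Differentiable ℂ (fun s : ℂ => f (x + s • v)) :=
      hf.comp ((differentiable_const x).add (differentiable_id.smul_const v))
    have hb : ∀ s : ℂ, ‖s‖ ≤ 3 → ‖f (x + s • v)‖ ≤ M := by
      intro s hs
      apply hM
      rw [mem_closedBall, dist_zero_right]
      calc ‖x + s • v‖ ≤ ‖x‖ + ‖s‖ * ‖v‖ := by
            rw [← norm_smul]; exact norm_add_le _ _
        _ ≤ R + 3 * ‖v‖ := by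
            have := mul_le_mul_of_nonneg_right hs (norm_nonneg v)
            linarith
    have hder : deriv (fun s : ℂ => f (x + s • v)) 0 = fderiv ℂ f x v := by
      have h5 : HasFDerivAt f (fderiv ℂ f x) (x + (0 : ℂ) • v) := by
        simpa using (hf x).hasFDerivAt
      have h6 : HasDerivAt (fun s : ℂ => x + s • v) v 0 := by
        simpa using ((hasDerivAt_id (0 : ℂ)).smul_const v).const_add x
      exact (h5.comp_hasDerivAt (0 : ℂ) h6).deriv
    have hkey := line_estimate hline hb ht1
    rw [hder] at hkey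
    simp only [zero_smul, add_zero] at hkey
    rw [dist_comm, dist_eq_norm]
    have heq : t⁻¹ • (f (x + t • v) - f x) - fderiv ℂ f x v
        = t⁻¹ • (f (x + t • v) - f x - t • fderiv ℂ f x v) := by
      simp only [smul_sub, smul_smul, inv_mul_cancel₀ ht0, one_smul]
    rw [heq, norm_smul, norm_inv]
    calc ‖t‖⁻¹ * ‖f (x + t • v) - f x - t • fderiv ℂ f x v‖ ≤ ‖t‖⁻¹ * (M * ‖t‖ ^ 2) := by
          gcongr
      _ = M * ‖t‖ := by field_simp
      _ < ε := by rw [hnorm]; exact hn
  have hd := differentiableOn_of_tendstoUniformlyOn_ball (c := (0 : E)) (R := R) (fun n => ?_) hlim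
  · exact hd.differentiableAt (isOpen_ball.mem_nhds (by simp [hR]))
  · apply Differentiable.differentiableOn
    fun_prop

theorem contDiff_nat_of_entire [FiniteDimensional ℂ E] [CompleteSpace F] (n : ℕ) {f : E → F}
    (hf : Differentiable ℂ f) : ContDiff ℂ n f := by
  induction n generalizing f with
  | zero =>
    rw [Nat.cast_zero]
    exact contDiff_zero.2 hf.continuous
  | succ n ih =>
    have : ((n + 1 : ℕ) : WithTop ℕ∞) = (n : WithTop ℕ∞) + 1 := by push_cast; rfl
    rw [this, contDiff_succ_iff_fderiv_apply]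
    refine ⟨hf, fun h => absurd h (by simp), fun y => ?_⟩
    exact ih (differentiable_fderiv_apply hf y)

theorem iteratedFDeriv_bound [FiniteDimensional ℂ E] [CompleteSpace F] {f : E → F}
    (hf : Differentiable ℂ f) {x : E} {R M : ℝ} (hR : 0 < R)
    (hM : ∀ y ∈ ball x R, ‖f y‖ ≤ M) (n : ℕ) (k : ℕ) (hk : k ≤ n) :
    ∀ y ∈ ball x (R * (1 - k / (n + 1))), ‖iteratedFDeriv ℂ k f y‖ ≤ M * (2 * (n + 1) / R) ^ k := by
  have hM0 : 0 ≤ M := le_trans (norm_nonneg _) (hM x (mem_ball_self hR))
  induction k with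
  | zero =>
    intro y hy
    simpa using hM y (by simpa using hy)
  | succ k ih =>
    intro y hy
    have ih' := ih (by omega)
    rw [← norm_fderiv_iteratedFDeriv]
    have hn : (0 : ℝ) < (n : ℝ) + 1 := by positivity
    have hδ : 0 < R / (n + 1) := by positivity
    have hsub : ball y (R / (n + 1)) ⊆ ball x (R * (1 - k / (n + 1))) := by
      intro z hz
      have h1 := mem_ball.1 hz
      have h2 := mem_ball.1 hy
      have h3 := dist_triangle z y x
      rw [mem_ball]
      have : R * (1 - ((k + 1 : ℕ) : ℝ) / (n + 1)) + R / (n + 1) = R * (1 - k / (n + 1)) := by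
        push_cast
        field_simp
        ring
      linarith
    have hdiff : Differentiable ℂ (iteratedFDeriv ℂ k f) := by
      have := (contDiff_nat_of_entire (k + 1) hf).differentiable_iteratedFDeriv (m := k)
        (by exact_mod_cast Nat.lt_succ_self k)
      exact this
    have hmaps : MapsTo (iteratedFDeriv ℂ k f) (ball y (R / (n + 1)))
        (closedBall (iteratedFDeriv ℂ k f y) (2 * (M * (2 * (n + 1) / R) ^ k))) := by
      intro z hz
      have h1 := ih' z (hsub hz)
      have h2 := ih' y (hsub (mem_ball_self hδ))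
      rw [mem_closedBall, dist_eq_norm]
      have h3 := norm_sub_le (iteratedFDeriv ℂ k f z) (iteratedFDeriv ℂ k f y)
      linarith
    have h4 := Complex.norm_fderiv_le_div_of_mapsTo_ball hdiff.differentiableOn hmaps hδ
    refine le_trans h4 (le_of_eq ?_)
    rw [pow_succ]
    field_simp

theorem analyticAt_of_entire [FiniteDimensional ℂ E] [CompleteSpace F] {f : E → F}
    (hf : Differentiable ℂ f) (x : E) : AnalyticAt ℂ f x := by
  have : ProperSpace E := FiniteDimensional.proper ℂ E
  obtain ⟨M, hM⟩ : ∃ M, ∀ y ∈ closedBall x 1, ‖f y‖ ≤ M :=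
    (isCompact_closedBall _ _).exists_bound_of_continuousOn hf.continuous.continuousOn
  have hM0 : 0 ≤ M := le_trans (norm_nonneg _) (hM x (mem_closedBall_self zero_le_one))
  let p : FormalMultilinearSeries ℂ E F := fun n => ((n.factorial : ℂ)⁻¹) • iteratedFDeriv ℂ n f x
  have hbound : ∀ n, ‖iteratedFDeriv ℂ n f x‖ ≤ M * (2 * (n + 1)) ^ n := by
    intro n
    have := iteratedFDeriv_bound hf (x := x) (R := 1) (M := M) one_pos
      (fun y hy => hM y (ball_subset_closedBall hy)) n n le_rfl x (by
        apply mem_ball_self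
        have hn : (0 : ℝ) < (n : ℝ) + 1 := by positivity
        have : (n : ℝ) / (n + 1) < 1 := by
          rw [div_lt_one hn]; linarith
        linarith)
    simpa using this
  set r : NNReal := ⟨(2 * Real.exp 1)⁻¹, by positivity⟩ with hr
  have hrpos : 0 < r := by
    rw [← NNReal.coe_pos]
    change 0 < (2 * Real.exp 1)⁻¹
    positivity
  have hrad : (r : ENNReal) ≤ p.radius := by
    apply p.le_radius_of_bound (M * Real.exp 1)
    intro n
    have h1 : ‖p n‖ = ((n.factorial : ℝ))⁻¹ * ‖iteratedFDeriv ℂ n f x‖ := by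
      simp only [p, norm_smul, norm_inv]
      congr 2
      simp
    rw [h1]
    have hr' : (r : ℝ) = (2 * Real.exp 1)⁻¹ := rfl
    rw [hr']
    have hfac : (0 : ℝ) < (n.factorial : ℝ) := by exact_mod_cast Nat.factorial_pos n
    have h2 : ((n : ℝ) + 1) ^ n / (n.factorial : ℝ) ≤ Real.exp 1 * Real.exp 1 ^ n := by
      have h3 := Real.pow_div_factorial_le_exp ((n : ℝ) + 1) (by positivity) (n + 1)
      have h4 : ((n : ℝ) + 1) ^ (n + 1) / ((n + 1).factorial : ℝ)
          = ((n : ℝ) + 1) ^ n / (n.factorial : ℝ) := by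
        rw [Nat.factorial_succ]
        push_cast
        field_simp
        ring
      rw [h4] at h3
      refine le_trans h3 (le_of_eq ?_)
      rw [← Real.exp_nat_mul, ← Real.exp_add]
      congr 1
      ring
    calc (n.factorial : ℝ)⁻¹ * ‖iteratedFDeriv ℂ n f x‖ * ((2 * Real.exp 1)⁻¹) ^ n
        ≤ (n.factorial : ℝ)⁻¹ * (M * (2 * (n + 1)) ^ n) * ((2 * Real.exp 1)⁻¹) ^ n := by
          gcongr
          exact hbound n
      _ = M * (((n : ℝ) + 1) ^ n / (n.factorial : ℝ)) * (2 ^ n * ((2 * Real.exp 1)⁻¹) ^ n) := by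
          rw [mul_pow]; field_simp
      _ = M * (((n : ℝ) + 1) ^ n / (n.factorial : ℝ)) * ((Real.exp 1) ^ n)⁻¹ := by
          congr 1
          rw [← mul_pow, ← inv_pow]
          congr 1
          field_simp
      _ ≤ M * (Real.exp 1 * Real.exp 1 ^ n) * ((Real.exp 1) ^ n)⁻¹ := by
          gcongr
      _ = M * Real.exp 1 := by
          field_simp
  have hps : HasFPowerSeriesOnBall f p x r := by
    refine ⟨hrad, by exact_mod_cast hrpos, ?_⟩
    intro y _
    have hline : Differentiable ℂ (fun s : ℂ => f (x + s • y)) :=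
      hf.comp ((differentiable_const x).add (differentiable_id.smul_const y))
    have hs := Complex.hasSum_taylorSeries_of_entire hline 0 1
    simp only [sub_zero, one_pow, one_smul] at hs
    have hterm : ∀ n : ℕ, iteratedDeriv n (fun s : ℂ => f (x + s • y)) 0
        = iteratedFDeriv ℂ n f x (fun _ => y) := by
      intro n
      have hg : Differentiable ℂ (fun z : E => f (x + z)) :=
        hf.comp ((differentiable_const x).add differentiable_id)
      have h1 := (ContinuousLinearMap.toSpanSingleton ℂ y).iteratedFDeriv_comp_right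
        (contDiff_nat_of_entire n hg) (0 : ℂ) (i := n) le_rfl
      have h2 : (fun s : ℂ => f (x + s • y))
          = (fun z : E => f (x + z)) ∘ (ContinuousLinearMap.toSpanSingleton ℂ y) := by
        funext s
        simp [ContinuousLinearMap.toSpanSingleton_apply]
      rw [iteratedDeriv_eq_iteratedFDeriv, h2, h1,
        ContinuousMultilinearMap.compContinuousLinearMap_apply]
      simp only [ContinuousLinearMap.toSpanSingleton_apply, one_smul, zero_smul]
      rw [iteratedFDeriv_comp_add_left]
      simp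
    simp only [hterm] at hs
    exact hs
  exact hps.analyticAt

theorem contDiff_omega_of_entire [FiniteDimensional ℂ E] [CompleteSpace F] {f : E → F}
    (hf : Differentiable ℂ f) : ContDiff ℂ (⊤ : WithTop ℕ∞) f :=
  contDiff_iff_contDiffAt.2 fun x => (analyticAt_of_entire hf x).contDiffAt

end Pool.Agent.Helper857
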