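import Mathlib

set_option autoImplicit false

namespace Pool.Agent.Helper857.Arc

open Real

abbrev E := EuclideanSpace ℝ (Fin 3)

/-- dot product in coordinates -/
def dt (x y : E) : ℝ := x 0 * y 0 + x 1 * y 1 + x 2 * y 2

/-- cross product -/
def cr (x y : E) : E :=
  !₂[x 1 * y 2 - x 2 * y 1, x 2 * y 0 - x 0 * y 2, x 0 * y 1 - x 1 * y 0]

lemma cr0 (x y : E) : cr x y 0 = x 1 * y 2 - x 2 * y 1 := rfl
lemma cr1 (x y : E) : cr x y 1 = x 2 * y 0 - x 0 * y 2 := rfl
lemma cr2 (x y : E) : cr x y 2 = x 0 * y 1 - x 1 * y 0 := rfl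

lemma inner_eq (x y : E) : inner ℝ x y = dt x y := by
  simp only [PiLp.inner_apply, Fin.sum_univ_three, dt, RCLike.inner_apply, conj_trivial]
  ring

lemma norm_sq_eq (x : E) : ‖x‖ ^ 2 = dt x x := by
  rw [← inner_eq, real_inner_self_eq_norm_sq]

lemma norm_one_iff (x : E) : ‖x‖ = 1 ↔ dt x x = 1 := by
  rw [← norm_sq_eq]
  constructor
  · intro h; rw [h]; norm_num
  · intro h
    have := norm_nonneg x
    nlinarith

lemma dt_comm (x y : E) : dt x y = dt y x := by simp only [dt]; ring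
lemma dt_add_left (x y z : E) : dt (x + y) z = dt x z + dt y z := by
  simp only [dt, PiLp.add_apply]; ring
lemma dt_sub_left (x y z : E) : dt (x - y) z = dt x z - dt y z := by
  simp only [dt, PiLp.sub_apply]; ring
lemma dt_smul_left (c : ℝ) (x z : E) : dt (c • x) z = c * dt x z := by
  simp only [dt, PiLp.smul_apply, smul_eq_mul]; ring
lemma dt_neg_left (x z : E) : dt (-x) z = - dt x z := by
  simp only [dt, PiLp.neg_apply]; ring
lemma dt_add_right (x y z : E) : dt z (x + y) = dt z x + dt z y := by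
  simp only [dt, PiLp.add_apply]; ring
lemma dt_smul_right (c : ℝ) (x z : E) : dt z (c • x) = c * dt z x := by
  simp only [dt, PiLp.smul_apply, smul_eq_mul]; ring
lemma dt_neg_right (x z : E) : dt z (-x) = - dt z x := by
  simp only [dt, PiLp.neg_apply]; ring
lemma dt_sub_right (x y z : E) : dt z (x - y) = dt z x - dt z y := by
  simp only [dt, PiLp.sub_apply]; ring

lemma dt_cr_left (a v : E) : dt a (cr a v) = 0 := by simp only [dt, cr0, cr1, cr2]; ring
lemma dt_cr_right (a v : E) : dt v (cr a v) = 0 := by simp only [dt, cr0, cr1, cr2]; ring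

lemma cr_neg_left (a v : E) : cr (-a) v = - cr a v := by
  ext i; fin_cases i <;> simp [cr0, cr1, cr2] <;> ring

lemma dt_self_nonneg (x : E) : 0 ≤ dt x x := by
  simp only [dt]; nlinarith [mul_self_nonneg (x 0), mul_self_nonneg (x 1), mul_self_nonneg (x 2)]

lemma dt_self_eq_zero {x : E} (h : dt x x = 0) : x = 0 := by
  have : ‖x‖ ^ 2 = 0 := by rw [norm_sq_eq, h]
  have : ‖x‖ = 0 := by nlinarith [norm_nonneg x]
  exact norm_eq_zero.mp this

lemma lagrange (a v : E) : dt (cr a v) (cr a v) = dt a a * dt v v - dt a v ^ 2 := by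
  simp only [dt, cr0, cr1, cr2]; ring

/-- orthonormal pair -/
def Fr (a v : E) : Prop := dt a a = 1 ∧ dt v v = 1 ∧ dt a v = 0

lemma Fr.neg {a v : E} (h : Fr a v) : Fr (-a) v := by
  obtain ⟨h1, h2, h3⟩ := h
  refine ⟨?_, h2, ?_⟩
  · rw [dt_neg_left, dt_neg_right, h1]; ring
  · rw [dt_neg_left, h3]; ring

lemma Fr.n {a v : E} (h : Fr a v) : dt (cr a v) (cr a v) = 1 := by
  rw [lagrange, h.1, h.2.1, h.2.2]; ring

/-- `(n × n') · v = n' · a` with `n = a × v` -/
lemma crn_v {a v : E} (h : Fr a v) (n' : E) : dt (cr (cr a v) n') v = dt a n' := by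
  have key : dt (cr (cr a v) n') v = dt n' a * dt v v - dt n' v * dt a v := by
    simp only [dt, cr0, cr1, cr2]; ring
  rw [key, h.2.1, h.2.2, dt_comm n' a]; ring

lemma crn_v' {a v : E} (h : Fr a v) (n : E) : dt (cr n (cr a v)) v = - dt a n := by
  have key : dt (cr n (cr a v)) v = - (dt n a * dt v v - dt n v * dt a v) := by
    simp only [dt, cr0, cr1, cr2]; ring
  rw [key, h.2.1, h.2.2, dt_comm n a]; ring

/-- `(n × n') · a = - n' · v` -/
lemma crn_a {a v : E} (h : Fr a v) (n' : E) : dt (cr (cr a v) n') a = - dt v n' := by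
  have key : dt (cr (cr a v) n') a = - (dt n' v * dt a a - dt n' a * dt a v) := by
    simp only [dt, cr0, cr1, cr2]; ring
  rw [key, h.1, h.2.2, dt_comm n' v]; ring

lemma dt_crn_n (n n' : E) : dt (cr n n') n = 0 := by simp only [dt, cr0, cr1, cr2]; ring
lemma dt_crn_n' (n n' : E) : dt (cr n n') n' = 0 := by simp only [dt, cr0, cr1, cr2]; ring

lemma expand {a v x : E} (h : Fr a v) (hx : dt x (cr a v) = 0) :
    x = dt x a • a + dt x v • v := by
  obtain ⟨h1, h2, h3⟩ := h
  have hn : dt (cr a v) (cr a v) = 1 := Fr.n ⟨h1, h2, h3⟩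
  have key : ∀ i : Fin 3, x i * dt (cr a v) (cr a v) - (cr a v) i * dt x (cr a v)
      = dt x a * (a i * dt v v - v i * dt a v) - dt x v * (a i * dt a v - v i * dt a a) := by
    intro i
    fin_cases i
    · simp only [dt, cr0, cr1, cr2, Fin.zero_eta, Fin.isValue]; ring
    · simp only [dt, cr0, cr1, cr2, Fin.mk_one, Fin.isValue]; ring
    · simp only [dt, cr0, cr1, cr2, Fin.reduceFinMk, Fin.isValue]; ring
  ext i
  have := key i
  rw [hn, hx, h1, h2, h3] at this
  simp only [PiLp.add_apply, PiLp.smul_apply, smul_eq_mul]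
  linarith

lemma par {n n' x : E} (h : dt x n = 0) (h' : dt x n' = 0) (y : E) :
    dt (cr n n') (cr n n') * dt x y = dt (cr n n') x * dt (cr n n') y := by
  have key : dt (cr n n') (cr n n') * dt x y - dt (cr n n') x * dt (cr n n') y
      = dt x n * dt n' (cr (cr n n') y) - dt x n' * dt n (cr (cr n n') y) := by
    simp only [dt, cr0, cr1, cr2]; ring
  rw [h, h'] at key
  linarith

/-- membership of a closed half circle -/
def H (a v x : E) : Prop := dt x x = 1 ∧ dt x (cr a v) = 0 ∧ 0 ≤ dt x v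

lemma meet {a v a' v' : E} (h : Fr a v) (h' : Fr a' v')
    (hs : dt a (cr a' v') * dt a' (cr a v) ≤ 0) : ∃ x, H a v x ∧ H a' v' x := by
  set n := cr a v with hn
  set n' := cr a' v' with hn'
  set p := cr n n' with hp
  have e1 : dt p v = dt a n' := crn_v h n'
  have e2 : dt p v' = - dt a' n := crn_v' h' n
  by_cases hpp : dt p p = 0
  · have hp0 : p = 0 := dt_self_eq_zero hpp
    have s0 : dt a n' = 0 := by rw [← e1, hp0]; simp [dt]
    rcases le_total 0 (dt a v') with hc | hc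
    · refine ⟨a, ⟨h.1, dt_cr_left a v, ?_⟩, ⟨h.1, s0, hc⟩⟩
      rw [h.2.2]
    · refine ⟨-a, ⟨?_, ?_, ?_⟩, ⟨?_, ?_, ?_⟩⟩
      · rw [dt_neg_left, dt_neg_right, h.1]; ring
      · rw [dt_neg_left, dt_cr_left]; ring
      · rw [dt_neg_left, h.2.2]; norm_num
      · rw [dt_neg_left, dt_neg_right, h.1]; ring
      · rw [dt_neg_left]; rw [← hn', s0]; ring
      · rw [dt_neg_left]; linarith
  · have hpos : 0 < dt p p := lt_of_le_of_ne (dt_self_nonneg p) (Ne.symm hpp)
    set r := (Real.sqrt (dt p p))⁻¹ with hr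
    have hr0 : 0 < r := inv_pos.mpr (Real.sqrt_pos.mpr hpos)
    have hrr : r * (r * dt p p) = 1 := by
      have : Real.sqrt (dt p p) * Real.sqrt (dt p p) = dt p p := Real.mul_self_sqrt hpos.le
      have hs0 : Real.sqrt (dt p p) ≠ 0 := (Real.sqrt_pos.mpr hpos).ne'
      rw [hr]
      field_simp
      nlinarith
    rcases mul_nonpos_iff.mp hs with ⟨ha, hb⟩ | ⟨ha, hb⟩
    · refine ⟨r • p, ⟨?_, ?_, ?_⟩, ⟨?_, ?_, ?_⟩⟩
      · rw [dt_smul_left, dt_smul_right, hrr]
      · rw [dt_smul_left, ← hn, dt_crn_n]; ring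
      · rw [dt_smul_left, e1]; positivity
      · rw [dt_smul_left, dt_smul_right, hrr]
      · rw [dt_smul_left, ← hn', dt_crn_n']; ring
      · rw [dt_smul_left, e2]; exact mul_nonneg hr0.le (by linarith)
    · refine ⟨(-r) • p, ⟨?_, ?_, ?_⟩, ⟨?_, ?_, ?_⟩⟩
      · rw [dt_smul_left, dt_smul_right]; linarith
      · rw [dt_smul_left, ← hn, dt_crn_n]; ring
      · rw [dt_smul_left, e1]; nlinarith
      · rw [dt_smul_left, dt_smul_right]; linarith
      · rw [dt_smul_left, ← hn', dt_crn_n']; ring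
      · rw [dt_smul_left, e2]; nlinarith

end Pool.Agent.Helper857.Arc
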