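import Pool.Agent.Helper857.ArcA

set_option autoImplicit false

namespace Pool.Agent.Helper857.Arc

open Real

/-- the closed arc -/
def arc (L : ℝ) (u v : E) : Set E := (fun t : ℝ => Real.cos t • u + Real.sin t • v) '' Set.Icc 0 L

/-- midpoint of the arc -/
noncomputable def mid (L : ℝ) (u v : E) : E := Real.cos (L / 2) • u + Real.sin (L / 2) • v

/-- minus the unit tangent at the midpoint -/
noncomputable def tg (L : ℝ) (u v : E) : E := Real.sin (L / 2) • u - Real.cos (L / 2) • v

lemma fr_mid {L : ℝ} {u v : E} (h : Fr u v) : Fr (tg L u v) (mid L u v) := by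
  obtain ⟨h1, h2, h3⟩ := h
  have h4 : dt v u = 0 := by rw [dt_comm]; exact h3
  have hcs := Real.sin_sq_add_cos_sq (L / 2)
  refine ⟨?_, ?_, ?_⟩
  · simp only [tg, dt_sub_left, dt_sub_right, dt_smul_left, dt_smul_right, h1, h2, h3, h4]
    nlinarith
  · simp only [mid, dt_add_left, dt_add_right, dt_smul_left, dt_smul_right, h1, h2, h3, h4]
    nlinarith
  · simp only [tg, mid, dt_sub_left, dt_add_right, dt_smul_left, dt_smul_right, h1, h2, h3, h4]
    ring

lemma cr_mid {L : ℝ} (u v : E) : cr (tg L u v) (mid L u v) = cr u v := by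
  have hcs := Real.sin_sq_add_cos_sq (L / 2)
  ext i
  fin_cases i
  · simp only [Fin.zero_eta, Fin.isValue, cr0, tg, mid, PiLp.sub_apply, PiLp.add_apply,
      PiLp.smul_apply, smul_eq_mul]
    linear_combination (u 1 * v 2 - u 2 * v 1) * hcs
  · simp only [Fin.mk_one, Fin.isValue, cr1, tg, mid, PiLp.sub_apply, PiLp.add_apply,
      PiLp.smul_apply, smul_eq_mul]
    linear_combination (u 2 * v 0 - u 0 * v 2) * hcs
  · simp only [Fin.reduceFinMk, Fin.isValue, cr2, tg, mid, PiLp.sub_apply, PiLp.add_apply,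
      PiLp.smul_apply, smul_eq_mul]
    linear_combination (u 0 * v 1 - u 1 * v 0) * hcs

lemma arc_mem {L : ℝ} (hL0 : 0 ≤ L) (hL : L ≤ 2 * π) {u v x : E} (h : Fr u v)
    (hx : dt x x = 1) (hn : dt x (cr u v) = 0) (hm : Real.cos (L / 2) ≤ dt x (mid L u v)) :
    x ∈ arc L u v := by
  have hex := expand h hn
  obtain ⟨h1, h2, h3⟩ := h
  have h4 : dt v u = 0 := by rw [dt_comm]; exact h3
  set α := dt x u with hα
  set β := dt x v with hβ
  have hab : α ^ 2 + β ^ 2 = 1 := by
    have : dt x x = dt x (α • u + β • v) := by rw [← hex]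
    rw [dt_add_right, dt_smul_right, dt_smul_right, hx, ← hα, ← hβ] at this
    nlinarith
  have hmX : dt x (mid L u v) = Real.cos (L / 2) * α + Real.sin (L / 2) * β := by
    simp only [mid, dt_add_right, dt_smul_right, ← hα, ← hβ]
  rw [hmX] at hm
  set c := Real.cos (L / 2) with hc
  set s := Real.sin (L / 2) with hs
  have hcs : s ^ 2 + c ^ 2 = 1 := Real.sin_sq_add_cos_sq (L / 2)
  set X := c * α + s * β with hX
  set Y := - s * α + c * β with hY
  have hXY : X ^ 2 + Y ^ 2 = 1 := by
    have : X ^ 2 + Y ^ 2 = (s ^ 2 + c ^ 2) * (α ^ 2 + β ^ 2) := by rw [hX, hY]; ring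
    rw [this, hcs, hab]; ring
  have hX1 : X ≤ 1 := by nlinarith [sq_nonneg Y, sq_nonneg (X - 1)]
  have hX2 : -1 ≤ X := by nlinarith [sq_nonneg Y, sq_nonneg (X + 1)]
  have hle : Real.arccos X ≤ L / 2 := by
    have h5 : Real.arccos X ≤ Real.arccos c := Real.arccos_le_arccos hm
    rw [hc, Real.arccos_cos (by linarith) (by linarith)] at h5
    exact h5
  have h0 := Real.arccos_nonneg X
  have hcosx : Real.cos (Real.arccos X) = X := Real.cos_arccos hX2 hX1
  have hsinx : Real.sin (Real.arccos X) = |Y| := by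
    rw [Real.sin_arccos]
    have : 1 - X ^ 2 = Y ^ 2 := by linarith
    rw [this, Real.sqrt_sq_eq_abs]
  obtain ⟨φ, hφ1, hφ2, hcφ, hsφ⟩ : ∃ φ : ℝ, -(L / 2) ≤ φ ∧ φ ≤ L / 2 ∧ Real.cos φ = X ∧
      Real.sin φ = Y := by
    rcases le_total 0 Y with hy | hy
    · exact ⟨Real.arccos X, by linarith, hle, hcosx, by rw [hsinx, abs_of_nonneg hy]⟩
    · refine ⟨- Real.arccos X, by linarith, by linarith, by rw [Real.cos_neg, hcosx], ?_⟩
      rw [Real.sin_neg, hsinx, abs_of_nonpos hy]; ring
  refine ⟨L / 2 + φ, ⟨by linarith, by linarith⟩, ?_⟩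
  have hcos : Real.cos (L / 2 + φ) = α := by
    rw [Real.cos_add, hcφ, hsφ, ← hc, ← hs, hX, hY]
    linear_combination α * hcs
  have hsin : Real.sin (L / 2 + φ) = β := by
    rw [Real.sin_add, hcφ, hsφ, ← hc, ← hs, hX, hY]
    linear_combination β * hcs
  simp only [hcos, hsin]
  exact hex.symm

lemma arc_sub {L : ℝ} {u v x : E} (h : Fr u v) (hx : x ∈ arc L u v) :
    dt x x = 1 ∧ dt x (cr u v) = 0 := by
  obtain ⟨t, -, rfl⟩ := hx
  obtain ⟨h1, h2, h3⟩ := h
  have h4 : dt v u = 0 := by rw [dt_comm]; exact h3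
  constructor
  · simp only [dt_add_left, dt_add_right, dt_smul_left, dt_smul_right, h1, h2, h3, h4]
    nlinarith [Real.sin_sq_add_cos_sq t]
  · simp only [dt_add_left, dt_smul_left, dt_cr_left, dt_cr_right]
    ring

lemma arc_pi_iff {u v x : E} (h : Fr u v) : x ∈ arc π u v ↔ H u v x := by
  constructor
  · intro hx
    obtain ⟨e1, e2⟩ := arc_sub h hx
    refine ⟨e1, e2, ?_⟩
    obtain ⟨t, ht, rfl⟩ := hx
    simp only [dt_add_left, dt_smul_left, h.2.1, h.2.2]
    have := Real.sin_nonneg_of_nonneg_of_le_pi ht.1 ht.2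
    linarith
  · rintro ⟨e1, e2, e3⟩
    refine arc_mem Real.pi_pos.le (by linarith [Real.pi_pos]) h e1 e2 ?_
    simp only [mid, Real.cos_pi_div_two, Real.sin_pi_div_two, zero_smul, one_smul, zero_add]
    exact e3

lemma sep {L : ℝ} (hL1 : π < L) (hL2 : L < 2 * π) {u v u' v' : E} (h : Fr u v) (h' : Fr u' v')
    (hdis : Disjoint (arc L u v) (arc L u' v')) :
    2 * (- Real.cos (L / 2)) < ‖mid L u v - mid L u' v'‖ := by
  have hpi := Real.pi_pos
  have hc0 : Real.cos (L / 2) ≤ 0 :=
    Real.cos_nonpos_of_pi_div_two_le_of_le (by linarith) (by linarith)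
  set c := Real.cos (L / 2) with hc
  set m := mid L u v with hm
  set m' := mid L u' v' with hm'
  have hF : Fr (tg L u v) m := fr_mid h
  have hF' : Fr (tg L u' v') m' := fr_mid h'
  set a := tg L u v with ha
  set a' := tg L u' v' with ha'
  have hn : cr a m = cr u v := cr_mid u v
  have hn' : cr a' m' = cr u' v' := cr_mid u' v'
  have hno : ∀ x : E, dt x x = 1 → dt x (cr a m) = 0 → dt x (cr a' m') = 0 →
      c ≤ dt x m → c ≤ dt x m' → False := by
    intro x e1 e2 e3 e4 e5
    have k1 : x ∈ arc L u v := arc_mem (by linarith) hL2.le h e1 (by rw [← hn]; exact e2) e4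
    have k2 : x ∈ arc L u' v' := arc_mem (by linarith) hL2.le h' e1 (by rw [← hn']; exact e3) e5
    exact Set.disjoint_left.mp hdis k1 k2
  set n := cr a m with hnn
  set n' := cr a' m' with hnn'
  set p := cr n n' with hp
  have e1 : dt p m = dt a n' := crn_v hF n'
  by_cases hpp : dt p p = 0
  · exfalso
    have hp0 : p = 0 := dt_self_eq_zero hpp
    have s0 : dt a n' = 0 := by rw [← e1, hp0]; simp [dt]
    rcases le_total 0 (dt a m') with hcc | hcc
    · refine hno a hF.1 (dt_cr_left a m) s0 ?_ (by linarith)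
      rw [hF.2.2]; exact hc0
    · refine hno (-a) ?_ ?_ ?_ ?_ ?_
      · rw [dt_neg_left, dt_neg_right, hF.1]; ring
      · rw [dt_neg_left, dt_cr_left]; ring
      · rw [dt_neg_left, s0]; ring
      · rw [dt_neg_left, hF.2.2]; linarith
      · rw [dt_neg_left]; linarith
  · have hpos : 0 < dt p p := lt_of_le_of_ne (dt_self_nonneg p) (Ne.symm hpp)
    set r := (Real.sqrt (dt p p))⁻¹ with hr
    have hr0 : 0 < r := inv_pos.mpr (Real.sqrt_pos.mpr hpos)
    have hrr : r * (r * dt p p) = 1 := by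
      have : Real.sqrt (dt p p) * Real.sqrt (dt p p) = dt p p := Real.mul_self_sqrt hpos.le
      have hs0 : Real.sqrt (dt p p) ≠ 0 := (Real.sqrt_pos.mpr hpos).ne'
      rw [hr]
      field_simp
      nlinarith
    set q := r • p with hq
    have q1 : dt q q = 1 := by rw [hq, dt_smul_left, dt_smul_right, hrr]
    have q2 : dt q n = 0 := by rw [hq, dt_smul_left, dt_crn_n]; ring
    have q3 : dt q n' = 0 := by rw [hq, dt_smul_left, dt_crn_n']; ring
    have f1 : ¬ (c ≤ dt q m ∧ c ≤ dt q m') := fun hh => hno q q1 q2 q3 hh.1 hh.2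
    have f2 : ¬ (c ≤ - dt q m ∧ c ≤ - dt q m') := by
      intro hh
      refine hno (-q) ?_ ?_ ?_ ?_ ?_
      · rw [dt_neg_left, dt_neg_right, q1]; ring
      · rw [dt_neg_left, q2]; ring
      · rw [dt_neg_left, q3]; ring
      · rw [dt_neg_left]; exact hh.1
      · rw [dt_neg_left]; exact hh.2
    have hcs : |dt q (m - m')| ≤ ‖m - m'‖ := by
      have := abs_real_inner_le_norm q (m - m')
      rw [inner_eq, (norm_one_iff q).mpr q1, one_mul] at this
      exact this
    have hd : dt q (m - m') = dt q m - dt q m' := dt_sub_right _ _ _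
    rw [hd] at hcs
    have hab := abs_le.mp (le_refl |dt q m - dt q m'|)
    by_contra hcon
    push Not at hcon
    have g1 : dt q m - dt q m' ≤ 2 * -c := by linarith [hab.2]
    have g2 : -(2 * -c) ≤ dt q m - dt q m' := by linarith [hab.1]
    by_cases k1 : c ≤ dt q m
    · have k2 : dt q m' < c := by
        by_contra hh; push Not at hh; exact f1 ⟨k1, hh⟩
      have k3 : - dt q m < c := by
        by_contra hh; push Not at hh; exact f2 ⟨hh, by linarith⟩
      linarith
    · push Not at k1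
      have k3 : - dt q m' < c := by
        by_contra hh; push Not at hh; exact f2 ⟨by linarith, hh⟩
      linarith

theorem gt_pi (L : ℝ) (hL1 : π < L) (hL2 : L < 2 * π) (A : Set (Set E))
    (hA : ∀ a ∈ A, ∃ u v : E, Fr u v ∧ a = arc L u v)
    (hdis : A.PairwiseDisjoint id) (hcov : ∀ x : E, dt x x = 1 → ∃ a ∈ A, x ∈ a) : False := by
  classical
  have hpi := Real.pi_pos
  choose! U V hFr hEq using hA
  -- infinitely many arcs
  have hinf : A.Infinite := by
    intro hfin
    have : Finite A := hfin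
    let P : A → Submodule ℝ E := fun a =>
      { carrier := {x | dt x (cr (U a) (V a)) = 0}
        zero_mem' := by simp [dt]
        add_mem' := by
          intro x y hx hy
          simp only [Set.mem_ofPred_eq] at hx hy ⊢
          rw [dt_add_left, hx, hy]; ring
        smul_mem' := by
          intro c x hx
          simp only [Set.mem_ofPred_eq] at hx ⊢
          rw [dt_smul_left, hx]; ring }
    have hun : ⋃ i, (P i : Set E) = Set.univ := by
      rw [Set.eq_univ_iff_forall]
      intro x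
      by_cases hx : x = 0
      · obtain ⟨a, ha, -⟩ := hcov (!₂[1, 0, 0]) (by simp [dt])
        refine Set.mem_iUnion.mpr ⟨⟨a, ha⟩, ?_⟩
        rw [hx]; exact (P ⟨a, ha⟩).zero_mem
      · have hxn : ‖x‖ ≠ 0 := norm_ne_zero_iff.mpr hx
        obtain ⟨a, ha, hxa⟩ := hcov (‖x‖⁻¹ • x) (by
          rw [← norm_one_iff, norm_smul, norm_inv, norm_norm, inv_mul_cancel₀ hxn])
        refine Set.mem_iUnion.mpr ⟨⟨a, ha⟩, ?_⟩
        rw [hEq a ha] at hxa
        have := (arc_sub (hFr a ha) hxa).2
        rw [dt_smul_left] at this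
        rcases mul_eq_zero.mp this with h0 | h0
        · exact absurd h0 (inv_ne_zero hxn)
        · exact h0
    obtain ⟨i, hi⟩ := Subspace.exists_eq_top_of_iUnion_eq_univ hun
    have h1 : cr (U i) (V i) ∈ P i := by rw [hi]; trivial
    have h2 : dt (cr (U i) (V i)) (cr (U i) (V i)) = 0 := h1
    rw [(hFr i i.2).n] at h2
    norm_num at h2
  -- a convergent subsequence of midpoints
  let f := hinf.natEmbedding
  have hmem : ∀ k : ℕ, mid L (U (f k)) (V (f k)) ∈ Metric.sphere (0 : E) 1 := by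
    intro k
    rw [mem_sphere_zero_iff_norm, norm_one_iff]
    exact (fr_mid (hFr _ (f k).2)).2.1
  obtain ⟨z, -, φ, hφ, hlim⟩ := (isCompact_sphere (0 : E) 1).tendsto_subseq hmem
  have hcpos : 0 < 2 * (- Real.cos (L / 2)) := by
    have : Real.cos (L / 2) < 0 :=
      Real.cos_neg_of_pi_div_two_lt_of_lt (by linarith) (by linarith)
    linarith
  have hcau := hlim.cauchySeq
  rw [Metric.cauchySeq_iff'] at hcau
  obtain ⟨N, hN⟩ := hcau _ hcpos
  have h1 := hN (N + 1) (by omega)
  have hne : f (φ (N + 1)) ≠ f (φ N) := by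
    intro hh
    have := hφ.injective (f.injective hh)
    omega
  have hne' : (f (φ (N + 1)) : Set E) ≠ (f (φ N) : Set E) := fun hh => hne (Subtype.ext hh)
  have hd := hdis (f (φ (N + 1))).2 (f (φ N)).2 hne'
  simp only [Function.onFun, id_eq] at hd
  rw [hEq _ (f (φ (N + 1))).2, hEq _ (f (φ N)).2] at hd
  have := sep hL1 hL2 (hFr _ (f (φ (N + 1))).2) (hFr _ (f (φ N)).2) hd
  simp only [Function.comp, dist_eq_norm] at h1
  linarith

end Pool.Agent.Helper857.Arc
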