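import Pool.Agent.Helper857.ArcB

set_option autoImplicit false

namespace Pool.Agent.Helper857.Arc

open Real Filter Topology

lemma nomeet {a v a' v' x : E} (h : Fr a v) (h' : Fr a' v') (hx : H a v x) (hx' : H a' v' x) :
    ¬ 0 < dt a (cr a' v') * dt a' (cr a v) := by
  intro hpos
  set n := cr a v with hn
  set n' := cr a' v' with hn'
  obtain ⟨x1, x2, x3⟩ := hx
  obtain ⟨-, x4, x5⟩ := hx'
  have e1 : dt (cr n n') v = dt a n' := crn_v h n'
  have e2 : dt (cr n n') v' = - dt a' n := crn_v' h' n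
  have p1 := par (n := n) (n' := n') x2 x4 v
  have p2 := par (n := n) (n' := n') x2 x4 v'
  have p3 := par (n := n) (n' := n') x2 x4 x
  set p := cr n n' with hp
  rw [e1] at p1
  rw [e2] at p2
  rw [x1] at p3
  have hpp := dt_self_nonneg p
  have key : (dt p p * dt x v) * (dt p p * dt x v')
      = - (dt p x) ^ 2 * (dt a n' * dt a' n) := by
    rw [p1, p2]; ring
  have hl : 0 ≤ (dt p p * dt x v) * (dt p p * dt x v') :=
    mul_nonneg (mul_nonneg hpp x3) (mul_nonneg hpp x5)
  have hz : (dt p x) ^ 2 = 0 := by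
    have := sq_nonneg (dt p x)
    by_contra hne
    have hgt : 0 < (dt p x) ^ 2 := lt_of_le_of_ne this (Ne.symm hne)
    have := mul_pos hgt hpos
    linarith
  have hpx : dt p x = 0 := by simpa using hz
  have hp0 : p = 0 := dt_self_eq_zero (by rw [hpx] at p3; linarith)
  have : dt a n' = 0 := by rw [← e1, hp0]; simp [dt]
  rw [this] at hpos
  simp at hpos

structure Fam (P : Set (E × E)) : Prop where
  fr : ∀ q ∈ P, Fr q.1 q.2
  neg : ∀ q ∈ P, (-q.1, q.2) ∈ P
  dich : ∀ q ∈ P, ∀ q' ∈ P, (q' = q ∨ q' = (-q.1, q.2)) ∨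
    0 < dt q.1 (cr q'.1 q'.2) * dt q'.1 (cr q.1 q.2)
  cov : ∀ x, dt x x = 1 → ∃ q ∈ P, H q.1 q.2 x

lemma pair {P : Set (E × E)} (hP : Fam P) {n y1 y2 w1 w2 : E} {r1 r2 : ℝ} (hn : dt n n = 1)
    (h1 : dt y1 n = 0) (h2 : dt y2 n = 0) (hr1 : 0 < r1) (hr2 : 0 < r2)
    (m1 : (r1 • y1, w1) ∈ P) (m2 : (r2 • y2, w2) ∈ P) (hk : dt (cr y1 y2) n ≠ 0) :
    dt n w1 * dt n w2 < 0 := by
  have hcrr : r2 * dt (cr y1 y2) n = dt (cr y1 (r2 • y2)) n := by
    simp only [dt, cr0, cr1, cr2, PiLp.smul_apply, smul_eq_mul]; ring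
  rcases hP.dich _ m1 _ m2 with (he | he) | hpos
  · exfalso; apply hk
    have he1 : r2 • y2 = r1 • y1 := (Prod.ext_iff.mp he).1
    rw [he1] at hcrr
    have : dt (cr y1 (r1 • y1)) n = 0 := by
      simp only [dt, cr0, cr1, cr2, PiLp.smul_apply, smul_eq_mul]; ring
    rw [this] at hcrr
    rcases mul_eq_zero.mp hcrr with h0 | h0
    · linarith
    · exact h0
  · exfalso; apply hk
    have he1 : r2 • y2 = -(r1 • y1) := (Prod.ext_iff.mp he).1
    rw [he1] at hcrr
    have : dt (cr y1 (-(r1 • y1))) n = 0 := by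
      simp only [dt, cr0, cr1, cr2, PiLp.smul_apply, PiLp.neg_apply, smul_eq_mul]; ring
    rw [this] at hcrr
    rcases mul_eq_zero.mp hcrr with h0 | h0
    · linarith
    · exact h0
  · simp only at hpos
    have k1 : dt (r1 • y1) (cr (r2 • y2) w2) = r1 * r2 * dt (cr y1 y2) w2 := by
      simp only [dt, cr0, cr1, cr2, PiLp.smul_apply, smul_eq_mul]; ring
    have k2 : dt (r2 • y2) (cr (r1 • y1) w1) = - (r1 * r2 * dt (cr y1 y2) w1) := by
      simp only [dt, cr0, cr1, cr2, PiLp.smul_apply, smul_eq_mul]; ring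
    have g : ∀ w, dt (cr y1 y2) w = dt (cr y1 y2) n * dt n w := by
      intro w
      have key : dt (cr y1 y2) w * dt n n - dt (cr y1 y2) n * dt n w
          = dt y1 n * dt y2 (cr w n) - dt y2 n * dt y1 (cr w n) := by
        simp only [dt, cr0, cr1, cr2]; ring
      rw [h1, h2, hn] at key
      linarith
    rw [k1, k2, g w1, g w2] at hpos
    set κ := dt (cr y1 y2) n with hκ
    have hpos2 : 0 < (r1 * r2 * κ) ^ 2 := by positivity
    by_contra hcon
    push Not at hcon
    have := mul_nonneg hpos2.le hcon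
    nlinarith

lemma endpt {P : Set (E × E)} (hP : Fam P) {b v : E} (hF : Fr b v)
    (hlim : ∀ q' ∈ P, 0 ≤ dt b (cr q'.1 q'.2) * dt q'.1 (cr b v)) {y : E}
    (hy : dt y (cr b v) = 0) (hyv : 0 < dt y v)
    (hco : ∀ q' ∈ P, cr (cr b v) (cr q'.1 q'.2) = 0 → dt y q'.2 < 0) :
    ∃ w, ((‖y‖⁻¹) • y, w) ∈ P := by
  have hy0 : y ≠ 0 := by
    rintro rfl
    simp [dt] at hyv
  have hyn : 0 < ‖y‖ := norm_pos_iff.mpr hy0
  set r := ‖y‖⁻¹ with hr
  have hr0 : 0 < r := inv_pos.mpr hyn
  set x := r • y with hx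
  have hxx : dt x x = 1 := by
    rw [← norm_one_iff, hx, norm_smul, hr, norm_inv, norm_norm, inv_mul_cancel₀ hyn.ne']
  obtain ⟨q', hq', -, hx2, hx3⟩ := hP.cov x hxx
  obtain ⟨a', v'⟩ := q'
  simp only at hx2 hx3
  have hF' : Fr a' v' := hP.fr _ hq'
  have hxn : dt x (cr b v) = 0 := by rw [hx, dt_smul_left, hy]; ring
  have hxv : 0 < dt x v := by rw [hx, dt_smul_left]; positivity
  have hst := hlim _ hq'
  simp only at hst
  set n := cr b v with hn
  set n' := cr a' v' with hn'
  have e1 : dt (cr n n') v = dt b n' := crn_v hF n'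
  have e2 : dt (cr n n') v' = - dt a' n := crn_v' hF' n
  have p1 := par (n := n) (n' := n') hxn hx2 v
  have p2 := par (n := n) (n' := n') hxn hx2 v'
  have hpne : cr n n' ≠ 0 := by
    intro h0
    have := hco _ hq' h0
    simp only at this
    have h3 : dt x v' < 0 := by rw [hx, dt_smul_left]; nlinarith
    linarith
  set p := cr n n' with hp
  have hpp : 0 < dt p p := by
    refine lt_of_le_of_ne (dt_self_nonneg p) ?_
    intro h0; exact hpne (dt_self_eq_zero h0.symm)
  rw [e1] at p1
  rw [e2] at p2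
  have key : (dt p p * dt x v) * (dt p p * dt x v')
      = - ((dt p x) ^ 2 * (dt b n' * dt a' n)) := by
    rw [p1, p2]; ring
  have hneg : (dt p p * dt x v) * (dt p p * dt x v') ≤ 0 := by
    rw [key]
    have := mul_nonneg (sq_nonneg (dt p x)) hst
    linarith
  have hv0 : dt x v' = 0 := by
    by_contra hne
    have hgt : 0 < dt x v' := lt_of_le_of_ne hx3 (Ne.symm hne)
    have : 0 < (dt p p * dt x v) * (dt p p * dt x v') :=
      mul_pos (mul_pos hpp hxv) (mul_pos hpp hgt)
    linarith
  have hex := expand hF' hx2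
  rw [hv0, zero_smul, add_zero] at hex
  have hsq : dt x a' * dt x a' = 1 := by
    have h5 : dt x (dt x a' • a') = 1 := by rw [← hex]; exact hxx
    rw [dt_smul_right (dt x a') a' x] at h5
    exact h5
  rcases mul_self_eq_one_iff.mp hsq with h1 | h1
  · rw [h1, one_smul] at hex
    exact ⟨v', by rw [hex]; exact hq'⟩
  · rw [h1, neg_smul, one_smul] at hex
    exact ⟨v', by rw [hex]; exact hP.neg _ hq'⟩

lemma closedP {P : Set (E × E)} (hP : Fam P) : IsClosed P := by
  apply IsSeqClosed.isClosed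
  intro qs q hmem hlim
  by_contra hq
  obtain ⟨b, v⟩ := q
  have c1 : Tendsto (fun k => dt (qs k).1 (qs k).1) atTop (𝓝 (dt b b)) := by
    have hc : Continuous (fun q : E × E => dt q.1 q.1) := by unfold dt; fun_prop
    exact (hc.tendsto (b, v)).comp hlim
  have c2 : Tendsto (fun k => dt (qs k).2 (qs k).2) atTop (𝓝 (dt v v)) := by
    have hc : Continuous (fun q : E × E => dt q.2 q.2) := by unfold dt; fun_prop
    exact (hc.tendsto (b, v)).comp hlim
  have c3 : Tendsto (fun k => dt (qs k).1 (qs k).2) atTop (𝓝 (dt b v)) := by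
    have hc : Continuous (fun q : E × E => dt q.1 q.2) := by unfold dt; fun_prop
    exact (hc.tendsto (b, v)).comp hlim
  have hF : Fr b v := by
    refine ⟨?_, ?_, ?_⟩
    · refine tendsto_nhds_unique c1 ?_
      have : (fun k => dt (qs k).1 (qs k).1) = fun _ => (1 : ℝ) := by
        funext k; exact (hP.fr _ (hmem k)).1
      rw [this]; exact tendsto_const_nhds
    · refine tendsto_nhds_unique c2 ?_
      have : (fun k => dt (qs k).2 (qs k).2) = fun _ => (1 : ℝ) := by
        funext k; exact (hP.fr _ (hmem k)).2.1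
      rw [this]; exact tendsto_const_nhds
    · refine tendsto_nhds_unique c3 ?_
      have : (fun k => dt (qs k).1 (qs k).2) = fun _ => (0 : ℝ) := by
        funext k; exact (hP.fr _ (hmem k)).2.2
      rw [this]; exact tendsto_const_nhds
  have hst : ∀ q' ∈ P, 0 ≤ dt b (cr q'.1 q'.2) * dt q'.1 (cr b v) := by
    intro q' hq'
    have hc : Continuous (fun q : E × E => dt q.1 (cr q'.1 q'.2) * dt q'.1 (cr q.1 q.2)) := by
      simp only [dt, cr0, cr1, cr2]; fun_prop
    have hl : Tendsto (fun k => dt (qs k).1 (cr q'.1 q'.2) * dt q'.1 (cr (qs k).1 (qs k).2))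
        atTop (𝓝 (dt b (cr q'.1 q'.2) * dt q'.1 (cr b v))) := (hc.tendsto (b, v)).comp hlim
    refine ge_of_tendsto' hl ?_
    intro k
    rcases hP.dich _ (hmem k) _ hq' with (he | he) | hpos
    · rw [he]
      rw [dt_cr_left]; simp
    · rw [he]
      simp only
      rw [dt_neg_left, dt_cr_left]; simp
    · exact hpos.le
  set n := cr b v with hn
  have hnn : dt n n = 1 := hF.n
  -- three good directions
  obtain ⟨d, δ, σ, hdn, hdv, hδ, hσ, hco⟩ : ∃ (d : E) (δ σ : ℝ), dt d n = 0 ∧ dt d v = δ ∧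
      0 < δ ∧ σ ≠ 0 ∧ ∀ j : ℝ, 0 ≤ j → ∀ q' ∈ P, cr n (cr q'.1 q'.2) = 0 →
        dt (d - (j * σ) • b) q'.2 < 0 := by
    by_cases hex : ∃ q' ∈ P, cr n (cr q'.1 q'.2) = 0
    · obtain ⟨⟨a', v'⟩, hq', hcop⟩ := hex
      simp only at hcop
      have hF' : Fr a' v' := hP.fr _ hq'
      -- all coplanar members have midpoint `v'`
      have hall : ∀ q'' ∈ P, cr n (cr q''.1 q''.2) = 0 → q''.2 = v' := by
        intro q'' hq'' hc''
        rcases hP.dich _ hq' _ hq'' with (he | he) | hpos
        · rw [he]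
        · rw [he]
        · exfalso
          have hF'' := hP.fr _ hq''
          have g : ∀ m : E, cr n m = 0 → ∀ z : E, dt z m = dt n m * dt z n := by
            intro m hm z
            have key : dt z m * dt n n - dt n m * dt z n = dt (cr n m) (cr n z) := by
              simp only [dt, cr0, cr1, cr2]; ring
            rw [hnn, hm] at key
            have : dt (0 : E) (cr n z) = 0 := by simp [dt]
            rw [this] at key
            linarith
          simp only at hpos
          have g1 := g _ hc'' a'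
          have g2 := g _ hcop a'
          rw [dt_cr_left] at g2
          have hnn' : dt n (cr a' v') ≠ 0 := by
            intro h0
            have := g _ hcop (cr a' v')
            rw [h0, hF'.n] at this
            norm_num at this
          have : dt a' n = 0 := by
            rcases mul_eq_zero.mp g2.symm with h0 | h0
            · exact absurd h0 hnn'
            · exact h0
          rw [g1, this] at hpos
          simp at hpos
      have hvn' : dt v' n = 0 := by
        have key : dt v' n * dt (cr a' v') (cr a' v') - dt n (cr a' v') * dt v' (cr a' v')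
            = dt (cr n (cr a' v')) (cr v' (cr a' v')) := by
          simp only [dt, cr0, cr1, cr2]; ring
        rw [hcop, hF'.n, dt_cr_right] at key
        have : dt (0 : E) (cr v' (cr a' v')) = 0 := by simp [dt]
        rw [this] at key
        linarith
      have hbn' : dt a' n = 0 := by
        have key : dt a' n * dt (cr a' v') (cr a' v') - dt n (cr a' v') * dt a' (cr a' v')
            = dt (cr n (cr a' v')) (cr a' (cr a' v')) := by
          simp only [dt, cr0, cr1, cr2]; ring
        rw [hcop, hF'.n, dt_cr_left] at key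
        have : dt (0 : E) (cr a' (cr a' v')) = 0 := by simp [dt]
        rw [this] at key
        linarith
      have hvne : dt v v' < 1 := by
        have hle : dt v v' ≤ 1 := by
          have h0 := dt_self_nonneg (v - v')
          have : dt (v - v') (v - v') = 2 - 2 * dt v v' := by
            rw [dt_sub_left, dt_sub_right, dt_sub_right, hF.2.1, hF'.2.1, dt_comm v' v]; ring
          linarith
        refine lt_of_le_of_ne hle ?_
        intro h1
        apply hq
        have hvv : v - v' = 0 := by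
          apply dt_self_eq_zero
          rw [dt_sub_left, dt_sub_right, dt_sub_right, hF.2.1, hF'.2.1, dt_comm v' v, h1]; ring
        have hvv' : v' = v := (sub_eq_zero.mp hvv).symm
        -- a' = ± b
        have hexp := expand hF hbn'
        have ha'v : dt a' v = 0 := by rw [← hvv']; exact hF'.2.2
        rw [ha'v, zero_smul, add_zero] at hexp
        have hsq : dt a' b * dt a' b = 1 := by
          have : dt a' a' = dt a' (dt a' b • b) := by rw [← hexp]
          rw [dt_smul_right, hF'.1] at this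
          linarith
        rcases mul_self_eq_one_iff.mp hsq with h2 | h2
        · rw [h2, one_smul] at hexp
          rw [← hvv', ← hexp]; exact hq'
        · rw [h2, neg_smul, one_smul] at hexp
          have := hP.neg _ hq'
          simp only at this
          rw [hexp, neg_neg, hvv'] at this
          exact this
      refine ⟨v - v', 1 - dt v v', if 0 ≤ dt b v' then 1 else -1, ?_, ?_, by linarith, ?_, ?_⟩
      · rw [dt_sub_left, hvn', hn, dt_cr_right]; ring
      · rw [dt_sub_left, hF.2.1, dt_comm v' v]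
      · split_ifs <;> norm_num
      · intro j hj q'' hq'' hc''
        rw [hall _ hq'' hc'', dt_sub_left, dt_sub_left, dt_smul_left, hF'.2.1]
        split_ifs with hb
        · nlinarith
        · push Not at hb
          nlinarith
    · push Not at hex
      refine ⟨v, 1, 1, by rw [hn, dt_cr_right], hF.2.1, one_pos, one_ne_zero, ?_⟩
      intro j hj q' hq' hc
      exact absurd hc (hex q' hq')
  have hpt : ∀ j : ℝ, 0 ≤ j → ∃ w, ((‖d - (j * σ) • b‖⁻¹) • (d - (j * σ) • b), w) ∈ P := by
    intro j hj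
    refine endpt hP hF hst ?_ ?_ (hco j hj)
    · rw [dt_sub_left, dt_smul_left, ← hn, hdn, hn, dt_cr_left]; ring
    · rw [dt_sub_left, dt_smul_left, hdv, hF.2.2]; linarith
  have hnorm : ∀ j : ℝ, 0 < ‖d - (j * σ) • b‖⁻¹ := by
    intro j
    apply inv_pos.mpr
    apply norm_pos_iff.mpr
    intro h0
    have : dt (d - (j * σ) • b) v = 0 := by rw [h0]; simp [dt]
    rw [dt_sub_left, dt_smul_left, hdv, hF.2.2] at this
    linarith
  have hdb : dt (cr d b) n = -δ := by
    have : dt (cr d b) n = dt d (cr b n) := by simp only [dt, cr0, cr1, cr2]; ring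
    rw [this]
    have k2 : dt d (cr b n) = dt d b * dt b v - dt d v * dt b b := by
      rw [hn]; simp only [dt, cr0, cr1, cr2]; ring
    rw [k2, hF.2.2, hdv, hF.1]; ring
  have hkk : ∀ i j : ℝ, dt (cr (d - (i * σ) • b) (d - (j * σ) • b)) n = (i - j) * σ * δ * (-1) := by
    intro i j
    have : dt (cr (d - (i * σ) • b) (d - (j * σ) • b)) n = (i - j) * σ * dt (cr d b) n := by
      simp only [dt, cr0, cr1, cr2, PiLp.smul_apply, PiLp.sub_apply, smul_eq_mul]; ring
    rw [this, hdb]; ring
  have hyn : ∀ j : ℝ, dt (d - (j * σ) • b) n = 0 := by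
    intro j
    rw [dt_sub_left, dt_smul_left, hdn, hn, dt_cr_left]; ring
  obtain ⟨w0, m0⟩ := hpt 0 le_rfl
  obtain ⟨w1, m1⟩ := hpt 1 zero_le_one
  obtain ⟨w2, m2⟩ := hpt 2 zero_le_two
  have hδ' : δ ≠ 0 := hδ.ne'
  have q01 := pair hP hnn (hyn 0) (hyn 1) (hnorm 0) (hnorm 1) m0 m1 (by
    rw [hkk]
    have : (0 - 1 : ℝ) ≠ 0 := by norm_num
    exact mul_ne_zero (mul_ne_zero (mul_ne_zero this hσ) hδ') (by norm_num))
  have q02 := pair hP hnn (hyn 0) (hyn 2) (hnorm 0) (hnorm 2) m0 m2 (by
    rw [hkk]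
    have : (0 - 2 : ℝ) ≠ 0 := by norm_num
    exact mul_ne_zero (mul_ne_zero (mul_ne_zero this hσ) hδ') (by norm_num))
  have q12 := pair hP hnn (hyn 1) (hyn 2) (hnorm 1) (hnorm 2) m1 m2 (by
    rw [hkk]
    have : (1 - 2 : ℝ) ≠ 0 := by norm_num
    exact mul_ne_zero (mul_ne_zero (mul_ne_zero this hσ) hδ') (by norm_num))
  have h1 := mul_pos_of_neg_of_neg q01 q02
  have h2 : (dt n w0 * dt n w1) * (dt n w0 * dt n w2) = (dt n w0) ^ 2 * (dt n w1 * dt n w2) := by
    ring
  rw [h2] at h1
  have h3 : (dt n w0) ^ 2 * (dt n w1 * dt n w2) ≤ 0 :=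
    mul_nonpos_of_nonneg_of_nonpos (sq_nonneg _) q12.le
  linarith

end Pool.Agent.Helper857.Arc
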