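import Pool.Agent.Helper857.ArcC

set_option autoImplicit false

namespace Pool.Agent.Helper857.Arc

open Real Filter Topology

/-- uniqueness of the member through a point, up to sign -/
lemma uniq {P : Set (E × E)} (hP : Fam P) {q q' : E × E} (hq : q ∈ P) (hq' : q' ∈ P) {x : E}
    (hx : H q.1 q.2 x) (hx' : H q'.1 q'.2 x) : q' = q ∨ q' = (-q.1, q.2) := by
  rcases hP.dich _ hq _ hq' with he | hpos
  · exact he
  · exact absurd hpos (nomeet (hP.fr _ hq) (hP.fr _ hq') hx hx')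

lemma H_neg_iff {a v x : E} : H (-a) v x ↔ H a v x := by
  unfold H
  rw [cr_neg_left, dt_neg_right]
  constructor
  · rintro ⟨h1, h2, h3⟩; exact ⟨h1, by linarith, h3⟩
  · rintro ⟨h1, h2, h3⟩; exact ⟨h1, by linarith, h3⟩

/-- the opposite open half circle of `(a, v)` -/
noncomputable def yy (a v : E) (θ : ℝ) : E := -(Real.cos θ • a + Real.sin θ • v)

lemma yy_unit {a v : E} (h : Fr a v) (θ : ℝ) : dt (yy a v θ) (yy a v θ) = 1 := by
  have h4 : dt v a = 0 := by rw [dt_comm]; exact h.2.2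
  simp only [yy, dt_neg_left, dt_neg_right, dt_add_left, dt_add_right, dt_smul_left,
    dt_smul_right, h.1, h.2.1, h.2.2, h4]
  nlinarith [Real.sin_sq_add_cos_sq θ]

lemma yy_n {a v : E} (θ : ℝ) : dt (yy a v θ) (cr a v) = 0 := by
  simp only [yy, dt_neg_left, dt_add_left, dt_smul_left, dt_cr_left, dt_cr_right]
  ring

lemma yy_v {a v : E} (h : Fr a v) (θ : ℝ) : dt (yy a v θ) v = - Real.sin θ := by
  simp only [yy, dt_neg_left, dt_add_left, dt_smul_left, h.2.1, h.2.2]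
  ring

lemma yy_a {a v : E} (h : Fr a v) (θ : ℝ) : dt (yy a v θ) a = - Real.cos θ := by
  have h4 : dt v a = 0 := by rw [dt_comm]; exact h.2.2
  simp only [yy, dt_neg_left, dt_add_left, dt_smul_left, h.1, h4]
  ring

/-- the normalised member -/
def Good (P : Set (E × E)) (a0 v0 : E) (q : E × E) : Prop :=
  q ∈ P ∧ 0 < dt q.1 (cr a0 v0) ∧ 0 < dt a0 (cr q.1 q.2)

lemma good_uniq {P : Set (E × E)} (hP : Fam P) {a0 v0 : E} {q q' : E × E}
    (hq : Good P a0 v0 q) (hq' : Good P a0 v0 q') {x : E}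
    (hx : H q.1 q.2 x) (hx' : H q'.1 q'.2 x) : q' = q := by
  rcases uniq hP hq.1 hq'.1 hx hx' with he | he
  · exact he
  · exfalso
    have h1 := hq'.2.1
    rw [he] at h1
    simp only [dt_neg_left] at h1
    linarith [hq.2.1]

/-- every member different from `± q0` can be normalised -/
lemma good_or {P : Set (E × E)} (hP : Fam P) {a0 v0 : E} (h0 : (a0, v0) ∈ P) {q : E × E}
    (hq : q ∈ P) : (q = (a0, v0) ∨ q = (-a0, v0)) ∨ Good P a0 v0 q ∨ Good P a0 v0 (-q.1, q.2) := by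
  rcases hP.dich _ h0 _ hq with he | hpos
  · exact Or.inl he
  · right
    simp only at hpos
    rcases pos_and_pos_or_neg_and_neg_of_mul_pos hpos with ⟨p1, p2⟩ | ⟨p1, p2⟩
    · exact Or.inl ⟨hq, p2, p1⟩
    · right
      refine ⟨hP.neg _ hq, ?_, ?_⟩
      · simp only [dt_neg_left]; linarith
      · simp only [cr_neg_left, dt_neg_right]; linarith

lemma exists_good {P : Set (E × E)} (hP : Fam P) {a0 v0 : E} (h0 : (a0, v0) ∈ P) {θ : ℝ}
    (hθ : θ ∈ Set.Ioo 0 π) : ∃ q, Good P a0 v0 q ∧ H q.1 q.2 (yy a0 v0 θ) := by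
  have hF0 : Fr a0 v0 := hP.fr _ h0
  obtain ⟨q, hq, hx⟩ := hP.cov (yy a0 v0 θ) (yy_unit hF0 θ)
  have hs : 0 < Real.sin θ := Real.sin_pos_of_pos_of_lt_pi hθ.1 hθ.2
  rcases good_or hP h0 hq with (he | he) | hg | hg
  · exfalso
    rw [he] at hx
    have := hx.2.2
    simp only at this
    rw [yy_v hF0] at this
    linarith
  · exfalso
    rw [he] at hx
    have := hx.2.2
    simp only at this
    rw [yy_v hF0] at this
    linarith
  · exact ⟨q, hg, hx⟩
  · exact ⟨_, hg, H_neg_iff.mpr hx⟩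

/-- every normalised member meets the opposite open half circle -/
lemma good_meets {P : Set (E × E)} (hP : Fam P) {a0 v0 : E} (h0 : (a0, v0) ∈ P) {q : E × E}
    (hq : Good P a0 v0 q) : ∃ θ ∈ Set.Ioo 0 π, H q.1 q.2 (yy a0 v0 θ) := by
  have hF0 : Fr a0 v0 := hP.fr _ h0
  obtain ⟨hqP, hq1, hq2⟩ := hq
  obtain ⟨a, v⟩ := q
  simp only at hq1 hq2 ⊢
  have hF : Fr a v := hP.fr _ hqP
  have e1 : dt (cr (cr a0 v0) (cr a v)) v0 = dt a0 (cr a v) := crn_v hF0 _
  have e2 : dt (cr (cr a0 v0) (cr a v)) v = - dt a (cr a0 v0) := crn_v' hF _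
  have p1 : dt (cr (cr a0 v0) (cr a v)) (cr a0 v0) = 0 := dt_crn_n _ _
  have p2 : dt (cr (cr a0 v0) (cr a v)) (cr a v) = 0 := dt_crn_n' _ _
  generalize cr (cr a0 v0) (cr a v) = p at e1 e2 p1 p2
  have hpne : p ≠ 0 := by
    rintro rfl
    have : dt (0 : E) v0 = 0 := by simp [dt]
    rw [this] at e1
    linarith
  have hpn : 0 < ‖p‖ := norm_pos_iff.mpr hpne
  have hr0 : 0 < ‖p‖⁻¹ := inv_pos.mpr hpn
  have hz : dt (‖p‖⁻¹ • p) (‖p‖⁻¹ • p) = 1 := by
    rw [← norm_one_iff, norm_smul, norm_inv, norm_norm, inv_mul_cancel₀ hpn.ne']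
  have hz1 : dt (‖p‖⁻¹ • p) (cr a0 v0) = 0 := by rw [dt_smul_left, p1]; ring
  have hz2 : dt (‖p‖⁻¹ • p) (cr a v) = 0 := by rw [dt_smul_left, p2]; ring
  have hz3 : 0 < dt (‖p‖⁻¹ • p) v0 := by rw [dt_smul_left, e1]; positivity
  have hz4 : dt (‖p‖⁻¹ • p) v < 0 := by
    rw [dt_smul_left, e2]; nlinarith
  generalize ‖p‖⁻¹ • p = z at hz hz1 hz2 hz3 hz4
  have hex := expand hF0 hz1
  have hsq : dt z a0 ^ 2 + dt z v0 ^ 2 = 1 := by
    have h5 : dt z (dt z a0 • a0 + dt z v0 • v0) = 1 := by rw [← hex]; exact hz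
    rw [dt_add_right, dt_smul_right, dt_smul_right] at h5
    nlinarith
  have hA1 : dt z a0 ≤ 1 := by nlinarith [sq_nonneg (dt z v0), sq_nonneg (dt z a0 - 1)]
  have hA2 : -1 ≤ dt z a0 := by nlinarith [sq_nonneg (dt z v0), sq_nonneg (dt z a0 + 1)]
  have hc : Real.cos (Real.arccos (dt z a0)) = dt z a0 := Real.cos_arccos hA2 hA1
  have hs : Real.sin (Real.arccos (dt z a0)) = dt z v0 := by
    rw [Real.sin_arccos]
    have : 1 - dt z a0 ^ 2 = dt z v0 ^ 2 := by linarith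
    rw [this, Real.sqrt_sq hz3.le]
  have hyz : yy a0 v0 (Real.arccos (dt z a0)) = -z := by
    rw [yy, hc, hs, ← hex]
  refine ⟨Real.arccos (dt z a0), ⟨?_, ?_⟩, ?_⟩
  · refine lt_of_le_of_ne (Real.arccos_nonneg _) ?_
    intro h1
    rw [← h1, Real.sin_zero] at hs
    linarith
  · refine lt_of_le_of_ne (Real.arccos_le_pi _) ?_
    intro h1
    rw [h1, Real.sin_pi] at hs
    linarith
  · rw [hyz]
    refine ⟨?_, ?_, ?_⟩
    · rw [dt_neg_left, dt_neg_right, hz]; ring
    · rw [dt_neg_left, hz2]; ring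
    · rw [dt_neg_left]; linarith

/-- a normalised member meets the opposite half circle at only one point -/
lemma good_inj {P : Set (E × E)} (hP : Fam P) {a0 v0 : E} (h0 : (a0, v0) ∈ P) {q : E × E}
    (hq : Good P a0 v0 q) {θ θ' : ℝ} (hθ : θ ∈ Set.Ioo 0 π) (hθ' : θ' ∈ Set.Ioo 0 π)
    (hx : H q.1 q.2 (yy a0 v0 θ)) (hx' : H q.1 q.2 (yy a0 v0 θ')) : θ = θ' := by
  have hF0 : Fr a0 v0 := hP.fr _ h0
  obtain ⟨hqP, hq1, hq2⟩ := hq
  obtain ⟨a, v⟩ := q
  simp only at hq1 hq2 hx hx'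
  have e1 : dt (cr (cr a0 v0) (cr a v)) v0 = dt a0 (cr a v) := crn_v hF0 _
  have g1 := par (n := cr a0 v0) (n' := cr a v) (yy_n θ) hx.2.1 v0
  have g2 := par (n := cr a0 v0) (n' := cr a v) (yy_n θ) hx.2.1 a0
  have g1' := par (n := cr a0 v0) (n' := cr a v) (yy_n θ') hx'.2.1 v0
  have g2' := par (n := cr a0 v0) (n' := cr a v) (yy_n θ') hx'.2.1 a0
  rw [yy_v hF0, e1] at g1 g1'
  rw [yy_a hF0] at g2 g2'
  generalize cr (cr a0 v0) (cr a v) = p at e1 g1 g2 g1' g2'
  have hpp : 0 < dt p p := by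
    refine lt_of_le_of_ne (dt_self_nonneg p) ?_
    intro h1
    have := dt_self_eq_zero h1.symm
    rw [this] at e1
    have h2 : dt (0 : E) v0 = 0 := by simp [dt]
    rw [h2] at e1
    linarith
  have hs1 : Real.sin (θ - θ') = 0 := by
    rw [Real.sin_sub]
    have k : (dt p p) ^ 2 * (Real.sin θ * Real.cos θ' - Real.cos θ * Real.sin θ') = 0 := by
      linear_combination (-(dt p p) * Real.cos θ') * g1 +
        (dt p (yy a0 v0 θ) * dt a0 (cr a v)) * g2' + ((dt p p) * Real.sin θ') * g2 -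
        (dt p (yy a0 v0 θ) * dt p a0) * g1'
    have hne : (dt p p) ^ 2 ≠ 0 := by positivity
    rcases mul_eq_zero.mp k with h1 | h1
    · exact absurd h1 hne
    · exact h1
  have h3 := (Real.sin_eq_zero_iff_of_lt_of_lt (by linarith [hθ.1, hθ'.2])
    (by linarith [hθ'.1, hθ.2])).mp hs1
  linarith

theorem no_fam (P : Set (E × E)) (hP : Fam P) : False := by
  classical
  have hpi := Real.pi_gt_three
  obtain ⟨⟨a0, v0⟩, h0, -⟩ := hP.cov (!₂[1, 0, 0]) (by simp [dt])
  have hF0 : Fr a0 v0 := hP.fr _ h0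
  have hex : ∀ θ : ℝ, ∃ q, θ ∈ Set.Ioo 0 π → Good P a0 v0 q ∧ H q.1 q.2 (yy a0 v0 θ) := by
    intro θ
    by_cases hθ : θ ∈ Set.Ioo 0 π
    · obtain ⟨q, hq⟩ := exists_good hP h0 hθ
      exact ⟨q, fun _ => hq⟩
    · exact ⟨(a0, v0), fun h => absurd h hθ⟩
  choose g hg using hex
  -- continuity of `g`
  have hcont : ContinuousOn g (Set.Ioo 0 π) := by
    intro θ hθ
    unfold ContinuousWithinAt
    apply tendsto_of_subseq_tendsto
    intro ns hns
    rw [tendsto_nhdsWithin_iff] at hns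
    obtain ⟨hns1, hns2⟩ := hns
    obtain ⟨N, hN⟩ := eventually_atTop.mp hns2
    have hK : IsCompact (Metric.sphere (0 : E) 1 ×ˢ Metric.sphere (0 : E) 1) :=
      (isCompact_sphere (0 : E) 1).prod (isCompact_sphere (0 : E) 1)
    have hmem : ∀ k : ℕ, g (ns (k + N)) ∈ Metric.sphere (0 : E) 1 ×ˢ Metric.sphere (0 : E) 1 := by
      intro k
      have hf := hP.fr _ (hg _ (hN (k + N) (by omega))).1.1
      refine ⟨?_, ?_⟩
      · rw [mem_sphere_zero_iff_norm, norm_one_iff]; exact hf.1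
      · rw [mem_sphere_zero_iff_norm, norm_one_iff]; exact hf.2.1
    obtain ⟨q, -, φ, hφ, hlim⟩ := hK.tendsto_subseq hmem
    refine ⟨fun k => φ k + N, ?_⟩
    have hlim' : Tendsto (fun k => g (ns (φ k + N))) atTop (𝓝 q) := hlim
    have hqP : q ∈ P := by
      refine (closedP hP).mem_of_tendsto hlim' ?_
      exact Filter.Eventually.of_forall (fun k => (hg _ (hN (φ k + N) (by omega))).1.1)
    have hθlim : Tendsto (fun k => ns (φ k + N)) atTop (𝓝 θ) := by
      refine hns1.comp ?_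
      exact (tendsto_add_atTop_nat N).comp hφ.tendsto_atTop
    have hpair : Tendsto (fun k => (g (ns (φ k + N)), ns (φ k + N))) atTop (𝓝 (q, θ)) :=
      hlim'.prodMk_nhds hθlim
    have hHq : H q.1 q.2 (yy a0 v0 θ) := by
      refine ⟨yy_unit hF0 θ, ?_, ?_⟩
      · have hc : Continuous (fun z : (E × E) × ℝ => dt (yy a0 v0 z.2) (cr z.1.1 z.1.2)) := by
          simp only [dt, cr0, cr1, cr2, yy]; fun_prop
        have hl := (hc.tendsto (q, θ)).comp hpair
        refine tendsto_nhds_unique hl ?_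
        refine tendsto_const_nhds.congr ?_
        intro k
        exact (hg _ (hN (φ k + N) (by omega))).2.2.1.symm
      · have hc : Continuous (fun z : (E × E) × ℝ => dt (yy a0 v0 z.2) z.1.2) := by
          simp only [dt, yy]; fun_prop
        have hl := (hc.tendsto (q, θ)).comp hpair
        refine ge_of_tendsto' hl ?_
        intro k
        exact (hg _ (hN (φ k + N) (by omega))).2.2.2
    have hnonneg : 0 ≤ dt q.1 (cr a0 v0) := by
      have hc : Continuous (fun z : E × E => dt z.1 (cr a0 v0)) := by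
        simp only [dt, cr0, cr1, cr2]; fun_prop
      have hl := (hc.tendsto q).comp hlim'
      refine ge_of_tendsto' hl ?_
      intro k
      exact (hg _ (hN (φ k + N) (by omega))).1.2.1.le
    have hs : 0 < Real.sin θ := Real.sin_pos_of_pos_of_lt_pi hθ.1 hθ.2
    have hqg : Good P a0 v0 q := by
      rcases good_or hP h0 hqP with (he | he) | hgd | hgd
      · exfalso
        rw [he] at hHq
        have := hHq.2.2
        simp only at this
        rw [yy_v hF0] at this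
        linarith
      · exfalso
        rw [he] at hHq
        have := hHq.2.2
        simp only at this
        rw [yy_v hF0] at this
        linarith
      · exact hgd
      · exfalso
        have := hgd.2.1
        simp only [dt_neg_left] at this
        linarith
    have hfin : q = g θ := good_uniq hP (hg θ hθ).1 hqg (hg θ hθ).2 hHq
    rw [← hfin]
    exact hlim'
  -- the sign function
  have hne : ∀ θ ∈ Set.Ioo 0 π, ∀ θ' ∈ Set.Ioo 0 π, θ ≠ θ' →
      0 < dt (g θ).1 (cr (g θ').1 (g θ').2) * dt (g θ').1 (cr (g θ).1 (g θ).2) := by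
    intro θ hθ θ' hθ' hne
    rcases hP.dich _ (hg θ hθ).1.1 _ (hg θ' hθ').1.1 with (he | he) | hpos
    · exfalso
      apply hne
      refine good_inj hP h0 (hg θ hθ).1 hθ hθ' (hg θ hθ).2 ?_
      have := (hg θ' hθ').2
      rw [he] at this
      exact this
    · exfalso
      have h1 := (hg θ' hθ').1.2.1
      rw [he] at h1
      simp only [dt_neg_left] at h1
      linarith [(hg θ hθ).1.2.1]
    · exact hpos
  let D : Set (ℝ × ℝ) := {z | 0 < z.1 ∧ z.1 < z.2 ∧ z.2 < π}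
  have hDc : Convex ℝ D := by
    intro x hx y hy s t hs ht hst
    obtain ⟨x1, x2, x3⟩ := hx
    obtain ⟨y1, y2, y3⟩ := hy
    simp only [D, Set.mem_ofPred_eq, Prod.fst_add, Prod.smul_fst, smul_eq_mul, Prod.snd_add,
      Prod.smul_snd]
    rcases eq_or_lt_of_le hs with h | h
    · have ht1 : t = 1 := by linarith
      subst h; subst ht1
      refine ⟨by linarith, by linarith, by linarith⟩
    · refine ⟨?_, ?_, ?_⟩
      · have := mul_pos h x1
        have := mul_nonneg ht y1.le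
        linarith
      · have := mul_lt_mul_of_pos_left x2 h
        have := mul_le_mul_of_nonneg_left y2.le ht
        linarith
      · have := mul_lt_mul_of_pos_left x3 h
        have := mul_le_mul_of_nonneg_left y3.le ht
        nlinarith
  have hDpre : IsPreconnected D := hDc.isPreconnected
  let f : ℝ × ℝ → ℝ := fun z => dt (g z.1).1 (cr (g z.2).1 (g z.2).2)
  have hD1 : ∀ z ∈ D, z.1 ∈ Set.Ioo 0 π ∧ z.2 ∈ Set.Ioo 0 π ∧ z.1 ≠ z.2 := by
    intro z hz
    obtain ⟨z1, z2, z3⟩ := hz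
    exact ⟨⟨z1, by linarith⟩, ⟨by linarith, z3⟩, z2.ne⟩
  have hfc : ContinuousOn f D := by
    have hc : Continuous (fun z : (E × E) × (E × E) => dt z.1.1 (cr z.2.1 z.2.2)) := by
      simp only [dt, cr0, cr1, cr2]; fun_prop
    have h1 : ContinuousOn (fun z : ℝ × ℝ => g z.1) D :=
      hcont.comp continuous_fst.continuousOn (fun z hz => (hD1 z hz).1)
    have h2 : ContinuousOn (fun z : ℝ × ℝ => g z.2) D :=
      hcont.comp continuous_snd.continuousOn (fun z hz => (hD1 z hz).2.1)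
    exact hc.comp_continuousOn (h1.prodMk h2)
  have hf0 : ∀ z ∈ D, f z ≠ 0 := by
    intro z hz h
    have h1 := hne z.1 (hD1 z hz).1 z.2 (hD1 z hz).2.1 (hD1 z hz).2.2
    have h2 : dt (g z.1).1 (cr (g z.2).1 (g z.2).2) = 0 := h
    rw [h2] at h1
    simp at h1
  have hsign : (∀ z ∈ D, 0 < f z) ∨ (∀ z ∈ D, f z < 0) := by
    by_contra hcon
    push Not at hcon
    obtain ⟨⟨z1, hz1, hf1⟩, ⟨z2, hz2, hf2⟩⟩ := hcon
    have := hDpre.intermediate_value hz1 hz2 hfc
    have h3 : (0 : ℝ) ∈ f '' D := this ⟨hf1, hf2⟩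
    obtain ⟨z, hz, hfz⟩ := h3
    exact hf0 z hz hfz
  have hsign2 : (∀ θ ∈ Set.Ioo 0 π, ∀ θ' ∈ Set.Ioo 0 π, θ ≠ θ' →
        0 < dt (g θ).1 (cr (g θ').1 (g θ').2)) ∨
      (∀ θ ∈ Set.Ioo 0 π, ∀ θ' ∈ Set.Ioo 0 π, θ ≠ θ' →
        dt (g θ).1 (cr (g θ').1 (g θ').2) < 0) := by
    rcases hsign with hs | hs
    · left
      intro θ hθ θ' hθ' hn
      rcases lt_or_gt_of_ne hn with hlt | hlt
      · exact hs (θ, θ') ⟨hθ.1, hlt, hθ'.2⟩
      · have h1 := hs (θ', θ) ⟨hθ'.1, hlt, hθ.2⟩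
        have h2 := hne θ hθ θ' hθ' hn
        simp only [f] at h1
        exact (pos_iff_pos_of_mul_pos h2).mpr h1
    · right
      intro θ hθ θ' hθ' hn
      rcases lt_or_gt_of_ne hn with hlt | hlt
      · exact hs (θ, θ') ⟨hθ.1, hlt, hθ'.2⟩
      · have h1 := hs (θ', θ) ⟨hθ'.1, hlt, hθ.2⟩
        have h2 := hne θ hθ θ' hθ' hn
        simp only [f] at h1
        by_contra hcc
        push Not at hcc
        have := mul_nonpos_of_nonneg_of_nonpos hcc h1.le
        linarith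
  -- an uncovered point
  have k1 : (1 : ℝ) ∈ Set.Ioo 0 π := ⟨by norm_num, by linarith⟩
  have k2 : (2 : ℝ) ∈ Set.Ioo 0 π := ⟨by norm_num, by linarith⟩
  obtain ⟨x, hx0, hxg⟩ : ∃ x : E, dt x (cr a0 v0) ≠ 0 ∧
      ∀ q, Good P a0 v0 q → dt x (cr q.1 q.2) ≠ 0 := by
    have hbase : ∀ τ : ℝ, dt ((g 1).1 + (g 2).1 + τ • a0) (cr a0 v0) ≠ 0 := by
      intro τ
      rw [dt_add_left, dt_add_left, dt_smul_left, dt_cr_left]
      have := (hg 1 k1).1.2.1
      have := (hg 2 k2).1.2.1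
      nlinarith
    have hval : ∀ q, Good P a0 v0 q → ∃ θ ∈ Set.Ioo 0 π, q = g θ := by
      intro q hq
      obtain ⟨θ, hθ, hH⟩ := good_meets hP h0 hq
      exact ⟨θ, hθ, good_uniq hP (hg θ hθ).1 hq (hg θ hθ).2 hH⟩
    rcases hsign2 with hs | hs
    · refine ⟨(g 1).1 + (g 2).1 + (1 : ℝ) • a0, hbase 1, ?_⟩
      intro q hq
      obtain ⟨θ, hθ, rfl⟩ := hval q hq
      rw [dt_add_left, dt_add_left, dt_smul_left]
      have h3 := hq.2.2
      have h4 : 0 ≤ dt (g 1).1 (cr (g θ).1 (g θ).2) := by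
        by_cases he : (1 : ℝ) = θ
        · rw [← he, dt_cr_left]
        · exact (hs 1 k1 θ hθ he).le
      have h5 : 0 ≤ dt (g 2).1 (cr (g θ).1 (g θ).2) := by
        by_cases he : (2 : ℝ) = θ
        · rw [← he, dt_cr_left]
        · exact (hs 2 k2 θ hθ he).le
      intro h6
      linarith
    · refine ⟨(g 1).1 + (g 2).1 + (-1 : ℝ) • a0, hbase (-1), ?_⟩
      intro q hq
      obtain ⟨θ, hθ, rfl⟩ := hval q hq
      rw [dt_add_left, dt_add_left, dt_smul_left]
      have h3 := hq.2.2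
      have h4 : dt (g 1).1 (cr (g θ).1 (g θ).2) ≤ 0 := by
        by_cases he : (1 : ℝ) = θ
        · rw [← he, dt_cr_left]
        · exact (hs 1 k1 θ hθ he).le
      have h5 : dt (g 2).1 (cr (g θ).1 (g θ).2) ≤ 0 := by
        by_cases he : (2 : ℝ) = θ
        · rw [← he, dt_cr_left]
        · exact (hs 2 k2 θ hθ he).le
      intro h6
      linarith
  have hxne : x ≠ 0 := by
    rintro rfl
    apply hx0
    simp [dt]
  have hxn : 0 < ‖x‖ := norm_pos_iff.mpr hxne
  obtain ⟨q, hq, hH⟩ := hP.cov (‖x‖⁻¹ • x) (by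
    rw [← norm_one_iff, norm_smul, norm_inv, norm_norm, inv_mul_cancel₀ hxn.ne'])
  have hz : dt x (cr q.1 q.2) = 0 := by
    have := hH.2.1
    rw [dt_smul_left] at this
    rcases mul_eq_zero.mp this with h1 | h1
    · exact absurd h1 (inv_ne_zero hxn.ne')
    · exact h1
  rcases good_or hP h0 hq with (he | he) | hgd | hgd
  · rw [he] at hz; exact hx0 hz
  · rw [he] at hz
    simp only [cr_neg_left, dt_neg_right] at hz
    exact hx0 (by linarith)
  · exact hxg _ hgd hz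
  · have := hxg _ hgd
    simp only [cr_neg_left, dt_neg_right] at this
    exact this (by rw [hz]; ring)

end Pool.Agent.Helper857.Arc
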