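import Pool.Agent.Helper857.ArcD

set_option autoImplicit false

namespace Pool.Agent.Helper857.Arc

open Real Filter Topology

lemma eq_of_arcs {a v a' v' : E} (hF : Fr a v) (hF' : Fr a' v')
    (h : ∀ x, H a v x ↔ H a' v' x) : ((a', v') : E × E) = (a, v) ∨ ((a', v') : E × E) = (-a, v) := by
  have hHa : H a v a := ⟨hF.1, dt_cr_left a v, by rw [hF.2.2]⟩
  have hHa' : H a v (-a) := by
    refine ⟨?_, ?_, ?_⟩
    · rw [dt_neg_left, dt_neg_right, hF.1]; ring
    · rw [dt_neg_left, dt_cr_left]; ring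
    · rw [dt_neg_left, hF.2.2]; simp
  have hHv : H a v v := ⟨hF.2.1, dt_cr_right a v, by rw [hF.2.1]; norm_num⟩
  have h1 := (h a).mp hHa
  have h2 := (h (-a)).mp hHa'
  have h3 := (h v).mp hHv
  have e1 : dt a v' = 0 := by
    have k1 := h1.2.2
    have k2 := h2.2.2
    rw [dt_neg_left] at k2
    linarith
  have hex := expand hF' h1.2.1
  rw [e1, zero_smul, add_zero] at hex
  have hsq : dt a a' * dt a a' = 1 := by
    have h5 : dt a (dt a a' • a') = 1 := by rw [← hex]; exact hF.1
    rw [dt_smul_right (dt a a') a' a] at h5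
    exact h5
  have hva : dt v a = 0 := by rw [dt_comm]; exact hF.2.2
  have haa : a' = a ∨ a' = -a := by
    rcases mul_self_eq_one_iff.mp hsq with h6 | h6
    · rw [h6, one_smul] at hex; exact Or.inl hex.symm
    · rw [h6, neg_smul, one_smul] at hex; right; rw [hex, neg_neg]
  have hva' : dt v a' = 0 := by
    rcases haa with h6 | h6
    · rw [h6, hva]
    · rw [h6, dt_neg_right, hva]; ring
  have hexv := expand hF' h3.2.1
  rw [hva', zero_smul, zero_add] at hexv
  have hsqv : dt v v' * dt v v' = 1 := by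
    have h5 : dt v (dt v v' • v') = 1 := by rw [← hexv]; exact hF.2.1
    rw [dt_smul_right (dt v v') v' v] at h5
    exact h5
  have hvv : v' = v := by
    rcases mul_self_eq_one_iff.mp hsqv with h6 | h6
    · rw [h6, one_smul] at hexv; exact hexv.symm
    · have := h3.2.2
      rw [h6] at this
      norm_num at this
  rcases haa with h6 | h6
  · left; rw [h6, hvv]
  · right; rw [h6, hvv]

theorem at_pi (A : Set (Set E)) (hA : ∀ a ∈ A, ∃ u v : E, Fr u v ∧ a = arc π u v)
    (hdis : A.PairwiseDisjoint id) (hcov : ∀ x : E, dt x x = 1 → ∃ a ∈ A, x ∈ a) : False := by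
  refine no_fam {q | Fr q.1 q.2 ∧ arc π q.1 q.2 ∈ A} ⟨?_, ?_, ?_, ?_⟩
  · intro q hq; exact hq.1
  · intro q hq
    refine ⟨hq.1.neg, ?_⟩
    have : arc π (-q.1) q.2 = arc π q.1 q.2 := by
      ext x
      rw [arc_pi_iff hq.1, arc_pi_iff hq.1.neg, H_neg_iff]
    simp only
    rw [this]
    exact hq.2
  · rintro ⟨a, v⟩ ⟨hF, ha⟩ ⟨a', v'⟩ ⟨hF', ha'⟩
    simp only at hF ha hF' ha'
    by_cases he : arc π a v = arc π a' v'
    · left
      apply eq_of_arcs hF hF'
      intro x
      rw [← arc_pi_iff hF, ← arc_pi_iff hF', he]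
    · right
      simp only
      by_contra hcon
      push Not at hcon
      obtain ⟨x, hx, hx'⟩ := meet hF hF' hcon
      have hd := hdis ha ha' he
      simp only [Function.onFun, id_eq] at hd
      exact Set.disjoint_left.mp hd ((arc_pi_iff hF).mpr hx) ((arc_pi_iff hF').mpr hx')
  · intro x hx
    obtain ⟨a, ha, hxa⟩ := hcov x hx
    obtain ⟨u, v, hF, rfl⟩ := hA a ha
    exact ⟨(u, v), ⟨hF, ha⟩, (arc_pi_iff hF).mp hxa⟩

end Pool.Agent.Helper857.Arc
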