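import Pool.Agent.Helper857.A1

set_option autoImplicit false

open Set Metric Filter Topology

namespace Pool.Agent.Helper857

variable {E : Type*} [NormedAddCommGroup E] [NormedSpace ℂ E]

/-- `h` is a biholomorphic self-map of `E`. -/
def IsAut (h : E ≃ E) : Prop := Differentiable ℂ h ∧ Differentiable ℂ h.symm

theorem isAut_refl : IsAut (Equiv.refl E) := ⟨differentiable_id, differentiable_id⟩

theorem IsAut.trans {h k : E ≃ E} (hh : IsAut h) (hk : IsAut k) : IsAut (h.trans k) :=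
  ⟨hk.1.comp hh.1, hh.2.comp hk.2⟩

theorem IsAut.symm {h : E ≃ E} (hh : IsAut h) : IsAut h.symm := ⟨hh.2, by simpa using hh.1⟩

/-- `f` and `g` are `e`-close on the closed ball of radius `R`. -/
def Near (R e : ℝ) (f g : E → E) : Prop := ∀ x, ‖x‖ ≤ R → ‖f x - g x‖ ≤ e

/-- entire self-maps `F` of `E` such that `h ∘ F` is as close as we wish to the identity on large
balls for suitable automorphisms `h`. -/
def SMap (F : E → E) : Prop :=
  Differentiable ℂ F ∧ ∀ R e : ℝ, 0 < e → ∃ h : E ≃ E, IsAut h ∧ Near R e (h ∘ F) id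

theorem sMap_id : SMap (id : E → E) :=
  ⟨differentiable_id, fun _ _ he => ⟨Equiv.refl E, isAut_refl, fun x _ => by simp [he.le]⟩⟩

variable [FiniteDimensional ℂ E]

theorem exists_norm_bound {F : E → E} (hF : Continuous F) (R : ℝ) :
    ∃ M : ℝ, ∀ x, ‖x‖ ≤ R → ‖F x‖ ≤ M := by
  have : ProperSpace E := FiniteDimensional.proper ℂ E
  obtain ⟨M, hM⟩ := (isCompact_closedBall (0 : E) R).exists_bound_of_continuousOn hF.continuousOn
  exact ⟨M, fun x hx => hM x (by simpa using hx)⟩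

theorem exists_unif {F : E → E} (hF : Continuous F) (R : ℝ) {e : ℝ} (he : 0 < e) :
    ∃ d > 0, ∀ a, ‖a‖ ≤ R → ∀ b, ‖b - a‖ ≤ d → ‖F b - F a‖ ≤ e := by
  have : ProperSpace E := FiniteDimensional.proper ℂ E
  have h1 := (isCompact_closedBall (0 : E) R).uniformContinuousAt_of_continuousAt F
    (fun a _ => hF.continuousAt) (Metric.dist_mem_uniformity he)
  obtain ⟨d, hd, h2⟩ := Metric.mem_uniformity_dist.1 h1
  refine ⟨d / 2, by positivity, fun a ha b hb => ?_⟩
  have h3 := @h2 a b (by rw [dist_comm, dist_eq_norm]; linarith) (by simpa using ha)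
  have h4 : dist (F a) (F b) < e := h3
  rw [dist_comm, dist_eq_norm] at h4
  exact h4.le

theorem SMap.comp {F G : E → E} (hG : SMap G) (hF : SMap F) : SMap (G ∘ F) := by
  refine ⟨hG.1.comp hF.1, fun R e he => ?_⟩
  obtain ⟨h₁, hh₁, hn₁⟩ := hF.2 R (e / 2) (by positivity)
  obtain ⟨M, hM⟩ := exists_norm_bound hF.1.continuous R
  obtain ⟨d, hd, hu⟩ := exists_unif hh₁.1.continuous M (e := e / 2) (by positivity)
  obtain ⟨h₂, hh₂, hn₂⟩ := hG.2 M d hd
  refine ⟨h₂.trans h₁, hh₂.trans hh₁, fun x hx => ?_⟩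
  have h3 := hu (F x) (hM x hx) (h₂ (G (F x))) (by simpa using hn₂ (F x) (hM x hx))
  have h4 := hn₁ x hx
  simp only [Function.comp_apply, id, Equiv.trans_apply] at *
  calc ‖h₁ (h₂ (G (F x))) - x‖ = ‖(h₁ (h₂ (G (F x))) - h₁ (F x)) + (h₁ (F x) - x)‖ := by
        congr 1; abel
    _ ≤ ‖h₁ (h₂ (G (F x))) - h₁ (F x)‖ + ‖h₁ (F x) - x‖ := norm_add_le _ _
    _ ≤ e := by linarith

/-- the error term of an almost-identity is Lipschitz with constant `1/2` -/
theorem near_id_lip {u : E → E} (hu : Differentiable ℂ u) {R : ℝ}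
    (hn : ∀ z, ‖z‖ ≤ R + 1 → ‖u z‖ ≤ 1 / 4) :
    (∀ z, ‖z‖ ≤ R → ‖fderiv ℂ u z‖ ≤ 1 / 2) ∧
    ∀ x y, ‖x‖ ≤ R → ‖y‖ ≤ R → ‖u x - u y‖ ≤ 1 / 2 * ‖x - y‖ := by
  have h1 : ∀ z, ‖z‖ ≤ R → ‖fderiv ℂ u z‖ ≤ 1 / 2 := by
    intro z hz
    have h2 : MapsTo u (ball z 1) (closedBall (u z) (1 / 2)) := by
      intro w hw
      have h3 : ‖w‖ ≤ R + 1 := by
        have h4 := norm_add_le z (w - z)
        have h5 : ‖w - z‖ < 1 := by simpa [dist_eq_norm] using hw
        rw [add_sub_cancel] at h4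
        linarith
      rw [mem_closedBall, dist_eq_norm]
      have h6 := norm_sub_le (u w) (u z)
      have h7 := hn w h3
      have h8 := hn z (by linarith)
      linarith
    have := Complex.norm_fderiv_le_div_of_mapsTo_ball hu.differentiableOn h2 one_pos
    simpa using this
  refine ⟨h1, fun x y hx hy => ?_⟩
  have hx' : x ∈ closedBall (0 : E) R := by simpa using hx
  have hy' : y ∈ closedBall (0 : E) R := by simpa using hy
  exact (convex_closedBall (0 : E) R).norm_image_sub_le_of_norm_fderiv_le (𝕜 := ℂ)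
    (fun z _ => hu z) (fun z hz => h1 z (by simpa using hz)) hy' hx'

theorem SMap.injective {F : E → E} (hF : SMap F) : Function.Injective F := by
  intro x y hxy
  set R := max ‖x‖ ‖y‖ with hR
  obtain ⟨h, hh, hn⟩ := hF.2 (R + 1) (1 / 4) (by norm_num)
  have hu : Differentiable ℂ (fun z => h (F z) - z) := (hh.1.comp hF.1).sub differentiable_id
  have h1 := (near_id_lip hu (fun z hz => by simpa using hn z hz)).2 x y
    (le_max_left _ _) (le_max_right _ _)
  have h2 : h (F x) - x - (h (F y) - y) = -(x - y) := by rw [hxy]; abel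
  rw [h2, norm_neg] at h1
  have h3 : ‖x - y‖ = 0 := le_antisymm (by linarith) (norm_nonneg _)
  exact sub_eq_zero.1 (norm_eq_zero.1 h3)

theorem SMap.exists_fderiv_equiv {F : E → E} (hF : SMap F) (x : E) :
    ∃ f' : E ≃L[ℂ] E, HasFDerivAt F (f' : E →L[ℂ] E) x := by
  obtain ⟨h, hh, hn⟩ := hF.2 (‖x‖ + 1) (1 / 4) (by norm_num)
  have hu : Differentiable ℂ (fun z => h (F z) - z) := (hh.1.comp hF.1).sub differentiable_id
  have h1 := (near_id_lip hu (fun z hz => by simpa using hn z hz)).1 x le_rfl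
  have h2 : HasFDerivAt (fun z => h (F z) - z)
      ((fderiv ℂ h (F x)).comp (fderiv ℂ F x) - ContinuousLinearMap.id ℂ E) x :=
    ((hh.1 (F x)).hasFDerivAt.comp x (hF.1 x).hasFDerivAt).sub (hasFDerivAt_id x)
  rw [h2.fderiv] at h1
  have hinj : Function.Injective (fderiv ℂ F x) := by
    rw [injective_iff_map_eq_zero]
    intro v hv
    have h3 := ((fderiv ℂ h (F x)).comp (fderiv ℂ F x) - ContinuousLinearMap.id ℂ E).le_opNorm v
    simp only [ContinuousLinearMap.sub_apply, ContinuousLinearMap.comp_apply, hv, map_zero,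
      ContinuousLinearMap.id_apply, zero_sub, norm_neg] at h3
    have h4 : ‖v‖ ≤ 1 / 2 * ‖v‖ := le_trans h3 (by gcongr)
    have h5 : ‖v‖ = 0 := le_antisymm (by linarith) (norm_nonneg _)
    exact norm_eq_zero.1 h5
  let L : E ≃ₗ[ℂ] E := LinearEquiv.ofInjectiveEndo (fderiv ℂ F x : E →ₗ[ℂ] E) hinj
  refine ⟨L.toContinuousLinearEquiv, ?_⟩
  have : ((L.toContinuousLinearEquiv : E ≃L[ℂ] E) : E →L[ℂ] E) = fderiv ℂ F x := by
    ext v
    rfl
  rw [this]
  exact (hF.1 x).hasFDerivAt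

theorem SMap.isOpenMap {F : E → E} (hF : SMap F) : IsOpenMap F := by
  have : CompleteSpace E := FiniteDimensional.complete ℂ E
  have hc := contDiff_omega_of_entire hF.1
  choose f' hf' using hF.exists_fderiv_equiv
  exact isOpenMap_of_hasStrictFDerivAt_equiv (f' := f')
    (fun x => hc.contDiffAt.hasStrictFDerivAt' (hf' x) (by simp))

end Pool.Agent.Helper857
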