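import Pool.Agent.Helper857.B1

set_option autoImplicit false

open Set Metric Filter Topology

namespace Pool.Agent.Helper857

variable {E : Type*} [NormedAddCommGroup E] [NormedSpace ℂ E]

theorem exists_common {P : ℕ → ℝ → Prop} (hP : ∀ m a b, a ≤ b → P m a → P m b) (n : ℕ)
    (h : ∀ m ≤ n, ∃ a, P m a) : ∃ a, ∀ m ≤ n, P m a := by
  choose! f hf using h
  have hne : (Finset.range (n + 1)).Nonempty := Finset.nonempty_range_add_one
  exact ⟨(Finset.range (n + 1)).sup' hne f, fun m hm =>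
    hP _ _ _ (Finset.le_sup' f (by simpa using Nat.lt_succ_of_le hm)) (hf m hm)⟩

theorem exists_common_pos {P : ℕ → ℝ → Prop} (hP : ∀ m a b, b ≤ a → P m a → P m b) (n : ℕ)
    (h : ∀ m ≤ n, ∃ a, 0 < a ∧ P m a) : ∃ a, 0 < a ∧ ∀ m ≤ n, P m a := by
  choose! f hf using h
  have hne : (Finset.range (n + 1)).Nonempty := Finset.nonempty_range_add_one
  refine ⟨(Finset.range (n + 1)).inf' hne f, ?_, fun m hm => ?_⟩
  · rw [Finset.lt_inf'_iff]
    intro i hi
    exact (hf i (by simpa using Nat.le_of_lt_succ (Finset.mem_range.1 hi))).1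
  · exact hP _ _ _ (Finset.inf'_le f (by simpa using Nat.lt_succ_of_le hm)) (hf m hm).2

/-- the composition `F (n-1) ∘ ... ∘ F m` (and the identity if `n ≤ m`) -/
def Cmp (F : ℕ → E → E) (m : ℕ) : ℕ → E → E
  | 0 => id
  | n + 1 => if m ≤ n then F n ∘ Cmp F m n else id

theorem cmp_of_le (F : ℕ → E → E) {m n : ℕ} (h : n ≤ m) : Cmp F m n = id := by
  cases n with
  | zero => rfl
  | succ n => simp [Cmp, show ¬ (m ≤ n) by omega]

theorem cmp_succ (F : ℕ → E → E) {m n : ℕ} (h : m ≤ n) : Cmp F m (n + 1) = F n ∘ Cmp F m n := by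
  simp [Cmp, h]

theorem cmp_comp (F : ℕ → E → E) {m n : ℕ} (h : m + 1 ≤ n) :
    Cmp F (m + 1) n ∘ F m = Cmp F m n := by
  induction n, h using Nat.le_induction with
  | base => rw [cmp_succ F le_rfl, cmp_of_le F le_rfl, cmp_of_le F le_rfl]; rfl
  | succ n hmn ih => rw [cmp_succ F hmn, cmp_succ F (by omega), Function.comp_assoc, ih]

variable [FiniteDimensional ℂ E]

theorem sMap_cmp {F : ℕ → E → E} (hF : ∀ n, SMap (F n)) (m n : ℕ) : SMap (Cmp F m n) := by
  induction n with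
  | zero => exact sMap_id
  | succ n ih =>
    by_cases h : m ≤ n
    · rw [cmp_succ F h]; exact (hF n).comp ih
    · rw [cmp_of_le F (by omega)]; exact sMap_id

def Good (F : ℕ → E → E) (n : ℕ) (T : E ≃ E) (e : ℝ) : Prop :=
  IsAut T ∧ 0 < e ∧ e ≤ (1 / 2) ^ n ∧ ∀ m ≤ n, ∀ g : E → E, Near n e g (T ∘ Cmp F m n) →
    ∃ k : E ≃ E, IsAut k ∧ Near n (1 / ((n : ℝ) + 1)) (k ∘ g) id

theorem exists_good {F : ℕ → E → E} (hF : ∀ n, SMap (F n)) (n : ℕ) {T : E ≃ E} (hT : IsAut T)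
    {b : ℝ} (hb : 0 < b) : ∃ e, Good F n T e ∧ e ≤ b := by
  have key : ∀ m ≤ n, ∃ e, 0 < e ∧ ∀ g : E → E, Near n e g (T ∘ Cmp F m n) →
    ∃ k : E ≃ E, IsAut k ∧ Near n (1 / ((n : ℝ) + 1)) (k ∘ g) id := by
    intro m _
    have hpos : 0 < 1 / ((n : ℝ) + 1) / 2 := by positivity
    obtain ⟨k, hk, hn⟩ := (sMap_cmp hF m n).2 n _ hpos
    obtain ⟨M, hM⟩ := exists_norm_bound (hT.1.continuous.comp (sMap_cmp hF m n).1.continuous) n
    obtain ⟨d, hd, hu⟩ := exists_unif (hT.symm.trans hk).1.continuous M hpos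
    refine ⟨d, hd, fun g hg => ⟨T.symm.trans k, hT.symm.trans hk, fun x hx => ?_⟩⟩
    have h1 := hu _ (hM x hx) (g x) (hg x hx)
    have h2 := hn x hx
    simp only [Function.comp_apply, id, Equiv.trans_apply, Equiv.symm_apply_apply] at *
    calc ‖k (T.symm (g x)) - x‖ = ‖(k (T.symm (g x)) - k (Cmp F m n x)) + (k (Cmp F m n x) - x)‖ := by
          congr 1; abel
      _ ≤ ‖k (T.symm (g x)) - k (Cmp F m n x)‖ + ‖k (Cmp F m n x) - x‖ := norm_add_le _ _
      _ ≤ 1 / ((n : ℝ) + 1) := by linarith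
  obtain ⟨e, he, h⟩ := exists_common_pos (P := fun m e => ∀ g : E → E,
      Near n e g (T ∘ Cmp F m n) → ∃ k : E ≃ E, IsAut k ∧ Near n (1 / ((n : ℝ) + 1)) (k ∘ g) id)
    (fun m a b hab h g hg => h g (fun x hx => le_trans (hg x hx) hab)) n key
  refine ⟨min e (min b ((1 / 2) ^ n)), ⟨hT, by positivity, ?_, fun m hm g hg => ?_⟩, ?_⟩
  · exact le_trans (min_le_right _ _) (min_le_right _ _)
  · exact h m hm g (fun x hx => le_trans (hg x hx) (min_le_left _ _))
  · exact le_trans (min_le_right _ _) (min_le_left _ _)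

theorem good_step {F : ℕ → E → E} (hF : ∀ n, SMap (F n)) (n : ℕ) {T : E ≃ E} {e : ℝ}
    (h : Good F n T e) : ∃ (T' : E ≃ E) (e' : ℝ), Good F (n + 1) T' e' ∧ e' ≤ e / 2 ∧
      ∀ m ≤ n, Near n (e / 2) (T' ∘ Cmp F m (n + 1)) (T ∘ Cmp F m n) := by
  obtain ⟨hT, he, -, -⟩ := h
  obtain ⟨M, hM⟩ : ∃ M : ℝ, ∀ m ≤ n, ∀ x, ‖x‖ ≤ (n : ℝ) → ‖Cmp F m n x‖ ≤ M :=
    exists_common (P := fun m M => ∀ x, ‖x‖ ≤ (n : ℝ) → ‖Cmp F m n x‖ ≤ M)
      (fun m a b hab h x hx => le_trans (h x hx) hab) n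
      (fun m _ => exists_norm_bound (sMap_cmp hF m n).1.continuous n)
  obtain ⟨d, hd, hu⟩ := exists_unif hT.1.continuous M (e := e / 2) (by positivity)
  obtain ⟨k, hk, hn⟩ := (hF n).2 M d hd
  obtain ⟨e', he', hle⟩ := exists_good hF (n + 1) (hk.trans hT) (b := e / 2) (by positivity)
  refine ⟨k.trans T, e', he', hle, fun m hm x hx => ?_⟩
  rw [cmp_succ F hm]
  exact hu _ (hM m hm x hx) _ (hn _ (hM m hm x hx))

/-- every countable direct sequence in the class `SMap` has a cocone in the class `SMap` -/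
theorem exists_cocone {F : ℕ → E → E} (hF : ∀ n, SMap (F n)) :
    ∃ G : ℕ → E → E, (∀ n, SMap (G n)) ∧ ∀ n, G (n + 1) ∘ F n = G n := by
  have : CompleteSpace E := FiniteDimensional.complete ℂ E
  obtain ⟨e₀, he₀, -⟩ := exists_good hF 0 (isAut_refl (E := E)) one_pos
  choose T' e' hg' hle' hnear' using @good_step E _ _ _ F hF
  let st : (n : ℕ) → {p : (E ≃ E) × ℝ // Good F n p.1 p.2} := fun n => Nat.rec
    ⟨(Equiv.refl E, e₀), he₀⟩ (fun n s => ⟨(T' n s.2, e' n s.2), hg' n s.2⟩) n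
  let T : ℕ → (E ≃ E) := fun n => (st n).1.1
  let e : ℕ → ℝ := fun n => (st n).1.2
  have hgood : ∀ n, Good F n (T n) (e n) := fun n => (st n).2
  have hle : ∀ n, e (n + 1) ≤ e n / 2 := fun n => hle' n (st n).2
  have hnear : ∀ n : ℕ, ∀ m ≤ n, Near n (e n / 2) (T (n + 1) ∘ Cmp F m (n + 1)) (T n ∘ Cmp F m n) :=
    fun n => hnear' n (st n).2
  have hpos : ∀ n, 0 < e n := fun n => (hgood n).2.1
  have hsmall : ∀ n, e n ≤ (1 / 2) ^ n := fun n => (hgood n).2.2.1
  have hnear2 : ∀ n : ℕ, ∀ m ≤ n, ∀ j,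
      Near n (e n - e (n + j)) (T (n + j) ∘ Cmp F m (n + j)) (T n ∘ Cmp F m n) := by
    intro n m hm j
    induction j with
    | zero => intro x _; simp
    | succ j ih =>
      intro x hx
      have h1 := ih x hx
      have h2 := hnear (n + j) m (by omega) x (le_trans hx (by push_cast; linarith [Nat.cast_nonneg (α := ℝ) j]))
      have h3 := hle (n + j)
      have h4 := norm_add_le ((T (n + j + 1) ∘ Cmp F m (n + j + 1)) x - (T (n + j) ∘ Cmp F m (n + j)) x)
        ((T (n + j) ∘ Cmp F m (n + j)) x - (T n ∘ Cmp F m n) x)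
      rw [sub_add_sub_cancel] at h4
      change ‖(T (n + j + 1) ∘ Cmp F m (n + j + 1)) x - (T n ∘ Cmp F m n) x‖ ≤ e n - e (n + j + 1)
      linarith
  have hnear3 : ∀ n : ℕ, ∀ m ≤ n, ∀ N, n ≤ N →
      Near n (e n) (T N ∘ Cmp F m N) (T n ∘ Cmp F m n) := by
    intro n m hm N hN x hx
    obtain ⟨j, rfl⟩ := Nat.exists_eq_add_of_le hN
    have := hnear2 n m hm j x hx
    linarith [hpos (n + j)]
  have hlim : ∀ m x, ∃ y, Tendsto (fun n => T n (Cmp F m n x)) atTop (𝓝 y) := by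
    intro m x
    apply cauchySeq_tendsto_of_complete
    rw [Metric.cauchySeq_iff']
    intro ε hε
    obtain ⟨N₁, hN₁⟩ := exists_pow_lt_of_lt_one hε (by norm_num : (1 / 2 : ℝ) < 1)
    obtain ⟨N₂, hN₂⟩ := exists_nat_ge ‖x‖
    refine ⟨max m (max N₁ N₂), fun n hn => ?_⟩
    rw [dist_eq_norm]
    have h1 := hnear3 (max m (max N₁ N₂)) m (le_max_left _ _) n hn x
      (le_trans hN₂ (by exact_mod_cast le_trans (le_max_right N₁ N₂) (le_max_right _ _)))
    refine lt_of_le_of_lt h1 (lt_of_le_of_lt (hsmall _) (lt_of_le_of_lt ?_ hN₁))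
    exact pow_le_pow_of_le_one (by norm_num) (by norm_num)
      (le_trans (le_max_left N₁ N₂) (le_max_right _ _))
  choose G hG using hlim
  have hG2 : ∀ n : ℕ, ∀ m ≤ n, Near n (e n) (G m) (T n ∘ Cmp F m n) := by
    intro n m hm x hx
    have h1 : Tendsto (fun N => ‖T N (Cmp F m N x) - (T n ∘ Cmp F m n) x‖) atTop
        (𝓝 ‖G m x - (T n ∘ Cmp F m n) x‖) := ((hG m x).sub_const _).norm
    refine le_of_tendsto h1 ?_
    filter_upwards [eventually_ge_atTop n] with N hN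
    exact hnear3 n m hm N hN x hx
  refine ⟨G, fun m => ⟨?_, ?_⟩, fun m => ?_⟩
  · intro x
    have hunif : TendstoUniformlyOn (fun n => T n ∘ Cmp F m n) (G m) atTop (ball 0 (‖x‖ + 1)) := by
      rw [Metric.tendstoUniformlyOn_iff]
      intro ε hε
      obtain ⟨N₁, hN₁⟩ := exists_pow_lt_of_lt_one hε (by norm_num : (1 / 2 : ℝ) < 1)
      obtain ⟨N₂, hN₂⟩ := exists_nat_ge (‖x‖ + 1)
      filter_upwards [eventually_ge_atTop (max m (max N₁ N₂))] with n hn y hy
      have hmn : m ≤ n := le_trans (le_max_left _ _) hn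
      have hN₁n : N₁ ≤ n := le_trans (le_trans (le_max_left N₁ N₂) (le_max_right _ _)) hn
      have hN₂n : N₂ ≤ n := le_trans (le_trans (le_max_right N₁ N₂) (le_max_right _ _)) hn
      have hy' : ‖y‖ ≤ n := by
        have h1 : ‖y‖ < ‖x‖ + 1 := by simpa using hy
        have h2 : (N₂ : ℝ) ≤ n := by exact_mod_cast hN₂n
        linarith
      rw [dist_eq_norm]
      refine lt_of_le_of_lt (hG2 n m hmn y hy') (lt_of_le_of_lt (hsmall _) (lt_of_le_of_lt ?_ hN₁))
      exact pow_le_pow_of_le_one (by norm_num) (by norm_num) hN₁n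
    have hd := differentiableOn_of_tendstoUniformlyOn_ball
      (fun n => ((hgood n).1.1.comp (sMap_cmp hF m n).1).differentiableOn) hunif
    exact hd.differentiableAt (isOpen_ball.mem_nhds (by simp))
  · intro R ε hε
    obtain ⟨N₁, hN₁⟩ := exists_nat_one_div_lt hε
    obtain ⟨N₂, hN₂⟩ := exists_nat_ge R
    set n := max m (max N₁ N₂) with hn
    have hmn : m ≤ n := le_max_left _ _
    have hN₁n : N₁ ≤ n := le_trans (le_max_left N₁ N₂) (le_max_right _ _)
    have hN₂n : N₂ ≤ n := le_trans (le_max_right N₁ N₂) (le_max_right _ _)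
    obtain ⟨k, hk, hnk⟩ := (hgood n).2.2.2 m hmn (G m) (hG2 n m hmn)
    refine ⟨k, hk, fun x hx => le_trans (hnk x ?_) ?_⟩
    · have h2 : (N₂ : ℝ) ≤ n := by exact_mod_cast hN₂n
      linarith
    · refine le_trans ?_ hN₁.le
      have h2 : (N₁ : ℝ) ≤ n := by exact_mod_cast hN₁n
      gcongr
  · funext x
    have h1 := hG (m + 1) (F m x)
    have h2 := hG m x
    refine tendsto_nhds_unique (h1.congr' ?_) h2
    filter_upwards [eventually_ge_atTop (m + 1)] with n hn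
    rw [← cmp_comp F hn]
    rfl

end Pool.Agent.Helper857
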