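import Pool.Agent.Helper857.B2

set_option autoImplicit false

open Set Metric Filter Topology

namespace Pool.Agent.Helper857

variable {E : Type*} [NormedAddCommGroup E] [NormedSpace ℂ E]

theorem iterate_lip {P : E → E} {C ρ : ℝ} (hC : 0 < C) (hρ : 0 < ρ) (hρ1 : ρ ≤ 1)
    (hCρ : 4 * C * ρ ≤ 1) (h0 : P 0 = 0)
    (hP : ∀ x y, ‖x‖ ≤ 1 → ‖y‖ ≤ 1 →
      ‖(P x - (2 : ℂ) • x) - (P y - (2 : ℂ) • y)‖ ≤ C * (‖x‖ + ‖y‖) * ‖x - y‖) (n : ℕ) :
    ∀ k ≤ n, ∀ z z' : E, ‖z‖ ≤ ρ / 2 ^ n → ‖z'‖ ≤ ρ / 2 ^ n →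
      ‖P^[k] z - P^[k] z'‖ ≤ (1 + 2 ^ k / 2 ^ n) * 2 ^ k * ‖z - z'‖ := by
  have hfix : ∀ k, P^[k] 0 = 0 := fun k => Function.iterate_fixed h0 k
  intro k
  induction k with
  | zero =>
    intro _ z z' _ _
    have : (1 : ℝ) ≤ 1 + 1 / 2 ^ n := by
      have : (0 : ℝ) < 1 / 2 ^ n := by positivity
      linarith
    simpa using le_mul_of_one_le_left (norm_nonneg (z - z')) this
  | succ k ih =>
    intro hk z z' hz hz'
    have ih' := ih (by omega)
    set t : ℝ := 2 ^ k / 2 ^ n with ht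
    have ht0 : 0 < t := by positivity
    have ht2 : t ≤ 1 / 2 := by
      rw [ht, div_le_div_iff₀ (by positivity) (by norm_num)]
      have : (2 : ℝ) ^ (k + 1) ≤ 2 ^ n := pow_le_pow_right₀ (by norm_num) hk
      rw [pow_succ] at this
      linarith
    have hbd : ∀ w : E, ‖w‖ ≤ ρ / 2 ^ n → ‖P^[k] w‖ ≤ 2 * ρ * t := by
      intro w hw
      have h1 := ih' w 0 hw (by simp; positivity)
      rw [hfix, sub_zero, sub_zero] at h1
      calc ‖P^[k] w‖ ≤ (1 + t) * 2 ^ k * ‖w‖ := h1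
        _ ≤ (1 + 1) * 2 ^ k * (ρ / 2 ^ n) := by gcongr; linarith
        _ = 2 * ρ * t := by rw [ht]; ring
    set a := P^[k] z with ha
    set b := P^[k] z' with hb
    have hna : ‖a‖ ≤ 2 * ρ * t := hbd z hz
    have hnb : ‖b‖ ≤ 2 * ρ * t := hbd z' hz'
    have hρt : 2 * ρ * t ≤ 1 := by nlinarith
    have hab := hP a b (by linarith) (by linarith)
    have hstep : ‖P a - P b‖ ≤ 2 * (1 + t / 2) * ‖a - b‖ := by
      have h1 : P a - P b = (2 : ℂ) • (a - b) + ((P a - (2 : ℂ) • a) - (P b - (2 : ℂ) • b)) := by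
        rw [smul_sub]; abel
      rw [h1]
      have h2 : ‖(2 : ℂ) • (a - b)‖ = 2 * ‖a - b‖ := by rw [norm_smul]; simp
      have h3 : C * (‖a‖ + ‖b‖) ≤ t := by
        calc C * (‖a‖ + ‖b‖) ≤ C * (2 * ρ * t + 2 * ρ * t) := by gcongr
          _ = (4 * C * ρ) * t := by ring
          _ ≤ 1 * t := by gcongr
          _ = t := one_mul t
      calc _ ≤ ‖(2 : ℂ) • (a - b)‖ + ‖(P a - (2 : ℂ) • a) - (P b - (2 : ℂ) • b)‖ := norm_add_le _ _
        _ ≤ 2 * ‖a - b‖ + t * ‖a - b‖ := by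
            rw [h2]
            gcongr
            exact le_trans hab (by gcongr)
        _ = 2 * (1 + t / 2) * ‖a - b‖ := by ring
    rw [Function.iterate_succ_apply', Function.iterate_succ_apply', ← ha, ← hb]
    calc ‖P a - P b‖ ≤ 2 * (1 + t / 2) * ‖a - b‖ := hstep
      _ ≤ 2 * (1 + t / 2) * ((1 + t) * 2 ^ k * ‖z - z'‖) := by
          gcongr
          exact ih' z z' hz hz'
      _ = ((1 + t / 2) * (1 + t)) * (2 * 2 ^ k * ‖z - z'‖) := by ring
      _ ≤ (1 + 2 * t) * (2 * 2 ^ k * ‖z - z'‖) := by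
          gcongr
          nlinarith
      _ = (1 + 2 ^ (k + 1) / 2 ^ n) * 2 ^ (k + 1) * ‖z - z'‖ := by
          rw [ht, pow_succ]; ring

/-- Poincare linearisation at a repelling fixed point with scalar linear part `2`. -/
theorem exists_poincare [FiniteDimensional ℂ E] {P : E → E} (hPd : Differentiable ℂ P) {C : ℝ}
    (hC : 0 < C) (h0 : P 0 = 0)
    (hP : ∀ x y, ‖x‖ ≤ 1 → ‖y‖ ≤ 1 →
      ‖(P x - (2 : ℂ) • x) - (P y - (2 : ℂ) • y)‖ ≤ C * (‖x‖ + ‖y‖) * ‖x - y‖) :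
    ∃ (F : E → E) (r : ℝ), 0 < r ∧ Differentiable ℂ F ∧ F 0 = 0 ∧
      (∀ y, F ((2 : ℂ) • y) = P (F y)) ∧ ∀ y, ‖y‖ < r → ‖F y - y‖ ≤ C * ‖y‖ ^ 2 := by
  have : CompleteSpace E := FiniteDimensional.complete ℂ E
  obtain ⟨ρ, hρ, hρ1, hCρ⟩ : ∃ ρ : ℝ, 0 < ρ ∧ ρ ≤ 1 ∧ 4 * C * ρ ≤ 1 := by
    refine ⟨min 1 (1 / (4 * C)), by positivity, min_le_left _ _, ?_⟩
    calc 4 * C * min 1 (1 / (4 * C)) ≤ 4 * C * (1 / (4 * C)) := by
          gcongr; exact min_le_right _ _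
      _ = 1 := by field_simp
  have hlip := iterate_lip hC hρ hρ1 hCρ h0 hP
  set r : ℝ := ρ / 2 with hr
  have hrpos : 0 < r := by positivity
  let f : ℕ → E → E := fun n y => P^[n] (((2 : ℂ) ^ n)⁻¹ • y)
  have hfd : ∀ n, Differentiable ℂ (f n) := by
    intro n
    exact (hPd.iterate n).comp (differentiable_id.const_smul _)
  have hnorm : ∀ (n : ℕ) (y : E), ‖((2 : ℂ) ^ n)⁻¹ • y‖ = ‖y‖ / 2 ^ n := by
    intro n y
    rw [norm_smul, norm_inv, norm_pow]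
    simp
    ring
  have hdist : ∀ y, ‖y‖ ≤ r → ∀ n, dist (f n y) (f (n + 1) y) ≤ C * ‖y‖ ^ 2 / 2 / 2 ^ n := by
    intro y hy n
    set z' : E := ((2 : ℂ) ^ n)⁻¹ • y with hz'
    set w : E := ((2 : ℂ) ^ (n + 1))⁻¹ • y with hw
    have hz'w : z' = (2 : ℂ) • w := by
      rw [hz', hw, smul_smul]
      congr 1
      rw [pow_succ]
      field_simp
    have hnw : ‖w‖ = ‖y‖ / 2 ^ (n + 1) := hnorm (n + 1) y
    have hnz' : ‖z'‖ = ‖y‖ / 2 ^ n := hnorm n y
    have h2n : (1 : ℝ) ≤ 2 ^ n := one_le_pow₀ (by norm_num)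
    have hw1 : ‖w‖ ≤ 1 := by
      rw [hnw, div_le_one (by positivity)]
      have : (1 : ℝ) ≤ 2 ^ (n + 1) := one_le_pow₀ (by norm_num)
      linarith
    have hdiff : ‖P w - z'‖ ≤ C * ‖w‖ ^ 2 := by
      have := hP w 0 hw1 (by simp)
      rw [h0] at this
      simp only [smul_zero, sub_zero, norm_zero, add_zero] at this
      rw [hz'w]
      calc _ ≤ C * ‖w‖ * ‖w‖ := this
        _ = C * ‖w‖ ^ 2 := by ring
    have hz'ρ : ‖z'‖ ≤ ρ / 2 ^ n := by
      rw [hnz']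
      gcongr
      linarith
    have hPwρ : ‖P w‖ ≤ ρ / 2 ^ n := by
      have h1 : ‖P w‖ ≤ ‖z'‖ + ‖P w - z'‖ := by
        have := norm_add_le z' (P w - z')
        rwa [add_sub_cancel] at this
      have h2 : C * ‖w‖ ^ 2 ≤ ‖y‖ / 2 ^ n := by
        rw [hnw]
        have h3 : C * (‖y‖ / 2 ^ (n + 1)) ^ 2 = (C * ‖y‖) / (4 * 2 ^ n) * (‖y‖ / 2 ^ n) := by
          rw [pow_succ]; field_simp; ring
        rw [h3]
        have h4 : (C * ‖y‖) / (4 * 2 ^ n) ≤ 1 := by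
          rw [div_le_one (by positivity)]
          have h5 : C * ‖y‖ ≤ C * r := by gcongr
          have h6 : C * r ≤ 1 := by rw [hr]; nlinarith
          linarith
        have h7 : 0 ≤ ‖y‖ / 2 ^ n := by positivity
        nlinarith
      have h8 : ‖y‖ / 2 ^ n + ‖y‖ / 2 ^ n ≤ ρ / 2 ^ n := by
        rw [← add_div]
        gcongr
        linarith
      linarith
    have hmain := hlip n n le_rfl (P w) z' hPwρ hz'ρ
    have h2 : f (n + 1) y = P^[n] (P w) := by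
      simp only [f]
      rw [Function.iterate_succ_apply]
    rw [dist_comm, dist_eq_norm, h2]
    calc ‖P^[n] (P w) - f n y‖ ≤ (1 + 2 ^ n / 2 ^ n) * 2 ^ n * ‖P w - z'‖ := hmain
      _ ≤ (1 + 2 ^ n / 2 ^ n) * 2 ^ n * (C * (‖y‖ / 2 ^ (n + 1)) ^ 2) := by
          gcongr
          rw [← hnw]; exact hdiff
      _ = C * ‖y‖ ^ 2 / 2 / 2 ^ n := by
          rw [pow_succ]; field_simp; ring
  have hlimr : ∀ y, ‖y‖ ≤ r → ∃ l, Tendsto (fun n => f n y) atTop (𝓝 l) := by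
    intro y hy
    exact cauchySeq_tendsto_of_complete (cauchySeq_of_le_geometric_two (hdist y hy))
  have hfadd : ∀ m n y, f (n + m) y = P^[m] (f n (((2 : ℂ) ^ m)⁻¹ • y)) := by
    intro m n y
    simp only [f]
    rw [add_comm n m, Function.iterate_add_apply, smul_smul, pow_add, mul_inv_rev]
  have hsmall : ∀ y : E, ∃ m : ℕ, ‖((2 : ℂ) ^ m)⁻¹ • y‖ < r := by
    intro y
    obtain ⟨m, hm⟩ := exists_nat_gt (‖y‖ / r)
    refine ⟨m, ?_⟩
    rw [hnorm, div_lt_iff₀ (by positivity)]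
    have h1 : (m : ℝ) ≤ 2 ^ m := by exact_mod_cast (Nat.lt_two_pow_self (n := m)).le
    rw [div_lt_iff₀ hrpos] at hm
    nlinarith
  have hlim : ∀ y, ∃ l, Tendsto (fun n => f n y) atTop (𝓝 l) := by
    intro y
    obtain ⟨m, hm⟩ := hsmall y
    obtain ⟨l, hl⟩ := hlimr _ hm.le
    refine ⟨P^[m] l, ?_⟩
    rw [← tendsto_add_atTop_iff_nat m]
    simp only [hfadd]
    exact ((hPd.continuous.iterate m).tendsto l).comp hl
  choose F hF using hlim
  have hFm : ∀ m y, F y = P^[m] (F (((2 : ℂ) ^ m)⁻¹ • y)) := by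
    intro m y
    refine tendsto_nhds_unique ((tendsto_add_atTop_iff_nat m).2 (hF y)) ?_
    simp only [hfadd]
    exact ((hPd.continuous.iterate m).tendsto _).comp (hF _)
  have hFr : DifferentiableOn ℂ F (ball 0 r) := by
    apply differentiableOn_of_tendstoUniformlyOn_ball (fun n => (hfd n).differentiableOn)
    rw [Metric.tendstoUniformlyOn_iff]
    intro ε hε
    obtain ⟨N, hN⟩ := exists_pow_lt_of_lt_one (show 0 < ε / (C * r ^ 2 + 1) by positivity)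
      (by norm_num : (1 / 2 : ℝ) < 1)
    filter_upwards [eventually_ge_atTop N] with n hn y hy
    have hy' : ‖y‖ ≤ r := by
      have : ‖y‖ < r := by simpa using hy
      exact this.le
    have h1 := dist_le_of_le_geometric_two_of_tendsto (hdist y hy') (hF y) n
    rw [dist_comm]
    calc dist (f n y) (F y) ≤ C * ‖y‖ ^ 2 / 2 ^ n := h1
      _ ≤ (C * r ^ 2 + 1) * (1 / 2) ^ n := by
          rw [one_div, inv_pow, div_eq_mul_inv]
          gcongr
          have : ‖y‖ ^ 2 ≤ r ^ 2 := by gcongr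
          nlinarith
      _ ≤ (C * r ^ 2 + 1) * (1 / 2) ^ N := by
          gcongr ?_ * ?_
          exact pow_le_pow_of_le_one (by norm_num) (by norm_num) hn
      _ < (C * r ^ 2 + 1) * (ε / (C * r ^ 2 + 1)) := by gcongr
      _ = ε := by field_simp
  refine ⟨F, r, hrpos, ?_, ?_, ?_, ?_⟩
  · intro y
    obtain ⟨m, hm⟩ := hsmall y
    have h1 : F = fun y => P^[m] (F (((2 : ℂ) ^ m)⁻¹ • y)) := funext (hFm m)
    rw [h1]
    have h2 : DifferentiableAt ℂ F (((2 : ℂ) ^ m)⁻¹ • y) :=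
      hFr.differentiableAt (isOpen_ball.mem_nhds (by simpa using hm))
    have h3 : DifferentiableAt ℂ (fun y : E => ((2 : ℂ) ^ m)⁻¹ • y) y := by fun_prop
    exact ((hPd.iterate m) _).comp y (h2.comp y h3)
  · refine tendsto_nhds_unique (hF 0) ?_
    have : ∀ n, f n 0 = 0 := by
      intro n
      simp only [f, smul_zero]
      exact Function.iterate_fixed h0 n
    simp [this]
  · intro y
    have h1 := hFm 1 ((2 : ℂ) • y)
    simpa [smul_smul] using h1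
  · intro y hy
    have h1 := dist_le_of_le_geometric_two_of_tendsto₀ (hdist y hy.le) (hF y)
    have h2 : f 0 y = y := by simp [f]
    rw [h2, dist_comm, dist_eq_norm] at h1
    exact h1

/-- a Poincare map of an automorphism lies in the class `SMap` -/
theorem sMap_poincare [FiniteDimensional ℂ E] {P : E ≃ E} (hP : IsAut P) {F : E → E} {r C : ℝ}
    (hr : 0 < r) (hC : 0 < C) (hF : Differentiable ℂ F) (hfun : ∀ y, F ((2 : ℂ) • y) = P (F y))
    (hF1 : ∀ y, ‖y‖ < r → ‖F y - y‖ ≤ C * ‖y‖ ^ 2) : SMap F := by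
  refine ⟨hF, fun R e he => ?_⟩
  have hpow : ∀ n : ℕ, ∃ h : E ≃ E, IsAut h ∧ ∀ y, h (F y) = ((2 : ℂ) ^ n) • F (((2 : ℂ) ^ n)⁻¹ • y) := by
    intro n
    induction n with
    | zero => exact ⟨Equiv.refl E, isAut_refl, fun y => by simp⟩
    | succ n ih =>
      obtain ⟨h, hh, hy⟩ := ih
      let s : E ≃ E := (LinearEquiv.smulOfNeZero ℂ E (2 : ℂ) two_ne_zero).toEquiv
      have hs : IsAut s := by
        constructor
        · exact (differentiable_id.const_smul (2 : ℂ))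
        · exact (differentiable_id.const_smul ((2 : ℂ)⁻¹))
      refine ⟨(P.symm.trans h).trans s, (hP.symm.trans hh).trans hs, fun y => ?_⟩
      have h1 : P.symm (F y) = F ((2 : ℂ)⁻¹ • y) := by
        rw [Equiv.symm_apply_eq, ← hfun, smul_smul]
        simp
      change (2 : ℂ) • h (P.symm (F y)) = _
      have e1 : (2 : ℂ) * 2 ^ n = 2 ^ (n + 1) := by ring
      have e2 : ((2 : ℂ) ^ n)⁻¹ * 2⁻¹ = (2 ^ (n + 1))⁻¹ := by rw [pow_succ, mul_inv]
      rw [h1, hy, smul_smul, smul_smul, e1, e2]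
  obtain ⟨N, hN⟩ := exists_nat_gt (max (|R| / r) (C * R ^ 2 / e))
  obtain ⟨h, hh, hy⟩ := hpow N
  refine ⟨h, hh, fun x hx => ?_⟩
  have h2N : (N : ℝ) < 2 ^ N := by exact_mod_cast Nat.lt_two_pow_self
  have hR : ‖x‖ ≤ |R| := le_trans hx (le_abs_self R)
  have hn : ‖((2 : ℂ) ^ N)⁻¹ • x‖ = ‖x‖ / 2 ^ N := by
    rw [norm_smul, norm_inv, norm_pow]
    simp
    ring
  have h1 : ‖((2 : ℂ) ^ N)⁻¹ • x‖ < r := by
    rw [hn, div_lt_iff₀ (by positivity)]
    have h3 : |R| / r < N := lt_of_le_of_lt (le_max_left _ _) hN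
    rw [div_lt_iff₀ hr] at h3
    nlinarith
  have h2 := hF1 _ h1
  rw [hn] at h2
  have h4 : h (F x) - x = ((2 : ℂ) ^ N) • (F (((2 : ℂ) ^ N)⁻¹ • x) - ((2 : ℂ) ^ N)⁻¹ • x) := by
    rw [hy, smul_sub, smul_smul, mul_inv_cancel₀ (pow_ne_zero N two_ne_zero), one_smul]
  simp only [Function.comp_apply, id]
  rw [h4, norm_smul, norm_pow]
  have h5 : C * R ^ 2 / e < N := lt_of_le_of_lt (le_max_right _ _) hN
  rw [div_lt_iff₀ he] at h5
  have h6 : ‖(2 : ℂ)‖ = 2 := by simp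
  rw [h6]
  calc (2 : ℝ) ^ N * ‖F (((2 : ℂ) ^ N)⁻¹ • x) - ((2 : ℂ) ^ N)⁻¹ • x‖
      ≤ 2 ^ N * (C * (‖x‖ / 2 ^ N) ^ 2) := by gcongr
    _ = C * ‖x‖ ^ 2 / 2 ^ N := by field_simp
    _ ≤ C * R ^ 2 / 2 ^ N := by
        have h7 : ‖x‖ ^ 2 ≤ R ^ 2 := by
          rw [← sq_abs R]
          exact pow_le_pow_left₀ (norm_nonneg _) hR 2
        gcongr
    _ ≤ e := by
        rw [div_le_iff₀ (by positivity)]
        nlinarith

end Pool.Agent.Helper857
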