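import Pool.Agent.Helper857.C1

set_option autoImplicit false

open Set Metric Filter Topology

namespace Pool.Agent.Helper857

abbrev E2 : Type := EuclideanSpace ℂ (Fin 2)

noncomputable def Pmap (x : E2) : E2 := !₂[2 * x 0 - (2 * x 1 - 4 * (x 0) ^ 2) ^ 2, 2 * x 1 - 4 * (x 0) ^ 2]

noncomputable def Hmap (x : E2) : E2 := !₂[(x 0 + (x 1) ^ 2) / 2, (x 1 + (x 0 + (x 1) ^ 2) ^ 2) / 2]

theorem pmap_zero (x : E2) : Pmap x 0 = 2 * x 0 - (2 * x 1 - 4 * (x 0) ^ 2) ^ 2 := rfl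
theorem pmap_one (x : E2) : Pmap x 1 = 2 * x 1 - 4 * (x 0) ^ 2 := rfl
theorem hmap_zero (x : E2) : Hmap x 0 = (x 0 + (x 1) ^ 2) / 2 := rfl
theorem hmap_one (x : E2) : Hmap x 1 = (x 1 + (x 0 + (x 1) ^ 2) ^ 2) / 2 := rfl

noncomputable def Pequiv : E2 ≃ E2 where
  toFun := Pmap
  invFun := Hmap
  left_inv := by
    intro x
    ext i
    fin_cases i
    · simp only [Fin.zero_eta, hmap_zero, pmap_zero, pmap_one]; ring
    · simp only [Fin.mk_one, hmap_one, pmap_zero, pmap_one]; ring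
  right_inv := by
    intro x
    ext i
    fin_cases i
    · simp only [Fin.zero_eta, hmap_zero, hmap_one, pmap_zero]; ring
    · simp only [Fin.mk_one, hmap_one, hmap_zero, pmap_one]; ring

theorem differentiable_coord (i : Fin 2) : Differentiable ℂ (fun x : E2 => x i) :=
  (EuclideanSpace.proj (𝕜 := ℂ) i : E2 →L[ℂ] ℂ).differentiable

theorem isAut_pequiv : IsAut Pequiv := by
  have h0 := differentiable_coord 0
  have h1 := differentiable_coord 1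
  constructor
  · change Differentiable ℂ Pmap
    rw [differentiable_euclidean]
    intro i
    fin_cases i
    · simp only [Fin.zero_eta, pmap_zero]; fun_prop
    · simp only [Fin.mk_one, pmap_one]; fun_prop
  · change Differentiable ℂ Hmap
    rw [differentiable_euclidean]
    intro i
    fin_cases i
    · simp only [Fin.zero_eta, hmap_zero]; fun_prop
    · simp only [Fin.mk_one, hmap_one]; fun_prop

theorem norm_coord_le (x : E2) (i : Fin 2) : ‖x i‖ ≤ ‖x‖ := PiLp.norm_apply_le x i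

theorem norm_le_sum (x : E2) : ‖x‖ ≤ ‖x 0‖ + ‖x 1‖ := by
  rw [EuclideanSpace.norm_eq, Fin.sum_univ_two]
  apply Real.sqrt_le_iff.2
  constructor
  · positivity
  · nlinarith [norm_nonneg (x 0), norm_nonneg (x 1)]

theorem pmap_zero' : Pmap 0 = 0 := by
  ext i
  fin_cases i
  · simp only [Fin.zero_eta, pmap_zero]; simp
  · simp only [Fin.mk_one, pmap_one]; simp

theorem pmap_lip (x y : E2) (hx : ‖x‖ ≤ 1) (hy : ‖y‖ ≤ 1) :
    ‖(Pmap x - (2 : ℂ) • x) - (Pmap y - (2 : ℂ) • y)‖ ≤ 64 * (‖x‖ + ‖y‖) * ‖x - y‖ := by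
  have hx0 := norm_coord_le x 0
  have hx1 := norm_coord_le x 1
  have hy0 := norm_coord_le y 0
  have hy1 := norm_coord_le y 1
  have hd0 : ‖x 0 - y 0‖ ≤ ‖x - y‖ := by simpa using norm_coord_le (x - y) 0
  have hd1 : ‖x 1 - y 1‖ ≤ ‖x - y‖ := by simpa using norm_coord_le (x - y) 1
  have hxn := norm_nonneg x
  have hyn := norm_nonneg y
  have hxyn := norm_nonneg (x - y)
  set s := ‖x‖ + ‖y‖ with hs
  set d := ‖x - y‖ with hd
  have hs2 : s ≤ 2 := by linarith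
  have hs0 : 0 ≤ s := by positivity
  have e1 : ‖4 * (x 0) ^ 2 - 4 * (y 0) ^ 2‖ ≤ 4 * s * d := by
    have : 4 * (x 0) ^ 2 - 4 * (y 0) ^ 2 = 4 * ((x 0 + y 0) * (x 0 - y 0)) := by ring
    rw [this, norm_mul, norm_mul]
    have h1 : ‖x 0 + y 0‖ ≤ s := le_trans (norm_add_le _ _) (by linarith)
    have h2 : ‖(4 : ℂ)‖ = 4 := by simp
    rw [h2]
    have := mul_le_mul h1 hd0 (norm_nonneg _) hs0
    nlinarith
  have e2 : ‖(2 * x 1 - 4 * (x 0) ^ 2) - (2 * y 1 - 4 * (y 0) ^ 2)‖ ≤ 10 * d := by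
    have h1 : (2 * x 1 - 4 * (x 0) ^ 2) - (2 * y 1 - 4 * (y 0) ^ 2)
        = 2 * (x 1 - y 1) - (4 * (x 0) ^ 2 - 4 * (y 0) ^ 2) := by ring
    rw [h1]
    have h2 := norm_sub_le (2 * (x 1 - y 1)) (4 * (x 0) ^ 2 - 4 * (y 0) ^ 2)
    have h3 : ‖2 * (x 1 - y 1)‖ = 2 * ‖x 1 - y 1‖ := by rw [norm_mul]; simp
    have h4 : 4 * s * d ≤ 8 * d := by nlinarith
    linarith
  have e3 : ‖(2 * x 1 - 4 * (x 0) ^ 2) + (2 * y 1 - 4 * (y 0) ^ 2)‖ ≤ 6 * s := by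
    have h1 := norm_add_le (2 * x 1 - 4 * (x 0) ^ 2) (2 * y 1 - 4 * (y 0) ^ 2)
    have h2 : ∀ z : E2, ‖z‖ ≤ 1 → ‖2 * z 1 - 4 * (z 0) ^ 2‖ ≤ 6 * ‖z‖ := by
      intro z hz
      have h3 := norm_sub_le (2 * z 1) (4 * (z 0) ^ 2)
      have h4 : ‖2 * z 1‖ = 2 * ‖z 1‖ := by rw [norm_mul]; simp
      have h5 : ‖4 * (z 0) ^ 2‖ = 4 * ‖z 0‖ ^ 2 := by rw [norm_mul, norm_pow]; simp
      have h6 := norm_coord_le z 0
      have h7 := norm_coord_le z 1
      have h8 := norm_nonneg (z 0)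
      have h9 : ‖z 0‖ ^ 2 ≤ ‖z‖ := by nlinarith
      linarith
    have h3 := h2 x hx
    have h4 := h2 y hy
    linarith
  refine le_trans (norm_le_sum _) ?_
  have c0 : ((Pmap x - (2 : ℂ) • x) - (Pmap y - (2 : ℂ) • y)) 0
      = -(((2 * x 1 - 4 * (x 0) ^ 2) + (2 * y 1 - 4 * (y 0) ^ 2)) *
        ((2 * x 1 - 4 * (x 0) ^ 2) - (2 * y 1 - 4 * (y 0) ^ 2))) := by
    change (Pmap x 0 - 2 * x 0) - (Pmap y 0 - 2 * y 0) = _
    rw [pmap_zero, pmap_zero]; ring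
  have c1 : ((Pmap x - (2 : ℂ) • x) - (Pmap y - (2 : ℂ) • y)) 1
      = -(4 * (x 0) ^ 2 - 4 * (y 0) ^ 2) := by
    change (Pmap x 1 - 2 * x 1) - (Pmap y 1 - 2 * y 1) = _
    rw [pmap_one, pmap_one]; ring
  rw [c0, c1, norm_neg, norm_neg, norm_mul]
  have h5 := mul_le_mul e3 e2 (norm_nonneg _) (by positivity)
  nlinarith

/-- the escaping region -/
def Vset : Set E2 := {x | 3 ≤ ‖x 1‖ ∧ ‖x 0‖ ≤ ‖x 1‖}

theorem hmap_vset {x : E2} (hx : x ∈ Vset) : Hmap x ∈ Vset := by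
  obtain ⟨h3, h01⟩ := hx
  set t := ‖x 0 + (x 1) ^ 2‖ with ht
  have h1 : 2 * ‖x 1‖ ≤ t := by
    have h2 : ‖(x 1) ^ 2‖ ≤ t + ‖x 0‖ := by
      have := norm_sub_le (x 0 + (x 1) ^ 2) (x 0)
      rwa [add_sub_cancel_left] at this
    rw [norm_pow] at h2
    nlinarith
  have h2 : t ^ 2 - ‖x 1‖ ≤ ‖x 1 + (x 0 + (x 1) ^ 2) ^ 2‖ := by
    have := norm_sub_le (x 1 + (x 0 + (x 1) ^ 2) ^ 2) (x 1)
    rw [add_sub_cancel_left, norm_pow] at this
    linarith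
  have h4 : ‖Hmap x 0‖ = t / 2 := by rw [hmap_zero, norm_div]; simp [ht]
  have h5 : ‖Hmap x 1‖ = ‖x 1 + (x 0 + (x 1) ^ 2) ^ 2‖ / 2 := by rw [hmap_one, norm_div]; simp
  constructor
  · rw [h5]; nlinarith
  · rw [h4, h5]; nlinarith

theorem exists_fatouBieberbach : ∃ F : E2 → E2, SMap F ∧ ¬ Dense (range F) := by
  obtain ⟨F, r, hr, hF, hF0, hfun, hF1⟩ := exists_poincare (P := Pmap) isAut_pequiv.1
    (C := 64) (by norm_num) pmap_zero' pmap_lip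
  refine ⟨F, sMap_poincare isAut_pequiv hr (by norm_num) hF hfun hF1, fun hdense => ?_⟩
  have hopen : IsOpen {x : E2 | 3 < ‖x 1‖ ∧ ‖x 0‖ < ‖x 1‖} := by
    apply IsOpen.inter
    · exact isOpen_lt continuous_const (differentiable_coord 1).continuous.norm
    · exact isOpen_lt (differentiable_coord 0).continuous.norm
        (differentiable_coord 1).continuous.norm
  obtain ⟨x, ⟨y, rfl⟩, hx⟩ := hdense.exists_mem_open hopen ⟨!₂[0, 4], by simp; norm_num⟩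
  have hV : ∀ n : ℕ, F (((2 : ℂ) ^ n)⁻¹ • y) ∈ Vset := by
    intro n
    induction n with
    | zero =>
      have h0 : F y ∈ Vset := ⟨hx.1.le, hx.2.le⟩
      rwa [pow_zero, inv_one, one_smul]
    | succ n ih =>
      have h1 := hmap_vset ih
      have h2 : Hmap (F (((2 : ℂ) ^ n)⁻¹ • y)) = F (((2 : ℂ) ^ (n + 1))⁻¹ • y) := by
        have h3 : ((2 : ℂ) ^ n)⁻¹ • y = (2 : ℂ) • (((2 : ℂ) ^ (n + 1))⁻¹ • y) := by
          rw [smul_smul, pow_succ]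
          congr 1
          field_simp
        rw [h3, hfun]
        exact Pequiv.left_inv _
      rwa [h2] at h1
  have hlim : Tendsto (fun n : ℕ => F (((2 : ℂ) ^ n)⁻¹ • y)) atTop (𝓝 (F 0)) := by
    apply (hF.continuous.tendsto 0).comp
    have h1 : Tendsto (fun n : ℕ => ((2 : ℂ) ^ n)⁻¹) atTop (𝓝 0) := by
      have : ∀ n : ℕ, ((2 : ℂ) ^ n)⁻¹ = ((2 : ℂ)⁻¹) ^ n := fun n => by rw [inv_pow]
      simp only [this]
      exact tendsto_pow_atTop_nhds_zero_of_norm_lt_one (by simp; norm_num)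
    simpa using h1.smul_const y
  rw [hF0] at hlim
  have hlim2 := ((differentiable_coord 1).continuous.norm.tendsto (0 : E2)).comp hlim
  have h3 : (3 : ℝ) ≤ ‖(0 : E2) 1‖ := ge_of_tendsto' hlim2 (fun n => (hV n).1)
  simp at h3
  norm_num at h3

end Pool.Agent.Helper857
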