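import Mathlib

set_option autoImplicit false

open Set Filter

namespace Pool.Agent.Helper857

section chain

variable {X : Type} {ι : Type} [LinearOrder ι]

/-- transition maps from the raw data `T j i` (map from level `i` to level `j`, for `i < j`) -/
def sys (T : ι → ι → X → X) (i j : ι) : X → X := if i < j then T j i else id

theorem sys_self (T : ι → ι → X → X) (i : ι) : sys T i i = id := by simp [sys]

theorem sys_lt (T : ι → ι → X → X) {i j : ι} (h : i < j) : sys T i j = T j i := by simp [sys, h]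

def Coh (S : (X → X) → Prop) (k : ι) (T : ι → ι → X → X) : Prop :=
  ∀ i j l, i ≤ j → j ≤ l → l < k → sys T j l ∘ sys T i j = sys T i l ∧ S (sys T i l)

def Ext (S : (X → X) → Prop) (F₀ : X → X) (k : ι) (T : ι → ι → X → X) (g : ι → X → X) : Prop :=
  (∀ i < k, S (g i)) ∧ (∀ i j, i ≤ j → j < k → g j ∘ sys T i j = g i) ∧
    ∀ i < k, ∃ u, g i = F₀ ∘ u

theorem exists_ext {S : (X → X) → Prop} {F₀ : X → X}
    (hcomp : ∀ f g, S f → S g → S (g ∘ f)) (hF₀ : S F₀)
    (hlim : ∀ F : ℕ → X → X, (∀ n, S (F n)) →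
      ∃ G : ℕ → X → X, (∀ n, S (G n)) ∧ ∀ n, G (n + 1) ∘ F n = G n)
    {k : ι} (hk : (Iio k).Countable) {T : ι → ι → X → X} (hT : Coh S k T) :
    ∃ g, Ext S F₀ k T g := by
  by_cases hne : (Iio k).Nonempty
  · have : Nonempty (Iio k) := hne.to_subtype
    have : Countable (Iio k) := hk.to_subtype
    obtain ⟨a, ha, hat⟩ := exists_seq_monotone_tendsto_atTop_atTop (Iio k)
    have hcof : ∀ i : Iio k, ∃ n, i ≤ a n := fun i => (hat.eventually (eventually_ge_atTop i)).exists
    have hlt : ∀ n, ((a n : Iio k) : ι) < k := fun n => (a n).2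
    have hmono : ∀ {m n : ℕ}, m ≤ n → ((a m : Iio k) : ι) ≤ a n := fun h => ha h
    obtain ⟨G, hG, hGF⟩ := hlim (fun n => sys T (a n) (a (n + 1)))
      (fun n => (hT _ _ _ (hmono (Nat.le_succ n)) le_rfl (hlt _)).2)
    have hcof' : ∀ i : ι, ∃ n, i < k → i ≤ (a n : ι) := by
      intro i
      by_cases hi : i < k
      · obtain ⟨n, hn⟩ := hcof ⟨i, hi⟩
        exact ⟨n, fun _ => hn⟩
      · exact ⟨0, fun h => absurd h hi⟩
    choose N hN using hcof'
    have hind : ∀ i : ι, ∀ n m, i ≤ (a n : ι) → n ≤ m → G m ∘ sys T i (a m) = G n ∘ sys T i (a n) := by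
      intro i n m hi hnm
      induction m, hnm using Nat.le_induction with
      | base => rfl
      | succ m hm ih =>
        have h1 := (hT i (a m) (a (m + 1)) (le_trans hi (hmono hm)) (hmono (Nat.le_succ m)) (hlt _)).1
        rw [← h1, ← Function.comp_assoc, hGF m, ih]
    have hind' : ∀ i : ι, ∀ n m, i ≤ (a n : ι) → i ≤ (a m : ι) → G m ∘ sys T i (a m) = G n ∘ sys T i (a n) := by
      intro i n m hn hm
      rcases le_total n m with h | h
      · exact hind i n m hn h
      · exact (hind i m n hm h).symm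
    refine ⟨fun i => F₀ ∘ G (N i) ∘ sys T i (a (N i)), fun i hi => ?_, fun i j hij hj => ?_,
      fun i _ => ⟨_, rfl⟩⟩
    · exact hcomp _ _ (hcomp _ _ (hT i _ _ (hN i hi) le_rfl (hlt _)).2 (hG _)) hF₀
    · have h1 := (hT i j (a (N j)) hij (hN j hj) (hlt _)).1
      have h2 := hind' i (N i) (N j) (hN i (lt_of_le_of_lt hij hj)) (le_trans hij (hN j hj))
      change F₀ ∘ G (N j) ∘ (sys T j (a (N j)) ∘ sys T i j) = _
      rw [h1, h2]
  · have hno : ∀ i, ¬ i < k := fun i hi => hne ⟨i, hi⟩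
    exact ⟨fun _ => id, fun i hi => absurd hi (hno i), fun i j _ hj => absurd hj (hno j),
      fun i hi => absurd hi (hno i)⟩

theorem ext_congr {S : (X → X) → Prop} {F₀ : X → X} {k : ι} {T T' : ι → ι → X → X}
    (h : ∀ j < k, T j = T' j) (g : ι → X → X) : Ext S F₀ k T g ↔ Ext S F₀ k T' g := by
  have h1 : ∀ i j, j < k → sys T i j = sys T' i j := by
    intro i j hj
    unfold sys
    rw [h j hj]
  unfold Ext
  constructor
  · rintro ⟨a, b, c⟩
    exact ⟨a, fun i j hij hj => by rw [← h1 i j hj]; exact b i j hij hj, c⟩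
  · rintro ⟨a, b, c⟩
    exact ⟨a, fun i j hij hj => by rw [h1 i j hj]; exact b i j hij hj, c⟩

variable [WellFoundedLT ι]

open Classical in
noncomputable def stepT (S : (X → X) → Prop) (F₀ : X → X) (k : ι)
    (rec : (j : ι) → j < k → ι → X → X) : ι → X → X :=
  if h : ∃ g, Ext S F₀ k (fun j => if hj : j < k then rec j hj else fun _ => id) g then
    h.choose else fun _ => id

noncomputable def rawT (S : (X → X) → Prop) (F₀ : X → X) : ι → ι → X → X :=
  (wellFounded_lt (α := ι)).fix (stepT S F₀)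

theorem rawT_eq (S : (X → X) → Prop) (F₀ : X → X) (k : ι) :
    rawT S F₀ k = stepT S F₀ k (fun j _ => rawT S F₀ j) := by
  unfold rawT
  rw [WellFounded.fix_eq]

omit [WellFoundedLT ι] in
theorem coh_of_ext {S : (X → X) → Prop} {F₀ : X → X} (hid : S id) {k : ι} {T : ι → ι → X → X}
    (h : ∀ j < k, Ext S F₀ j T (T j)) : Coh S k T := by
  intro i j l hij hjl hlk
  have hS : S (sys T i l) := by
    rcases (le_trans hij hjl).lt_or_eq with h1 | h1
    · rw [sys_lt T h1]
      exact (h l hlk).1 i h1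
    · rw [h1, sys_self]; exact hid
  refine ⟨?_, hS⟩
  rcases hjl.lt_or_eq with h1 | h1
  · rw [sys_lt T h1, sys_lt T (lt_of_le_of_lt hij h1)]
    exact (h l hlk).2.1 i j hij h1
  · rw [h1, sys_self]; rfl

theorem rawT_ext {S : (X → X) → Prop} {F₀ : X → X} (hid : S id)
    (hcomp : ∀ f g, S f → S g → S (g ∘ f)) (hF₀ : S F₀)
    (hlim : ∀ F : ℕ → X → X, (∀ n, S (F n)) →
      ∃ G : ℕ → X → X, (∀ n, S (G n)) ∧ ∀ n, G (n + 1) ∘ F n = G n)
    (hcount : ∀ k : ι, (Iio k).Countable) (k : ι) :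
    Ext S F₀ k (rawT S F₀) (rawT S F₀ k) := by
  induction k using (wellFounded_lt (α := ι)).induction with
  | _ k ih =>
    have hcoh : Coh S k (rawT S F₀) := coh_of_ext hid ih
    obtain ⟨g, hg⟩ := exists_ext hcomp hF₀ hlim (hcount k) hcoh
    have hcongr : ∀ g : ι → X → X, Ext S F₀ k (rawT S F₀) g ↔
        Ext S F₀ k (fun j => if hj : j < k then rawT S F₀ j else fun _ => id) g := by
      intro g
      apply ext_congr
      intro j hj
      simp [hj]
    have hex : ∃ g, Ext S F₀ k (fun j => if hj : j < k then rawT S F₀ j else fun _ => id) g :=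
      ⟨g, (hcongr g).1 hg⟩
    rw [hcongr, rawT_eq S F₀ k]
    unfold stepT
    rw [dif_pos hex]
    exact hex.choose_spec

/-- a chain of maps indexed by a well order all of whose initial segments are countable -/
theorem exists_chain {S : (X → X) → Prop} {F₀ : X → X} (hid : S id)
    (hcomp : ∀ f g, S f → S g → S (g ∘ f)) (hF₀ : S F₀)
    (hlim : ∀ F : ℕ → X → X, (∀ n, S (F n)) →
      ∃ G : ℕ → X → X, (∀ n, S (G n)) ∧ ∀ n, G (n + 1) ∘ F n = G n)
    (hcount : ∀ k : ι, (Iio k).Countable) (hmax : ∀ k : ι, ∃ l, k < l) :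
    ∃ Φ : ι → ι → X → X, (∀ i, Φ i i = id) ∧ (∀ i j, i ≤ j → S (Φ i j)) ∧
      (∀ i j k, i ≤ j → j ≤ k → Φ j k ∘ Φ i j = Φ i k) ∧
      ∀ i j, i < j → ∃ u, Φ i j = F₀ ∘ u := by
  have hext := rawT_ext hid hcomp hF₀ hlim hcount
  refine ⟨sys (rawT S F₀), sys_self _, fun i j hij => ?_, fun i j k hij hjk => ?_,
    fun i j hij => ?_⟩
  · obtain ⟨l, hl⟩ := hmax j
    exact (coh_of_ext hid (fun m _ => hext m) i i j le_rfl hij hl).2
  · obtain ⟨l, hl⟩ := hmax k
    exact (coh_of_ext hid (fun m _ => hext m) i j k hij hjk hl).1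
  · rw [sys_lt _ hij]
    exact (hext j).2.2 i hij

end chain

/-- a well order of type `ω₁` -/
abbrev Om : Type := (Cardinal.aleph 1 : Cardinal.{0}).ord.ToType

theorem om_countable_Iio (k : Om) : (Iio k).Countable := by
  rw [← Cardinal.le_aleph0_iff_set_countable, ← Cardinal.lt_aleph_one_iff]
  simpa using Cardinal.mk_Iio_lt k (by simp)

theorem om_bounded (s : Set Om) (hs : s.Countable) : ∃ k : Om, ∀ i ∈ s, i < k := by
  by_contra hcon
  push Not at hcon
  have h1 : (univ : Set Om) ⊆ ⋃ i ∈ s, Iic i := by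
    intro k _
    obtain ⟨i, hi, hki⟩ := hcon k
    exact mem_biUnion hi hki
  have h2 : (⋃ i ∈ s, Iic i).Countable := by
    apply hs.biUnion
    intro i _
    rw [← Iio_insert]
    exact (om_countable_Iio i).insert i
  have h3 : (univ : Set Om).Countable := h2.mono h1
  rw [← Cardinal.le_aleph0_iff_set_countable, Cardinal.mk_univ] at h3
  simp at h3

theorem om_nonempty : Nonempty Om := by
  obtain ⟨k, -⟩ := om_bounded ∅ countable_empty
  exact ⟨k⟩

end Pool.Agent.Helper857
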