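import Pool.Agent.Helper857.C2
import Pool.Agent.Helper857.D1

set_option autoImplicit false

open Set Metric Filter Topology

namespace Pool.Agent.Helper857

/-- a direct system of copies of `ℂ²` over a linearly ordered index type -/
structure Chain (ι : Type) [LinearOrder ι] where
  Φ : ι → ι → E2 → E2
  self' : ∀ i, Φ i i = id
  smap' : ∀ i j, i ≤ j → SMap (Φ i j)
  comp' : ∀ i j k, i ≤ j → j ≤ k → Φ j k ∘ Φ i j = Φ i k

namespace Chain

variable {ι : Type} [LinearOrder ι] (c : Chain ι)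

theorem comp_apply {i j k : ι} (hij : i ≤ j) (hjk : j ≤ k) (x : E2) :
    c.Φ j k (c.Φ i j x) = c.Φ i k x := congrFun (c.comp' i j k hij hjk) x

theorem inj {i j : ι} (h : i ≤ j) : Function.Injective (c.Φ i j) := (c.smap' i j h).injective

def rel (p q : ι × E2) : Prop := ∃ k, p.1 ≤ k ∧ q.1 ≤ k ∧ c.Φ p.1 k p.2 = c.Φ q.1 k q.2

theorem rel_iff {p q : ι × E2} {k : ι} (hp : p.1 ≤ k) (hq : q.1 ≤ k) :
    c.rel p q ↔ c.Φ p.1 k p.2 = c.Φ q.1 k q.2 := by
  constructor
  · rintro ⟨l, hl₁, hl₂, h⟩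
    have h1 := c.comp_apply hp (le_max_left k l) p.2
    have h2 := c.comp_apply hq (le_max_left k l) q.2
    have h3 := c.comp_apply hl₁ (le_max_right k l) p.2
    have h4 := c.comp_apply hl₂ (le_max_right k l) q.2
    apply c.inj (le_max_left k l)
    rw [h1, h2, ← h3, ← h4, h]
  · intro h
    exact ⟨k, hp, hq, h⟩

def setoid : Setoid (ι × E2) where
  r := c.rel
  iseqv := by
    refine ⟨fun p => ⟨p.1, le_rfl, le_rfl, rfl⟩, fun {p q} => ?_, fun {p q r} => ?_⟩
    · rintro ⟨k, h1, h2, h3⟩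
      exact ⟨k, h2, h1, h3.symm⟩
    · rintro ⟨k, h1, h2, h3⟩ ⟨l, h4, h5, h6⟩
      have a1 := (c.rel_iff (k := max k l) (le_trans h1 (le_max_left k l))
        (le_trans h2 (le_max_left k l))).1 ⟨k, h1, h2, h3⟩
      have a2 := (c.rel_iff (k := max k l) (le_trans h4 (le_max_right k l))
        (le_trans h5 (le_max_right k l))).1 ⟨l, h4, h5, h6⟩
      exact ⟨max k l, le_trans h1 (le_max_left k l), le_trans h5 (le_max_right k l), a1.trans a2⟩

/-- the direct limit -/
def M : Type := Quotient c.setoid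

/-- the canonical map of level `i` to the direct limit -/
def inc (i : ι) (x : E2) : c.M := Quotient.mk c.setoid (i, x)

theorem inc_eq_inc_iff {i j k : ι} (hi : i ≤ k) (hj : j ≤ k) (x y : E2) :
    c.inc i x = c.inc j y ↔ c.Φ i k x = c.Φ j k y := by
  have h1 : c.inc i x = c.inc j y ↔ c.rel (i, x) (j, y) :=
    ⟨fun h => Quotient.exact (s := c.setoid) h, fun h => Quotient.sound (s := c.setoid) h⟩
  rw [h1]
  exact c.rel_iff (p := (i, x)) (q := (j, y)) hi hj

theorem inc_comp {i j : ι} (hij : i ≤ j) (x : E2) : c.inc j (c.Φ i j x) = c.inc i x := by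
  rw [c.inc_eq_inc_iff le_rfl hij, c.self']; rfl

theorem inc_injective (i : ι) : Function.Injective (c.inc i) := by
  intro x y h
  rw [c.inc_eq_inc_iff le_rfl le_rfl, c.self'] at h
  exact h

theorem exists_rep (m : c.M) : ∃ i x, c.inc i x = m := by
  induction m using Quotient.inductionOn with
  | _ p => exact ⟨p.1, p.2, rfl⟩

theorem exists_rep₂ (m m' : c.M) : ∃ i x y, c.inc i x = m ∧ c.inc i y = m' := by
  obtain ⟨i, x, rfl⟩ := c.exists_rep m
  obtain ⟨j, y, rfl⟩ := c.exists_rep m'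
  exact ⟨max i j, _, _, c.inc_comp (le_max_left i j) x, c.inc_comp (le_max_right i j) y⟩

noncomputable instance : TopologicalSpace c.M := ⨆ i, TopologicalSpace.coinduced (c.inc i) inferInstance

theorem isOpen_iff (U : Set c.M) : IsOpen U ↔ ∀ i, IsOpen (c.inc i ⁻¹' U) := by
  change IsOpen[⨆ i, TopologicalSpace.coinduced (c.inc i) inferInstance] U ↔ _
  rw [isOpen_iSup_iff]
  rfl

theorem inc_continuous (i : ι) : Continuous (c.inc i) :=
  ⟨fun U hU => (c.isOpen_iff U).1 hU i⟩

theorem inc_isOpenMap (i : ι) : IsOpenMap (c.inc i) := by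
  intro U hU
  rw [c.isOpen_iff]
  intro j
  have h1 : c.inc j ⁻¹' (c.inc i '' U) = c.Φ j (max i j) ⁻¹' (c.Φ i (max i j) '' U) := by
    ext y
    simp only [mem_preimage, mem_image]
    constructor
    · rintro ⟨x, hx, h⟩
      exact ⟨x, hx, (c.inc_eq_inc_iff (le_max_left i j) (le_max_right i j) x y).1 h⟩
    · rintro ⟨x, hx, h⟩
      exact ⟨x, hx, (c.inc_eq_inc_iff (le_max_left i j) (le_max_right i j) x y).2 h⟩
  rw [h1]
  exact ((c.smap' _ _ (le_max_left i j)).isOpenMap U hU).preimage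
    (c.smap' _ _ (le_max_right i j)).1.continuous

theorem inc_isOpenEmbedding (i : ι) : IsOpenEmbedding (c.inc i) :=
  .of_continuous_injective_isOpenMap (c.inc_continuous i) (c.inc_injective i) (c.inc_isOpenMap i)

noncomputable def chart (i : ι) : OpenPartialHomeomorph c.M E2 :=
  ((c.inc_isOpenEmbedding i).toOpenPartialHomeomorph (c.inc i)).symm

theorem chart_source (i : ι) : (c.chart i).source = range (c.inc i) := by
  simp [chart]

theorem chart_inc (i : ι) (x : E2) : c.chart i (c.inc i x) = x := by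
  have := ((c.inc_isOpenEmbedding i).toOpenPartialHomeomorph (c.inc i)).left_inv (x := x) (by simp)
  simpa [chart] using this

theorem chart_symm (i : ι) (x : E2) : (c.chart i).symm x = c.inc i x := by
  simp [chart]

noncomputable instance : ChartedSpace E2 c.M where
  atlas := {e | ∃ i, e = c.chart i}
  chartAt m := c.chart (c.exists_rep m).choose
  mem_chart_source m := by
    rw [c.chart_source]
    exact ⟨_, (c.exists_rep m).choose_spec.choose_spec⟩
  chart_mem_atlas m := ⟨_, rfl⟩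

theorem isManifold : IsManifold (modelWithCornersSelf ℂ E2) (⊤ : WithTop ℕ∞) c.M := by
  apply isManifold_of_contDiffOn
  rintro e e' ⟨i, rfl⟩ ⟨j, rfl⟩
  intro x hx
  simp only [modelWithCornersSelf_coe, modelWithCornersSelf_coe_symm, preimage_id_eq, id_eq,
    range_id, inter_univ] at hx ⊢
  simp only [Function.comp_def, id_eq, OpenPartialHomeomorph.coe_trans]
  rw [OpenPartialHomeomorph.trans_source] at hx
  have hx2 : c.inc i x ∈ range (c.inc j) := by
    have := hx.2
    rw [mem_preimage, chart_symm, chart_source] at this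
    exact this
  obtain ⟨y, hy⟩ := hx2
  set k := max i j with hk
  have hik : i ≤ k := le_max_left i j
  have hjk : j ≤ k := le_max_right i j
  have hxy : c.Φ j k y = c.Φ i k x := (c.inc_eq_inc_iff hjk hik y x).1 hy
  have hsj := c.smap' j k hjk
  have hsi := c.smap' i k hik
  have hoe : IsOpenEmbedding (c.Φ j k) :=
    .of_continuous_injective_isOpenMap hsj.1.continuous hsj.injective hsj.isOpenMap
  let e := hoe.toOpenPartialHomeomorph (c.Φ j k)
  have hesource : e.source = univ := by simp [e]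
  have hecoe : ⇑e = c.Φ j k := by simp [e]
  obtain ⟨f', hf'⟩ := hsj.exists_fderiv_equiv y
  have htarget : c.Φ i k x ∈ e.target := by
    simp only [e, IsOpenEmbedding.toOpenPartialHomeomorph_target]
    exact ⟨y, hxy⟩
  have hsymm : e.symm (c.Φ i k x) = y := by
    rw [← hxy]
    have := e.left_inv (x := y) (by rw [hesource]; trivial)
    rwa [hecoe] at this
  have hcd : ContDiffAt ℂ (⊤ : WithTop ℕ∞) e.symm (c.Φ i k x) := by
    apply e.contDiffAt_symm (f₀' := f') htarget
    · rw [hsymm, hecoe]; exact hf'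
    · rw [hsymm, hecoe]; exact (contDiff_omega_of_entire hsj.1).contDiffAt
  have hcd2 : ContDiffAt ℂ (⊤ : WithTop ℕ∞) (fun z => e.symm (c.Φ i k z)) x :=
    hcd.comp x (contDiff_omega_of_entire hsi.1).contDiffAt
  have hev : (fun z => c.chart j ((c.chart i).symm z)) =ᶠ[𝓝 x] fun z => e.symm (c.Φ i k z) := by
    have hop : IsOpen (c.inc i ⁻¹' range (c.inc j)) :=
      (c.inc_isOpenMap j).isOpen_range.preimage (c.inc_continuous i)
    filter_upwards [hop.mem_nhds ⟨y, hy⟩] with z hz
    obtain ⟨w, hw⟩ := hz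
    have hzw : c.Φ j k w = c.Φ i k z := (c.inc_eq_inc_iff hjk hik w z).1 hw
    rw [chart_symm, ← hw, chart_inc, ← hzw]
    have := e.left_inv (x := w) (by rw [hesource]; trivial)
    rw [hecoe] at this
    exact this.symm
  exact (hcd2.congr_of_eventuallyEq hev).contDiffWithinAt

theorem t2Space : T2Space c.M := by
  refine ⟨fun m m' hne => ?_⟩
  obtain ⟨i, x, y, rfl, rfl⟩ := c.exists_rep₂ m m'
  have hxy : x ≠ y := fun h => hne (by rw [h])
  obtain ⟨U, V, hU, hV, hxU, hyV, hUV⟩ := t2_separation hxy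
  exact ⟨c.inc i '' U, c.inc i '' V, c.inc_isOpenMap i U hU, c.inc_isOpenMap i V hV,
    mem_image_of_mem _ hxU, mem_image_of_mem _ hyV,
    (disjoint_image_iff (c.inc_injective i)).2 hUV⟩

theorem connectedSpace [Nonempty ι] : ConnectedSpace c.M := by
  have h1 : PreconnectedSpace c.M := by
    refine ⟨isPreconnected_of_forall_pair fun m _ m' _ => ?_⟩
    obtain ⟨i, x, y, rfl, rfl⟩ := c.exists_rep₂ m m'
    exact ⟨range (c.inc i), subset_univ _, mem_range_self x, mem_range_self y,
      isPreconnected_range (c.inc_continuous i)⟩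
  have h2 : Nonempty c.M := ⟨c.inc (Classical.arbitrary ι) 0⟩
  exact ⟨h2⟩

end Chain

theorem exists_chain_om : ∃ (c : Chain Om) (F₀ : E2 → E2), ¬ Dense (range F₀) ∧
    ∀ i j, i < j → ∃ u, c.Φ i j = F₀ ∘ u := by
  obtain ⟨F₀, hF₀, hnd⟩ := exists_fatouBieberbach
  obtain ⟨Φ, h1, h2, h3, h4⟩ := exists_chain (ι := Om) (S := SMap (E := E2)) sMap_id
    (fun f g hf hg => hg.comp hf) hF₀ (fun F hF => exists_cocone hF) om_countable_Iio
    (fun k => by
      obtain ⟨l, hl⟩ := om_bounded {k} (countable_singleton k)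
      exact ⟨l, hl k rfl⟩)
  exact ⟨⟨Φ, h1, h2, h3⟩, F₀, hnd, h4⟩

theorem Chain.not_separable (c : Chain Om) {F₀ : E2 → E2} (hnd : ¬ Dense (range F₀))
    (h : ∀ i j, i < j → ∃ u, c.Φ i j = F₀ ∘ u) : ¬ TopologicalSpace.SeparableSpace c.M := by
  rintro ⟨D, hDc, hD⟩
  choose lev rep hrep using c.exists_rep
  obtain ⟨k, hk⟩ := om_bounded (lev '' D) (hDc.image lev)
  obtain ⟨l, hl⟩ := om_bounded {k} (countable_singleton k)
  have hkl : k < l := hl k rfl
  obtain ⟨u, hu⟩ := h k l hkl
  have hopen : IsOpen (closure (range F₀))ᶜ := isClosed_closure.isOpen_compl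
  have hne : ((closure (range F₀))ᶜ).Nonempty := by
    rw [Set.nonempty_compl]
    intro h1
    exact hnd (dense_iff_closure_eq.2 h1)
  obtain ⟨d, hdD, ⟨v, hv, hvd⟩⟩ := hD.exists_mem_open (c.inc_isOpenMap l _ hopen) (hne.image _)
  have hlev : lev d ≤ k := (hk _ (mem_image_of_mem lev hdD)).le
  apply hv
  apply subset_closure
  have h2 : c.inc l v = c.inc (lev d) (rep d) := by rw [hvd, hrep]
  have h3 := (c.inc_eq_inc_iff le_rfl (le_trans hlev hkl.le) _ _).1 h2
  rw [c.self', ← c.comp_apply hlev hkl.le, hu] at h3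
  exact ⟨_, h3.symm⟩

end Pool.Agent.Helper857
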