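import Mathlib

set_option autoImplicit false

namespace Pool.Agent.Helper857.PV

open MvPolynomial

/-- exponent vectors of the monomials of degree `d` in `n` variables with at most `s` variables -/
abbrev Gen (n d s : ℕ) : Type :=
  {a : Fin n → ℕ // ∑ i, a i = d ∧ (Finset.univ.filter (fun i => a i ≠ 0)).card ≤ s}

/-- the monomial with exponent vector `a` -/
noncomputable def mon (K : Type) [Field K] (n : ℕ) (a : Fin n → ℕ) : MvPolynomial (Fin n) K :=
  ∏ i, X i ^ a i

/-- the presentation map of the pinched Veronese algebra -/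
noncomputable def Phi (K : Type) [Field K] (n d s : ℕ) :
    MvPolynomial (Gen n d s) K →ₐ[K] MvPolynomial (Fin n) K :=
  aeval (fun m : Gen n d s => mon K n m.1)

/-- the kernel of the presentation map is generated by homogeneous polynomials of degree 2 -/
def IsQuadratic (K : Type) [Field K] (n d s : ℕ) : Prop :=
  RingHom.ker (Phi K n d s) =
    Ideal.span {f | f ∈ RingHom.ker (Phi K n d s) ∧ f.IsHomogeneous 2}

lemma mon_eq (K : Type) [Field K] (n : ℕ) (a : Fin n → ℕ) :
    mon K n a = monomial (Finsupp.equivFunOnFinite.symm a) 1 := by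
  rw [monomial_eq, mon]
  simp only [map_one, one_mul]
  rw [Finsupp.prod_fintype]
  · rfl
  · intro i; simp

/-- total exponent vector of a monomial in the `t`-variables -/
noncomputable def wt {n d s : ℕ} (b : Gen n d s →₀ ℕ) : Fin n →₀ ℕ :=
  b.sum (fun m k => k • Finsupp.equivFunOnFinite.symm m.1)

lemma Phi_monomial (K : Type) [Field K] {n d s : ℕ} (b : Gen n d s →₀ ℕ) (c : K) :
    Phi K n d s (monomial b c) = monomial (wt b) c := by
  rw [Phi, aeval_monomial]
  have : (b.prod fun i k => mon K n i.1 ^ k) = monomial (wt b) (1 : K) := by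
    rw [wt, Finsupp.sum, Finsupp.prod, MvPolynomial.monomial_sum_one]
    apply Finset.prod_congr rfl
    intro i _
    rw [mon_eq, monomial_pow, one_pow]
  rw [this, algebraMap_eq, C_mul_monomial, mul_one]

lemma coeff_Phi (K : Type) [Field K] {n d s : ℕ} (q : MvPolynomial (Gen n d s) K)
    (c : Fin n →₀ ℕ) :
    coeff c (Phi K n d s q) = ∑ b ∈ q.support, if wt b = c then coeff b q else 0 := by
  conv_lhs => rw [q.as_sum, map_sum, coeff_sum]
  apply Finset.sum_congr rfl
  intro b _
  rw [Phi_monomial, coeff_monomial]

lemma wt_add {n d s : ℕ} (u v : Gen n d s) :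
    wt (Finsupp.single u 1 + Finsupp.single v 1)
      = Finsupp.equivFunOnFinite.symm u.1 + Finsupp.equivFunOnFinite.symm v.1 := by
  classical
  rw [wt, Finsupp.sum_add_index', Finsupp.sum_single_index, Finsupp.sum_single_index]
  · simp
  · simp
  · simp
  · intro a; simp
  · intro a b c; rw [add_smul]

/-- a Finsupp of total degree one / two -/
lemma deg_one {α : Type} (a : α →₀ ℕ) (h : a.degree = 1) : ∃ u, a = Finsupp.single u 1 := by
  classical
  have hne : a ≠ 0 := by
    rintro rfl
    simp at h
  obtain ⟨u, hu⟩ := Finsupp.ne_iff.mp hne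
  simp only [Finsupp.coe_zero, Pi.zero_apply] at hu
  refine ⟨u, ?_⟩
  have hle : Finsupp.single u 1 ≤ a := by
    rw [Finsupp.single_le_iff]; omega
  have h2 : a = Finsupp.single u 1 + (a - Finsupp.single u 1) := (add_tsub_cancel_of_le hle).symm
  have h3 : (a - Finsupp.single u 1).degree = 0 := by
    have := congrArg Finsupp.degree h2
    rw [map_add, h, Finsupp.degree_single] at this
    omega
  have h4 : a - Finsupp.single u 1 = 0 := Finsupp.degree_eq_zero_iff _ |>.mp h3
  rw [h2, h4, add_zero]

lemma deg_two {α : Type} (a : α →₀ ℕ) (h : a.degree = 2) :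
    ∃ u v, a = Finsupp.single u 1 + Finsupp.single v 1 := by
  classical
  have hne : a ≠ 0 := by
    rintro rfl
    simp at h
  obtain ⟨u, hu⟩ := Finsupp.ne_iff.mp hne
  simp only [Finsupp.coe_zero, Pi.zero_apply] at hu
  have hle : Finsupp.single u 1 ≤ a := by
    rw [Finsupp.single_le_iff]; omega
  have h2 : a = Finsupp.single u 1 + (a - Finsupp.single u 1) := (add_tsub_cancel_of_le hle).symm
  have h3 : (a - Finsupp.single u 1).degree = 1 := by
    have := congrArg Finsupp.degree h2
    rw [map_add, h, Finsupp.degree_single] at this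
    omega
  obtain ⟨v, hv⟩ := deg_one _ h3
  exact ⟨u, v, by rw [← hv]; exact h2⟩

/-- rigid pair: the product has only one factorisation -/
def Rigid {n d s : ℕ} (g g' : Gen n d s) : Prop :=
  ∀ u v : Gen n d s, (∀ i, u.1 i + v.1 i = g.1 i + g'.1 i) → (u = g ∧ v = g') ∨ (u = g' ∧ v = g)

lemma coeff_rigid (K : Type) [Field K] {n d s : ℕ} {g g' : Gen n d s} (hr : Rigid g g')
    {q : MvPolynomial (Gen n d s) K} (hq : q ∈ RingHom.ker (Phi K n d s))
    (hh : q.IsHomogeneous 2) : coeff (Finsupp.single g 1 + Finsupp.single g' 1) q = 0 := by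
  classical
  have h0 : Phi K n d s q = 0 := hq
  have h1 := coeff_Phi K q (wt (Finsupp.single g 1 + Finsupp.single g' 1))
  rw [h0, coeff_zero] at h1
  by_cases hs : Finsupp.single g 1 + Finsupp.single g' 1 ∈ q.support
  · rw [Finset.sum_eq_single (Finsupp.single g 1 + Finsupp.single g' 1)] at h1
    · rw [if_pos rfl] at h1; exact h1.symm
    · intro b hb hne
      rw [if_neg]
      intro hw
      apply hne
      have hdeg : b.degree = 2 := by
        by_contra hd
        exact (mem_support_iff.mp hb) (hh.coeff_eq_zero hd)
      obtain ⟨u, v, rfl⟩ := deg_two b hdeg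
      rw [wt_add, wt_add] at hw
      have := hr u v (by
        intro i
        have h3 := DFunLike.congr_fun hw i
        simpa using h3)
      rcases this with ⟨rfl, rfl⟩ | ⟨rfl, rfl⟩
      · rfl
      · rw [add_comm]
    · intro hns; exact absurd hs hns
  · exact notMem_support_iff.mp hs

theorem not_quadratic (K : Type) [Field K] {n d s : ℕ} (g1 g2 g3 h1 h2 h3 : Gen n d s)
    (h12 : Rigid g1 g2) (h13 : Rigid g1 g3) (h23 : Rigid g2 g3)
    (hsum : ∀ i, g1.1 i + g2.1 i + g3.1 i = h1.1 i + h2.1 i + h3.1 i)
    (hn1 : h1 ≠ g1) (hn2 : h1 ≠ g2) (hn3 : h1 ≠ g3) : ¬ IsQuadratic K n d s := by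
  classical
  intro hQ
  set e : Gen n d s →₀ ℕ := Finsupp.single g1 1 + Finsupp.single g2 1 + Finsupp.single g3 1 with he
  set e' : Gen n d s →₀ ℕ := Finsupp.single h1 1 + Finsupp.single h2 1 + Finsupp.single h3 1
    with he'
  have hwt : wt e = wt e' := by
    have k : ∀ u v w : Gen n d s, wt (Finsupp.single u 1 + Finsupp.single v 1 + Finsupp.single w 1)
        = Finsupp.equivFunOnFinite.symm u.1 + Finsupp.equivFunOnFinite.symm v.1
          + Finsupp.equivFunOnFinite.symm w.1 := by
      intro u v w
      rw [wt, Finsupp.sum_add_index', Finsupp.sum_add_index', Finsupp.sum_single_index,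
        Finsupp.sum_single_index, Finsupp.sum_single_index]
      · simp
      · simp
      · simp
      · simp
      · intro a; simp
      · intro a b c; rw [add_smul]
      · intro a; simp
      · intro a b c; rw [add_smul]
    rw [he, he', k, k]
    ext i
    simpa using hsum i
  have hf : (monomial e (1 : K) - monomial e' 1) ∈ RingHom.ker (Phi K n d s) := by
    rw [RingHom.mem_ker, map_sub, Phi_monomial, Phi_monomial, hwt, sub_self]
  rw [hQ] at hf
  have hedeg : e.degree = 3 := by
    rw [he, map_add, map_add, Finsupp.degree_single, Finsupp.degree_single,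
      Finsupp.degree_single]
  have hz' : ∀ f ∈ Ideal.span {f | f ∈ RingHom.ker (Phi K n d s) ∧ f.IsHomogeneous 2},
      ∀ p, coeff e (p * f) = 0 := by
    intro f hf
    refine Submodule.span_induction ?_ ?_ ?_ ?_ hf
    · rintro q ⟨hq, hh⟩ p
      rw [coeff_mul]
      apply Finset.sum_eq_zero
      rintro ⟨x, y⟩ hxy
      rw [Finset.HasAntidiagonal.mem_antidiagonal] at hxy
      simp only at hxy ⊢
      by_cases hy : y.degree = 2
      · have hx : x.degree = 1 := by
          have := congrArg Finsupp.degree hxy
          rw [map_add, hy, hedeg] at this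
          omega
        obtain ⟨u, rfl⟩ := deg_one x hx
        have hu : 0 < e u := by
          rw [← hxy]
          simp only [Finsupp.add_apply, Finsupp.single_eq_same]
          omega
        have hu3 : u = g1 ∨ u = g2 ∨ u = g3 := by
          by_contra hcon
          push Not at hcon
          rw [he] at hu
          simp only [Finsupp.add_apply] at hu
          rw [Finsupp.single_eq_of_ne hcon.1, Finsupp.single_eq_of_ne hcon.2.1,
            Finsupp.single_eq_of_ne hcon.2.2] at hu
          omega
        have hcy : coeff y q = 0 := by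
          rcases hu3 with rfl | rfl | rfl
          · have : y = Finsupp.single g2 1 + Finsupp.single g3 1 := by
              apply add_left_cancel (a := Finsupp.single u 1)
              rw [hxy, he, add_assoc]
            rw [this]; exact coeff_rigid K h23 hq hh
          · have : y = Finsupp.single g1 1 + Finsupp.single g3 1 := by
              apply add_left_cancel (a := Finsupp.single u 1)
              rw [hxy, he]; abel
            rw [this]; exact coeff_rigid K h13 hq hh
          · have : y = Finsupp.single g1 1 + Finsupp.single g2 1 := by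
              apply add_left_cancel (a := Finsupp.single u 1)
              rw [hxy, he]; abel
            rw [this]; exact coeff_rigid K h12 hq hh
        rw [hcy, mul_zero]
      · rw [hh.coeff_eq_zero hy, mul_zero]
    · intro p; simp
    · intro x y _ _ hx hy p
      rw [mul_add, coeff_add, hx, hy, add_zero]
    · intro a x _ hx p
      rw [smul_eq_mul, ← mul_assoc]
      exact hx (p * a)
  have hz : ∀ f ∈ Ideal.span {f | f ∈ RingHom.ker (Phi K n d s) ∧ f.IsHomogeneous 2},
      coeff e f = 0 := by
    intro f hf
    have := hz' f hf 1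
    rwa [one_mul] at this
  have h5 := hz _ hf
  rw [coeff_sub, coeff_monomial, coeff_monomial, if_pos rfl, if_neg] at h5
  · simp at h5
  · intro hee
    have h6 := DFunLike.congr_fun hee h1
    have h7 : e h1 = 0 := by
      rw [he]
      simp [hn1.symm, hn2.symm, hn3.symm]
    have h8 : 0 < e' h1 := by
      rw [he']
      simp only [Finsupp.add_apply, Finsupp.single_eq_same]
      omega
    omega

end Pool.Agent.Helper857.PV
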