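import Pool.Agent.Helper857.PVa

set_option autoImplicit false

namespace Pool.Agent.Helper857.PV

lemma three_zero {n d : ℕ} (u : Gen n d 2) (i j k : Fin n) (hij : i ≠ j) (hik : i ≠ k)
    (hjk : j ≠ k) : u.1 i = 0 ∨ u.1 j = 0 ∨ u.1 k = 0 := by
  classical
  by_contra hcon
  push Not at hcon
  have h1 : ({i, j, k} : Finset (Fin n)) ⊆ Finset.univ.filter (fun i => u.1 i ≠ 0) := by
    intro x hx
    simp only [Finset.mem_insert, Finset.mem_singleton] at hx
    rw [Finset.mem_filter]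
    refine ⟨Finset.mem_univ _, ?_⟩
    rcases hx with rfl | rfl | rfl
    · exact hcon.1
    · exact hcon.2.1
    · exact hcon.2.2
  have h2 := Finset.card_le_card h1
  rw [Finset.card_eq_three.mpr ⟨i, j, k, hij, hik, hjk, rfl⟩] at h2
  have := u.2.2
  omega

def vec (m a b c e : ℕ) : Fin (m + 4) → ℕ := fun i =>
  if i.val = 0 then a else if i.val = 1 then b else if i.val = 2 then c else
    if i.val = 3 then e else 0

def i0 (m : ℕ) : Fin (m + 4) := ⟨0, by omega⟩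
def i1 (m : ℕ) : Fin (m + 4) := ⟨1, by omega⟩
def i2 (m : ℕ) : Fin (m + 4) := ⟨2, by omega⟩
def i3 (m : ℕ) : Fin (m + 4) := ⟨3, by omega⟩

lemma sum_four {m : ℕ} (f : Fin (m + 4) → ℕ) (hf : ∀ i : Fin (m + 4), 4 ≤ i.val → f i = 0) :
    ∑ i, f i = f (i0 m) + f (i1 m) + f (i2 m) + f (i3 m) := by
  rw [Fin.sum_univ_succ, Fin.sum_univ_succ, Fin.sum_univ_succ, Fin.sum_univ_succ]
  rw [Finset.sum_eq_zero (s := Finset.univ)]
  · simp only [i0, i1, i2, i3]
    have e1 : (Fin.succ (0 : Fin (m + 3))) = ⟨1, by omega⟩ := rfl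
    have e2 : (Fin.succ (Fin.succ (0 : Fin (m + 2)))) = ⟨2, by omega⟩ := rfl
    have e3 : (Fin.succ (Fin.succ (Fin.succ (0 : Fin (m + 1))))) = ⟨3, by omega⟩ := rfl
    have e0 : (0 : Fin (m + 4)) = ⟨0, by omega⟩ := rfl
    rw [e1, e2, e3, e0]
    omega
  · intro i _
    apply hf
    simp only [Fin.val_succ]
    omega

lemma ext_four {m : ℕ} {f g : Fin (m + 4) → ℕ} (h0 : f (i0 m) = g (i0 m))
    (h1 : f (i1 m) = g (i1 m)) (h2 : f (i2 m) = g (i2 m)) (h3 : f (i3 m) = g (i3 m))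
    (h : ∀ i : Fin (m + 4), 4 ≤ i.val → f i = g i) : f = g := by
  funext i
  by_cases hi : 4 ≤ i.val
  · exact h i hi
  · have : i.val = 0 ∨ i.val = 1 ∨ i.val = 2 ∨ i.val = 3 := by omega
    rcases this with hh | hh | hh | hh
    · have : i = i0 m := Fin.ext hh
      rw [this]; exact h0
    · have : i = i1 m := Fin.ext hh
      rw [this]; exact h1
    · have : i = i2 m := Fin.ext hh
      rw [this]; exact h2
    · have : i = i3 m := Fin.ext hh
      rw [this]; exact h3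

lemma vec0 (m a b c e : ℕ) : vec m a b c e (i0 m) = a := rfl
lemma vec1 (m a b c e : ℕ) : vec m a b c e (i1 m) = b := rfl
lemma vec2 (m a b c e : ℕ) : vec m a b c e (i2 m) = c := rfl
lemma vec3 (m a b c e : ℕ) : vec m a b c e (i3 m) = e := rfl
lemma vec_ge (m a b c e : ℕ) (i : Fin (m + 4)) (hi : 4 ≤ i.val) : vec m a b c e i = 0 := by
  unfold vec
  rw [if_neg (by omega), if_neg (by omega), if_neg (by omega), if_neg (by omega)]

lemma card_two {m : ℕ} (f : Fin (m + 4) → ℕ) (p q : Fin (m + 4))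
    (h : ∀ i, i ≠ p → i ≠ q → f i = 0) :
    (Finset.univ.filter (fun i => f i ≠ 0)).card ≤ 2 := by
  classical
  have h1 : Finset.univ.filter (fun i => f i ≠ 0) ⊆ {p, q} := by
    intro x hx
    rw [Finset.mem_filter] at hx
    rw [Finset.mem_insert, Finset.mem_singleton]
    by_contra hcon
    push Not at hcon
    exact hx.2 (h x hcon.1 hcon.2)
  exact le_trans (Finset.card_le_card h1) Finset.card_le_two

lemma rigid_of {m d : ℕ} (g g' : Gen (m + 4) d 2)
    (hg : ∀ i : Fin (m + 4), 4 ≤ i.val → g.1 i = 0)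
    (hg' : ∀ i : Fin (m + 4), 4 ≤ i.val → g'.1 i = 0)
    (key : ∀ u0 u1 u2 u3 v0 v1 v2 v3 : ℕ,
      u0 + v0 = g.1 (i0 m) + g'.1 (i0 m) → u1 + v1 = g.1 (i1 m) + g'.1 (i1 m) →
      u2 + v2 = g.1 (i2 m) + g'.1 (i2 m) → u3 + v3 = g.1 (i3 m) + g'.1 (i3 m) →
      u0 + u1 + u2 + u3 = d → v0 + v1 + v2 + v3 = d →
      (u0 = 0 ∨ u1 = 0 ∨ u2 = 0) → (u0 = 0 ∨ u1 = 0 ∨ u3 = 0) → (u0 = 0 ∨ u2 = 0 ∨ u3 = 0) →
      (u1 = 0 ∨ u2 = 0 ∨ u3 = 0) →
      (v0 = 0 ∨ v1 = 0 ∨ v2 = 0) → (v0 = 0 ∨ v1 = 0 ∨ v3 = 0) → (v0 = 0 ∨ v2 = 0 ∨ v3 = 0) →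
      (v1 = 0 ∨ v2 = 0 ∨ v3 = 0) →
      (u0 = g.1 (i0 m) ∧ u1 = g.1 (i1 m) ∧ u2 = g.1 (i2 m) ∧ u3 = g.1 (i3 m)) ∨
      (u0 = g'.1 (i0 m) ∧ u1 = g'.1 (i1 m) ∧ u2 = g'.1 (i2 m) ∧ u3 = g'.1 (i3 m))) :
    Rigid g g' := by
  intro u v huv
  have hu : ∀ i : Fin (m + 4), 4 ≤ i.val → u.1 i = 0 := by
    intro i hi
    have := huv i
    rw [hg i hi, hg' i hi] at this
    omega
  have hv : ∀ i : Fin (m + 4), 4 ≤ i.val → v.1 i = 0 := by
    intro i hi
    have := huv i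
    rw [hg i hi, hg' i hi] at this
    omega
  have su := sum_four u.1 hu
  have sv := sum_four v.1 hv
  rw [u.2.1] at su
  rw [v.2.1] at sv
  have n01 : i0 m ≠ i1 m := by simp [i0, i1]
  have n02 : i0 m ≠ i2 m := by simp [i0, i2]
  have n03 : i0 m ≠ i3 m := by simp [i0, i3]
  have n12 : i1 m ≠ i2 m := by simp [i1, i2]
  have n13 : i1 m ≠ i3 m := by simp [i1, i3]
  have n23 : i2 m ≠ i3 m := by simp [i2, i3]
  have hk := key (u.1 (i0 m)) (u.1 (i1 m)) (u.1 (i2 m)) (u.1 (i3 m)) (v.1 (i0 m)) (v.1 (i1 m))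
    (v.1 (i2 m)) (v.1 (i3 m)) (huv _) (huv _) (huv _) (huv _) su.symm sv.symm
    (three_zero u _ _ _ n01 n02 n12) (three_zero u _ _ _ n01 n03 n13)
    (three_zero u _ _ _ n02 n03 n23) (three_zero u _ _ _ n12 n13 n23)
    (three_zero v _ _ _ n01 n02 n12) (three_zero v _ _ _ n01 n03 n13)
    (three_zero v _ _ _ n02 n03 n23) (three_zero v _ _ _ n12 n13 n23)
  have h0 := huv (i0 m)
  have h1 := huv (i1 m)
  have h2 := huv (i2 m)
  have h3 := huv (i3 m)
  rcases hk with ⟨a0, a1, a2, a3⟩ | ⟨a0, a1, a2, a3⟩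
  · left
    constructor
    · apply Subtype.ext
      exact ext_four a0 a1 a2 a3 (fun i hi => by rw [hu i hi, hg i hi])
    · apply Subtype.ext
      exact ext_four (by omega) (by omega) (by omega) (by omega)
        (fun i hi => by rw [hv i hi, hg' i hi])
  · right
    constructor
    · apply Subtype.ext
      exact ext_four a0 a1 a2 a3 (fun i hi => by rw [hu i hi, hg' i hi])
    · apply Subtype.ext
      exact ext_four (by omega) (by omega) (by omega) (by omega)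
        (fun i hi => by rw [hv i hi, hg i hi])

lemma arith12 (D u0 u1 u2 u3 v0 v1 v2 v3 : ℕ) (e0 : u0 + v0 = 3) (e1 : u1 + v1 = D + 4)
    (e2 : u2 + v2 = D + 2) (e3 : u3 + v3 = 1) (su : u0 + u1 + u2 + u3 = D + 5)
    (sv : v0 + v1 + v2 + v3 = D + 5)
    (a012 : u0 = 0 ∨ u1 = 0 ∨ u2 = 0) (a013 : u0 = 0 ∨ u1 = 0 ∨ u3 = 0)
    (a023 : u0 = 0 ∨ u2 = 0 ∨ u3 = 0) (a123 : u1 = 0 ∨ u2 = 0 ∨ u3 = 0)
    (b012 : v0 = 0 ∨ v1 = 0 ∨ v2 = 0) (b013 : v0 = 0 ∨ v1 = 0 ∨ v3 = 0)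
    (b023 : v0 = 0 ∨ v2 = 0 ∨ v3 = 0) (b123 : v1 = 0 ∨ v2 = 0 ∨ v3 = 0) :
    (u0 = 3 ∧ u1 = 0 ∧ u2 = D + 2 ∧ u3 = 0) ∨ (u0 = 0 ∧ u1 = D + 4 ∧ u2 = 0 ∧ u3 = 1) := by
  by_cases h0 : u0 = 0
  · have hv0 : v0 ≠ 0 := by omega
    by_cases h1 : u1 = 0
    · have hv1 : v1 ≠ 0 := by omega
      have hv2 : v2 = 0 := by
        rcases b012 with h | h | h
        · exact absurd h hv0
        · exact absurd h hv1
        · exact h
      have hv3 : v3 = 0 := by
        rcases b013 with h | h | h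
        · exact absurd h hv0
        · exact absurd h hv1
        · exact h
      omega
    · have h23 : u2 = 0 ∨ u3 = 0 := by
        rcases a123 with h | h | h
        · exact absurd h h1
        · exact Or.inl h
        · exact Or.inr h
      rcases h23 with h2 | h3
      · have hv2 : v2 ≠ 0 := by omega
        have hv3 : v3 = 0 := by
          rcases b023 with h | h | h
          · exact absurd h hv0
          · exact absurd h hv2
          · exact h
        have hv1 : v1 = 0 := by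
          rcases b012 with h | h | h
          · exact absurd h hv0
          · exact h
          · exact absurd h hv2
        omega
      · have hv3 : v3 ≠ 0 := by omega
        have hv1 : v1 = 0 := by
          rcases b013 with h | h | h
          · exact absurd h hv0
          · exact h
          · exact absurd h hv3
        have hv2 : v2 = 0 := by
          rcases b023 with h | h | h
          · exact absurd h hv0
          · exact h
          · exact absurd h hv3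
        omega
  · by_cases h1 : u1 = 0
    · by_cases h2 : u2 = 0
      · omega
      · have h3 : u3 = 0 := by
          rcases a023 with h | h | h
          · exact absurd h h0
          · exact absurd h h2
          · exact h
        have hv1 : v1 ≠ 0 := by omega
        have hv3 : v3 ≠ 0 := by omega
        have hv0 : v0 = 0 := by
          rcases b013 with h | h | h
          · exact h
          · exact absurd h hv1
          · exact absurd h hv3
        have hv2 : v2 = 0 := by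
          rcases b123 with h | h | h
          · exact absurd h hv1
          · exact h
          · exact absurd h hv3
        omega
    · have h2 : u2 = 0 := by
        rcases a012 with h | h | h
        · exact absurd h h0
        · exact absurd h h1
        · exact h
      have h3 : u3 = 0 := by
        rcases a013 with h | h | h
        · exact absurd h h0
        · exact absurd h h1
        · exact h
      have hv2 : v2 ≠ 0 := by omega
      have hv3 : v3 ≠ 0 := by omega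
      have hv0 : v0 = 0 := by
        rcases b023 with h | h | h
        · exact h
        · exact absurd h hv2
        · exact absurd h hv3
      have hv1 : v1 = 0 := by
        rcases b123 with h | h | h
        · exact h
        · exact absurd h hv2
        · exact absurd h hv3
      omega

lemma arith13 (D u0 u1 u2 u3 v0 v1 v2 v3 : ℕ) (e0 : u0 + v0 = 3 + (D + 3)) (e1 : u1 + v1 = 2)
    (e2 : u2 + v2 = D + 2) (e3 : u3 + v3 = 0) (su : u0 + u1 + u2 + u3 = D + 5)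
    (sv : v0 + v1 + v2 + v3 = D + 5)
    (a012 : u0 = 0 ∨ u1 = 0 ∨ u2 = 0)
    (b012 : v0 = 0 ∨ v1 = 0 ∨ v2 = 0) :
    (u0 = 3 ∧ u1 = 0 ∧ u2 = D + 2 ∧ u3 = 0) ∨ (u0 = D + 3 ∧ u1 = 2 ∧ u2 = 0 ∧ u3 = 0) := by
  rcases a012 with h | h | h
  · omega
  · rcases b012 with h' | h' | h' <;> omega
  · rcases b012 with h' | h' | h' <;> omega

lemma arith23 (D u0 u1 u2 u3 v0 v1 v2 v3 : ℕ) (e0 : u0 + v0 = D + 3) (e1 : u1 + v1 = D + 4 + 2)
    (e2 : u2 + v2 = 0) (e3 : u3 + v3 = 1) (su : u0 + u1 + u2 + u3 = D + 5)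
    (sv : v0 + v1 + v2 + v3 = D + 5)
    (a013 : u0 = 0 ∨ u1 = 0 ∨ u3 = 0)
    (b013 : v0 = 0 ∨ v1 = 0 ∨ v3 = 0) :
    (u0 = 0 ∧ u1 = D + 4 ∧ u2 = 0 ∧ u3 = 1) ∨ (u0 = D + 3 ∧ u1 = 2 ∧ u2 = 0 ∧ u3 = 0) := by
  rcases a013 with h | h | h
  · rcases b013 with h' | h' | h' <;> omega
  · omega
  · rcases b013 with h' | h' | h' <;> omega

theorem two_not (K : Type) [Field K] (n d : ℕ) (hn : 4 ≤ n) (hd : 5 ≤ d) :
    ¬ IsQuadratic K n d 2 := by
  obtain ⟨m, rfl⟩ : ∃ m, n = m + 4 := ⟨n - 4, by omega⟩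
  obtain ⟨D, rfl⟩ : ∃ D, d = D + 5 := ⟨d - 5, by omega⟩
  have mk : ∀ a b c e : ℕ, a + b + c + e = D + 5 →
      (∃ p q : Fin (m + 4), ∀ i, i ≠ p → i ≠ q → vec m a b c e i = 0) →
      ∑ i, vec m a b c e i = D + 5 ∧
        (Finset.univ.filter (fun i => vec m a b c e i ≠ 0)).card ≤ 2 := by
    rintro a b c e hs ⟨p, q, hpq⟩
    refine ⟨?_, card_two _ p q hpq⟩
    rw [sum_four _ (vec_ge m a b c e), vec0, vec1, vec2, vec3]
    exact hs
  have zz : ∀ (a b c e : ℕ) (i : Fin (m + 4)), (i = i0 m → a = 0) → (i = i1 m → b = 0) →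
      (i = i2 m → c = 0) → (i = i3 m → e = 0) → vec m a b c e i = 0 := by
    intro a b c e i h0 h1 h2 h3
    unfold vec
    split_ifs with k0 k1 k2 k3
    · exact h0 (Fin.ext k0)
    · exact h1 (Fin.ext k1)
    · exact h2 (Fin.ext k2)
    · exact h3 (Fin.ext k3)
    · rfl
  -- x^3 z^(d-3), y^(d-1) w, x^(d-2) y^2
  let g1 : Gen (m + 4) (D + 5) 2 := ⟨vec m 3 0 (D + 2) 0, mk _ _ _ _ (by omega)
    ⟨i0 m, i2 m, fun i h h' => zz _ _ _ _ i (fun k => absurd k h) (fun _ => rfl)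
      (fun k => absurd k h') (fun _ => rfl)⟩⟩
  let g2 : Gen (m + 4) (D + 5) 2 := ⟨vec m 0 (D + 4) 0 1, mk _ _ _ _ (by omega)
    ⟨i1 m, i3 m, fun i h h' => zz _ _ _ _ i (fun _ => rfl) (fun k => absurd k h)
      (fun _ => rfl) (fun k => absurd k h')⟩⟩
  let g3 : Gen (m + 4) (D + 5) 2 := ⟨vec m (D + 3) 2 0 0, mk _ _ _ _ (by omega)
    ⟨i0 m, i1 m, fun i h h' => zz _ _ _ _ i (fun k => absurd k h) (fun k => absurd k h')
      (fun _ => rfl) (fun _ => rfl)⟩⟩
  let k1 : Gen (m + 4) (D + 5) 2 := ⟨vec m 0 3 (D + 2) 0, mk _ _ _ _ (by omega)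
    ⟨i1 m, i2 m, fun i h h' => zz _ _ _ _ i (fun _ => rfl) (fun k => absurd k h)
      (fun k => absurd k h') (fun _ => rfl)⟩⟩
  let k2 : Gen (m + 4) (D + 5) 2 := ⟨vec m (D + 4) 0 0 1, mk _ _ _ _ (by omega)
    ⟨i0 m, i3 m, fun i h h' => zz _ _ _ _ i (fun k => absurd k h) (fun _ => rfl)
      (fun _ => rfl) (fun k => absurd k h')⟩⟩
  let k3 : Gen (m + 4) (D + 5) 2 := ⟨vec m 2 (D + 3) 0 0, mk _ _ _ _ (by omega)
    ⟨i0 m, i1 m, fun i h h' => zz _ _ _ _ i (fun k => absurd k h) (fun k => absurd k h')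
      (fun _ => rfl) (fun _ => rfl)⟩⟩
  refine not_quadratic K g1 g2 g3 k1 k2 k3 ?_ ?_ ?_ ?_ ?_ ?_ ?_
  · refine rigid_of g1 g2 (vec_ge _ _ _ _ _) (vec_ge _ _ _ _ _) ?_
    simp only [g1, g2, vec0, vec1, vec2, vec3]
    intro u0 u1 u2 u3 v0 v1 v2 v3 e0 e1 e2 e3 su sv c1 c2 c3 c4 c5 c6 c7 c8
    exact arith12 D u0 u1 u2 u3 v0 v1 v2 v3 (by omega) (by omega) (by omega) (by omega) su sv
      c1 c2 c3 c4 c5 c6 c7 c8
  · refine rigid_of g1 g3 (vec_ge _ _ _ _ _) (vec_ge _ _ _ _ _) ?_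
    simp only [g1, g3, vec0, vec1, vec2, vec3]
    intro u0 u1 u2 u3 v0 v1 v2 v3 e0 e1 e2 e3 su sv c1 c2 c3 c4 c5 c6 c7 c8
    exact arith13 D u0 u1 u2 u3 v0 v1 v2 v3 e0 (Eq.trans e1 (Nat.zero_add 2)) e2 e3 su sv c1 c5
  · refine rigid_of g2 g3 (vec_ge _ _ _ _ _) (vec_ge _ _ _ _ _) ?_
    simp only [g2, g3, vec0, vec1, vec2, vec3]
    intro u0 u1 u2 u3 v0 v1 v2 v3 e0 e1 e2 e3 su sv c1 c2 c3 c4 c5 c6 c7 c8
    exact arith23 D u0 u1 u2 u3 v0 v1 v2 v3 (Eq.trans e0 (Nat.zero_add (D + 3))) e1 e2 e3 su sv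
      c2 c6
  · intro i
    simp only [g1, g2, g3, k1, k2, k3, vec]
    split_ifs <;> omega
  · intro h
    have := congrFun (congrArg Subtype.val h) (i0 m)
    simp only [g1, k1, vec0] at this
    omega
  · intro h
    have := congrFun (congrArg Subtype.val h) (i2 m)
    simp only [g2, k1, vec2] at this
    omega
  · intro h
    have := congrFun (congrArg Subtype.val h) (i2 m)
    simp only [g3, k1, vec2] at this
    omega

end Pool.Agent.Helper857.PV
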