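import Pool.Agent.Helper857.PVa

set_option autoImplicit false

namespace Pool.Agent.Helper857.PV

/-- small weights -/
def w (i j : ℕ) : ℕ :=
  if j = 0 then (if i = 0 then 5 else if i = 1 then 2 else 4)
  else if j = 1 then (if i = 0 then 1 else if i = 1 then 6 else 3)
  else 16 * 8 ^ (j - 2) * 2 ^ i

lemma w_succ (i j : ℕ) : w i (j + 2) = 16 * 8 ^ j * 2 ^ i := by
  unfold w
  rw [if_neg (by omega), if_neg (by omega)]
  rfl

lemma w_pos (i j : ℕ) : 0 < w i j := by
  unfold w
  split_ifs <;> first | omega | positivity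

lemma pow_two_lt (i i' : ℕ) (hi : i < 3) (hi' : i' < 3) (h : i ≠ i') : 2 ^ i + 2 ^ i' ≤ 6 := by
  interval_cases i <;> interval_cases i' <;> simp_all

lemma bound (i i' : ℕ) (hi : i < 3) (hi' : i' < 3) (h : i ≠ i') (q : ℕ) :
    ∑ j ∈ Finset.range (q + 2), (w i j + w i' j) < 16 * 8 ^ q := by
  induction q with
  | zero =>
    rw [Finset.sum_range_succ, Finset.sum_range_succ, Finset.sum_range_zero]
    interval_cases i <;> interval_cases i' <;> simp_all [w]
  | succ q ih =>
    rw [show q + 1 + 2 = (q + 2) + 1 by ring, Finset.sum_range_succ, w_succ, w_succ]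
    have h1 := pow_two_lt i i' hi hi' h
    have h2 : 16 * 8 ^ q * 2 ^ i + 16 * 8 ^ q * 2 ^ i' = 16 * 8 ^ q * (2 ^ i + 2 ^ i') := by ring
    have h3 : 16 * 8 ^ q * (2 ^ i + 2 ^ i') ≤ 16 * 8 ^ q * 6 := Nat.mul_le_mul_left _ h1
    have h4 : 16 * 8 ^ (q + 1) = 16 * 8 ^ q * 8 := by ring
    have h5 : 0 < 16 * 8 ^ q := by positivity
    omega

lemma topl (i i' : ℕ) (hi : i < 3) (hi' : i' < 3) (h : i ≠ i') (M A B a b : ℕ) (hM : 0 < M)
    (hA : A < M) (hB : B < M) (ha : a = 0 ∨ a = 1) (hb : b = 0 ∨ b = 1)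
    (hs : A + (a * (M * 2 ^ i) + b * (M * 2 ^ i')) = B + M * 2 ^ i) : a = 1 ∧ b = 0 := by
  have hi3 : i = 0 ∨ i = 1 ∨ i = 2 := by omega
  have hi3' : i' = 0 ∨ i' = 1 ∨ i' = 2 := by omega
  have p0 : M * 2 ^ 0 = M := by ring
  have p1 : M * 2 ^ 1 = M * 2 := by ring
  have p2 : M * 2 ^ 2 = M * 4 := by ring
  rcases ha with rfl | rfl <;> rcases hb with rfl | rfl <;>
    rcases hi3 with rfl | rfl | rfl <;> rcases hi3' with rfl | rfl | rfl <;>
    simp only [p0, p1, p2, zero_mul, one_mul] at hs <;> omega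

lemma key (i i' : ℕ) (hi : i < 3) (hi' : i' < 3) (h : i ≠ i') (q : ℕ) (x y : ℕ → ℕ)
    (hx : ∀ j, x j = 0 ∨ x j = 1) (hy : ∀ j, y j = 0 ∨ y j = 1)
    (hs : ∑ j ∈ Finset.range (q + 2), (x j * w i j + y j * w i' j)
      = ∑ j ∈ Finset.range (q + 2), w i j)
    (hc : ∑ j ∈ Finset.range (q + 2), (x j + y j) = q + 2) :
    ∀ j, j < q + 2 → x j = 1 ∧ y j = 0 := by
  induction q with
  | zero =>
    rw [Finset.sum_range_succ, Finset.sum_range_succ, Finset.sum_range_zero,
      Finset.sum_range_succ, Finset.sum_range_succ, Finset.sum_range_zero] at hs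
    rw [Finset.sum_range_succ, Finset.sum_range_succ, Finset.sum_range_zero] at hc
    have h01 : ∀ j, j < 0 + 2 → j = 0 ∨ j = 1 := by intro j hj; omega
    have hmain : (x 0 = 1 ∧ y 0 = 0) ∧ (x 1 = 1 ∧ y 1 = 0) := by
      rcases hx 0 with a | a <;> rcases hx 1 with b | b <;> rcases hy 0 with c | c <;>
        rcases hy 1 with e | e <;> rw [a, b, c, e] at hc hs ⊢ <;>
        (interval_cases i <;> interval_cases i' <;> simp_all [w])
    intro j hj
    rcases h01 j hj with rfl | rfl
    · exact hmain.1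
    · exact hmain.2
  | succ q ih =>
    rw [show q + 1 + 2 = (q + 2) + 1 by ring] at hs hc ⊢
    rw [Finset.sum_range_succ, Finset.sum_range_succ _ (q + 2), w_succ, w_succ] at hs
    rw [Finset.sum_range_succ] at hc
    have hb := bound i i' hi hi' h q
    have hb1 : ∑ j ∈ Finset.range (q + 2), (x j * w i j + y j * w i' j)
        ≤ ∑ j ∈ Finset.range (q + 2), (w i j + w i' j) := by
      apply Finset.sum_le_sum
      intro j _
      have h1 : x j * w i j ≤ w i j := by
        rcases hx j with a | a <;> rw [a] <;> omega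
      have h2 : y j * w i' j ≤ w i' j := by
        rcases hy j with a | a <;> rw [a] <;> omega
      omega
    have hb2 : ∑ j ∈ Finset.range (q + 2), w i j
        ≤ ∑ j ∈ Finset.range (q + 2), (w i j + w i' j) := by
      apply Finset.sum_le_sum
      intro j _
      omega
    set M := 16 * 8 ^ q with hM
    have h5 : 0 < M := by rw [hM]; positivity
    have htop : x (q + 2) = 1 ∧ y (q + 2) = 0 :=
      topl i i' hi hi' h M _ _ _ _ h5 (lt_of_le_of_lt hb1 hb) (lt_of_le_of_lt hb2 hb)
        (hx (q + 2)) (hy (q + 2)) hs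
    have hs' : ∑ j ∈ Finset.range (q + 2), (x j * w i j + y j * w i' j)
        = ∑ j ∈ Finset.range (q + 2), w i j := by
      rw [htop.1, htop.2] at hs
      omega
    have hc' : ∑ j ∈ Finset.range (q + 2), (x j + y j) = q + 2 := by
      rw [htop.1, htop.2] at hc
      omega
    intro j hj
    by_cases hjq : j = q + 2
    · rw [hjq]; exact htop
    · exact ih hs' hc' j (by omega)

/-- full weights -/
def V (d t i : ℕ) : ℕ → ℕ
  | 0 => d - ∑ j ∈ Finset.range t, w i j
  | (j + 1) => w i j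

def nz (k : ℕ) : ℕ := if k = 0 then 0 else 1

lemma nz_cases (k : ℕ) : (k = 0 ∧ nz k = 0) ∨ (k ≠ 0 ∧ nz k = 1) := by
  unfold nz
  by_cases h : k = 0
  · left; exact ⟨h, if_pos h⟩
  · right; exact ⟨h, if_neg h⟩

lemma sel (i i' : ℕ) (hi : i < 3) (hi' : i' < 3) (h : i ≠ i') (q d : ℕ) (hd : 16 * 8 ^ q ≤ d)
    (a b a' b' : ℕ → ℕ)
    (ha : ∀ j, j < q + 3 → a j + a' j = V d (q + 2) i j)
    (hb : ∀ j, j < q + 3 → b j + b' j = V d (q + 2) i' j)
    (S : ∑ j ∈ Finset.range (q + 3), (a j + b j) = d)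
    (C : ∑ j ∈ Finset.range (q + 3), (nz (a j) + nz (b j)) ≤ q + 3)
    (C' : ∑ j ∈ Finset.range (q + 3), (nz (a' j) + nz (b' j)) ≤ q + 3) :
    (∀ j, j < q + 3 → a j = V d (q + 2) i j ∧ b j = 0) ∨
      (∀ j, j < q + 3 → a j = 0 ∧ b j = V d (q + 2) i' j) := by
  have hbd := bound i i' hi hi' h q
  rw [Finset.sum_add_distrib] at hbd
  have Vpos : ∀ j, 0 < V d (q + 2) i j := by
    intro j
    cases j with
    | zero => simp only [V]; omega
    | succ j => exact w_pos _ _
  have Vpos' : ∀ j, 0 < V d (q + 2) i' j := by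
    intro j
    cases j with
    | zero => simp only [V]; omega
    | succ j => exact w_pos _ _
  have hge : ∀ j ∈ Finset.range (q + 3),
      2 ≤ (nz (a j) + nz (b j)) + (nz (a' j) + nz (b' j)) := by
    intro j hj
    rw [Finset.mem_range] at hj
    have h1 := ha j hj
    have h2 := hb j hj
    have h3 := Vpos j
    have h4 := Vpos' j
    rcases nz_cases (a j) with ⟨p1, p2⟩ | ⟨p1, p2⟩ <;>
      rcases nz_cases (b j) with ⟨p3, p4⟩ | ⟨p3, p4⟩ <;>
      rcases nz_cases (a' j) with ⟨p5, p6⟩ | ⟨p5, p6⟩ <;>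
      rcases nz_cases (b' j) with ⟨p7, p8⟩ | ⟨p7, p8⟩ <;> omega
  have hcst : ∑ _j ∈ Finset.range (q + 3), 2 = 2 * (q + 3) := by
    rw [Finset.sum_const, Finset.card_range, smul_eq_mul, mul_comm]
  have hle := Finset.sum_le_sum hge
  have htot : ∑ j ∈ Finset.range (q + 3),
      ((nz (a j) + nz (b j)) + (nz (a' j) + nz (b' j)))
      = ∑ j ∈ Finset.range (q + 3), (nz (a j) + nz (b j))
        + ∑ j ∈ Finset.range (q + 3), (nz (a' j) + nz (b' j)) := Finset.sum_add_distrib
  rw [hcst, htot] at hle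
  have heq : ∑ _j ∈ Finset.range (q + 3), 2 = ∑ j ∈ Finset.range (q + 3),
      ((nz (a j) + nz (b j)) + (nz (a' j) + nz (b' j))) := by
    rw [hcst, htot]; omega
  have heach := (Finset.sum_eq_sum_iff_of_le hge).mp heq
  have hC : ∑ j ∈ Finset.range (q + 3), (nz (a j) + nz (b j)) = q + 3 := by omega
  have form : ∀ j, j < q + 3 →
      a j = nz (a j) * V d (q + 2) i j ∧ b j = nz (b j) * V d (q + 2) i' j := by
    intro j hj
    have h0 := heach j (Finset.mem_range.mpr hj)
    have h1 := ha j hj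
    have h2 := hb j hj
    have h3 := Vpos j
    have h4 := Vpos' j
    rcases nz_cases (a j) with ⟨p1, p2⟩ | ⟨p1, p2⟩ <;>
      rcases nz_cases (b j) with ⟨p3, p4⟩ | ⟨p3, p4⟩ <;>
      rcases nz_cases (a' j) with ⟨p5, p6⟩ | ⟨p5, p6⟩ <;>
      rcases nz_cases (b' j) with ⟨p7, p8⟩ | ⟨p7, p8⟩ <;> rw [p2, p4] <;> omega
  have zo : ∀ k, nz k = 0 ∨ nz k = 1 := by
    intro k
    rcases nz_cases k with ⟨_, p⟩ | ⟨_, p⟩
    · exact Or.inl p
    · exact Or.inr p
  rw [show q + 3 = (q + 2) + 1 by ring, Finset.sum_range_succ'] at hC S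
  have hT : ∑ j ∈ Finset.range (q + 2), (a (j + 1) + b (j + 1))
      = ∑ j ∈ Finset.range (q + 2), (nz (a (j + 1)) * w i j + nz (b (j + 1)) * w i' j) := by
    apply Finset.sum_congr rfl
    intro j hj
    rw [Finset.mem_range] at hj
    have := form (j + 1) (by omega)
    exact congrArg₂ (· + ·) this.1 this.2
  rw [hT] at S
  have hT2 : ∑ j ∈ Finset.range (q + 2), (nz (a (j + 1)) * w i j + nz (b (j + 1)) * w i' j)
      ≤ ∑ j ∈ Finset.range (q + 2), (w i j + w i' j) := by
    apply Finset.sum_le_sum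
    intro j _
    have h1 : nz (a (j + 1)) * w i j ≤ w i j := by
      rcases zo (a (j + 1)) with p | p <;> rw [p] <;> omega
    have h2 : nz (b (j + 1)) * w i' j ≤ w i' j := by
      rcases zo (b (j + 1)) with p | p <;> rw [p] <;> omega
    omega
  rw [Finset.sum_add_distrib (f := fun j => w i j)] at hT2
  have f0 := form 0 (by omega)
  have hV0 : V d (q + 2) i 0 = d - ∑ j ∈ Finset.range (q + 2), w i j := rfl
  have hV0' : V d (q + 2) i' 0 = d - ∑ j ∈ Finset.range (q + 2), w i' j := rfl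
  rw [hV0] at f0
  rw [hV0'] at f0
  rcases nz_cases (a 0) with ⟨p1, p2⟩ | ⟨p1, p2⟩
  · rcases nz_cases (b 0) with ⟨p3, p4⟩ | ⟨p3, p4⟩
    · omega
    · right
      rw [p2, p4] at f0 hC
      have hk := key i' i hi' hi h.symm q (fun j => nz (b (j + 1))) (fun j => nz (a (j + 1)))
        (fun j => zo _) (fun j => zo _) (by
          have : ∑ j ∈ Finset.range (q + 2),
              (nz (b (j + 1)) * w i' j + nz (a (j + 1)) * w i j)
              = ∑ j ∈ Finset.range (q + 2),
              (nz (a (j + 1)) * w i j + nz (b (j + 1)) * w i' j) :=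
            Finset.sum_congr rfl (fun j _ => add_comm _ _)
          show ∑ j ∈ Finset.range (q + 2),
              (nz (b (j + 1)) * w i' j + nz (a (j + 1)) * w i j) = _
          rw [this]
          omega) (by
          have : ∑ j ∈ Finset.range (q + 2), (nz (b (j + 1)) + nz (a (j + 1)))
              = ∑ j ∈ Finset.range (q + 2), (nz (a (j + 1)) + nz (b (j + 1))) :=
            Finset.sum_congr rfl (fun j _ => add_comm _ _)
          show ∑ j ∈ Finset.range (q + 2), (nz (b (j + 1)) + nz (a (j + 1))) = _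
          rw [this]
          omega)
      intro j hj
      cases j with
      | zero => exact ⟨p1, by rw [hV0']; omega⟩
      | succ j =>
        have h1 : nz (b (j + 1)) = 1 ∧ nz (a (j + 1)) = 0 := hk j (by omega)
        have h2 := form (j + 1) hj
        rw [h1.1, h1.2] at h2
        constructor
        · rw [h2.1]; omega
        · rw [h2.2]; omega
  · rcases nz_cases (b 0) with ⟨p3, p4⟩ | ⟨p3, p4⟩
    · left
      rw [p2, p4] at f0 hC
      have hk := key i i' hi hi' h q (fun j => nz (a (j + 1))) (fun j => nz (b (j + 1)))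
        (fun j => zo _) (fun j => zo _) (by
          show ∑ j ∈ Finset.range (q + 2),
              (nz (a (j + 1)) * w i j + nz (b (j + 1)) * w i' j) = _
          omega) (by
          show ∑ j ∈ Finset.range (q + 2), (nz (a (j + 1)) + nz (b (j + 1))) = _
          omega)
      intro j hj
      cases j with
      | zero => exact ⟨by rw [hV0]; omega, p3⟩
      | succ j =>
        have h1 : nz (a (j + 1)) = 1 ∧ nz (b (j + 1)) = 0 := hk j (by omega)
        have h2 := form (j + 1) hj
        rw [h1.1, h1.2] at h2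
        constructor
        · rw [h2.1]; omega
        · rw [h2.2]; omega
    · rw [p2, p4] at f0
      omega

end Pool.Agent.Helper857.PV
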