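import Pool.Agent.Helper857.PVb
import Pool.Agent.Helper857.PVc

set_option autoImplicit false

namespace Pool.Agent.Helper857.PV

def G (W : ℕ → ℕ → ℕ) (s : ℕ) (σ : ℕ → ℕ → ℕ) (i k : ℕ) : ℕ :=
  if k < 3 * s ∧ σ (k % 3) (k / 3) = i then W (k % 3) (k / 3) else 0

lemma sum_blocks (s : ℕ) (F : ℕ → ℕ) : ∑ k ∈ Finset.range (3 * s), F k
    = ∑ j ∈ Finset.range s, (F (3 * j) + F (3 * j + 1) + F (3 * j + 2)) := by
  induction s with
  | zero => simp
  | succ s ih =>
    rw [show 3 * (s + 1) = 3 * s + 1 + 1 + 1 by ring, Finset.sum_range_succ,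
      Finset.sum_range_succ, Finset.sum_range_succ, ih, Finset.sum_range_succ]
    ring

lemma sum_fin (n s : ℕ) (h : 3 * s ≤ n) (F : ℕ → ℕ) (hF : ∀ k, 3 * s ≤ k → F k = 0) :
    ∑ k : Fin n, F k.val
      = ∑ j ∈ Finset.range s, (F (3 * j) + F (3 * j + 1) + F (3 * j + 2)) := by
  rw [Fin.sum_univ_eq_sum_range F n, ← sum_blocks]
  symm
  apply Finset.sum_subset (Finset.range_mono h)
  intro k _ hk
  rw [Finset.mem_range, not_lt] at hk
  exact hF k hk

lemma G_at (W : ℕ → ℕ → ℕ) (s : ℕ) (σ : ℕ → ℕ → ℕ) (i j r : ℕ) (hj : j < s) (hr : r < 3) :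
    G W s σ i (3 * j + r) = if σ r j = i then W r j else 0 := by
  have h1 : (3 * j + r) % 3 = r := by omega
  have h2 : (3 * j + r) / 3 = j := by omega
  unfold G
  rw [h1, h2]
  by_cases h : σ r j = i
  · rw [if_pos ⟨by omega, h⟩, if_pos h]
  · rw [if_neg (fun hh => h hh.2), if_neg h]

lemma G_ge (W : ℕ → ℕ → ℕ) (s : ℕ) (σ : ℕ → ℕ → ℕ) (i k : ℕ) (hk : 3 * s ≤ k) :
    G W s σ i k = 0 := by
  unfold G
  rw [if_neg (fun hh => by omega)]

lemma sumG (n s : ℕ) (h : 3 * s ≤ n) (W σ : ℕ → ℕ → ℕ) (i : ℕ) :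
    ∑ k : Fin n, G W s σ i k.val
      = ∑ j ∈ Finset.range s, ((if σ 0 j = i then W 0 j else 0)
          + (if σ 1 j = i then W 1 j else 0) + (if σ 2 j = i then W 2 j else 0)) := by
  rw [sum_fin n s h (G W s σ i) (G_ge W s σ i)]
  apply Finset.sum_congr rfl
  intro j hj
  rw [Finset.mem_range] at hj
  rw [← G_at W s σ i j 0 hj (by omega), ← G_at W s σ i j 1 hj (by omega),
    ← G_at W s σ i j 2 hj (by omega)]
  rfl

def ta (r _j : ℕ) : ℕ := r

def sg (r j : ℕ) : ℕ :=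
  if j = 1 then (if r = 0 then 1 else 0) else if j = 2 then (if r = 2 then 1 else 2) else r

lemma sum_ta (W : ℕ → ℕ → ℕ) (s i : ℕ) (hi : i < 3) :
    ∑ j ∈ Finset.range s, ((if ta 0 j = i then W 0 j else 0)
          + (if ta 1 j = i then W 1 j else 0) + (if ta 2 j = i then W 2 j else 0))
      = ∑ j ∈ Finset.range s, W i j := by
  apply Finset.sum_congr rfl
  intro j _
  have hi3 : i = 0 ∨ i = 1 ∨ i = 2 := by omega
  rcases hi3 with rfl | rfl | rfl <;> simp [ta]

lemma sum_sg (W : ℕ → ℕ → ℕ) (q i : ℕ) (hi : i < 3) (e0 : W 1 1 + W 2 1 = W 0 1 + W 0 2)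
    (e1 : W 0 1 + W 2 2 = W 1 1 + W 1 2) (e2 : W 0 2 + W 1 2 = W 2 1 + W 2 2) :
    ∑ j ∈ Finset.range (q + 3), ((if sg 0 j = i then W 0 j else 0)
          + (if sg 1 j = i then W 1 j else 0) + (if sg 2 j = i then W 2 j else 0))
      = ∑ j ∈ Finset.range (q + 3), W i j := by
  rw [show q + 3 = q + 1 + 1 + 1 by ring]
  rw [Finset.sum_range_succ', Finset.sum_range_succ', Finset.sum_range_succ',
    Finset.sum_range_succ', Finset.sum_range_succ', Finset.sum_range_succ']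
  have h0 : ∑ k ∈ Finset.range q, ((if sg 0 (k + 1 + 1 + 1) = i then W 0 (k + 1 + 1 + 1) else 0)
          + (if sg 1 (k + 1 + 1 + 1) = i then W 1 (k + 1 + 1 + 1) else 0)
          + (if sg 2 (k + 1 + 1 + 1) = i then W 2 (k + 1 + 1 + 1) else 0))
      = ∑ k ∈ Finset.range q, W i (k + 1 + 1 + 1) := by
    apply Finset.sum_congr rfl
    intro j _
    have hs : ∀ r, sg r (j + 1 + 1 + 1) = r := by
      intro r
      unfold sg
      rw [if_neg (by omega), if_neg (by omega)]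
    rw [hs, hs, hs]
    have hi3 : i = 0 ∨ i = 1 ∨ i = 2 := by omega
    rcases hi3 with rfl | rfl | rfl <;> simp
  rw [h0]
  have hi3 : i = 0 ∨ i = 1 ∨ i = 2 := by omega
  rcases hi3 with rfl | rfl | rfl
  · simp [sg]; omega
  · simp [sg]; omega
  · simp [sg]; omega

lemma nz_sum_G (W : ℕ → ℕ → ℕ) (s : ℕ) (σ : ℕ → ℕ → ℕ) (i k : ℕ) :
    (if G W s σ i k ≠ 0 then 1 else 0) ≤ G (fun _ _ => 1) s σ i k := by
  by_cases h : k < 3 * s ∧ σ (k % 3) (k / 3) = i
  · have h1 : G (fun _ _ => 1) s σ i k = 1 := by unfold G; rw [if_pos h]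
    rw [h1]
    split_ifs <;> omega
  · have h1 : G W s σ i k = 0 := by unfold G; rw [if_neg h]
    rw [if_neg (fun hh => hh h1)]
    omega

lemma V_eqs (d t : ℕ) : (V d t 1 1 + V d t 2 1 = V d t 0 1 + V d t 0 2) ∧
    (V d t 0 1 + V d t 2 2 = V d t 1 1 + V d t 1 2) ∧
    (V d t 0 2 + V d t 1 2 = V d t 2 1 + V d t 2 2) := by
  simp [V, w]

lemma sumV (q d i : ℕ) (hi : i < 3) (hd : 16 * 8 ^ q ≤ d) :
    ∑ j ∈ Finset.range (q + 3), V d (q + 2) i j = d := by
  rw [show q + 3 = q + 2 + 1 by ring, Finset.sum_range_succ']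
  have h1 : ∑ k ∈ Finset.range (q + 2), V d (q + 2) i (k + 1)
      = ∑ k ∈ Finset.range (q + 2), w i k := rfl
  have h2 : V d (q + 2) i 0 = d - ∑ k ∈ Finset.range (q + 2), w i k := rfl
  rw [h1, h2]
  obtain ⟨i', hi', hne⟩ : ∃ i', i' < 3 ∧ i ≠ i' := by
    by_cases h : i = 0
    · exact ⟨1, by omega, by omega⟩
    · exact ⟨0, by omega, by omega⟩
  have hb := bound i i' hi hi' hne q
  rw [Finset.sum_add_distrib] at hb
  omega

lemma memG (n d q : ℕ) (hn : 3 * (q + 3) ≤ n) (hd : 16 * 8 ^ q ≤ d) (σ : ℕ → ℕ → ℕ)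
    (hσ : σ = ta ∨ σ = sg) (i : ℕ) (hi : i < 3) :
    ∑ k : Fin n, G (V d (q + 2)) (q + 3) σ i k.val = d ∧
      (Finset.univ.filter (fun k : Fin n => G (V d (q + 2)) (q + 3) σ i k.val ≠ 0)).card
        ≤ q + 3 := by
  obtain ⟨e0, e1, e2⟩ := V_eqs d (q + 2)
  constructor
  · rw [sumG n (q + 3) hn]
    rcases hσ with rfl | rfl
    · rw [sum_ta _ _ _ hi, sumV q d i hi hd]
    · rw [sum_sg _ _ _ hi e0 e1 e2, sumV q d i hi hd]
  · rw [Finset.card_filter]
    refine le_trans (Finset.sum_le_sum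
      (fun k _ => nz_sum_G (V d (q + 2)) (q + 3) σ i k.val)) ?_
    rw [sumG n (q + 3) hn]
    rcases hσ with rfl | rfl
    · refine le_of_eq ((sum_ta (fun _ _ => 1) (q + 3) i hi).trans ?_)
      simp
    · refine le_of_eq ((sum_sg (fun _ _ => 1) q i hi rfl rfl rfl).trans ?_)
      simp

def mkG (n d q : ℕ) (hn : 3 * (q + 3) ≤ n) (hd : 16 * 8 ^ q ≤ d) (σ : ℕ → ℕ → ℕ)
    (hσ : σ = ta ∨ σ = sg) (i : ℕ) (hi : i < 3) : Gen n d (q + 3) :=
  ⟨fun k => G (V d (q + 2)) (q + 3) σ i k.val, memG n d q hn hd σ hσ i hi⟩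

lemma mkG_val (n d q : ℕ) (hn : 3 * (q + 3) ≤ n) (hd : 16 * 8 ^ q ≤ d) (σ : ℕ → ℕ → ℕ)
    (hσ : σ = ta ∨ σ = sg) (i : ℕ) (hi : i < 3) (k : ℕ) (hk : k < n) :
    (mkG n d q hn hd σ hσ i hi).1 ⟨k, hk⟩ = G (V d (q + 2)) (q + 3) σ i k := rfl

def E {n : ℕ} (u : Fin n → ℕ) (k : ℕ) : ℕ := if h : k < n then u ⟨k, h⟩ else 0

lemma E_val {n : ℕ} (u : Fin n → ℕ) (k : Fin n) : E u k.val = u k := by
  unfold E
  rw [dif_pos k.isLt]

lemma two_of (F : ℕ → ℕ) (i i' : ℕ) (hi : i < 3) (hi' : i' < 3) (h : i ≠ i') (j : ℕ)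
    (hz : ∀ r, r < 3 → r ≠ i → r ≠ i' → F (3 * j + r) = 0) :
    F (3 * j) + F (3 * j + 1) + F (3 * j + 2) = F (3 * j + i) + F (3 * j + i') := by
  have h0 := hz 0 (by omega)
  have h1 := hz 1 (by omega)
  have h2 := hz 2 (by omega)
  rw [Nat.add_zero] at h0
  have hi3 : i = 0 ∨ i = 1 ∨ i = 2 := by omega
  have hi3' : i' = 0 ∨ i' = 1 ∨ i' = 2 := by omega
  rcases hi3 with rfl | rfl | rfl <;> rcases hi3' with rfl | rfl | rfl <;>
    (try simp only [Nat.add_zero]) <;> omega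

lemma rigidG (n d q : ℕ) (hn : 3 * (q + 3) ≤ n) (hd : 16 * 8 ^ q ≤ d)
    (hσ : ta = ta ∨ ta = sg) (i i' : ℕ) (hi : i < 3) (hi' : i' < 3) (h : i ≠ i') :
    Rigid (mkG n d q hn hd ta hσ i hi) (mkG n d q hn hd ta hσ i' hi') := by
  intro u v huv
  have hG : ∀ k, E u.1 k + E v.1 k
      = G (V d (q + 2)) (q + 3) ta i k + G (V d (q + 2)) (q + 3) ta i' k := by
    intro k
    by_cases hk : k < n
    · have := huv ⟨k, hk⟩
      unfold E
      rw [dif_pos hk, dif_pos hk]
      exact this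
    · rw [G_ge _ _ _ _ _ (by omega), G_ge _ _ _ _ _ (by omega)]
      unfold E
      rw [dif_neg hk, dif_neg hk]
  have hge : ∀ k, 3 * (q + 3) ≤ k → E u.1 k = 0 ∧ E v.1 k = 0 := by
    intro k hk
    have := hG k
    rw [G_ge _ _ _ _ _ hk, G_ge _ _ _ _ _ hk] at this
    omega
  have hblk : ∀ j, j < q + 3 → ∀ r, r < 3 → E u.1 (3 * j + r) + E v.1 (3 * j + r)
      = (if r = i then V d (q + 2) r j else 0) + (if r = i' then V d (q + 2) r j else 0) := by
    intro j hj r hr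
    rw [hG, G_at _ _ _ _ _ _ hj hr, G_at _ _ _ _ _ _ hj hr]
    rfl
  have hzz : ∀ j, j < q + 3 → ∀ r, r < 3 → r ≠ i → r ≠ i' →
      E u.1 (3 * j + r) = 0 ∧ E v.1 (3 * j + r) = 0 := by
    intro j hj r hr h1 h2
    have := hblk j hj r hr
    rw [if_neg h1, if_neg h2] at this
    omega
  have sumE : ∀ x : Gen n d (q + 3), (∀ k, 3 * (q + 3) ≤ k → E x.1 k = 0) →
      (∀ j, j < q + 3 → ∀ r, r < 3 → r ≠ i → r ≠ i' → E x.1 (3 * j + r) = 0) →
      ∑ j ∈ Finset.range (q + 3), (E x.1 (3 * j + i) + E x.1 (3 * j + i')) = d ∧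
      ∑ j ∈ Finset.range (q + 3), (nz (E x.1 (3 * j + i)) + nz (E x.1 (3 * j + i')))
        ≤ q + 3 := by
    intro x hx1 hx2
    constructor
    · have h1 := x.2.1
      have h2 : ∑ k : Fin n, x.1 k = ∑ k : Fin n, E x.1 k.val :=
        Finset.sum_congr rfl (fun k _ => (E_val x.1 k).symm)
      rw [h2, sum_fin n (q + 3) hn (E x.1) hx1] at h1
      refine Eq.trans ?_ h1
      apply Finset.sum_congr rfl
      intro j hj
      rw [Finset.mem_range] at hj
      exact (two_of (E x.1) i i' hi hi' h j (hx2 j hj)).symm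
    · have h1 := x.2.2
      rw [Finset.card_filter] at h1
      have h2 : (∑ k : Fin n, if x.1 k ≠ 0 then 1 else 0)
          = ∑ k : Fin n, (fun k => nz (E x.1 k)) k.val := by
        apply Finset.sum_congr rfl
        intro k _
        show _ = nz (E x.1 k.val)
        rw [E_val]
        unfold nz
        by_cases hk : x.1 k = 0 <;> simp [hk]
      rw [h2, sum_fin n (q + 3) hn (fun k => nz (E x.1 k))
        (fun k hk => by show nz (E x.1 k) = 0; rw [hx1 k hk]; rfl)] at h1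
      refine le_trans (le_of_eq ?_) h1
      apply Finset.sum_congr rfl
      intro j hj
      rw [Finset.mem_range] at hj
      exact (two_of (fun k => nz (E x.1 k)) i i' hi hi' h j
        (fun r hr a b => by
          show nz (E x.1 (3 * j + r)) = 0
          rw [hx2 j hj r hr a b]; rfl)).symm
  have Su := sumE u (fun k hk => (hge k hk).1) (fun j hj r hr a b => (hzz j hj r hr a b).1)
  have Sv := sumE v (fun k hk => (hge k hk).2) (fun j hj r hr a b => (hzz j hj r hr a b).2)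
  have hsel := sel i i' hi hi' h q d hd (fun j => E u.1 (3 * j + i)) (fun j => E u.1 (3 * j + i'))
    (fun j => E v.1 (3 * j + i)) (fun j => E v.1 (3 * j + i'))
    (fun j hj => by
      show E u.1 (3 * j + i) + E v.1 (3 * j + i) = _
      rw [hblk j hj i hi, if_pos rfl, if_neg h, add_zero])
    (fun j hj => by
      show E u.1 (3 * j + i') + E v.1 (3 * j + i') = _
      rw [hblk j hj i' hi', if_neg h.symm, if_pos rfl, zero_add])
    Su.1 Su.2 Sv.2
  have fin : ∀ a b : ℕ, ∀ (ha : a < 3) (_hb : b < 3), a ≠ b →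
      (∀ k, E u.1 k + E v.1 k
        = G (V d (q + 2)) (q + 3) ta a k + G (V d (q + 2)) (q + 3) ta b k) →
      (∀ j, j < q + 3 → E u.1 (3 * j + a) = V d (q + 2) a j ∧ E u.1 (3 * j + b) = 0) →
      (∀ j, j < q + 3 → ∀ r, r < 3 → r ≠ a → r ≠ b → E u.1 (3 * j + r) = 0) →
      (∀ k, E u.1 k = G (V d (q + 2)) (q + 3) ta a k) := by
    intro a b ha _ hab hGab h1 h2 k
    by_cases hk : 3 * (q + 3) ≤ k
    · rw [(hge k hk).1, G_ge _ _ _ _ _ hk]
    · have hkk : k = 3 * (k / 3) + k % 3 := by omega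
      have hj : k / 3 < q + 3 := by omega
      have hr : k % 3 < 3 := by omega
      rw [hkk, G_at _ _ _ _ _ _ hj hr]
      generalize k % 3 = r at hr ⊢
      generalize k / 3 = j at hj ⊢
      show E u.1 (3 * j + r) = if r = a then V d (q + 2) r j else 0
      by_cases hra : r = a
      · rw [if_pos hra, hra]; exact (h1 j hj).1
      · rw [if_neg hra]
        by_cases hrb : r = b
        · rw [hrb]; exact (h1 j hj).2
        · exact h2 j hj r hr hra hrb
  rcases hsel with hs | hs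
  · left
    have hu := fin i i' hi hi' h hG hs (fun j hj r hr a b => (hzz j hj r hr a b).1)
    constructor
    · apply Subtype.ext
      funext k
      rw [← E_val u.1 k, hu]
      rfl
    · apply Subtype.ext
      funext k
      rw [← E_val v.1 k]
      have h1 := hG k.val
      rw [hu] at h1
      show _ = G (V d (q + 2)) (q + 3) ta i' k.val
      omega
  · right
    have hu := fin i' i hi' hi h.symm (fun k => by rw [hG k, add_comm])
      (fun j hj => ⟨(hs j hj).2, (hs j hj).1⟩)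
      (fun j hj r hr a b => (hzz j hj r hr b a).1)
    constructor
    · apply Subtype.ext
      funext k
      rw [← E_val u.1 k, hu]
      rfl
    · apply Subtype.ext
      funext k
      rw [← E_val v.1 k]
      have h1 := hG k.val
      rw [hu] at h1
      show _ = G (V d (q + 2)) (q + 3) ta i k.val
      omega

theorem gen_not (K : Type) [Field K] (n d q : ℕ) (hn : 3 * (q + 3) ≤ n)
    (hd : 16 * 8 ^ q ≤ d) : ¬ IsQuadratic K n d (q + 3) := by
  have t1 : ta = ta ∨ ta = sg := Or.inl rfl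
  have t2 : sg = ta ∨ sg = sg := Or.inr rfl
  have hVp : ∀ i j, 0 < V d (q + 2) i (j + 1) := fun i j => w_pos i j
  have Gval : ∀ σ i j r (_hj : j < q + 3) (_hr : r < 3), G (V d (q + 2)) (q + 3) σ i (3 * j + r)
      = if σ r j = i then V d (q + 2) r j else 0 := fun σ i j r hj hr =>
    G_at _ _ _ _ _ _ hj hr
  refine not_quadratic K (mkG n d q hn hd ta t1 0 (by omega)) (mkG n d q hn hd ta t1 1 (by omega))
    (mkG n d q hn hd ta t1 2 (by omega)) (mkG n d q hn hd sg t2 0 (by omega))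
    (mkG n d q hn hd sg t2 1 (by omega)) (mkG n d q hn hd sg t2 2 (by omega))
    (rigidG n d q hn hd t1 0 1 _ _ (by omega)) (rigidG n d q hn hd t1 0 2 _ _ (by omega))
    (rigidG n d q hn hd t1 1 2 _ _ (by omega)) ?_ ?_ ?_ ?_
  · intro k
    show G (V d (q + 2)) (q + 3) ta 0 k.val + G (V d (q + 2)) (q + 3) ta 1 k.val
      + G (V d (q + 2)) (q + 3) ta 2 k.val = G (V d (q + 2)) (q + 3) sg 0 k.val
      + G (V d (q + 2)) (q + 3) sg 1 k.val + G (V d (q + 2)) (q + 3) sg 2 k.val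
    by_cases hk : 3 * (q + 3) ≤ k.val
    · simp only [G_ge _ _ _ _ _ hk]
    · have hkk : k.val = 3 * (k.val / 3) + k.val % 3 := by omega
      have hj : k.val / 3 < q + 3 := by omega
      have hr : k.val % 3 < 3 := by omega
      rw [hkk]
      simp only [Gval _ _ _ _ hj hr]
      generalize k.val % 3 = r at hr
      generalize k.val / 3 = j at hj
      have hs : sg r j = 0 ∨ sg r j = 1 ∨ sg r j = 2 := by
        unfold sg
        split_ifs <;> omega
      have ht : ta r j = 0 ∨ ta r j = 1 ∨ ta r j = 2 := by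
        unfold ta
        omega
      rcases hs with a | a | a <;> rcases ht with b | b | b <;> rw [a, b] <;> simp
  · intro he
    have h2 := congrFun (congrArg Subtype.val he) (⟨3 * 1 + 1, by omega⟩ : Fin n)
    rw [mkG_val, mkG_val, Gval _ _ _ _ (by omega) (by omega),
      Gval _ _ _ _ (by omega) (by omega)] at h2
    have h3 : 0 < V d (q + 2) 1 1 := hVp 1 0
    rw [if_pos (by rfl), if_neg (by decide)] at h2
    omega
  · intro he
    have h2 := congrFun (congrArg Subtype.val he) (⟨3 * 1 + 2, by omega⟩ : Fin n)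
    rw [mkG_val, mkG_val, Gval _ _ _ _ (by omega) (by omega),
      Gval _ _ _ _ (by omega) (by omega)] at h2
    have h3 : 0 < V d (q + 2) 2 1 := hVp 2 0
    rw [if_pos (by rfl), if_neg (by decide)] at h2
    omega
  · intro he
    have h2 := congrFun (congrArg Subtype.val he) (⟨3 * 1 + 1, by omega⟩ : Fin n)
    rw [mkG_val, mkG_val, Gval _ _ _ _ (by omega) (by omega),
      Gval _ _ _ _ (by omega) (by omega)] at h2
    have h3 : 0 < V d (q + 2) 1 1 := hVp 1 0
    rw [if_pos (by rfl), if_neg (by decide)] at h2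
    omega

end Pool.Agent.Helper857.PV
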