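import Pool.Agent.Helper857.PVa

set_option autoImplicit false

namespace Pool.Agent.Helper857.PV

open MvPolynomial

noncomputable def mo (K : Type) [Field K] {n d s : ℕ} (S : Multiset (Gen n d s)) :
    MvPolynomial (Gen n d s) K := monomial (Multiset.toFinsupp S) 1

def W {n d s : ℕ} (S : Multiset (Gen n d s)) : Fin n → ℕ := (S.map (fun m => m.1)).sum

def Re (K : Type) [Field K] {n d s : ℕ} (S S' : Multiset (Gen n d s)) : Prop :=
  mo K S - mo K S' ∈ Ideal.span {f | f ∈ RingHom.ker (Phi K n d s) ∧ f.IsHomogeneous 2}

variable {K : Type} [Field K] {n d s : ℕ}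

lemma mo_add (S T : Multiset (Gen n d s)) : mo K (S + T) = mo K S * mo K T := by
  unfold mo
  rw [map_add, monomial_mul, one_mul]

lemma mo_single (u : Gen n d s) : mo K ({u} : Multiset (Gen n d s)) = X u := by
  unfold mo
  rw [Multiset.toFinsupp_singleton]
  rfl

lemma mo_cons (u : Gen n d s) (S : Multiset (Gen n d s)) : mo K (u ::ₘ S) = X u * mo K S := by
  rw [← Multiset.singleton_add, mo_add, mo_single]

lemma W_zero : W (0 : Multiset (Gen n d s)) = 0 := by
  simp [W]

lemma W_cons (u : Gen n d s) (S : Multiset (Gen n d s)) : W (u ::ₘ S) = u.1 + W S := by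
  simp [W]

lemma Phi_mo (S : Multiset (Gen n d s)) :
    Phi K n d s (mo K S) = monomial (Finsupp.equivFunOnFinite.symm (W S)) 1 := by
  induction S using Multiset.induction_on with
  | empty =>
    rw [W_zero]
    unfold mo
    rw [map_zero]
    have : (Finsupp.equivFunOnFinite.symm (0 : Fin n → ℕ)) = 0 := by
      ext i; rfl
    rw [this]
    simp
  | cons u S ih =>
    rw [mo_cons, map_mul, ih, W_cons]
    have h1 : Phi K n d s (X u) = mon K n u.1 := by
      unfold Phi
      rw [aeval_X]
    rw [h1, mon_eq, monomial_mul, one_mul]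
    have h2 : Finsupp.equivFunOnFinite.symm u.1 + Finsupp.equivFunOnFinite.symm (W S)
        = Finsupp.equivFunOnFinite.symm (u.1 + W S) := by
      ext i; rfl
    rw [h2]

lemma Re.refl (S : Multiset (Gen n d s)) : Re K S S := by
  unfold Re
  rw [sub_self]
  exact Ideal.zero_mem _

lemma Re.symm {S T : Multiset (Gen n d s)} (h : Re K S T) : Re K T S := by
  unfold Re at *
  have := neg_mem h
  rwa [neg_sub] at this

lemma Re.trans {S T U : Multiset (Gen n d s)} (h : Re K S T) (h' : Re K T U) : Re K S U := by
  unfold Re at *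
  have := add_mem h h'
  rwa [sub_add_sub_cancel] at this

lemma Re.add {S T : Multiset (Gen n d s)} (h : Re K S T) (U : Multiset (Gen n d s)) :
    Re K (U + S) (U + T) := by
  unfold Re at *
  rw [mo_add, mo_add, ← mul_sub]
  exact Ideal.mul_mem_left _ _ h

lemma Re.cons {S T : Multiset (Gen n d s)} (h : Re K S T) (u : Gen n d s) :
    Re K (u ::ₘ S) (u ::ₘ T) := by
  have := Re.add h {u}
  rwa [Multiset.singleton_add, Multiset.singleton_add] at this

lemma Re.move {u v u' v' : Gen n d s} (h : u.1 + v.1 = u'.1 + v'.1) :
    Re K (u ::ₘ v ::ₘ 0) (u' ::ₘ v' ::ₘ 0) := by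
  unfold Re
  apply Ideal.subset_span
  refine ⟨?_, ?_⟩
  · rw [RingHom.mem_ker, map_sub, Phi_mo, Phi_mo]
    have : W (u ::ₘ v ::ₘ (0 : Multiset (Gen n d s))) = W (u' ::ₘ v' ::ₘ 0) := by
      rw [W_cons, W_cons, W_cons, W_cons, W_zero, add_zero, add_zero, h]
    rw [this, sub_self]
  · rw [mo_cons, mo_cons, mo_cons, mo_cons]
    have h0 : mo K (0 : Multiset (Gen n d s)) = 1 := by
      unfold mo
      rw [map_zero]
      rfl
    rw [h0, mul_one, mul_one]
    exact ((isHomogeneous_X K u).mul (isHomogeneous_X K v)).sub
      ((isHomogeneous_X K u').mul (isHomogeneous_X K v'))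

theorem quad_of (h : ∀ S T : Multiset (Gen n d s), W S = W T → Re K S T) :
    IsQuadratic K n d s := by
  classical
  unfold IsQuadratic
  apply le_antisymm
  · intro f hf
    have hf0 : Phi K n d s f = 0 := hf
    let rep : (Fin n →₀ ℕ) → Multiset (Gen n d s) := fun a =>
      if hx : ∃ S : Multiset (Gen n d s), W S = ⇑a then hx.choose else 0
    have hrep : ∀ S : Multiset (Gen n d s),
        W (rep (Finsupp.equivFunOnFinite.symm (W S))) = W S := by
      intro S
      have hx : ∃ T : Multiset (Gen n d s),
          W T = ⇑(Finsupp.equivFunOnFinite.symm (W S)) := ⟨S, rfl⟩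
      have e : rep (Finsupp.equivFunOnFinite.symm (W S)) = hx.choose := dif_pos hx
      rw [e]
      exact hx.choose_spec
    let L : MvPolynomial (Fin n) K →ₗ[K] MvPolynomial (Gen n d s) K :=
      (basisMonomials (Fin n) K).constr K (fun a => mo K (rep a))
    have hL : ∀ a, L (monomial a 1) = mo K (rep a) := by
      intro a
      have := (basisMonomials (Fin n) K).constr_basis K (fun a => mo K (rep a)) a
      rwa [coe_basisMonomials] at this
    have hlin : ∀ g : MvPolynomial (Gen n d s) K, g - L (Phi K n d s g) ∈
        Ideal.span {f | f ∈ RingHom.ker (Phi K n d s) ∧ f.IsHomogeneous 2} := by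
      intro g
      induction g using MvPolynomial.induction_on' with
      | monomial b c =>
        obtain ⟨S, rfl⟩ := (Multiset.toFinsupp (α := Gen n d s)).surjective b
        have e1 : monomial (Multiset.toFinsupp S) c = c • mo K S := by
          unfold mo
          rw [smul_monomial, smul_eq_mul, mul_one]
        rw [e1, map_smul, map_smul, Phi_mo, hL, ← smul_sub]
        have h1 := h S _ (hrep S).symm
        unfold Re at h1
        exact Submodule.smul_of_tower_mem _ c h1
      | add p q hp hq =>
        rw [map_add, map_add]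
        have := add_mem hp hq
        have e : p + q - (L (Phi K n d s p) + L (Phi K n d s q))
            = (p - L (Phi K n d s p)) + (q - L (Phi K n d s q)) := by ring
        rw [e]
        exact this
    have := hlin f
    rw [hf0, map_zero, sub_zero] at this
    exact this
  · rw [Ideal.span_le]
    intro f hf
    exact hf.1

end Pool.Agent.Helper857.PV
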