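import Pool.Agent.Helper857.PVe

set_option autoImplicit false

namespace Pool.Agent.Helper857.PV

open MvPolynomial

lemma cover3 : ∀ p q r : Fin 3, p ≠ q → p ≠ r → q ≠ r → ∀ t : Fin 3, t = p ∨ t = q ∨ t = r := by
  decide

lemma univ3 : ∀ p q r : Fin 3, p ≠ q → p ≠ r → q ≠ r →
    (Finset.univ : Finset (Fin 3)) = {p, q, r} := by
  decide

section
variable {K : Type} [Field K] {n d s : ℕ}

lemma mv12 {u v w u' v' : Gen n d s} (h : u.1 + v.1 = u'.1 + v'.1) :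
    Re K (u ::ₘ v ::ₘ w ::ₘ 0) (u' ::ₘ v' ::ₘ w ::ₘ 0) := by
  have h1 := (Re.move (K := K) h).cons w
  rw [Multiset.cons_swap w u, Multiset.cons_swap w v, Multiset.cons_swap w u',
    Multiset.cons_swap w v'] at h1
  exact h1

lemma mv23 {u v w v' w' : Gen n d s} (h : v.1 + w.1 = v'.1 + w'.1) :
    Re K (u ::ₘ v ::ₘ w ::ₘ 0) (u ::ₘ v' ::ₘ w' ::ₘ 0) :=
  (Re.move (K := K) h).cons u

lemma mv13 {u v w u' w' : Gen n d s} (h : u.1 + w.1 = u'.1 + w'.1) :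
    Re K (u ::ₘ v ::ₘ w ::ₘ 0) (u' ::ₘ v ::ₘ w' ::ₘ 0) := by
  have h1 := (Re.move (K := K) h).cons v
  rw [Multiset.cons_swap v u, Multiset.cons_swap v u'] at h1
  exact h1

lemma W_sum (S : Multiset (Gen n d s)) : ∑ i, W S i = d * S.card := by
  induction S using Multiset.induction_on with
  | empty => simp [W]
  | cons u S ih =>
    rw [W_cons, Multiset.card_cons]
    simp only [Pi.add_apply]
    rw [Finset.sum_add_distrib, ih, u.2.1]
    ring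

end

section
variable {K : Type} [Field K] {d : ℕ} {p q r : Fin 3}

lemma sum3 (hpq : p ≠ q) (hpr : p ≠ r) (hqr : q ≠ r) (f : Fin 3 → ℕ) :
    ∑ i, f i = f p + f q + f r := by
  rw [univ3 p q r hpq hpr hqr, Finset.sum_insert, Finset.sum_insert, Finset.sum_singleton,
    add_assoc]
  · rw [Finset.mem_singleton]; exact hqr
  · rw [Finset.mem_insert, Finset.mem_singleton]
    push Not
    exact ⟨hpq, hpr⟩

lemma gsum (hpq : p ≠ q) (hpr : p ≠ r) (hqr : q ≠ r) (u : Gen 3 d 2) :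
    u.1 p + u.1 q + u.1 r = d := by
  rw [← sum3 hpq hpr hqr]
  exact u.2.1

lemma gzero (hpq : p ≠ q) (hpr : p ≠ r) (hqr : q ≠ r) (u : Gen 3 d 2) :
    u.1 p = 0 ∨ u.1 q = 0 ∨ u.1 r = 0 := by
  by_contra hcon
  push Not at hcon
  have h1 : Finset.univ.filter (fun i => u.1 i ≠ 0) = Finset.univ := by
    apply Finset.filter_true_of_mem
    intro t _
    rcases cover3 p q r hpq hpr hqr t with rfl | rfl | rfl
    · exact hcon.1
    · exact hcon.2.1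
    · exact hcon.2.2
  have h2 := u.2.2
  rw [h1, Finset.card_univ, Fintype.card_fin] at h2
  omega

lemma mk3 (hpq : p ≠ q) (hpr : p ≠ r) (hqr : q ≠ r) (a b c : ℕ) (h : a + b + c = d)
    (hz : a = 0 ∨ b = 0 ∨ c = 0) : ∃ u : Gen 3 d 2, u.1 p = a ∧ u.1 q = b ∧ u.1 r = c := by
  let f : Fin 3 → ℕ := fun t => if t = p then a else if t = q then b else c
  have fp : f p = a := if_pos rfl
  have fq : f q = b := by
    show (if q = p then a else if q = q then b else c) = b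
    rw [if_neg hpq.symm, if_pos rfl]
  have fr : f r = c := by
    show (if r = p then a else if r = q then b else c) = c
    rw [if_neg hpr.symm, if_neg hqr.symm]
  refine ⟨⟨f, ?_, ?_⟩, fp, fq, fr⟩
  · rw [sum3 hpq hpr hqr, fp, fq, fr, h]
  · obtain ⟨t, ht⟩ : ∃ t, f t = 0 := by
      rcases hz with h | h | h
      · exact ⟨p, by rw [fp, h]⟩
      · exact ⟨q, by rw [fq, h]⟩
      · exact ⟨r, by rw [fr, h]⟩
    have h1 : Finset.univ.filter (fun i => f i ≠ 0) ⊆ Finset.univ.erase t := by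
      intro x hx
      rw [Finset.mem_filter] at hx
      rw [Finset.mem_erase]
      exact ⟨fun he => hx.2 (by rw [he, ht]), Finset.mem_univ _⟩
    have h2 := Finset.card_le_card h1
    rw [Finset.card_erase_of_mem (Finset.mem_univ _), Finset.card_univ, Fintype.card_fin] at h2
    omega

lemma ext3 (hpq : p ≠ q) (hpr : p ≠ r) (hqr : q ≠ r) {f g : Fin 3 → ℕ} (h1 : f p = g p)
    (h2 : f q = g q) (h3 : f r = g r) : f = g := by
  funext t
  rcases cover3 p q r hpq hpr hqr t with rfl | rfl | rfl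
  · exact h1
  · exact h2
  · exact h3

lemma gather (hpq : p ≠ q) (hpr : p ≠ r) (hqr : q ≠ r) (u v : Gen 3 d 2)
    (hC : u.1 r + v.1 r ≤ d) : ∃ u' v' : Gen 3 d 2, v'.1 r = 0 ∧ u.1 + v.1 = u'.1 + v'.1 := by
  have su := gsum hpq hpr hqr u
  have sv := gsum hpq hpr hqr v
  by_cases hB : u.1 q + v.1 q ≤ d
  · obtain ⟨u', a1, a2, a3⟩ := mk3 (d := d) hpq hpr hqr (d - (u.1 r + v.1 r)) 0 (u.1 r + v.1 r)
      (by omega) (by omega)
    obtain ⟨v', b1, b2, b3⟩ := mk3 (d := d) hpq hpr hqr (d - (u.1 q + v.1 q)) (u.1 q + v.1 q) 0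
      (by omega) (by omega)
    refine ⟨u', v', b3, ext3 hpq hpr hqr ?_ ?_ ?_⟩
    · show u.1 p + v.1 p = u'.1 p + v'.1 p
      omega
    · show u.1 q + v.1 q = u'.1 q + v'.1 q
      omega
    · show u.1 r + v.1 r = u'.1 r + v'.1 r
      omega
  · obtain ⟨u', a1, a2, a3⟩ := mk3 (d := d) hpq hpr hqr 0 (d - (u.1 r + v.1 r)) (u.1 r + v.1 r)
      (by omega) (by omega)
    obtain ⟨v', b1, b2, b3⟩ := mk3 (d := d) hpq hpr hqr (u.1 p + v.1 p) (d - (u.1 p + v.1 p)) 0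
      (by omega) (by omega)
    refine ⟨u', v', b3, ext3 hpq hpr hqr ?_ ?_ ?_⟩
    · show u.1 p + v.1 p = u'.1 p + v'.1 p
      omega
    · show u.1 q + v.1 q = u'.1 q + v'.1 q
      omega
    · show u.1 r + v.1 r = u'.1 r + v'.1 r
      omega

/-- re-splitting a product of two monomials in the variables `p, q` -/
lemma resplit (hpq : p ≠ q) (hpr : p ≠ r) (hqr : q ≠ r) (u v : Gen 3 d 2) (hu : u.1 r = 0)
    (hv : v.1 r = 0) (i : ℕ) (hi : i ≤ d) (hi1 : i ≤ u.1 p + v.1 p)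
    (hi2 : u.1 p + v.1 p ≤ d + i) :
    ∃ u' v' : Gen 3 d 2, u'.1 p = i ∧ u'.1 q = d - i ∧ u'.1 r = 0 ∧ v'.1 r = 0 ∧
      v'.1 p = u.1 p + v.1 p - i ∧ u.1 + v.1 = u'.1 + v'.1 := by
  have su := gsum hpq hpr hqr u
  have sv := gsum hpq hpr hqr v
  obtain ⟨u', a1, a2, a3⟩ := mk3 (d := d) hpq hpr hqr i (d - i) 0 (by omega) (by omega)
  obtain ⟨v', b1, b2, b3⟩ := mk3 (d := d) hpq hpr hqr (u.1 p + v.1 p - i)
    (d - (u.1 p + v.1 p - i)) 0 (by omega) (by omega)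
  refine ⟨u', v', a1, a2, a3, b3, b1, ext3 hpq hpr hqr ?_ ?_ ?_⟩
  · show u.1 p + v.1 p = u'.1 p + v'.1 p
    omega
  · show u.1 q + v.1 q = u'.1 q + v'.1 q
    omega
  · show u.1 r + v.1 r = u'.1 r + v'.1 r
    omega

lemma gather2 (hpq : p ≠ q) (hpr : p ≠ r) (hqr : q ≠ r) (m1 m2 m3 : Gen 3 d 2)
    (hc : m1.1 r + m2.1 r + m3.1 r ≤ d) :
    ∃ l1 l2 l3 : Gen 3 d 2, l2.1 r = 0 ∧ l3.1 r = 0 ∧
      (∀ t, m1.1 t + m2.1 t + m3.1 t = l1.1 t + l2.1 t + l3.1 t) ∧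
      Re K (m1 ::ₘ m2 ::ₘ m3 ::ₘ 0) (l1 ::ₘ l2 ::ₘ l3 ::ₘ 0) := by
  have q0 : m1.1 r + m2.1 r ≤ d := le_trans (Nat.le_add_right _ _) hc
  obtain ⟨n1, n2, hn2, e12⟩ := gather hpq hpr hqr m1 m2 q0
  have e12' : ∀ t, m1.1 t + m2.1 t = n1.1 t + n2.1 t := fun t => congrFun e12 t
  have q1 := e12' r
  have q2 : n1.1 r + m3.1 r ≤ d := by
    rw [q1, hn2] at hc
    exact hc
  obtain ⟨l1, l3, hl3, e13⟩ := gather hpq hpr hqr n1 m3 q2
  have e13' : ∀ t, n1.1 t + m3.1 t = l1.1 t + l3.1 t := fun t => congrFun e13 t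
  refine ⟨l1, n2, l3, hn2, hl3, ?_, (mv12 e12).trans (mv13 e13)⟩
  intro t
  have h1 := e12' t
  have h2 := e13' t
  clear e12' e13' e12 e13 hc q0 q1 q2
  omega

lemma k3b (hpq : p ≠ q) (hpr : p ≠ r) (hqr : q ≠ r) (l1 l2 l3 : Gen 3 d 2)
    (hl2 : l2.1 r = 0) (hl3 : l3.1 r = 0) (ha : d ≤ l1.1 p + l2.1 p + l3.1 p) :
    ∃ Z u v : Gen 3 d 2, Z.1 p = d - l1.1 r ∧ Z.1 q = 0 ∧ Z.1 r = l1.1 r ∧
      (∀ t, l1.1 t + l2.1 t + l3.1 t = Z.1 t + u.1 t + v.1 t) ∧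
      Re K (l1 ::ₘ l2 ::ₘ l3 ::ₘ 0) (Z ::ₘ u ::ₘ v ::ₘ 0) := by
  have s1 := gsum hpq hpr hqr l1
  have s2 := gsum hpq hpr hqr l2
  have s3 := gsum hpq hpr hqr l3
  have two : l2.1 p + l3.1 p ≤ d + d := by
    clear ha s1
    omega
  by_cases hj : l1.1 q = 0
  · refine ⟨l1, l2, l3, ?_, hj, rfl, fun t => rfl, Re.refl _⟩
    clear ha s2 s3 two
    omega
  · by_cases hc0 : l1.1 r = 0
    · by_cases hd : d ≤ l2.1 p + l3.1 p
      · obtain ⟨u', v', a1, a2, a3, a4, a5, a6⟩ :=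
          resplit hpq hpr hqr l2 l3 hl2 hl3 d le_rfl hd two
        have a6' : ∀ t, l2.1 t + l3.1 t = u'.1 t + v'.1 t := fun t => congrFun a6 t
        refine ⟨u', l1, v', ?_, ?_, ?_, ?_, ?_⟩
        · rw [a1, hc0]; rfl
        · rw [a2]; exact Nat.sub_self d
        · rw [a3, hc0]
        · intro t
          have h1 := a6' t
          clear a6' a6 s1 s2 s3 ha two hd a5 a2
          omega
        · refine (mv23 a6).trans ?_
          rw [Multiset.cons_swap]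
          exact Re.refl _
      · obtain ⟨u', v', a1, a2, a3, a4, a5, a6⟩ := resplit hpq hpr hqr l2 l3 hl2 hl3
          (l2.1 p + l3.1 p) (le_of_lt (not_le.mp hd)) le_rfl (Nat.le_add_left _ _)
        have a6' : ∀ t, l2.1 t + l3.1 t = u'.1 t + v'.1 t := fun t => congrFun a6 t
        have g1 : d ≤ l1.1 p + u'.1 p := by
          rw [a1, ← add_assoc]; exact ha
        have g2 : l1.1 p + u'.1 p ≤ d + d := by
          have s4 := gsum hpq hpr hqr u'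
          clear a6' a6 s2 s3 ha two hd a5 a2 a1 g1
          omega
        obtain ⟨u2, v2, b1, b2, b3, b4, b5, b6⟩ :=
          resplit hpq hpr hqr l1 u' hc0 a3 d le_rfl g1 g2
        have b6' : ∀ t, l1.1 t + u'.1 t = u2.1 t + v2.1 t := fun t => congrFun b6 t
        refine ⟨u2, v2, v', ?_, ?_, ?_, ?_, ?_⟩
        · rw [b1, hc0]; rfl
        · rw [b2]; exact Nat.sub_self d
        · rw [b3, hc0]
        · intro t
          have h1 := a6' t
          have h2 := b6' t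
          clear a6' a6 b6' b6 s1 s2 s3 ha two hd a5 a2 a1 g1 g2 b5 b2 b1
          omega
        · exact (mv23 a6).trans (mv12 b6)
    · have hp0 : l1.1 p = 0 := by
        rcases gzero hpq hpr hqr l1 with z | z | z
        · exact z
        · exact absurd z hj
        · exact absurd z hc0
      have g1 : d ≤ l2.1 p + l3.1 p := by
        rw [hp0, zero_add] at ha
        exact ha
      obtain ⟨u', v', a1, a2, a3, a4, a5, a6⟩ :=
        resplit hpq hpr hqr l2 l3 hl2 hl3 d le_rfl g1 two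
      have a6' : ∀ t, l2.1 t + l3.1 t = u'.1 t + v'.1 t := fun t => congrFun a6 t
      have hcd : l1.1 r ≤ d := by
        clear a6' a6 s2 s3 ha two g1 a1 a2 a5
        omega
      obtain ⟨Z, c1, c2, c3⟩ := mk3 (d := d) hpq hpr hqr (d - l1.1 r) 0 (l1.1 r)
        (by rw [add_zero]; exact Nat.sub_add_cancel hcd) (Or.inr (Or.inl rfl))
      obtain ⟨Y, f1, f2, f3⟩ := mk3 (d := d) hpq hpr hqr (l1.1 r) (d - l1.1 r) 0
        (by rw [add_zero]; exact Nat.add_sub_cancel' hcd) (Or.inr (Or.inr rfl))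
      have e : l1.1 + u'.1 = Z.1 + Y.1 := by
        refine ext3 hpq hpr hqr ?_ ?_ ?_
        · show l1.1 p + u'.1 p = Z.1 p + Y.1 p
          rw [hp0, a1, c1, f1, zero_add, Nat.sub_add_cancel hcd]
        · show l1.1 q + u'.1 q = Z.1 q + Y.1 q
          rw [a2, c2, f2, Nat.sub_self, zero_add, add_zero]
          clear a6' a6 s2 s3 ha two g1 a1 a2 a5 c1 c2 c3 f1 f2 f3 hj
          omega
        · show l1.1 r + u'.1 r = Z.1 r + Y.1 r
          rw [a3, c3, f3]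
      have e' : ∀ t, l1.1 t + u'.1 t = Z.1 t + Y.1 t := fun t => congrFun e t
      refine ⟨Z, Y, v', c1, c2, c3, ?_, (mv23 a6).trans (mv12 e)⟩
      intro t
      have h1 := a6' t
      have h2 := e' t
      clear a6' a6 e e' s1 s2 s3 ha two a5 a2 a1 g1 c1 c2 c3 f1 f2 f3
      omega

lemma k3 (hpq : p ≠ q) (hpr : p ≠ r) (hqr : q ≠ r) (m1 m2 m3 : Gen 3 d 2)
    (hc : m1.1 r + m2.1 r + m3.1 r ≤ d) (ha : d ≤ m1.1 p + m2.1 p + m3.1 p) :
    ∃ Z u v : Gen 3 d 2, Z.1 p = d - (m1.1 r + m2.1 r + m3.1 r) ∧ Z.1 q = 0 ∧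
      Z.1 r = m1.1 r + m2.1 r + m3.1 r ∧
      (∀ t, m1.1 t + m2.1 t + m3.1 t = Z.1 t + u.1 t + v.1 t) ∧
      Re K (m1 ::ₘ m2 ::ₘ m3 ::ₘ 0) (Z ::ₘ u ::ₘ v ::ₘ 0) := by
  obtain ⟨l1, l2, l3, h2, h3, tot, R1⟩ := gather2 (K := K) hpq hpr hqr m1 m2 m3 hc
  have hr : l1.1 r = m1.1 r + m2.1 r + m3.1 r := by
    rw [tot r, h2, h3]; rfl
  obtain ⟨Z, u, v, a1, a2, a3, a4, a5⟩ := k3b (K := K) hpq hpr hqr l1 l2 l3 h2 h3
    (by rw [← tot p]; exact ha)
  refine ⟨Z, u, v, by rw [a1, hr], a2, by rw [a3, hr], ?_, R1.trans a5⟩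
  intro t
  rw [tot t, a4 t]

end

lemma pick3 (d : ℕ) (M : Fin 3 → ℕ) (h : M 0 + M 1 + M 2 = 3 * d) :
    ∃ p q r : Fin 3, p ≠ q ∧ p ≠ r ∧ q ≠ r ∧ d ≤ M p ∧ M r ≤ d := by
  have h6 : (d ≤ M 0 ∧ M 1 ≤ d) ∨ (d ≤ M 0 ∧ M 2 ≤ d) ∨ (d ≤ M 1 ∧ M 0 ≤ d) ∨
    (d ≤ M 1 ∧ M 2 ≤ d) ∨ (d ≤ M 2 ∧ M 0 ≤ d) ∨ (d ≤ M 2 ∧ M 1 ≤ d) := by omega
  rcases h6 with h | h | h | h | h | h
  · exact ⟨0, 2, 1, by decide, by decide, by decide, h.1, h.2⟩
  · exact ⟨0, 1, 2, by decide, by decide, by decide, h.1, h.2⟩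
  · exact ⟨1, 2, 0, by decide, by decide, by decide, h.1, h.2⟩
  · exact ⟨1, 0, 2, by decide, by decide, by decide, h.1, h.2⟩
  · exact ⟨2, 1, 0, by decide, by decide, by decide, h.1, h.2⟩
  · exact ⟨2, 0, 1, by decide, by decide, by decide, h.1, h.2⟩

lemma pick2 (d : ℕ) (M : Fin 3 → ℕ) (h : M 0 + M 1 + M 2 = 2 * d) :
    ∃ p q r : Fin 3, p ≠ q ∧ p ≠ r ∧ q ≠ r ∧ M q ≤ d ∧ M r ≤ d := by
  have h3 : (M 1 ≤ d ∧ M 2 ≤ d) ∨ (M 0 ≤ d ∧ M 2 ≤ d) ∨ (M 0 ≤ d ∧ M 1 ≤ d) := by omega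
  rcases h3 with h | h | h
  · exact ⟨0, 1, 2, by decide, by decide, by decide, h.1, h.2⟩
  · exact ⟨1, 0, 2, by decide, by decide, by decide, h.1, h.2⟩
  · exact ⟨2, 0, 1, by decide, by decide, by decide, h.1, h.2⟩

lemma pure3 (d : ℕ) (p : Fin 3) : ∃ u : Gen 3 d 2, u.1 p = d ∧ ∀ t, t ≠ p → u.1 t = 0 := by
  obtain ⟨q, r, hpq, hpr, hqr⟩ : ∃ q r : Fin 3, p ≠ q ∧ p ≠ r ∧ q ≠ r := by
    revert p; decide
  obtain ⟨u, a, b, c⟩ := mk3 (d := d) hpq hpr hqr d 0 0 (by omega) (by omega)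
  refine ⟨u, a, ?_⟩
  intro t ht
  rcases cover3 p q r hpq hpr hqr t with rfl | rfl | rfl
  · exact absurd rfl ht
  · exact b
  · exact c

lemma exist3 (d k : ℕ) : ∀ M : Fin 3 → ℕ, ∑ i, M i = (k + 2) * d →
    ∃ S : Multiset (Gen 3 d 2), S.card = k + 2 ∧ W S = M := by
  induction k with
  | zero =>
    intro M hM
    rw [Fin.sum_univ_three] at hM
    obtain ⟨p, q, r, hpq, hpr, hqr, h1, h2⟩ := pick2 d M (by omega)
    have hM' : M p + M q + M r = 2 * d := by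
      rw [← sum3 hpq hpr hqr, Fin.sum_univ_three]; omega
    obtain ⟨u, a1, a2, a3⟩ := mk3 (d := d) hpq hpr hqr (d - M q) (M q) 0 (by omega) (by omega)
    obtain ⟨v, b1, b2, b3⟩ := mk3 (d := d) hpq hpr hqr (d - M r) 0 (M r) (by omega) (by omega)
    refine ⟨u ::ₘ v ::ₘ 0, by simp, ?_⟩
    rw [W_cons, W_cons, W_zero, add_zero]
    refine ext3 hpq hpr hqr ?_ ?_ ?_
    · show u.1 p + v.1 p = M p
      omega
    · show u.1 q + v.1 q = M q
      omega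
    · show u.1 r + v.1 r = M r
      omega
  | succ k ih =>
    intro M hM
    obtain ⟨p, hp⟩ : ∃ p, d ≤ M p := by
      by_contra hcon
      push Not at hcon
      rw [Fin.sum_univ_three] at hM
      have h0 := hcon 0
      have h1 := hcon 1
      have h2 := hcon 2
      have : (k + 1 + 2) * d = k * d + 3 * d := by ring
      omega
    obtain ⟨u, hu, hu'⟩ := pure3 d p
    have hle : ∀ t, u.1 t ≤ M t := by
      intro t
      by_cases h : t = p
      · rw [h, hu]; exact hp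
      · rw [hu' t h]; omega
    obtain ⟨S, hS, hW⟩ := ih (fun t => M t - u.1 t) (by
      have h1 : ∑ t, (M t - u.1 t) + ∑ t, u.1 t = ∑ t, M t := by
        rw [← Finset.sum_add_distrib]
        apply Finset.sum_congr rfl
        intro t _
        have := hle t
        omega
      have h2 := u.2.1
      have h3 : (k + 1 + 2) * d = (k + 2) * d + d := by ring
      omega)
    refine ⟨u ::ₘ S, by rw [Multiset.card_cons, hS], ?_⟩
    rw [W_cons, hW]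
    funext t
    have := hle t
    show u.1 t + (M t - u.1 t) = M t
    omega

end Pool.Agent.Helper857.PV
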