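import Pool.Agent.Helper857.PVf

set_option autoImplicit false

namespace Pool.Agent.Helper857.PV

open MvPolynomial

lemma W_inj1 {n d s : ℕ} {u v : Gen n d s} (h : u.1 = v.1) : u = v := Subtype.ext h

theorem three_quad (K : Type) [Field K] (d : ℕ) (hd : 1 ≤ d) : IsQuadratic K 3 d 2 := by
  apply quad_of
  have key : ∀ k : ℕ, ∀ S T : Multiset (Gen 3 d 2), S.card = k → W S = W T → Re K S T := by
    intro k
    induction k using Nat.strong_induction_on with
    | _ k ih =>
    intro S T hS hW
    have hcard : T.card = k := by
      have h1 := W_sum S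
      have h2 := W_sum T
      rw [hW, h2, hS] at h1
      exact Nat.eq_of_mul_eq_mul_left hd h1
    by_cases hk0 : k = 0
    · rw [hk0] at hS hcard
      rw [Multiset.card_eq_zero] at hS hcard
      rw [hS, hcard]
      exact Re.refl _
    by_cases hk1 : k = 1
    · rw [hk1] at hS hcard
      rw [Multiset.card_eq_one] at hS hcard
      obtain ⟨u, rfl⟩ := hS
      obtain ⟨v, rfl⟩ := hcard
      have : u = v := by
        apply W_inj1
        simpa [W] using hW
      rw [this]
      exact Re.refl _
    by_cases hk2 : k = 2
    · rw [hk2] at hS hcard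
      rw [Multiset.card_eq_two] at hS hcard
      obtain ⟨u, v, rfl⟩ := hS
      obtain ⟨u', v', rfl⟩ := hcard
      apply Re.move
      simpa [W] using hW
    by_cases hk3 : k = 3
    · rw [hk3] at hS hcard
      rw [Multiset.card_eq_three] at hS hcard
      obtain ⟨m1, m2, m3, rfl⟩ := hS
      obtain ⟨n1, n2, n3, rfl⟩ := hcard
      have hWt : ∀ t, m1.1 t + m2.1 t + m3.1 t = n1.1 t + n2.1 t + n3.1 t := by
        intro t
        have h1 := congrFun hW t
        have e : ∀ a b c : Gen 3 d 2, W ({a, b, c} : Multiset (Gen 3 d 2)) t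
            = a.1 t + b.1 t + c.1 t := by
          intro a b c
          have e1 : ({a, b, c} : Multiset (Gen 3 d 2)) = a ::ₘ b ::ₘ c ::ₘ 0 := rfl
          rw [e1, W_cons, W_cons, W_cons, W_zero]
          simp only [Pi.add_apply, Pi.zero_apply]
          ring
        rw [e, e] at h1
        exact h1
      obtain ⟨p, q, r, hpq, hpr, hqr, h1, h2⟩ := pick3 d (fun t => m1.1 t + m2.1 t + m3.1 t) (by
        have a1 := m1.2.1
        have a2 := m2.2.1
        have a3 := m3.2.1
        rw [Fin.sum_univ_three] at a1 a2 a3
        show m1.1 0 + m2.1 0 + m3.1 0 + (m1.1 1 + m2.1 1 + m3.1 1)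
          + (m1.1 2 + m2.1 2 + m3.1 2) = 3 * d
        omega)
      obtain ⟨Z, u, v, z1, z2, z3, zt, zR⟩ := k3 (K := K) hpq hpr hqr m1 m2 m3 h2 h1
      rw [hWt] at h1 h2
      obtain ⟨Z', u', v', z1', z2', z3', zt', zR'⟩ := k3 (K := K) hpq hpr hqr n1 n2 n3 h2 h1
      have hZ : Z = Z' := by
        apply W_inj1
        refine ext3 hpq hpr hqr ?_ ?_ ?_
        · rw [z1, z1', hWt]
        · rw [z2, z2']
        · rw [z3, z3', hWt]
      subst hZ
      refine zR.trans (Re.trans (mv23 ?_) zR'.symm)
      funext t
      have a := zt t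
      have b := zt' t
      have c := hWt t
      show u.1 t + v.1 t = u'.1 t + v'.1 t
      omega
    -- k ≥ 4
    obtain ⟨j, rfl⟩ : ∃ j, k = j + 4 := ⟨k - 4, by omega⟩
    have pull : ∀ U : Multiset (Gen 3 d 2), U.card = j + 4 → ∃ (p : Fin 3) (x : Gen 3 d 2)
        (A : Multiset (Gen 3 d 2)), x.1 p = d ∧ (∀ t, t ≠ p → x.1 t = 0) ∧ A.card = j + 3 ∧
        W U = W (x ::ₘ A) ∧ Re K U (x ::ₘ A) := by
      intro U hU
      obtain ⟨u, U', rfl⟩ : ∃ u U', U = u ::ₘ U' := by
        obtain ⟨u, hu⟩ := Multiset.card_pos_iff_exists_mem.mp (by rw [hU]; omega : 0 < U.card)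
        exact ⟨u, U.erase u, (Multiset.cons_erase hu).symm⟩
      have hU' : U'.card = j + 3 := by
        rw [Multiset.card_cons] at hU
        omega
      have hsum := W_sum U'
      rw [hU', Fin.sum_univ_three] at hsum
      obtain ⟨p, hp⟩ : ∃ p, d ≤ W U' p := by
        by_contra hcon
        push Not at hcon
        have h0 := hcon 0
        have h1 := hcon 1
        have h2 := hcon 2
        have : d * (j + 3) = d * j + 3 * d := by ring
        omega
      obtain ⟨x, hx, hx'⟩ := pure3 d p
      have hle : ∀ t, x.1 t ≤ W U' t := by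
        intro t
        by_cases h : t = p
        · rw [h, hx]; exact hp
        · rw [hx' t h]; omega
      obtain ⟨B, hB, hWB⟩ := exist3 d j (fun t => W U' t - x.1 t) (by
        have h2 := x.2.1
        rw [Fin.sum_univ_three] at h2 ⊢
        have h3 : (j + 2) * d + d = d * (j + 3) := by ring
        have l0 := hle 0
        have l1 := hle 1
        have l2 := hle 2
        omega)
      have hWU' : W U' = W (x ::ₘ B) := by
        rw [W_cons, hWB]
        funext t
        have := hle t
        show W U' t = x.1 t + (W U' t - x.1 t)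
        omega
      have hR := ih (j + 3) (by omega) U' (x ::ₘ B) hU' hWU'
      refine ⟨p, x, u ::ₘ B, hx, hx', by rw [Multiset.card_cons, hB], ?_, ?_⟩
      · rw [Multiset.cons_swap, W_cons, W_cons, hWU']
      · rw [Multiset.cons_swap]
        exact hR.cons u
    obtain ⟨p, x, A, hx, hx', hA, hWA, hRA⟩ := pull S hS
    obtain ⟨p', x', A', hy, hy', hA', hWA', hRA'⟩ := pull T hcard
    by_cases hpp : p = p'
    · have hxx : x = x' := by
        apply W_inj1
        funext t
        by_cases h : t = p
        · rw [h, hx, hpp, hy]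
        · rw [hx' t h, hy' t (fun h' => h (h'.trans hpp.symm))]
      subst hxx
      have hAA : W A = W A' := by
        rw [hWA, hWA', W_cons, W_cons] at hW
        exact add_left_cancel hW
      exact hRA.trans (((ih (j + 3) (by omega) A A' hA hAA).cons x).trans hRA'.symm)
    · -- different pure powers
      have hWW : ∀ t, x.1 t + W A t = x'.1 t + W A' t := by
        intro t
        have h1 := hW
        rw [hWA, hWA', W_cons, W_cons] at h1
        exact congrFun h1 t
      have hle : ∀ t, x'.1 t ≤ W A t := by
        intro t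
        by_cases h : t = p'
        · have := hWW t
          rw [hx' t (fun h' => hpp (h'.symm.trans h))] at this
          omega
        · rw [hy' t h]; omega
      have hle' : ∀ t, x.1 t ≤ W A' t := by
        intro t
        by_cases h : t = p
        · have := hWW t
          rw [hy' t (fun h' => hpp (h.symm.trans h'))] at this
          omega
        · rw [hx' t h]; omega
      have hsum := W_sum A
      rw [hA, Fin.sum_univ_three] at hsum
      obtain ⟨C, hC, hWC⟩ := exist3 d j (fun t => W A t - x'.1 t) (by
        have h2 := x'.2.1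
        rw [Fin.sum_univ_three] at h2 ⊢
        have h3 : (j + 2) * d + d = d * (j + 3) := by ring
        have l0 := hle 0
        have l1 := hle 1
        have l2 := hle 2
        omega)
      have hW1 : W A = W (x' ::ₘ C) := by
        rw [W_cons, hWC]
        funext t
        have := hle t
        show W A t = x'.1 t + (W A t - x'.1 t)
        omega
      have hW2 : W A' = W (x ::ₘ C) := by
        rw [W_cons, hWC]
        funext t
        have h1 := hle t
        have h2 := hle' t
        have h3 := hWW t
        show W A' t = x.1 t + (W A t - x'.1 t)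
        omega
      have r1 := (ih (j + 3) (by omega) A (x' ::ₘ C) hA hW1).cons x
      have r2 := (ih (j + 3) (by omega) A' (x ::ₘ C) hA' hW2).cons x'
      rw [Multiset.cons_swap] at r1
      exact hRA.trans (r1.trans (r2.symm.trans hRA'.symm))
  intro S T hW
  exact key S.card S T rfl hW

end Pool.Agent.Helper857.PV
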