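import Pool.Agent.Helper857.PVe

set_option autoImplicit false

namespace Pool.Agent.Helper857.PV

open MvPolynomial

section gen
variable {Q : Type} [CommMonoid Q] {ι : Type}

def HL (o : ι → ι → Q) : List ι → List ι → Q
  | (i :: P), (j :: L) => o i j * HL o P L
  | _, _ => 1

lemma HL_right (o : ι → ι → Q) (h : ∀ i j k l, o i j * o k l = o i l * o k j)
    {L L' : List ι} (hp : L.Perm L') : ∀ P : List ι, P.length = L.length →
      HL o P L = HL o P L' := by
  induction hp with
  | nil => intro P _; rfl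
  | cons x _ ih =>
    intro P hP
    cases P with
    | nil => simp at hP
    | cons i P =>
      show o i x * _ = o i x * _
      rw [ih P (by simpa using hP)]
  | swap x y l =>
    intro P hP
    match P, hP with
    | [], hP => simp at hP
    | [i], hP => simp at hP
    | (i :: k :: P), _ =>
      show o i y * (o k x * HL o P l) = o i x * (o k y * HL o P l)
      rw [← mul_assoc, ← mul_assoc, h]
  | trans h1 _ ih1 ih2 =>
    intro P hP
    rw [ih1 P hP, ih2 P (hP.trans h1.length_eq)]

lemma HL_left (o : ι → ι → Q) (h : ∀ i j k l, o i j * o k l = o i l * o k j)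
    {P P' : List ι} (hp : P.Perm P') : ∀ L : List ι, P.length = L.length →
      HL o P L = HL o P' L := by
  induction hp with
  | nil => intro P _; rfl
  | cons x _ ih =>
    intro L hL
    cases L with
    | nil => simp at hL
    | cons i L =>
      show o x i * _ = o x i * _
      rw [ih L (by simpa using hL)]
  | swap x y l =>
    intro L hL
    match L, hL with
    | [], hL => simp at hL
    | [i], hL => simp at hL
    | (i :: k :: L), _ =>
      show o y i * (o x k * HL o l L) = o x i * (o y k * HL o l L)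
      rw [← mul_assoc, ← mul_assoc, h y i x k, mul_comm (o y k)]
  | trans h1 _ ih1 ih2 =>
    intro P hP
    rw [ih1 P hP, ih2 P (h1.length_eq.symm.trans hP)]

noncomputable def HM (o : ι → ι → Q) (P L : Multiset ι) : Q := HL o P.toList L.toList

lemma HM_cons (o : ι → ι → Q) (h : ∀ i j k l, o i j * o k l = o i l * o k j)
    (i j : ι) (P L : Multiset ι) (hc : P.card = L.card) :
    HM o (i ::ₘ P) (j ::ₘ L) = o i j * HM o P L := by
  have h1 : ((i ::ₘ P).toList).Perm (i :: P.toList) := by
    rw [← Multiset.coe_eq_coe, ← Multiset.cons_coe]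
    simp
  have h2 : ((j ::ₘ L).toList).Perm (j :: L.toList) := by
    rw [← Multiset.coe_eq_coe, ← Multiset.cons_coe]
    simp
  unfold HM
  rw [HL_left o h h1 _ (by simp [hc]), HL_right o h h2 _ (by simp [hc])]
  rfl

lemma HM_zero (o : ι → ι → Q) : HM o 0 0 = 1 := by
  unfold HM
  simp [HL]

def HE (e : ι → ι → Q) : List ι → Q
  | (i :: j :: L) => e i j * HE e L
  | _ => 1

lemma HE_perm (e : ι → ι → Q) (hs : ∀ i j, e i j = e j i)
    (h : ∀ i j k l, e i j * e k l = e i k * e j l) {L L' : List ι} (hp : L.Perm L') :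
    (Even L.length → HE e L = HE e L') ∧
      (¬ Even L.length → ∀ z, HE e (z :: L) = HE e (z :: L')) := by
  induction hp with
  | nil => exact ⟨fun _ => rfl, fun _ _ => rfl⟩
  | @cons x l l' hl ih =>
    constructor
    · intro hev
      rw [List.length_cons, Nat.even_add_one] at hev
      exact ih.2 hev x
    · intro hodd z
      rw [List.length_cons, Nat.even_add_one, not_not] at hodd
      show e z x * HE e l = e z x * HE e l'
      rw [ih.1 hodd]
  | swap x y l =>
    constructor
    · intro _
      show e y x * HE e l = e x y * HE e l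
      rw [hs]
    · intro hodd z
      cases l with
      | nil => simp at hodd
      | cons w l =>
        show e z y * (e x w * HE e l) = e z x * (e y w * HE e l)
        rw [← mul_assoc, ← mul_assoc, h]
  | trans h1 _ ih1 ih2 =>
    constructor
    · intro hev
      rw [ih1.1 hev, ih2.1 (by rw [← h1.length_eq]; exact hev)]
    · intro hodd z
      rw [ih1.2 hodd z, ih2.2 (by rw [← h1.length_eq]; exact hodd) z]

noncomputable def HEM (e : ι → ι → Q) (L : Multiset ι) : Q := HE e L.toList

lemma HEM_cons (e : ι → ι → Q) (hs : ∀ i j, e i j = e j i)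
    (h : ∀ i j k l, e i j * e k l = e i k * e j l) (i j : ι) (L : Multiset ι)
    (hc : Even L.card) : HEM e (i ::ₘ j ::ₘ L) = e i j * HEM e L := by
  have h1 : ((i ::ₘ j ::ₘ L).toList).Perm (i :: j :: L.toList) := by
    rw [← Multiset.coe_eq_coe, ← Multiset.cons_coe, ← Multiset.cons_coe]
    simp
  unfold HEM
  rw [(HE_perm e hs h h1).1 (by
    simp only [Multiset.length_toList, Multiset.card_cons]
    rw [Nat.even_add_one, Nat.even_add_one, not_not]
    exact hc)]
  rfl

lemma HEM_zero (e : ι → ι → Q) : HEM e 0 = 1 := by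
  unfold HEM
  simp [HE]

end gen

section quo
variable (K : Type) [Field K] {n d s : ℕ}

noncomputable abbrev Jd (K : Type) [Field K] (n d s : ℕ) : Ideal (MvPolynomial (Gen n d s) K) :=
  Ideal.span {f | f ∈ RingHom.ker (Phi K n d s) ∧ f.IsHomogeneous 2}

noncomputable def qq (u : Gen n d s) : MvPolynomial (Gen n d s) K ⧸ Jd K n d s :=
  Ideal.Quotient.mk _ (X u)

noncomputable def qS (S : Multiset (Gen n d s)) : MvPolynomial (Gen n d s) K ⧸ Jd K n d s :=
  Ideal.Quotient.mk _ (mo K S)

lemma qS_zero : qS K (0 : Multiset (Gen n d s)) = 1 := by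
  unfold qS
  have h0 : mo K (0 : Multiset (Gen n d s)) = 1 := by
    unfold mo
    rw [map_zero]
    rfl
  rw [h0, map_one]

lemma qS_cons (u : Gen n d s) (S : Multiset (Gen n d s)) : qS K (u ::ₘ S) = qq K u * qS K S := by
  unfold qS qq
  rw [mo_cons, map_mul]

lemma qmove {u v u' v' : Gen n d s} (h : ∀ t, u.1 t + v.1 t = u'.1 t + v'.1 t) :
    qq K u * qq K v = qq K u' * qq K v' := by
  have h1 : Re K (u ::ₘ v ::ₘ 0) (u' ::ₘ v' ::ₘ 0) := Re.move (funext h)
  have h2 : qS K (u ::ₘ v ::ₘ 0) = qS K (u' ::ₘ v' ::ₘ 0) := Ideal.Quotient.eq.mpr h1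
  simpa only [qS_cons, qS_zero, mul_one] using h2

lemma re_of {S T : Multiset (Gen n d s)} (h : qS K S = qS K T) : Re K S T :=
  Ideal.Quotient.eq.mp h

end quo

section gg
variable {n : ℕ}

lemma card_pair (f : Fin n → ℕ) (p q : Fin n) (h : ∀ i, i ≠ p → i ≠ q → f i = 0) :
    (Finset.univ.filter (fun i => f i ≠ 0)).card ≤ 2 := by
  classical
  have h1 : Finset.univ.filter (fun i => f i ≠ 0) ⊆ {p, q} := by
    intro x hx
    rw [Finset.mem_filter] at hx
    rw [Finset.mem_insert, Finset.mem_singleton]
    by_contra hcon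
    push Not at hcon
    exact hx.2 (h x hcon.1 hcon.2)
  exact le_trans (Finset.card_le_card h1) Finset.card_le_two

def GG (c c' : ℕ) (i j : Fin n) : Gen n (c + c') 2 :=
  ⟨fun t => (if t = i then c else 0) + (if t = j then c' else 0), by
    rw [Finset.sum_add_distrib, Finset.sum_ite_eq', Finset.sum_ite_eq']
    simp, card_pair _ i j (fun t h1 h2 => by rw [if_neg h1, if_neg h2])⟩

lemma GG_val (c c' : ℕ) (i j t : Fin n) :
    (GG c c' i j).1 t = (if t = i then c else 0) + (if t = j then c' else 0) := rfl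

lemma supp2 {d : ℕ} (hd : 0 < d) (u : Gen n d 2) :
    (∃ i, ∀ t, u.1 t = if t = i then d else 0) ∨
    (∃ i j, i ≠ j ∧ 0 < u.1 i ∧ 0 < u.1 j ∧ u.1 i + u.1 j = d ∧
      ∀ t, t ≠ i → t ≠ j → u.1 t = 0) := by
  classical
  have hsum : ∑ i ∈ Finset.univ.filter (fun i => u.1 i ≠ 0), u.1 i = d := by
    have h1 := u.2.1
    refine Eq.trans ?_ h1
    exact Finset.sum_filter_ne_zero Finset.univ
  have hcard := u.2.2
  have h3 : (Finset.univ.filter (fun i => u.1 i ≠ 0)).card = 0 ∨
    (Finset.univ.filter (fun i => u.1 i ≠ 0)).card = 1 ∨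
    (Finset.univ.filter (fun i => u.1 i ≠ 0)).card = 2 := by omega
  rcases h3 with h | h | h
  · rw [Finset.card_eq_zero] at h
    rw [h, Finset.sum_empty] at hsum
    omega
  · obtain ⟨i, hi⟩ := Finset.card_eq_one.mp h
    rw [hi, Finset.sum_singleton] at hsum
    left
    refine ⟨i, ?_⟩
    intro t
    by_cases ht : t = i
    · rw [if_pos ht, ht, hsum]
    · rw [if_neg ht]
      by_contra hne
      have : t ∈ Finset.univ.filter (fun i => u.1 i ≠ 0) :=
        Finset.mem_filter.mpr ⟨Finset.mem_univ _, hne⟩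
      rw [hi, Finset.mem_singleton] at this
      exact ht this
  · obtain ⟨i, j, hij, he⟩ := Finset.card_eq_two.mp h
    rw [he, Finset.sum_pair hij] at hsum
    right
    have mi : i ∈ Finset.univ.filter (fun i => u.1 i ≠ 0) := by rw [he]; simp
    have mj : j ∈ Finset.univ.filter (fun i => u.1 i ≠ 0) := by rw [he]; simp
    refine ⟨i, j, hij, Nat.pos_of_ne_zero (Finset.mem_filter.mp mi).2,
      Nat.pos_of_ne_zero (Finset.mem_filter.mp mj).2, hsum, ?_⟩
    intro t h1 h2
    by_contra hne
    have : t ∈ Finset.univ.filter (fun i => u.1 i ≠ 0) :=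
      Finset.mem_filter.mpr ⟨Finset.mem_univ _, hne⟩
    rw [he, Finset.mem_insert, Finset.mem_singleton] at this
    rcases this with h' | h'
    · exact h1 h'
    · exact h2 h'

end gg

end Pool.Agent.Helper857.PV
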