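import Pool.Agent.Helper857.PVf
import Pool.Agent.Helper857.PVh

set_option autoImplicit false

namespace Pool.Agent.Helper857.PV

open MvPolynomial

section
variable (K : Type) [Field K] {n : ℕ}

noncomputable def g3 (i j : Fin n) : MvPolynomial (Gen n (2 + 1) 2) K ⧸ Jd K n (2 + 1) 2 :=
  qq K (GG 2 1 i j)

lemma g3_swap (i j k l : Fin n) : g3 K i j * g3 K k l = g3 K i l * g3 K k j := by
  apply qmove
  intro t
  simp only [GG_val]
  ring

lemma g3_ex (a b c : Fin n) : g3 K a c * g3 K b c = g3 K c a * g3 K b a := by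
  apply qmove
  intro t
  simp only [GG_val]
  split_ifs <;> omega

lemma g3_key (k : ℕ) : ∀ A B A' B' : Multiset (Fin n), A.card = k → B.card = k →
    A'.card = k → B'.card = k →
    (∀ v, 2 * A.count v + B.count v = 2 * A'.count v + B'.count v) →
    HM (g3 K) A B = HM (g3 K) A' B' := by
  induction k with
  | zero =>
    intro A B A' B' h1 h2 h3 h4 _
    rw [Multiset.card_eq_zero] at h1 h2 h3 h4
    rw [h1, h2, h3, h4]
  | succ k ih =>
    have pull : ∀ A B A' B' : Multiset (Fin n), A.card = k + 1 → B.card = k + 1 →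
        A'.card = k + 1 → B'.card = k + 1 →
        (∀ v, 2 * A.count v + B.count v = 2 * A'.count v + B'.count v) →
        ∀ a b, a ∈ A → a ∈ A' → b ∈ B → b ∈ B' → HM (g3 K) A B = HM (g3 K) A' B' := by
      intro A B A' B' h1 h2 h3 h4 h a b ha ha' hb hb'
      obtain ⟨A1, rfl⟩ := Multiset.exists_cons_of_mem ha
      obtain ⟨A2, rfl⟩ := Multiset.exists_cons_of_mem ha'
      obtain ⟨B1, rfl⟩ := Multiset.exists_cons_of_mem hb
      obtain ⟨B2, rfl⟩ := Multiset.exists_cons_of_mem hb'
      rw [Multiset.card_cons] at h1 h2 h3 h4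
      rw [HM_cons _ (g3_swap K) _ _ _ _ (by omega), HM_cons _ (g3_swap K) _ _ _ _ (by omega)]
      rw [ih A1 B1 A2 B2 (by omega) (by omega) (by omega) (by omega)]
      intro v
      have h5 := h v
      rw [Multiset.count_cons, Multiset.count_cons, Multiset.count_cons,
        Multiset.count_cons] at h5
      omega
    intro A B A' B' h1 h2 h3 h4 h
    by_cases hBB : ∃ b, b ∈ B ∧ b ∈ B'
    · obtain ⟨b, hb, hb'⟩ := hBB
      by_cases hAA : ∃ a, a ∈ A ∧ a ∈ A'
      · obtain ⟨a, ha, ha'⟩ := hAA
        exact pull A B A' B' h1 h2 h3 h4 h a b ha ha' hb hb'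
      · obtain ⟨a, ha⟩ := Multiset.card_pos_iff_exists_mem.mp (by omega : 0 < A.card)
        obtain ⟨a', ha'⟩ := Multiset.card_pos_iff_exists_mem.mp (by omega : 0 < A'.card)
        have naA' : A'.count a = 0 := Multiset.count_eq_zero.mpr (fun h' => hAA ⟨a, ha, h'⟩)
        have caA : 0 < A.count a := Multiset.count_pos.mpr ha
        have ca := h a
        have hB'a : a ∈ B' := Multiset.count_pos.mp (by omega)
        obtain ⟨B1, rfl⟩ := Multiset.exists_cons_of_mem hB'a
        have hB1a : a ∈ B1 := by
          apply Multiset.count_pos.mp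
          rw [Multiset.count_cons_self] at ca
          omega
        obtain ⟨B2, rfl⟩ := Multiset.exists_cons_of_mem hB1a
        obtain ⟨A1, rfl⟩ := Multiset.exists_cons_of_mem ha'
        rw [Multiset.card_cons] at h3
        rw [Multiset.card_cons, Multiset.card_cons] at h4
        obtain ⟨x, hx⟩ := Multiset.card_pos_iff_exists_mem.mp (by omega : 0 < A1.card)
        obtain ⟨A3, rfl⟩ := Multiset.exists_cons_of_mem hx
        rw [Multiset.card_cons] at h3
        have hbB2 : b ∈ B2 := by
          by_cases hba : b = a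
          · apply Multiset.count_pos.mp
            have cb : 0 < B.count b := Multiset.count_pos.mpr hb
            rw [Multiset.count_cons_self, Multiset.count_cons_self] at ca
            rw [hba] at cb ⊢
            omega
          · rw [Multiset.mem_cons, Multiset.mem_cons] at hb'
            rcases hb' with h' | h' | h'
            · exact absurd h' hba
            · exact absurd h' hba
            · exact h'
        have hnew : HM (g3 K) (a' ::ₘ x ::ₘ A3) (a ::ₘ a ::ₘ B2)
            = HM (g3 K) (a ::ₘ x ::ₘ A3) (a' ::ₘ a' ::ₘ B2) := by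
          rw [HM_cons _ (g3_swap K) _ _ _ _ (by rw [Multiset.card_cons, Multiset.card_cons]; omega),
            HM_cons _ (g3_swap K) _ _ _ _ (by omega),
            HM_cons _ (g3_swap K) _ _ _ _ (by rw [Multiset.card_cons, Multiset.card_cons]; omega),
            HM_cons _ (g3_swap K) _ _ _ _ (by omega), ← mul_assoc, ← mul_assoc, g3_ex]
        rw [hnew]
        refine pull A B _ _ h1 h2 (by simp only [Multiset.card_cons]; omega)
          (by simp only [Multiset.card_cons]; omega) ?_ a b ha (Multiset.mem_cons_self _ _) hb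
          (Multiset.mem_cons_of_mem (Multiset.mem_cons_of_mem hbB2))
        intro v
        have h5 := h v
        simp only [Multiset.count_cons] at h5 ⊢
        split_ifs at h5 ⊢ <;> omega
    · obtain ⟨b, hb⟩ := Multiset.card_pos_iff_exists_mem.mp (by omega : 0 < B.card)
      obtain ⟨b', hb'⟩ := Multiset.card_pos_iff_exists_mem.mp (by omega : 0 < B'.card)
      have nb : B'.count b = 0 := Multiset.count_eq_zero.mpr (fun h' => hBB ⟨b, hb, h'⟩)
      have nb' : B.count b' = 0 := Multiset.count_eq_zero.mpr (fun h' => hBB ⟨b', h', hb'⟩)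
      have cb : 0 < B.count b := Multiset.count_pos.mpr hb
      have cb' : 0 < B'.count b' := Multiset.count_pos.mpr hb'
      have e1 := h b
      have e2 := h b'
      have hbA' : b ∈ A' := Multiset.count_pos.mp (by omega)
      have hb'A : b' ∈ A := Multiset.count_pos.mp (by omega)
      obtain ⟨B1, rfl⟩ := Multiset.exists_cons_of_mem hb'
      have hB1 : b' ∈ B1 := by
        apply Multiset.count_pos.mp
        rw [Multiset.count_cons_self] at e2
        omega
      obtain ⟨B2, rfl⟩ := Multiset.exists_cons_of_mem hB1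
      obtain ⟨A1, rfl⟩ := Multiset.exists_cons_of_mem hbA'
      rw [Multiset.card_cons] at h3
      rw [Multiset.card_cons, Multiset.card_cons] at h4
      obtain ⟨x, hx⟩ := Multiset.card_pos_iff_exists_mem.mp (by omega : 0 < A1.card)
      obtain ⟨A3, rfl⟩ := Multiset.exists_cons_of_mem hx
      rw [Multiset.card_cons] at h3
      have hnew : HM (g3 K) (b ::ₘ x ::ₘ A3) (b' ::ₘ b' ::ₘ B2)
          = HM (g3 K) (b' ::ₘ x ::ₘ A3) (b ::ₘ b ::ₘ B2) := by
        rw [HM_cons _ (g3_swap K) _ _ _ _ (by rw [Multiset.card_cons, Multiset.card_cons]; omega),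
          HM_cons _ (g3_swap K) _ _ _ _ (by omega),
          HM_cons _ (g3_swap K) _ _ _ _ (by rw [Multiset.card_cons, Multiset.card_cons]; omega),
          HM_cons _ (g3_swap K) _ _ _ _ (by omega), ← mul_assoc, ← mul_assoc, g3_ex]
      rw [hnew]
      refine pull A B _ _ h1 h2 (by simp only [Multiset.card_cons]; omega)
        (by simp only [Multiset.card_cons]; omega) ?_ b' b hb'A (Multiset.mem_cons_self _ _) hb
        (Multiset.mem_cons_self _ _)
      intro v
      have h5 := h v
      simp only [Multiset.count_cons] at h5 ⊢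
      split_ifs at h5 ⊢ <;> omega

lemma rep3 (S : Multiset (Gen n (2 + 1) 2)) : ∃ A B : Multiset (Fin n),
    A.card = S.card ∧ B.card = S.card ∧ (∀ v, W S v = 2 * A.count v + B.count v) ∧
    qS K S = HM (g3 K) A B := by
  induction S using Multiset.induction_on with
  | empty =>
    refine ⟨0, 0, rfl, rfl, fun v => by rw [W_zero]; simp, ?_⟩
    rw [qS_zero, HM_zero]
  | cons u S ih =>
    obtain ⟨A, B, h1, h2, h3, h4⟩ := ih
    obtain ⟨i, j, hu⟩ : ∃ i j, u = GG 2 1 i j := by
      rcases supp2 (by omega) u with ⟨i, hi⟩ | ⟨i, j, hij, p1, p2, p3, p4⟩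
      · refine ⟨i, i, Subtype.ext (funext fun t => ?_)⟩
        rw [hi, GG_val]
        split_ifs <;> omega
      · by_cases h : u.1 i = 1
        · refine ⟨j, i, Subtype.ext (funext fun t => ?_)⟩
          rw [GG_val]
          by_cases ht : t = i
          · rw [if_neg (fun h' => hij (ht.symm.trans h')), if_pos ht, ht]; omega
          · by_cases ht' : t = j
            · rw [if_pos ht', if_neg ht, ht']; omega
            · rw [if_neg ht', if_neg ht, p4 t ht ht']
        · refine ⟨i, j, Subtype.ext (funext fun t => ?_)⟩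
          rw [GG_val]
          by_cases ht : t = i
          · rw [if_pos ht, if_neg (fun h' => hij (ht.symm.trans h')), ht]; omega
          · by_cases ht' : t = j
            · rw [if_pos ht', if_neg ht, ht']; omega
            · rw [if_neg ht', if_neg ht, p4 t ht ht']
    refine ⟨i ::ₘ A, j ::ₘ B, by rw [Multiset.card_cons, Multiset.card_cons, h1],
      by rw [Multiset.card_cons, Multiset.card_cons, h2], ?_, ?_⟩
    · intro v
      rw [W_cons, Pi.add_apply, h3, hu, GG_val, Multiset.count_cons, Multiset.count_cons]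
      split_ifs <;> omega
    · rw [qS_cons, h4, HM_cons _ (g3_swap K) _ _ _ _ (by omega), hu]
      rfl

theorem cubic_quad (n : ℕ) : IsQuadratic K n 3 2 := by
  show IsQuadratic K n (2 + 1) 2
  apply quad_of
  intro S T hW
  apply re_of
  obtain ⟨A, B, h1, h2, h3, h4⟩ := rep3 K S
  obtain ⟨A', B', h1', h2', h3', h4'⟩ := rep3 K T
  have hc : T.card = S.card := by
    have e1 := W_sum S
    have e2 := W_sum T
    rw [hW] at e1
    omega
  rw [h4, h4']
  apply g3_key K S.card A B A' B' h1 h2 (by omega) (by omega)
  intro v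
  rw [← h3, ← h3', hW]

end

end Pool.Agent.Helper857.PV
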