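import Pool.Agent.Helper857.PVf
import Pool.Agent.Helper857.PVh

set_option autoImplicit false

namespace Pool.Agent.Helper857.PV

open MvPolynomial

section
variable (K : Type) [Field K] {n : ℕ}

def o4 (i j : Fin n) : Gen n 4 2 := GG 3 1 i j
def e4 (i j : Fin n) : Gen n 4 2 := GG 2 2 i j

lemma o4_val (i j t : Fin n) :
    (o4 i j).1 t = (if t = i then 3 else 0) + (if t = j then 1 else 0) := rfl
lemma e4_val (i j t : Fin n) :
    (e4 i j).1 t = (if t = i then 2 else 0) + (if t = j then 2 else 0) := rfl

noncomputable def oo (i j : Fin n) : MvPolynomial (Gen n 4 2) K ⧸ Jd K n 4 2 := qq K (o4 i j)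
noncomputable def ee (i j : Fin n) : MvPolynomial (Gen n 4 2) K ⧸ Jd K n 4 2 := qq K (e4 i j)

lemma oo_swap (i j k l : Fin n) : oo K i j * oo K k l = oo K i l * oo K k j := by
  apply qmove
  intro t
  simp only [o4_val]
  ring

lemma ee_symm (i j : Fin n) : ee K i j = ee K j i := by
  have : e4 i j = e4 j i := by
    apply Subtype.ext
    funext t
    rw [e4_val, e4_val, add_comm]
  unfold ee
  rw [this]

lemma ee_swap (i j k l : Fin n) : ee K i j * ee K k l = ee K i k * ee K j l := by
  apply qmove
  intro t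
  simp only [e4_val]
  ring

lemma oo_self (i : Fin n) : oo K i i = ee K i i := by
  have : o4 i i = e4 i i := by
    apply Subtype.ext
    funext t
    rw [o4_val, e4_val]
    split_ifs <;> omega
  unfold ee oo
  rw [this]

lemma r3 (i j k : Fin n) : oo K i j * ee K j k = oo K j i * ee K i k := by
  apply qmove
  intro t
  simp only [o4_val, e4_val]
  split_ifs <;> omega

lemma r6 (i j k : Fin n) : oo K i j * oo K k j = oo K i k * ee K k j := by
  apply qmove
  intro t
  simp only [o4_val, e4_val]
  split_ifs <;> omega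

noncomputable def XX (P L E : Multiset (Fin n)) : MvPolynomial (Gen n 4 2) K ⧸ Jd K n 4 2 :=
  HM (oo K) P L * HEM (ee K) E

lemma XX_o (i j : Fin n) (P L E : Multiset (Fin n)) (h : P.card = L.card) :
    XX K (i ::ₘ P) (j ::ₘ L) E = oo K i j * XX K P L E := by
  unfold XX
  rw [HM_cons _ (oo_swap K) _ _ _ _ h, mul_assoc]

lemma XX_e (i j : Fin n) (P L E : Multiset (Fin n)) (h : Even E.card) :
    XX K P L (i ::ₘ j ::ₘ E) = ee K i j * XX K P L E := by
  unfold XX
  rw [HEM_cons _ (ee_symm K) (ee_swap K) _ _ _ h, mul_left_comm]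

lemma nf4 (m : ℕ) : ∀ P L E : Multiset (Fin n), P.card = m → L.card = m → Even E.card →
    ∃ P' L' E' : Multiset (Fin n), P'.card = L'.card ∧
      2 * P'.card + E'.card = 2 * P.card + E.card ∧
      (∀ v, 3 * P'.count v + L'.count v + 2 * E'.count v
        = 3 * P.count v + L.count v + 2 * E.count v) ∧
      XX K P L E = XX K P' L' E' ∧ (∀ v, P'.count v = 0 ∨ L'.count v = 0) ∧
      (∀ v, L'.count v ≤ 1) := by
  induction m with
  | zero =>
    intro P L E h1 h2 _
    rw [Multiset.card_eq_zero] at h1 h2
    refine ⟨P, L, E, by rw [h1, h2], rfl, fun _ => rfl, rfl, ?_, ?_⟩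
    · intro v; left; rw [h1]; rfl
    · intro v; rw [h2]; simp
  | succ m ih =>
    intro P L E h1 h2 hE
    by_cases hx : ∃ x, x ∈ P ∧ x ∈ L
    · obtain ⟨x, hP, hL⟩ := hx
      obtain ⟨P1, rfl⟩ := Multiset.exists_cons_of_mem hP
      obtain ⟨L1, rfl⟩ := Multiset.exists_cons_of_mem hL
      rw [Multiset.card_cons] at h1 h2
      obtain ⟨P', L', E', a1, a2, a3, a4, a5, a6⟩ := ih P1 L1 (x ::ₘ x ::ₘ E) (by omega)
        (by omega) (by
          rw [Multiset.card_cons, Multiset.card_cons, Nat.even_add_one, Nat.even_add_one,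
            not_not]
          exact hE)
      refine ⟨P', L', E', a1, ?_, ?_, ?_, a5, a6⟩
      · rw [a2]; simp only [Multiset.card_cons]; ring
      · intro v
        rw [a3 v]
        simp only [Multiset.count_cons]
        split_ifs <;> omega
      · rw [← a4, XX_o K _ _ _ _ _ (by omega), XX_e K _ _ _ _ _ hE, oo_self]
    · by_cases hj : ∃ j, 2 ≤ L.count j
      · obtain ⟨j, hj⟩ := hj
        have hjL : j ∈ L := Multiset.count_pos.mp (by omega)
        obtain ⟨L1, rfl⟩ := Multiset.exists_cons_of_mem hjL
        have hjL1 : j ∈ L1 := by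
          apply Multiset.count_pos.mp
          rw [Multiset.count_cons_self] at hj
          omega
        obtain ⟨L2, rfl⟩ := Multiset.exists_cons_of_mem hjL1
        rw [Multiset.card_cons, Multiset.card_cons] at h2
        obtain ⟨i, hi⟩ := Multiset.card_pos_iff_exists_mem.mp (by omega : 0 < P.card)
        obtain ⟨P1, rfl⟩ := Multiset.exists_cons_of_mem hi
        rw [Multiset.card_cons] at h1
        obtain ⟨k, hk⟩ := Multiset.card_pos_iff_exists_mem.mp (by omega : 0 < P1.card)
        obtain ⟨P2, rfl⟩ := Multiset.exists_cons_of_mem hk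
        rw [Multiset.card_cons] at h1
        obtain ⟨P', L', E', a1, a2, a3, a4, a5, a6⟩ := ih (i ::ₘ P2) (k ::ₘ L2)
          (k ::ₘ j ::ₘ E) (by rw [Multiset.card_cons]; omega)
          (by rw [Multiset.card_cons]; omega) (by
            rw [Multiset.card_cons, Multiset.card_cons, Nat.even_add_one, Nat.even_add_one,
              not_not]
            exact hE)
        refine ⟨P', L', E', a1, ?_, ?_, ?_, a5, a6⟩
        · rw [a2]; simp only [Multiset.card_cons]; ring
        · intro v
          rw [a3 v]
          simp only [Multiset.count_cons]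
          split_ifs <;> omega
        · rw [← a4, XX_o K _ _ _ _ _ (by simp only [Multiset.card_cons]; omega),
            XX_o K _ _ _ _ _ (by omega),
            XX_o K _ _ _ _ _ (by omega), XX_e K _ _ _ _ _ hE, ← mul_assoc, ← mul_assoc, r6]
      · refine ⟨P, L, E, by rw [h1, h2], rfl, fun _ => rfl, rfl, ?_, ?_⟩
        · intro v
          by_contra hcon
          push Not at hcon
          exact hx ⟨v, Multiset.count_pos.mp (Nat.pos_of_ne_zero hcon.1),
            Multiset.count_pos.mp (Nat.pos_of_ne_zero hcon.2)⟩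
        · intro v
          by_contra hcon
          exact hj ⟨v, by omega⟩

lemma big4 (p l l2 p' y : Fin n) :
    oo K p l * (oo K p l2 * (ee K p' p' * ee K p' y))
      = oo K p' l * (oo K p' l2 * (ee K p p * ee K p y)) := by
  have e1 : oo K p l * ee K p' p' = oo K p p' * oo K p' l := by
    rw [← oo_self, oo_swap]
  have e2 := r3 K p p' y
  have e3 : oo K p' p * oo K p l2 = oo K p' l2 * ee K p p := by
    rw [oo_swap, oo_self]
  calc oo K p l * (oo K p l2 * (ee K p' p' * ee K p' y))
      = (oo K p l * ee K p' p') * (oo K p l2 * ee K p' y) := by ring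
    _ = (oo K p p' * ee K p' y) * (oo K p' l * oo K p l2) := by rw [e1]; ring
    _ = (oo K p' p * oo K p l2) * (oo K p' l * ee K p y) := by rw [e2]; ring
    _ = oo K p' l * (oo K p' l2 * (ee K p p * ee K p y)) := by rw [e3]; ring

end

end Pool.Agent.Helper857.PV
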