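import Pool.Agent.Helper857.PVj

set_option autoImplicit false

namespace Pool.Agent.Helper857.PV

open MvPolynomial

section
variable (K : Type) [Field K] {n : ℕ}

/-- same total exponent vector -/
def Eqv (P L E P' L' E' : Multiset (Fin n)) : Prop :=
  ∀ v, 3 * P.count v + L.count v + 2 * E.count v = 3 * P'.count v + L'.count v + 2 * E'.count v

def Nrm (P L : Multiset (Fin n)) : Prop :=
  (∀ v, P.count v = 0 ∨ L.count v = 0) ∧ (∀ v, L.count v ≤ 1)

lemma exists_two {α : Type} {E : Multiset α} {j : α} (h : j ∈ E) (hE : Even E.card) :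
    ∃ k E2, E = j ::ₘ k ::ₘ E2 ∧ Even E2.card := by
  obtain ⟨E1, rfl⟩ := Multiset.exists_cons_of_mem h
  rw [Multiset.card_cons, Nat.even_add_one] at hE
  have : 0 < E1.card := by
    by_contra hcon
    have h0 : E1.card = 0 := by omega
    rw [h0] at hE
    exact hE (by decide)
  obtain ⟨k, hk⟩ := Multiset.card_pos_iff_exists_mem.mp this
  obtain ⟨E2, rfl⟩ := Multiset.exists_cons_of_mem hk
  rw [Multiset.card_cons, Nat.even_add_one, not_not] at hE
  exact ⟨k, E2, rfl, hE⟩

lemma even_of (k a b : ℕ) (h : 2 * a + b = 2 * k) : Even b := by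
  rw [Nat.even_iff]; omega

lemma even_two {E : Multiset (Fin n)} (j k : Fin n) (h : Even E.card) :
    Even (j ::ₘ k ::ₘ E).card := by
  rw [Multiset.card_cons, Multiset.card_cons, Nat.even_add_one, Nat.even_add_one, not_not]
  exact h

lemma key4 (k : ℕ) : ∀ P L E P' L' E' : Multiset (Fin n), P.card = L.card → P'.card = L'.card →
    2 * P.card + E.card = 2 * k → 2 * P'.card + E'.card = 2 * k → Eqv P L E P' L' E' →
    XX K P L E = XX K P' L' E' := by
  induction k with
  | zero =>
    intro P L E P' L' E' h1 h2 h3 h4 _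
    have a1 : P.card = 0 := by omega
    have a2 : L.card = 0 := by omega
    have a3 : E.card = 0 := by omega
    have b1 : P'.card = 0 := by omega
    have b2 : L'.card = 0 := by omega
    have b3 : E'.card = 0 := by omega
    rw [Multiset.card_eq_zero] at a1 a2 a3 b1 b2 b3
    rw [a1, a2, a3, b1, b2, b3]
  | succ k ih =>
    have pull : ∀ P L E P' L' E' : Multiset (Fin n), P.card = L.card → P'.card = L'.card →
        2 * P.card + E.card = 2 * (k + 1) → 2 * P'.card + E'.card = 2 * (k + 1) →
        Eqv P L E P' L' E' → ∀ i j, i ∈ P → i ∈ P' → j ∈ L → j ∈ L' →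
        XX K P L E = XX K P' L' E' := by
      intro P L E P' L' E' h1 h2 h3 h4 h i j hi hi' hj hj'
      obtain ⟨P1, rfl⟩ := Multiset.exists_cons_of_mem hi
      obtain ⟨P2, rfl⟩ := Multiset.exists_cons_of_mem hi'
      obtain ⟨L1, rfl⟩ := Multiset.exists_cons_of_mem hj
      obtain ⟨L2, rfl⟩ := Multiset.exists_cons_of_mem hj'
      rw [Multiset.card_cons, Multiset.card_cons] at h1 h2
      rw [Multiset.card_cons] at h3 h4
      rw [XX_o K _ _ _ _ _ (by omega), XX_o K _ _ _ _ _ (by omega),
        ih P1 L1 E P2 L2 E' (by omega) (by omega) (by omega) (by omega)]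
      intro v
      have h5 := h v
      simp only [Multiset.count_cons] at h5
      omega
    -- disjoint light parts
    have C1 : ∀ P L E P' L' E' : Multiset (Fin n), P.card = L.card → P'.card = L'.card →
        2 * P.card + E.card = 2 * (k + 1) → 2 * P'.card + E'.card = 2 * (k + 1) →
        Eqv P L E P' L' E' → Nrm P L → Nrm P' L' → (∀ l, l ∈ L → l ∉ L') → L ≠ 0 →
        XX K P L E = XX K P' L' E' := by
      intro P L E P' L' E' h1 h2 h3 h4 h N N' hd hL
      obtain ⟨j, hj⟩ := Multiset.exists_mem_of_ne_zero hL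
      have c1 : 0 < L.count j := Multiset.count_pos.mpr hj
      have c2 := N.1 j
      have c3 := N.2 j
      have c4 : L'.count j = 0 := Multiset.count_eq_zero.mpr (hd j hj)
      have c5 := h j
      have hjP' : j ∈ P' := Multiset.count_pos.mp (by omega)
      have hjE : j ∈ E := Multiset.count_pos.mp (by omega)
      have hL'c : 0 < L'.card := by
        rw [← h2]; exact Multiset.card_pos_iff_exists_mem.mpr ⟨j, hjP'⟩
      obtain ⟨j', hj'⟩ := Multiset.card_pos_iff_exists_mem.mp hL'c
      have hj'L : j' ∉ L := fun h' => hd j' h' hj'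
      have b1 : 0 < L'.count j' := Multiset.count_pos.mpr hj'
      have b2 := N'.1 j'
      have b3 := N'.2 j'
      have b4 : L.count j' = 0 := Multiset.count_eq_zero.mpr hj'L
      have b5 := h j'
      have hj'P : j' ∈ P := Multiset.count_pos.mp (by omega)
      obtain ⟨P1, rfl⟩ := Multiset.exists_cons_of_mem hj'P
      obtain ⟨L1, rfl⟩ := Multiset.exists_cons_of_mem hj
      obtain ⟨y, E2, rfl, hE2⟩ := exists_two hjE (even_of (k + 1) _ _ h3)
      rw [Multiset.card_cons, Multiset.card_cons] at h1
      rw [Multiset.card_cons, Multiset.card_cons, Multiset.card_cons] at h3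
      have hnew : XX K (j' ::ₘ P1) (j ::ₘ L1) (j ::ₘ y ::ₘ E2)
          = XX K (j ::ₘ P1) (j' ::ₘ L1) (j' ::ₘ y ::ₘ E2) := by
        rw [XX_o K _ _ _ _ _ (by omega), XX_o K _ _ _ _ _ (by omega), XX_e K _ _ _ _ _ hE2,
          XX_e K _ _ _ _ _ hE2, ← mul_assoc, ← mul_assoc, r3]
      rw [hnew]
      refine pull _ _ _ _ _ _ (by simp only [Multiset.card_cons]; omega) h2
        (by simp only [Multiset.card_cons]; omega) h4 ?_ j j' (Multiset.mem_cons_self _ _) hjP'
        (Multiset.mem_cons_self _ _) hj'
      intro v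
      have h5 := h v
      simp only [Multiset.count_cons] at h5 ⊢
      split_ifs at h5 ⊢ <;> omega
    -- common light, heavy vertex of one is light in the other
    have C3 : ∀ P L E P' L' E' : Multiset (Fin n), P.card = L.card → P'.card = L'.card →
        2 * P.card + E.card = 2 * (k + 1) → 2 * P'.card + E'.card = 2 * (k + 1) →
        Eqv P L E P' L' E' → Nrm P L → Nrm P' L' → ∀ l p, l ∈ L → l ∈ L' → p ∈ P → p ∈ L' →
        XX K P L E = XX K P' L' E' := by
      intro P L E P' L' E' h1 h2 h3 h4 h N N' l p hl hl' hp hp'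
      have c1 : 0 < P.count p := Multiset.count_pos.mpr hp
      have c2 := N.1 p
      have c3 : 0 < L'.count p := Multiset.count_pos.mpr hp'
      have c4 := N'.1 p
      have c6 := N'.2 p
      have c5 := h p
      have hpE' : p ∈ E' := Multiset.count_pos.mp (by omega)
      have hlp : l ≠ p := by
        intro he
        have := Multiset.count_pos.mpr hl
        rw [he] at this
        omega
      have hP'c : 0 < P'.card := by
        rw [h2]; exact Multiset.card_pos_iff_exists_mem.mpr ⟨l, hl'⟩
      obtain ⟨i, hi⟩ := Multiset.card_pos_iff_exists_mem.mp hP'c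
      obtain ⟨P1, rfl⟩ := Multiset.exists_cons_of_mem hi
      obtain ⟨L1, rfl⟩ := Multiset.exists_cons_of_mem hp'
      obtain ⟨y, E2, rfl, hE2⟩ := exists_two hpE' (even_of (k + 1) _ _ h4)
      rw [Multiset.card_cons, Multiset.card_cons] at h2
      rw [Multiset.card_cons, Multiset.card_cons, Multiset.card_cons] at h4
      have hnew : XX K (i ::ₘ P1) (p ::ₘ L1) (p ::ₘ y ::ₘ E2)
          = XX K (p ::ₘ P1) (i ::ₘ L1) (i ::ₘ y ::ₘ E2) := by
        rw [XX_o K _ _ _ _ _ (by omega), XX_o K _ _ _ _ _ (by omega), XX_e K _ _ _ _ _ hE2,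
          XX_e K _ _ _ _ _ hE2, ← mul_assoc, ← mul_assoc, r3]
      rw [hnew]
      have hl1 : l ∈ L1 := by
        rw [Multiset.mem_cons] at hl'
        rcases hl' with h' | h'
        · exact absurd h' hlp
        · exact h'
      refine pull _ _ _ _ _ _ h1 (by simp only [Multiset.card_cons]; omega) h3
        (by simp only [Multiset.card_cons]; omega) ?_ p l hp (Multiset.mem_cons_self _ _) hl
        (Multiset.mem_cons_of_mem hl1)
      intro v
      have h5 := h v
      simp only [Multiset.count_cons] at h5 ⊢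
      split_ifs at h5 ⊢ <;> omega
    -- common light, heavy parts disjoint and never light
    have C4 : ∀ P L E P' L' E' : Multiset (Fin n), P.card = L.card → P'.card = L'.card →
        2 * P.card + E.card = 2 * (k + 1) → 2 * P'.card + E'.card = 2 * (k + 1) →
        Eqv P L E P' L' E' → Nrm P L → Nrm P' L' → ∀ l p p', l ∈ L → l ∈ L' → p ∈ P → p ∉ P' →
        p ∉ L' → p' ∈ P' → p' ∉ P → p' ∉ L →
        XX K P L E = XX K P' L' E' := by
      intro P L E P' L' E' h1 h2 h3 h4 h N N' l p p' hl hl' hp hpP' hpL' hp' hp'P hp'L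
      have c1 : 0 < P.count p := Multiset.count_pos.mpr hp
      have c2 := N.1 p
      have c3 : L'.count p = 0 := Multiset.count_eq_zero.mpr hpL'
      have c4 : P'.count p = 0 := Multiset.count_eq_zero.mpr hpP'
      have c5 := h p
      have b1 : 0 < P'.count p' := Multiset.count_pos.mpr hp'
      have b2 := N'.1 p'
      have b3 : L.count p' = 0 := Multiset.count_eq_zero.mpr hp'L
      have b4 : P.count p' = 0 := Multiset.count_eq_zero.mpr hp'P
      have b5 := h p'
      have hPp : 2 ≤ P.count p := by omega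
      have hEp : 3 ≤ E.count p' := by omega
      obtain ⟨P1, rfl⟩ := Multiset.exists_cons_of_mem hp
      have hp1 : p ∈ P1 := by
        apply Multiset.count_pos.mp
        rw [Multiset.count_cons_self] at hPp
        omega
      obtain ⟨P2, rfl⟩ := Multiset.exists_cons_of_mem hp1
      obtain ⟨L1, rfl⟩ := Multiset.exists_cons_of_mem hl
      rw [Multiset.card_cons, Multiset.card_cons, Multiset.card_cons] at h1
      obtain ⟨l2, hl2⟩ := Multiset.card_pos_iff_exists_mem.mp (by omega : 0 < L1.card)
      obtain ⟨L2, rfl⟩ := Multiset.exists_cons_of_mem hl2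
      rw [Multiset.card_cons] at h1
      have hE : Even E.card := even_of (k + 1) _ _ h3
      have hp'E : p' ∈ E := Multiset.count_pos.mp (by omega)
      obtain ⟨E1, rfl⟩ := Multiset.exists_cons_of_mem hp'E
      have hp'E1 : p' ∈ E1 := by
        apply Multiset.count_pos.mp
        rw [Multiset.count_cons_self] at hEp
        omega
      obtain ⟨E2, rfl⟩ := Multiset.exists_cons_of_mem hp'E1
      have hE2e : Even E2.card := by
        rw [Multiset.card_cons, Multiset.card_cons, Nat.even_add_one, Nat.even_add_one,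
          not_not] at hE
        exact hE
      have hp'E2 : p' ∈ E2 := by
        apply Multiset.count_pos.mp
        rw [Multiset.count_cons_self, Multiset.count_cons_self] at hEp
        omega
      obtain ⟨y, E4, rfl, hE4⟩ := exists_two hp'E2 hE2e
      have hnew : XX K (p ::ₘ p ::ₘ P2) (l ::ₘ l2 ::ₘ L2) (p' ::ₘ p' ::ₘ p' ::ₘ y ::ₘ E4)
          = XX K (p' ::ₘ p' ::ₘ P2) (l ::ₘ l2 ::ₘ L2) (p ::ₘ p ::ₘ p ::ₘ y ::ₘ E4) := by
        have q1 : (p ::ₘ P2).card = (l2 ::ₘ L2).card := by
          simp only [Multiset.card_cons]; omega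
        have q2 : (p' ::ₘ P2).card = (l2 ::ₘ L2).card := by
          simp only [Multiset.card_cons]; omega
        have q3 : P2.card = L2.card := by omega
        rw [XX_o K _ _ _ _ _ q1, XX_o K _ _ _ _ _ q2, XX_o K _ _ _ _ _ q3,
          XX_o K _ _ _ _ _ q3, XX_e K _ _ _ _ _ (even_two _ _ hE4), XX_e K _ _ _ _ _ hE4,
          XX_e K _ _ _ _ _ (even_two _ _ hE4), XX_e K _ _ _ _ _ hE4]
        have hb := big4 K p l l2 p' y
        calc oo K p l * (oo K p l2 * (ee K p' p' * (ee K p' y * XX K P2 L2 E4)))
            = (oo K p l * (oo K p l2 * (ee K p' p' * ee K p' y))) * XX K P2 L2 E4 := by ring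
          _ = (oo K p' l * (oo K p' l2 * (ee K p p * ee K p y))) * XX K P2 L2 E4 := by rw [hb]
          _ = oo K p' l * (oo K p' l2 * (ee K p p * (ee K p y * XX K P2 L2 E4))) := by ring
      rw [hnew]
      simp only [Multiset.card_cons] at h3
      refine pull _ _ _ _ _ _ (by simp only [Multiset.card_cons]; omega) h2
        (by simp only [Multiset.card_cons]; omega) h4 ?_ p' l (Multiset.mem_cons_self _ _) hp'
        (Multiset.mem_cons_self _ _) hl'
      intro v
      have h5 := h v
      simp only [Multiset.count_cons] at h5 ⊢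
      clear hnew c5 b5 hPp hEp
      split_ifs at h5 ⊢ <;> omega
    have main : ∀ P L E P' L' E' : Multiset (Fin n), P.card = L.card → P'.card = L'.card →
        2 * P.card + E.card = 2 * (k + 1) → 2 * P'.card + E'.card = 2 * (k + 1) →
        Eqv P L E P' L' E' → Nrm P L → Nrm P' L' → XX K P L E = XX K P' L' E' := by
      intro P L E P' L' E' h1 h2 h3 h4 h N N'
      have hs : Eqv P' L' E' P L E := fun v => (h v).symm
      by_cases hll : ∃ l, l ∈ L ∧ l ∈ L'
      · obtain ⟨l, hl, hl'⟩ := hll
        by_cases hpp : ∃ p, p ∈ P ∧ p ∈ P'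
        · obtain ⟨p, hp, hp'⟩ := hpp
          exact pull P L E P' L' E' h1 h2 h3 h4 h p l hp hp' hl hl'
        · have hPc : 0 < P.card := by
            rw [h1]; exact Multiset.card_pos_iff_exists_mem.mpr ⟨l, hl⟩
          have hPc' : 0 < P'.card := by
            rw [h2]; exact Multiset.card_pos_iff_exists_mem.mpr ⟨l, hl'⟩
          obtain ⟨p, hp⟩ := Multiset.card_pos_iff_exists_mem.mp hPc
          obtain ⟨p', hp'⟩ := Multiset.card_pos_iff_exists_mem.mp hPc'
          by_cases hpL' : p ∈ L'
          · exact C3 P L E P' L' E' h1 h2 h3 h4 h N N' l p hl hl' hp hpL'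
          · by_cases hp'L : p' ∈ L
            · exact (C3 P' L' E' P L E h2 h1 h4 h3 hs N' N l p' hl' hl hp' hp'L).symm
            · exact C4 P L E P' L' E' h1 h2 h3 h4 h N N' l p p' hl hl' hp
                (fun h' => hpp ⟨p, hp, h'⟩) hpL' hp' (fun h' => hpp ⟨p', h', hp'⟩) hp'L
      · by_cases hL : L = 0
        · by_cases hL' : L' = 0
          · have hP : P = 0 := by
              rw [← Multiset.card_eq_zero, h1, hL]; rfl
            have hP' : P' = 0 := by
              rw [← Multiset.card_eq_zero, h2, hL']; rfl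
            subst hL hL' hP hP'
            have hE : E = E' := by
              rw [Multiset.ext]
              intro v
              have := h v
              omega
            rw [hE]
          · exact (C1 P' L' E' P L E h2 h1 h4 h3 hs N' N
              (fun l h1 h2 => hll ⟨l, h2, h1⟩) hL').symm
        · exact C1 P L E P' L' E' h1 h2 h3 h4 h N N' (fun l h1 h2 => hll ⟨l, h1, h2⟩) hL
    intro P L E P' L' E' h1 h2 h3 h4 h
    obtain ⟨A, B, C, a1, a2, a3, a4, a5, a6⟩ := nf4 K P.card P L E rfl h1.symm
      (even_of (k + 1) _ _ h3)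
    obtain ⟨A', B', C', a1', a2', a3', a4', a5', a6'⟩ := nf4 K P'.card P' L' E' rfl h2.symm
      (even_of (k + 1) _ _ h4)
    rw [a4, a4']
    apply main A B C A' B' C' a1 a1' (by omega) (by omega) ?_ ⟨a5, a6⟩ ⟨a5', a6'⟩
    intro v
    rw [a3 v, a3' v]
    exact h v

lemma rep4 (S : Multiset (Gen n 4 2)) : ∃ P L E : Multiset (Fin n),
    P.card = L.card ∧ 2 * P.card + E.card = 2 * S.card ∧
    (∀ v, W S v = 3 * P.count v + L.count v + 2 * E.count v) ∧
    qS K S = XX K P L E := by
  induction S using Multiset.induction_on with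
  | empty =>
    refine ⟨0, 0, 0, rfl, rfl, fun v => by rw [W_zero]; simp, ?_⟩
    unfold XX
    rw [qS_zero, HM_zero, HEM_zero, mul_one]
  | cons u S ih =>
    obtain ⟨P, L, E, h1, h2, h3, h4⟩ := ih
    have hE : Even E.card := even_of _ _ _ h2
    have hu : (∃ i j, u = o4 i j) ∨ (∃ i j, u = e4 i j) := by
      rcases supp2 (by omega) u with ⟨i, hi⟩ | ⟨i, j, hij, p1, p2, p3, p4⟩
      · right
        refine ⟨i, i, Subtype.ext (funext fun t => ?_)⟩
        rw [hi, e4_val]
        split_ifs <;> omega
      · have ext2 : ∀ f : Fin n → ℕ, f i = u.1 i → f j = u.1 j →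
            (∀ t, t ≠ i → t ≠ j → f t = 0) → u.1 = f := by
          intro f f1 f2 f3
          funext t
          by_cases ht : t = i
          · rw [ht, f1]
          · by_cases ht' : t = j
            · rw [ht', f2]
            · rw [p4 t ht ht', f3 t ht ht']
        have hc : u.1 i = 1 ∨ u.1 i = 2 ∨ u.1 i = 3 := by omega
        rcases hc with hc | hc | hc
        · left
          refine ⟨j, i, Subtype.ext (ext2 _ ?_ ?_ ?_)⟩
          · rw [o4_val, if_neg hij, if_pos rfl, hc]
          · rw [o4_val, if_pos rfl, if_neg hij.symm]; omega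
          · intro t t1 t2
            rw [o4_val, if_neg t2, if_neg t1]
        · right
          refine ⟨i, j, Subtype.ext (ext2 _ ?_ ?_ ?_)⟩
          · rw [e4_val, if_pos rfl, if_neg hij, hc]
          · rw [e4_val, if_neg hij.symm, if_pos rfl]; omega
          · intro t t1 t2
            rw [e4_val, if_neg t1, if_neg t2]
        · left
          refine ⟨i, j, Subtype.ext (ext2 _ ?_ ?_ ?_)⟩
          · rw [o4_val, if_pos rfl, if_neg hij, hc]
          · rw [o4_val, if_neg hij.symm, if_pos rfl]; omega
          · intro t t1 t2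
            rw [o4_val, if_neg t1, if_neg t2]
    rcases hu with ⟨i, j, rfl⟩ | ⟨i, j, rfl⟩
    · refine ⟨i ::ₘ P, j ::ₘ L, E, by simp only [Multiset.card_cons]; omega,
        by simp only [Multiset.card_cons]; omega, ?_, ?_⟩
      · intro v
        rw [W_cons, Pi.add_apply, h3, o4_val, Multiset.count_cons, Multiset.count_cons]
        split_ifs <;> omega
      · rw [qS_cons, h4, XX_o K _ _ _ _ _ h1]
        rfl
    · refine ⟨P, L, i ::ₘ j ::ₘ E, h1, by simp only [Multiset.card_cons]; omega, ?_, ?_⟩
      · intro v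
        rw [W_cons, Pi.add_apply, h3, e4_val, Multiset.count_cons, Multiset.count_cons]
        split_ifs <;> omega
      · rw [qS_cons, h4, XX_e K _ _ _ _ _ hE]
        rfl

theorem quartic_quad (n : ℕ) : IsQuadratic K n 4 2 := by
  apply quad_of
  intro S T hW
  apply re_of
  obtain ⟨P, L, E, h1, h2, h3, h4⟩ := rep4 K S
  obtain ⟨P', L', E', h1', h2', h3', h4'⟩ := rep4 K T
  have hc : T.card = S.card := by
    have e1 := W_sum S
    have e2 := W_sum T
    rw [hW] at e1
    omega
  rw [h4, h4']
  apply key4 K S.card P L E P' L' E' h1 h1' (by omega) (by omega)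
  intro v
  rw [← h3, ← h3', hW]

end

end Pool.Agent.Helper857.PV
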