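import Pool.Agent.Helper857.PVf
import Pool.Agent.Helper857.PVh

set_option autoImplicit false

namespace Pool.Agent.Helper857.PV

open MvPolynomial

section gen
variable {Q : Type} [CommMonoid Q] {ι : Type}

def HR (t : ι → Multiset ι → Q) (r : ℕ) : List ι → List ι → Q
  | [], _ => 1
  | (a :: A), B => t a ((B.take r : List ι) : Multiset ι) * HR t r A (B.drop r)

lemma perm_of {β : Type} (N : ℕ) (f : List ι → β)
    (hf : ∀ (X : List ι) (x y : ι) (Y : List ι), (X ++ x :: y :: Y).length = N →
      f (X ++ x :: y :: Y) = f (X ++ y :: x :: Y)) {l l' : List ι} (h : l.Perm l') :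
    ∀ X : List ι, (X ++ l).length = N → f (X ++ l) = f (X ++ l') := by
  induction h with
  | nil => intro X _; rfl
  | @cons x l l' _ ih =>
    intro X hX
    have := ih (X ++ [x]) (by simpa using hX)
    simpa using this
  | swap x y l =>
    intro X hX
    exact hf X y x l hX
  | @trans l1 l2 l3 h1 _ ih1 ih2 =>
    intro X hX
    rw [ih1 X hX]
    apply ih2 X
    rw [List.length_append, ← h1.length_eq, ← List.length_append]
    exact hX

lemma HR_swap (t : ι → Multiset ι → Q) (r : ℕ) (hr : 0 < r)
    (T1 : ∀ i j x y (C D : Multiset ι), C.card + 1 = r → D.card + 1 = r →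
      t i (x ::ₘ C) * t j (y ::ₘ D) = t i (y ::ₘ C) * t j (x ::ₘ D)) :
    ∀ (A X : List ι) (x y : ι) (Y : List ι), (X ++ x :: y :: Y).length = r * A.length →
      HR t r A (X ++ x :: y :: Y) = HR t r A (X ++ y :: x :: Y) := by
  intro A
  induction A with
  | nil => intro X x y Y _; rfl
  | cons a A ih =>
    intro X x y Y hlen
    rw [List.length_cons, Nat.mul_succ] at hlen
    show t a _ * HR t r A _ = t a _ * HR t r A _
    by_cases h1 : r ≤ X.length
    · rw [List.take_append_of_le_length h1, List.take_append_of_le_length h1,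
        List.drop_append_of_le_length h1, List.drop_append_of_le_length h1, ih]
      simp only [List.length_append, List.length_drop, List.length_cons] at hlen ⊢
      omega
    · by_cases h2 : X.length + 1 = r
      · obtain ⟨a', A', rfl⟩ : ∃ a' A', A = a' :: A' := by
          cases A with
          | nil =>
            simp only [List.length_append, List.length_cons, List.length_nil] at hlen
            omega
          | cons a' A' => exact ⟨a', A', rfl⟩
        have k1 : ∀ (z w : ι), (X ++ z :: w :: Y).take r = X ++ [z] := by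
          intro z w
          rw [List.take_append, ← h2]
          simp
        have k2 : ∀ (z w : ι), (X ++ z :: w :: Y).drop r = w :: Y := by
          intro z w
          rw [List.drop_append, ← h2]
          simp
        rw [k1, k1, k2, k2]
        obtain ⟨r', rfl⟩ : ∃ r', r = r' + 1 := ⟨r - 1, by omega⟩
        show t a _ * (t a' ((List.take (r' + 1) (y :: Y) : List ι) : Multiset ι)
            * HR t (r' + 1) A' (List.drop (r' + 1) (y :: Y)))
          = t a _ * (t a' ((List.take (r' + 1) (x :: Y) : List ι) : Multiset ι)
            * HR t (r' + 1) A' (List.drop (r' + 1) (x :: Y)))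
        rw [List.take_succ_cons, List.take_succ_cons, List.drop_succ_cons,
          List.drop_succ_cons, ← mul_assoc, ← mul_assoc]
        congr 1
        have m1 : ∀ z : ι, ((X ++ [z] : List ι) : Multiset ι) = z ::ₘ (X : Multiset ι) := by
          intro z
          rw [← Multiset.coe_add, add_comm, Multiset.coe_singleton, Multiset.singleton_add]
        rw [m1, m1, ← Multiset.cons_coe, ← Multiset.cons_coe]
        apply T1
        · rw [Multiset.coe_card]; omega
        · rw [Multiset.coe_card, List.length_take]
          simp only [List.length_append, List.length_cons] at hlen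
          have h6 : (r' + 1) * (A'.length + 1) = (r' + 1) * A'.length + (r' + 1) := by ring
          rw [h6] at hlen
          omega
      · have k1 : ∀ (z w : ι), ((X ++ z :: w :: Y).take r : List ι)
            = X ++ z :: w :: Y.take (r - X.length - 2) := by
          intro z w
          rw [List.take_append, List.take_of_length_le (by omega)]
          obtain ⟨m, hm⟩ : ∃ m, r - X.length = m + 2 := ⟨r - X.length - 2, by omega⟩
          rw [hm]
          rfl
        have k2 : ∀ (z w : ι), ((X ++ z :: w :: Y).drop r : List ι)
            = Y.drop (r - X.length - 2) := by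
          intro z w
          rw [List.drop_append, List.drop_eq_nil_of_le (by omega)]
          obtain ⟨m, hm⟩ : ∃ m, r - X.length = m + 2 := ⟨r - X.length - 2, by omega⟩
          rw [hm]
          rfl
        rw [k1, k1, k2, k2]
        congr 2
        rw [Multiset.coe_eq_coe]
        exact List.Perm.append_left X (List.Perm.swap y x _)

lemma HR_permB (t : ι → Multiset ι → Q) (r : ℕ) (hr : 0 < r)
    (T1 : ∀ i j x y (C D : Multiset ι), C.card + 1 = r → D.card + 1 = r →
      t i (x ::ₘ C) * t j (y ::ₘ D) = t i (y ::ₘ C) * t j (x ::ₘ D))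
    (A : List ι) {B B' : List ι} (h : B.Perm B') (hl : B.length = r * A.length) :
    HR t r A B = HR t r A B' := by
  have := perm_of (r * A.length) (fun l => HR t r A l) (HR_swap t r hr T1 A) h [] (by simpa using hl)
  simpa using this

lemma HR_permA (t : ι → Multiset ι → Q) (r : ℕ)
    (T3 : ∀ i j (C D : Multiset ι), C.card = r → D.card = r →
      t i C * t j D = t j C * t i D)
    {A A' : List ι} (h : A.Perm A') : ∀ B : List ι, B.length = r * A.length →
    HR t r A B = HR t r A' B := by
  induction h with
  | nil => intro B _; rfl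
  | @cons x l l' _ ih =>
    intro B hB
    show t x _ * HR t r l _ = t x _ * HR t r l' _
    rw [ih]
    rw [List.length_drop, hB, List.length_cons, Nat.mul_succ]
    omega
  | swap x y l =>
    intro B hB
    show t y _ * (t x _ * HR t r l _) = t x _ * (t y _ * HR t r l _)
    rw [← mul_assoc, ← mul_assoc]
    congr 1
    rw [List.length_cons, List.length_cons, Nat.mul_succ, Nat.mul_succ] at hB
    apply T3
    · rw [Multiset.coe_card, List.length_take]; omega
    · rw [Multiset.coe_card, List.length_take, List.length_drop]; omega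
  | @trans l1 l2 l3 h1 _ ih1 ih2 =>
    intro B hB
    rw [ih1 B hB, ih2 B (by rw [hB, h1.length_eq])]

noncomputable def HRM (t : ι → Multiset ι → Q) (r : ℕ) (A B : Multiset ι) : Q :=
  HR t r A.toList B.toList

lemma HRM_cons (t : ι → Multiset ι → Q) (r : ℕ) (hr : 0 < r)
    (T1 : ∀ i j x y (C D : Multiset ι), C.card + 1 = r → D.card + 1 = r →
      t i (x ::ₘ C) * t j (y ::ₘ D) = t i (y ::ₘ C) * t j (x ::ₘ D))
    (T3 : ∀ i j (C D : Multiset ι), C.card = r → D.card = r →
      t i C * t j D = t j C * t i D)
    (a : ι) (A C B : Multiset ι) (hC : C.card = r) (hB : B.card = r * A.card) :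
    HRM t r (a ::ₘ A) (C + B) = t a C * HRM t r A B := by
  have h1 : ((a ::ₘ A).toList).Perm (a :: A.toList) := by
    rw [← Multiset.coe_eq_coe, ← Multiset.cons_coe]
    simp
  have h2 : ((C + B).toList).Perm (C.toList ++ B.toList) := by
    rw [← Multiset.coe_eq_coe, ← Multiset.coe_add]
    simp
  unfold HRM
  have l1 : (C + B).toList.length = r * ((a ::ₘ A).toList).length := by
    rw [Multiset.length_toList, Multiset.length_toList, Multiset.card_add, Multiset.card_cons,
      hC, hB, Nat.mul_succ, add_comm]
  rw [HR_permA t r T3 h1 _ l1]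
  rw [HR_permB t r hr T1 _ h2 (by rw [l1, h1.length_eq])]
  show t a _ * HR t r _ _ = _
  have hlen : C.toList.length = r := by rw [Multiset.length_toList, hC]
  rw [List.take_append_of_le_length (by rw [hlen]), List.drop_append_of_le_length (by rw [hlen]),
    List.take_of_length_le (by rw [hlen]), List.drop_eq_nil_of_le (by rw [hlen]),
    List.nil_append, Multiset.coe_toList]

lemma HRM_zero (t : ι → Multiset ι → Q) (r : ℕ) (B : Multiset ι) : HRM t r 0 B = 1 := by
  unfold HRM
  rw [Multiset.toList_zero]
  rfl

lemma HRM_key [DecidableEq ι] (t : ι → Multiset ι → Q) (r : ℕ) (hr : 2 ≤ r)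
    (T1 : ∀ i j x y (C D : Multiset ι), C.card + 1 = r → D.card + 1 = r →
      t i (x ::ₘ C) * t j (y ::ₘ D) = t i (y ::ₘ C) * t j (x ::ₘ D))
    (T3 : ∀ i j (C D : Multiset ι), C.card = r → D.card = r →
      t i C * t j D = t j C * t i D)
    (T2 : ∀ i j (C : Multiset ι), C.card + 2 = r → t i (j ::ₘ j ::ₘ C) = t j (i ::ₘ i ::ₘ C))
    (m : ℕ) : ∀ D D' I B B' : Multiset ι, D.card = m → D'.card = m →
      (∀ v, D.count v = 0 ∨ D'.count v = 0) →
      B.card = r * (D + I).card → B'.card = r * (D' + I).card →
      (∀ v, 2 * (D + I).count v + B.count v = 2 * (D' + I).count v + B'.count v) →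
      HRM t r (D + I) B = HRM t r (D' + I) B' := by
  induction m with
  | zero =>
    intro D D' I B B' h1 h2 _ _ _ h
    rw [Multiset.card_eq_zero] at h1 h2
    subst h1 h2
    have : B = B' := by
      rw [Multiset.ext]
      intro v
      have := h v
      omega
    rw [this]
  | succ m ih =>
    intro D D' I B B' h1 h2 hdis hB hB' h
    obtain ⟨a, ha⟩ := Multiset.card_pos_iff_exists_mem.mp (by omega : 0 < D.card)
    obtain ⟨c, hc⟩ := Multiset.card_pos_iff_exists_mem.mp (by omega : 0 < D'.card)
    have cc : 0 < D'.count c := Multiset.count_pos.mpr hc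
    have c0 := hdis c
    have c5 := h c
    rw [Multiset.count_add, Multiset.count_add] at c5
    have hBc : 2 ≤ B.count c := by omega
    obtain ⟨D1, rfl⟩ := Multiset.exists_cons_of_mem ha
    obtain ⟨D2, rfl⟩ := Multiset.exists_cons_of_mem hc
    have hcB : c ∈ B := Multiset.count_pos.mp (by omega)
    obtain ⟨B1, rfl⟩ := Multiset.exists_cons_of_mem hcB
    have hcB1 : c ∈ B1 := by
      apply Multiset.count_pos.mp
      rw [Multiset.count_cons_self] at hBc
      omega
    obtain ⟨B2, rfl⟩ := Multiset.exists_cons_of_mem hcB1
    have hB2 : B2.card + 2 = r * (D1 + I).card + r := by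
      rw [Multiset.cons_add, Multiset.card_cons, Multiset.card_cons, Multiset.card_cons,
        Nat.mul_succ] at hB
      omega
    obtain ⟨C, F, hCF, hCc⟩ : ∃ C F : Multiset ι, B2 = C + F ∧ C.card + 2 = r := by
      refine ⟨((B2.toList.take (r - 2) : List ι) : Multiset ι),
        ((B2.toList.drop (r - 2) : List ι) : Multiset ι), ?_, ?_⟩
      · rw [Multiset.coe_add, List.take_append_drop, Multiset.coe_toList]
      · rw [Multiset.coe_card, List.length_take, Multiset.length_toList]
        omega
    have hFc : F.card = r * (D1 + I).card := by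
      rw [hCF, Multiset.card_add] at hB2
      omega
    have e1 : HRM t r (a ::ₘ D1 + I) (c ::ₘ c ::ₘ B2)
        = HRM t r (D1 + (c ::ₘ I)) (a ::ₘ a ::ₘ B2) := by
      rw [hCF]
      have g1 : c ::ₘ c ::ₘ (C + F) = (c ::ₘ c ::ₘ C) + F := by
        rw [Multiset.cons_add, Multiset.cons_add]
      have g2 : a ::ₘ a ::ₘ (C + F) = (a ::ₘ a ::ₘ C) + F := by
        rw [Multiset.cons_add, Multiset.cons_add]
      rw [g1, g2, Multiset.cons_add, Multiset.add_cons,
        HRM_cons t r (by omega) T1 T3 _ _ _ _ (by simp only [Multiset.card_cons]; omega) hFc,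
        HRM_cons t r (by omega) T1 T3 _ _ _ _ (by simp only [Multiset.card_cons]; omega) hFc,
        T2 a c C hCc]
    have e2 : (c ::ₘ D2) + I = D2 + (c ::ₘ I) := by
      rw [Multiset.cons_add, Multiset.add_cons]
    rw [e1, e2]
    rw [e2] at hB'
    rw [Multiset.card_cons] at h1 h2
    apply ih D1 D2 (c ::ₘ I) (a ::ₘ a ::ₘ B2) B' (by omega) (by omega)
    · intro v
      have := hdis v
      simp only [Multiset.count_cons] at this
      omega
    · rw [Multiset.add_cons, Multiset.card_cons, Multiset.card_cons, Multiset.card_cons,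
        Nat.mul_succ]
      omega
    · exact hB'
    · intro v
      have h7 := h v
      simp only [Multiset.count_add, Multiset.count_cons] at h7 ⊢
      split_ifs at h7 ⊢ <;> omega

end gen

end Pool.Agent.Helper857.PV
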