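import Pool.Agent.Helper857.PVl

set_option autoImplicit false

namespace Pool.Agent.Helper857.PV

open MvPolynomial

section
variable (K : Type) [Field K] {n : ℕ}

lemma sum_cnt (C : Multiset (Fin n)) : ∑ t, C.count t = C.card :=
  Multiset.sum_count_eq_card (fun a _ => Finset.mem_univ a)

def gR (r : ℕ) (i : Fin n) (C : Multiset (Fin n)) (h : C.card = r) : Gen n (r + 2) (r + 1) :=
  ⟨fun t => (if t = i then 2 else 0) + C.count t, by
    rw [Finset.sum_add_distrib, sum_cnt, Finset.sum_ite_eq', if_pos (Finset.mem_univ _), h]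
    ring, by
    have h1 : Finset.univ.filter (fun t => (if t = i then 2 else 0) + C.count t ≠ 0)
        ⊆ insert i C.toFinset := by
      intro t ht
      rw [Finset.mem_filter] at ht
      rw [Finset.mem_insert, Multiset.mem_toFinset]
      by_contra hcon
      push Not at hcon
      apply ht.2
      rw [if_neg hcon.1, Multiset.count_eq_zero.mpr hcon.2]
    refine le_trans (Finset.card_le_card h1) (le_trans (Finset.card_insert_le _ _) ?_)
    have := Multiset.toFinset_card_le C
    omega⟩

lemma gR_val (r : ℕ) (i : Fin n) (C : Multiset (Fin n)) (h : C.card = r) (t : Fin n) :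
    (gR r i C h).1 t = (if t = i then 2 else 0) + C.count t := rfl

noncomputable def tt (r : ℕ) (i : Fin n) (C : Multiset (Fin n)) :
    MvPolynomial (Gen n (r + 2) (r + 1)) K ⧸ Jd K n (r + 2) (r + 1) :=
  if h : C.card = r then qq K (gR r i C h) else 1

lemma tt_T1 (r : ℕ) (i j x y : Fin n) (C D : Multiset (Fin n)) (hC : C.card + 1 = r)
    (hD : D.card + 1 = r) :
    tt K r i (x ::ₘ C) * tt K r j (y ::ₘ D) = tt K r i (y ::ₘ C) * tt K r j (x ::ₘ D) := by
  unfold tt
  have a1 : ∀ z, (z ::ₘ C).card = r := fun z => by rw [Multiset.card_cons, hC]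
  have a2 : ∀ z, (z ::ₘ D).card = r := fun z => by rw [Multiset.card_cons, hD]
  rw [dif_pos (a1 x), dif_pos (a1 y), dif_pos (a2 x), dif_pos (a2 y)]
  apply qmove
  intro t
  simp only [gR_val, Multiset.count_cons]
  ring

lemma tt_T3 (r : ℕ) (i j : Fin n) (C D : Multiset (Fin n)) (hC : C.card = r)
    (hD : D.card = r) : tt K r i C * tt K r j D = tt K r j C * tt K r i D := by
  unfold tt
  rw [dif_pos hC, dif_pos hC, dif_pos hD, dif_pos hD]
  apply qmove
  intro t
  simp only [gR_val]
  ring

lemma tt_T2 (r : ℕ) (i j : Fin n) (C : Multiset (Fin n)) (hC : C.card + 2 = r) :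
    tt K r i (j ::ₘ j ::ₘ C) = tt K r j (i ::ₘ i ::ₘ C) := by
  unfold tt
  have a1 : ∀ z, (z ::ₘ z ::ₘ C).card = r := fun z => by
    rw [Multiset.card_cons, Multiset.card_cons]; omega
  rw [dif_pos (a1 i), dif_pos (a1 j)]
  congr 1
  apply Subtype.ext
  funext t
  rw [gR_val, gR_val]
  simp only [Multiset.count_cons]
  split_ifs <;> omega

lemma repR (r : ℕ) (hr : 2 ≤ r) (S : Multiset (Gen n (r + 2) (r + 1))) :
    ∃ A B : Multiset (Fin n), A.card = S.card ∧ B.card = r * S.card ∧
      (∀ v, W S v = 2 * A.count v + B.count v) ∧ qS K S = HRM (tt K r) r A B := by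
  induction S using Multiset.induction_on with
  | empty =>
    refine ⟨0, 0, rfl, rfl, fun v => by rw [W_zero]; simp, ?_⟩
    rw [qS_zero, HRM_zero]
  | cons u S ih =>
    obtain ⟨A, B, h1, h2, h3, h4⟩ := ih
    obtain ⟨i, hi⟩ : ∃ i, 2 ≤ u.1 i := by
      by_contra hcon
      push Not at hcon
      have e1 : ∑ t, u.1 t ≤ (Finset.univ.filter (fun t => u.1 t ≠ 0)).card := by
        rw [Finset.card_filter]
        apply Finset.sum_le_sum
        intro t _
        have := hcon t
        split_ifs with h0
        · omega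
        · omega
      have e2 := u.2.1
      have e3 := u.2.2
      omega
    let f : Fin n → ℕ := fun t => u.1 t - if t = i then 2 else 0
    let C : Multiset (Fin n) := Finsupp.toMultiset (Finsupp.equivFunOnFinite.symm f)
    have hCc : ∀ t, C.count t = f t := by
      intro t
      show Multiset.count t (Finsupp.toMultiset (Finsupp.equivFunOnFinite.symm f)) = f t
      rw [Finsupp.count_toMultiset]
      rfl
    have hu : ∀ t, u.1 t = (if t = i then 2 else 0) + C.count t := by
      intro t
      rw [hCc]
      show u.1 t = (if t = i then 2 else 0) + (u.1 t - if t = i then 2 else 0)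
      by_cases ht : t = i
      · rw [if_pos ht, ht]; omega
      · rw [if_neg ht]; omega
    have hC : C.card = r := by
      have e2 := u.2.1
      have e4 : ∑ t, u.1 t = ∑ t, ((if t = i then 2 else 0) + C.count t) :=
        Finset.sum_congr rfl (fun t _ => hu t)
      rw [e4, Finset.sum_add_distrib, sum_cnt, Finset.sum_ite_eq',
        if_pos (Finset.mem_univ _)] at e2
      omega
    have hug : u = gR r i C hC := Subtype.ext (funext fun t => hu t)
    refine ⟨i ::ₘ A, C + B, by rw [Multiset.card_cons, Multiset.card_cons, h1], ?_, ?_, ?_⟩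
    · rw [Multiset.card_add, Multiset.card_cons, hC, h2, Nat.mul_succ, add_comm]
    · intro v
      rw [W_cons, Pi.add_apply, h3, hu v, Multiset.count_cons, Multiset.count_add]
      split_ifs <;> omega
    · rw [qS_cons, h4, HRM_cons (tt K r) r (by omega) (tt_T1 K r) (tt_T3 K r) i A C B hC
        (by rw [h2, h1])]
      congr 1
      unfold tt
      rw [dif_pos hC, hug]

theorem nonsq_quad (n r : ℕ) (hr : 2 ≤ r) : IsQuadratic K n (r + 2) (r + 1) := by
  apply quad_of
  intro S T hW
  apply re_of
  obtain ⟨A, B, h1, h2, h3, h4⟩ := repR K r hr S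
  obtain ⟨A', B', h1', h2', h3', h4'⟩ := repR K r hr T
  have hc : T.card = S.card := by
    have e1 := W_sum S
    have e2 := W_sum T
    rw [hW, e2] at e1
    exact Nat.eq_of_mul_eq_mul_left (by omega) e1
  rw [h4, h4']
  have d1 : A - A' + A ∩ A' = A := Multiset.sub_add_inter A A'
  have d2 : A' - A + A ∩ A' = A' := by
    rw [Multiset.inter_comm]; exact Multiset.sub_add_inter A' A
  have c1 := congrArg Multiset.card d1
  have c2 := congrArg Multiset.card d2
  rw [Multiset.card_add] at c1 c2
  have hk := HRM_key (tt K r) r hr (tt_T1 K r) (tt_T3 K r) (tt_T2 K r) (A - A').card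
    (A - A') (A' - A) (A ∩ A') B B' rfl (by omega) (by
      intro v
      rw [Multiset.count_sub, Multiset.count_sub]
      omega) (by rw [d1, h2, h1]) (by rw [d2, h2', h1']) (by
      intro v
      rw [d1, d2, ← h3, ← h3', hW])
  rw [d1, d2] at hk
  exact hk

end

end Pool.Agent.Helper857.PV
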