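import Pool.Agent.Helper857.PVf

set_option autoImplicit false

namespace Pool.Agent.Helper857.PV

open MvPolynomial

section
variable {n : ℕ}

lemma sub_vec (N : Fin n → ℕ) (m : ℕ) (h : m ≤ ∑ t, N t) :
    ∃ w : Fin n → ℕ, (∀ t, w t ≤ N t) ∧ ∑ t, w t = m := by
  induction m with
  | zero => exact ⟨fun _ => 0, fun _ => Nat.zero_le _, by simp⟩
  | succ m ih =>
    obtain ⟨w, h1, h2⟩ := ih (by omega)
    obtain ⟨t, ht⟩ : ∃ t, w t < N t := by
      by_contra hcon
      push Not at hcon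
      have : ∑ t, N t ≤ ∑ t, w t := Finset.sum_le_sum (fun t _ => hcon t)
      omega
    refine ⟨fun s => w s + if s = t then 1 else 0, ?_, ?_⟩
    · intro s
      show w s + (if s = t then 1 else 0) ≤ N s
      by_cases hs : s = t
      · rw [if_pos hs, hs]; omega
      · rw [if_neg hs]; exact h1 s
    · rw [Finset.sum_add_distrib, h2, Finset.sum_ite_eq', if_pos (Finset.mem_univ _)]

lemma sum_sub (f g : Fin n → ℕ) (h : ∀ t, g t ≤ f t) :
    ∑ t, (f t - g t) + ∑ t, g t = ∑ t, f t := by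
  rw [← Finset.sum_add_distrib]
  exact Finset.sum_congr rfl (fun t _ => Nat.sub_add_cancel (h t))

lemma mid_vec (x N : Fin n → ℕ) (m : ℕ) (hx : ∀ t, x t ≤ N t) (h1 : ∑ t, x t ≤ m)
    (h2 : m ≤ ∑ t, N t) :
    ∃ w : Fin n → ℕ, (∀ t, x t ≤ w t) ∧ (∀ t, w t ≤ N t) ∧ ∑ t, w t = m := by
  have h3 := sum_sub N x hx
  obtain ⟨w, a1, a2⟩ := sub_vec (fun t => N t - x t) (m - ∑ t, x t) (by omega)
  refine ⟨fun t => x t + w t, fun t => Nat.le_add_right _ _, ?_, ?_⟩
  · intro t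
    have := a1 t
    have := hx t
    show x t + w t ≤ N t
    omega
  · rw [Finset.sum_add_distrib, a2]; omega

lemma one_le_sum (f : Fin n → ℕ) (p : Fin n) : f p ≤ ∑ t, f t :=
  Finset.single_le_sum (fun t _ => Nat.zero_le (f t)) (Finset.mem_univ p)

lemma two_le_sum (f : Fin n → ℕ) (p q : Fin n) (h : p ≠ q) : f p + f q ≤ ∑ t, f t := by
  classical
  rw [← Finset.sum_pair h]
  exact Finset.sum_le_sum_of_subset (Finset.subset_univ _)

lemma three_le_sum (f : Fin n → ℕ) (p q r : Fin n) (h : p ≠ q) (h' : p ≠ r) (h'' : q ≠ r) :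
    f p + f q + f r ≤ ∑ t, f t := by
  classical
  have e : ∑ t ∈ ({p, q, r} : Finset (Fin n)), f t = f p + f q + f r := by
    rw [Finset.sum_insert, Finset.sum_pair h'', add_assoc]
    rw [Finset.mem_insert, Finset.mem_singleton]
    push Not
    exact ⟨h, h'⟩
  rw [← e]
  exact Finset.sum_le_sum_of_subset (Finset.subset_univ _)

/-- erase one coordinate -/
def er (N : Fin n → ℕ) (q : Fin n) : Fin n → ℕ := fun t => if t = q then 0 else N t

lemma er_sum (N : Fin n → ℕ) (q : Fin n) : ∑ t, er N q t + N q = ∑ t, N t := by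
  have h : ∀ t, N t = er N q t + if t = q then N q else 0 := by
    intro t
    unfold er
    by_cases ht : t = q
    · rw [if_pos ht, if_pos ht, ht]; omega
    · rw [if_neg ht, if_neg ht]; omega
  have h2 : ∑ t, N t = ∑ t, (er N q t + if t = q then N q else 0) :=
    Finset.sum_congr rfl (fun t _ => h t)
  rw [h2, Finset.sum_add_distrib, Finset.sum_ite_eq', if_pos (Finset.mem_univ _)]

lemma er_self (N : Fin n → ℕ) (q : Fin n) : er N q q = 0 := if_pos rfl
lemma er_ne (N : Fin n → ℕ) (q t : Fin n) (h : t ≠ q) : er N q t = N t := if_neg h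
lemma er_le (N : Fin n → ℕ) (q t : Fin n) : er N q t ≤ N t := by
  unfold er; split_ifs <;> omega

def pt (r : Fin n) (c : ℕ) : Fin n → ℕ := fun t => if t = r then c else 0
lemma pt_sum (r : Fin n) (c : ℕ) : ∑ t, pt r c t = c := by
  unfold pt
  rw [Finset.sum_ite_eq', if_pos (Finset.mem_univ _)]
lemma pt_self (r : Fin n) (c : ℕ) : pt r c r = c := if_pos rfl
lemma pt_ne (r t : Fin n) (c : ℕ) (h : t ≠ r) : pt r c t = 0 := if_neg h

end

section
variable {s d : ℕ}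

lemma gz (u : Gen (s + 1) d s) : ∃ q, u.1 q = 0 := by
  by_contra hcon
  push Not at hcon
  have h1 : Finset.univ.filter (fun i => u.1 i ≠ 0) = Finset.univ :=
    Finset.filter_true_of_mem (fun t _ => hcon t)
  have h2 := u.2.2
  rw [h1, Finset.card_univ, Fintype.card_fin] at h2
  omega

lemma mkg (f : Fin (s + 1) → ℕ) (h : ∑ t, f t = d) (q : Fin (s + 1)) (hq : f q = 0) :
    ∃ u : Gen (s + 1) d s, u.1 = f := by
  refine ⟨⟨f, h, ?_⟩, rfl⟩
  have h1 : Finset.univ.filter (fun i => f i ≠ 0) ⊆ Finset.univ.erase q := by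
    intro x hx
    rw [Finset.mem_filter] at hx
    rw [Finset.mem_erase]
    exact ⟨fun he => hx.2 (by rw [he, hq]), Finset.mem_univ _⟩
  have h2 := Finset.card_le_card h1
  rw [Finset.card_erase_of_mem (Finset.mem_univ _), Finset.card_univ, Fintype.card_fin] at h2
  omega

/-- splitting a vector of total `2 d` with a coordinate `r` of size at most `d` -/
lemma split2 (hs : 2 ≤ s) (N : Fin (s + 1) → ℕ) (hN : ∑ t, N t = 2 * d) (r : Fin (s + 1))
    (hr : N r ≤ d) : ∃ u v : Gen (s + 1) d s, v.1 r = 0 ∧ N = u.1 + v.1 := by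
  obtain ⟨q, hq, hqN⟩ : ∃ q, q ≠ r ∧ N q ≤ d := by
    by_contra hcon
    push Not at hcon
    obtain ⟨a, b, ha, hb, hab⟩ : ∃ a b : Fin (s + 1), a ≠ r ∧ b ≠ r ∧ a ≠ b := by
      have hc : 2 < (Finset.univ : Finset (Fin (s + 1))).card := by
        rw [Finset.card_univ, Fintype.card_fin]; omega
      have hc2 : 1 < ((Finset.univ : Finset (Fin (s + 1))).erase r).card := by
        rw [Finset.card_erase_of_mem (Finset.mem_univ _)]; omega
      obtain ⟨a, b, ha, hb, hab⟩ := Finset.one_lt_card_iff.mp hc2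
      exact ⟨a, b, (Finset.mem_erase.mp ha).1, (Finset.mem_erase.mp hb).1, hab⟩
    have h1 := hcon a ha
    have h2 := hcon b hb
    have h3 := two_le_sum N a b hab
    omega
  have e1 := er_sum N q
  obtain ⟨w, a1, a2, a3⟩ := mid_vec (pt r (N r)) (er N q) d (by
    intro t
    by_cases ht : t = r
    · rw [ht, pt_self, er_ne _ _ _ (Ne.symm hq)]
    · rw [pt_ne _ _ _ ht]; omega) (by rw [pt_sum]; exact hr) (by omega)
  have wq : w q = 0 := by
    have := a2 q
    rw [er_self] at this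
    omega
  have wr : w r = N r := by
    have h1 := a1 r
    have h2 := a2 r
    rw [pt_self] at h1
    rw [er_ne _ _ _ (Ne.symm hq)] at h2
    omega
  have wN : ∀ t, w t ≤ N t := fun t => le_trans (a2 t) (er_le N q t)
  obtain ⟨u, hu⟩ := mkg w a3 q wq
  have e2 := sum_sub N w wN
  obtain ⟨v, hv⟩ := mkg (d := d) (fun t => N t - w t) (by omega) r (by
    show N r - w r = 0
    omega)
  refine ⟨u, v, by rw [hv]; show N r - w r = 0; omega, ?_⟩
  rw [hu, hv]
  funext t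
  have := wN t
  show N t = w t + (N t - w t)
  omega

/-- a generator below a large vector -/
lemma below (hs : 2 ≤ s) (N : Fin (s + 1) → ℕ) (hN : 2 * d ≤ ∑ t, N t) :
    ∃ w : Gen (s + 1) d s, ∀ t, w.1 t ≤ N t := by
  obtain ⟨j, hj⟩ : ∃ j, N j + d ≤ ∑ t, N t := by
    by_contra hcon
    push Not at hcon
    have h0 := hcon ⟨0, by omega⟩
    have h1 := hcon ⟨1, by omega⟩
    have h2 := two_le_sum N ⟨0, by omega⟩ ⟨1, by omega⟩ (by simp)
    omega
  have e1 := er_sum N j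
  obtain ⟨w, a1, a2⟩ := sub_vec (er N j) d (by omega)
  obtain ⟨u, hu⟩ := mkg w a2 j (by
    have := a1 j
    rw [er_self] at this
    omega)
  exact ⟨u, fun t => by rw [hu]; exact le_trans (a1 t) (er_le N j t)⟩

lemma existS (hs : 2 ≤ s) (k : ℕ) : ∀ M : Fin (s + 1) → ℕ, ∑ i, M i = (k + 2) * d →
    ∃ S : Multiset (Gen (s + 1) d s), S.card = k + 2 ∧ W S = M := by
  induction k with
  | zero =>
    intro M hM
    rw [Nat.zero_add] at hM
    obtain ⟨r, hr⟩ : ∃ r, M r ≤ d := by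
      by_contra hcon
      push Not at hcon
      have h0 := hcon ⟨0, by omega⟩
      have h1 := hcon ⟨1, by omega⟩
      have h2 := two_le_sum M ⟨0, by omega⟩ ⟨1, by omega⟩ (by simp)
      omega
    obtain ⟨u, v, _, h⟩ := split2 hs M hM r hr
    refine ⟨u ::ₘ v ::ₘ 0, by simp, ?_⟩
    rw [W_cons, W_cons, W_zero, add_zero, h]
  | succ k ih =>
    intro M hM
    have h3 : (k + 1 + 2) * d = (k + 2) * d + d := by ring
    have h4 : (k + 2) * d = k * d + 2 * d := by ring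
    obtain ⟨u, hu⟩ := below (d := d) hs M (by omega)
    have e := sum_sub M u.1 hu
    have e2 := u.2.1
    obtain ⟨S, hS, hW⟩ := ih (fun t => M t - u.1 t) (by omega)
    refine ⟨u ::ₘ S, by rw [Multiset.card_cons, hS], ?_⟩
    rw [W_cons, hW]
    funext t
    have := hu t
    show u.1 t + (M t - u.1 t) = M t
    omega

variable (K : Type) [Field K]

lemma gatherS (hs : 2 ≤ s) (m1 m2 m3 : Gen (s + 1) d s) (r : Fin (s + 1))
    (hc : m1.1 r + m2.1 r + m3.1 r ≤ d) :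
    ∃ l1 l2 l3 : Gen (s + 1) d s, l2.1 r = 0 ∧ l3.1 r = 0 ∧
      (∀ t, m1.1 t + m2.1 t + m3.1 t = l1.1 t + l2.1 t + l3.1 t) ∧
      Re K (m1 ::ₘ m2 ::ₘ m3 ::ₘ 0) (l1 ::ₘ l2 ::ₘ l3 ::ₘ 0) := by
  have tot2 : ∀ a b : Gen (s + 1) d s, ∑ t, (a.1 + b.1) t = 2 * d := by
    intro a b
    have h1 := a.2.1
    have h2 := b.2.1
    have h3 : ∑ t, (a.1 + b.1) t = ∑ t, a.1 t + ∑ t, b.1 t := Finset.sum_add_distrib
    omega
  obtain ⟨n1, n2, hn2, e12⟩ := split2 hs (m1.1 + m2.1) (tot2 m1 m2) r (by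
    show m1.1 r + m2.1 r ≤ d
    omega)
  have e12' : ∀ t, m1.1 t + m2.1 t = n1.1 t + n2.1 t := fun t => congrFun e12 t
  have q1 := e12' r
  have q2 : n1.1 r + m3.1 r ≤ d := by
    rw [q1, hn2] at hc
    exact hc
  obtain ⟨l1, l3, hl3, e13⟩ := split2 hs (n1.1 + m3.1) (tot2 n1 m3) r q2
  have e13' : ∀ t, n1.1 t + m3.1 t = l1.1 t + l3.1 t := fun t => congrFun e13 t
  refine ⟨l1, n2, l3, hn2, hl3, ?_, (mv12 e12).trans (mv13 e13)⟩
  intro t
  have h1 := e12' t
  have h2 := e13' t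
  clear e12' e13' e12 e13 hc q1 q2 hn2 hl3
  omega

lemma tripleS (l1 l2 l3 n1 n2 n3 : Gen (s + 1) d s) (r : Fin (s + 1))
    (h2 : l2.1 r = 0) (h3 : l3.1 r = 0) (h2' : n2.1 r = 0) (h3' : n3.1 r = 0)
    (h : ∀ t, l1.1 t + l2.1 t + l3.1 t = n1.1 t + n2.1 t + n3.1 t) :
    Re K (l1 ::ₘ l2 ::ₘ l3 ::ₘ 0) (n1 ::ₘ n2 ::ₘ n3 ::ₘ 0) := by
  have hN : ∑ t, (l2.1 t + l3.1 t) = 2 * d := by
    rw [Finset.sum_add_distrib, l2.2.1, l3.2.1]; ring
  obtain ⟨w, a1, a2, a3⟩ := mid_vec (fun t => n1.1 t - l1.1 t) (fun t => l2.1 t + l3.1 t) d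
    (by
      intro t
      have := h t
      show n1.1 t - l1.1 t ≤ l2.1 t + l3.1 t
      omega)
    (by
      have e1 := n1.2.1
      have e2 : ∑ t, (n1.1 t - l1.1 t) ≤ ∑ t, n1.1 t :=
        Finset.sum_le_sum (fun t _ => Nat.sub_le _ _)
      omega)
    (by omega)
  have wr : w r = 0 := by
    have := a2 r
    rw [h2, h3] at this
    omega
  obtain ⟨m2, hm2⟩ := mkg w a3 r wr
  have e3 := sum_sub (fun t => l2.1 t + l3.1 t) w a2
  obtain ⟨m3, hm3⟩ := mkg (d := d) (fun t => l2.1 t + l3.1 t - w t) (by omega) r (by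
    show l2.1 r + l3.1 r - w r = 0
    rw [h2, h3]; omega)
  -- second factor after the exchange
  have hle : ∀ t, n1.1 t ≤ l1.1 t + w t := by
    intro t
    have h5 : n1.1 t - l1.1 t ≤ w t := a1 t
    omega
  have e4 := sum_sub (fun t => l1.1 t + w t) n1.1 hle
  have e5 : ∑ t, (l1.1 t + w t) = 2 * d := by
    rw [Finset.sum_add_distrib, l1.2.1, a3]; ring
  have e6 := n1.2.1
  obtain ⟨m4, hm4⟩ := mkg (d := d) (fun t => l1.1 t + w t - n1.1 t) (by omega) r (by
    show l1.1 r + w r - n1.1 r = 0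
    have := h r
    rw [h2, h3, h2', h3'] at this
    omega)
  have R1 : Re K (l1 ::ₘ l2 ::ₘ l3 ::ₘ 0) (l1 ::ₘ m2 ::ₘ m3 ::ₘ 0) := by
    apply mv23
    rw [hm2, hm3]
    funext t
    have := a2 t
    show l2.1 t + l3.1 t = w t + (l2.1 t + l3.1 t - w t)
    omega
  have R2 : Re K (l1 ::ₘ m2 ::ₘ m3 ::ₘ 0) (n1 ::ₘ m4 ::ₘ m3 ::ₘ 0) := by
    apply mv12
    rw [hm2, hm4]
    funext t
    have := hle t
    show l1.1 t + w t = n1.1 t + (l1.1 t + w t - n1.1 t)
    omega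
  have R3 : Re K (n1 ::ₘ m4 ::ₘ m3 ::ₘ 0) (n1 ::ₘ n2 ::ₘ n3 ::ₘ 0) := by
    apply mv23
    rw [hm3, hm4]
    funext t
    have q1 := hle t
    have q2 : w t ≤ l2.1 t + l3.1 t := a2 t
    have q3 := h t
    show (l1.1 t + w t - n1.1 t) + (l2.1 t + l3.1 t - w t) = n2.1 t + n3.1 t
    clear e3 e4 e5 e6 hle a1 a2 hm2 hm3 hm4 R1 R2
    omega
  exact R1.trans (R2.trans R3)

end

end Pool.Agent.Helper857.PV
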