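import Pool.Agent.Helper857.PVn

set_option autoImplicit false

namespace Pool.Agent.Helper857.PV

open MvPolynomial

theorem full_quad (K : Type) [Field K] (s d : ℕ) (hs : 2 ≤ s) (hd : 1 ≤ d) :
    IsQuadratic K (s + 1) d s := by
  apply quad_of
  have key : ∀ k : ℕ, ∀ S T : Multiset (Gen (s + 1) d s), S.card = k → W S = W T →
      Re K S T := by
    intro k
    induction k using Nat.strong_induction_on with
    | _ k ih =>
    intro S T hS hW
    have hcard : T.card = k := by
      have h1 := W_sum S
      have h2 := W_sum T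
      rw [hW, h2, hS] at h1
      exact Nat.eq_of_mul_eq_mul_left hd h1
    by_cases hk0 : k = 0
    · rw [hk0] at hS hcard
      rw [Multiset.card_eq_zero] at hS hcard
      rw [hS, hcard]
      exact Re.refl _
    by_cases hk1 : k = 1
    · rw [hk1] at hS hcard
      rw [Multiset.card_eq_one] at hS hcard
      obtain ⟨u, rfl⟩ := hS
      obtain ⟨v, rfl⟩ := hcard
      have : u = v := by
        apply Subtype.ext
        simpa [W] using hW
      rw [this]
      exact Re.refl _
    by_cases hk2 : k = 2
    · rw [hk2] at hS hcard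
      rw [Multiset.card_eq_two] at hS hcard
      obtain ⟨u, v, rfl⟩ := hS
      obtain ⟨u', v', rfl⟩ := hcard
      apply Re.move
      simpa [W] using hW
    by_cases hk3 : k = 3
    · rw [hk3] at hS hcard
      rw [Multiset.card_eq_three] at hS hcard
      obtain ⟨m1, m2, m3, rfl⟩ := hS
      obtain ⟨n1, n2, n3, rfl⟩ := hcard
      have hWt : ∀ t, m1.1 t + m2.1 t + m3.1 t = n1.1 t + n2.1 t + n3.1 t := by
        intro t
        have h1 := congrFun hW t
        have e : ∀ a b c : Gen (s + 1) d s, W ({a, b, c} : Multiset (Gen (s + 1) d s)) t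
            = a.1 t + b.1 t + c.1 t := by
          intro a b c
          have e1 : ({a, b, c} : Multiset (Gen (s + 1) d s)) = a ::ₘ b ::ₘ c ::ₘ 0 := rfl
          rw [e1, W_cons, W_cons, W_cons, W_zero]
          simp only [Pi.add_apply, Pi.zero_apply]
          ring
        rw [e, e] at h1
        exact h1
      obtain ⟨r, hr⟩ : ∃ r, m1.1 r + m2.1 r + m3.1 r ≤ d := by
        by_contra hcon
        push Not at hcon
        have h0 := hcon ⟨0, by omega⟩
        have h1 := hcon ⟨1, by omega⟩
        have h2 := hcon ⟨2, by omega⟩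
        have h3 := three_le_sum (fun t => m1.1 t + m2.1 t + m3.1 t) (⟨0, by omega⟩ : Fin (s + 1))
          ⟨1, by omega⟩ ⟨2, by omega⟩ (by simp) (by simp) (by simp)
        have h4 : ∑ t, (m1.1 t + m2.1 t + m3.1 t) = 3 * d := by
          rw [Finset.sum_add_distrib, Finset.sum_add_distrib, m1.2.1, m2.2.1, m3.2.1]
          ring
        rw [h4] at h3
        omega
      obtain ⟨l1, l2, l3, z2, z3, zt, zR⟩ := gatherS K hs m1 m2 m3 r hr
      obtain ⟨p1, p2, p3, y2, y3, yt, yR⟩ := gatherS K hs n1 n2 n3 r (by rw [← hWt]; exact hr)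
      refine zR.trans (Re.trans (tripleS K l1 l2 l3 p1 p2 p3 r z2 z3 y2 y3 ?_) yR.symm)
      intro t
      rw [← zt, ← yt, hWt]
    -- k ≥ 4
    obtain ⟨j, rfl⟩ : ∃ j, k = j + 4 := ⟨k - 4, by omega⟩
    have split : ∀ U : Multiset (Gen (s + 1) d s), U.card = j + 4 →
        ∃ u U', U = u ::ₘ U' ∧ U'.card = j + 3 := by
      intro U hU
      obtain ⟨u, hu⟩ := Multiset.card_pos_iff_exists_mem.mp (by rw [hU]; omega : 0 < U.card)
      obtain ⟨U', rfl⟩ := Multiset.exists_cons_of_mem hu
      rw [Multiset.card_cons] at hU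
      exact ⟨u, U', rfl, by omega⟩
    obtain ⟨u, S', rfl, hS'⟩ := split S hS
    obtain ⟨v, T', rfl, hT'⟩ := split T hcard
    have hMt : ∀ t, u.1 t + W S' t = v.1 t + W T' t := by
      intro t
      have := congrFun hW t
      rw [W_cons, W_cons] at this
      exact this
    have sS := W_sum S'
    have sT := W_sum T'
    rw [hS'] at sS
    rw [hT'] at sT
    have hx : ∀ t, v.1 t - u.1 t ≤ W S' t := by
      intro t
      have := hMt t
      omega
    have e1 := sum_sub (W S') (fun t => v.1 t - u.1 t) hx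
    have e2 : ∑ t, (v.1 t - u.1 t) ≤ ∑ t, v.1 t :=
      Finset.sum_le_sum (fun t _ => Nat.sub_le _ _)
    rw [v.2.1] at e2
    have e3 : d * (j + 3) = j * d + 3 * d := by ring
    obtain ⟨w, hw⟩ := below (d := d) hs (fun t => W S' t - (v.1 t - u.1 t)) (by omega)
    have hw1 : ∀ t, w.1 t ≤ W S' t := by
      intro t
      have h1 : w.1 t ≤ W S' t - (v.1 t - u.1 t) := hw t
      omega
    have hw2 : ∀ t, w.1 t ≤ W T' t := by
      intro t
      have h1 : w.1 t ≤ W S' t - (v.1 t - u.1 t) := hw t
      have h2 := hMt t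
      omega
    have pullw : ∀ (x : Gen (s + 1) d s) (U : Multiset (Gen (s + 1) d s)), U.card = j + 3 →
        (∀ t, w.1 t ≤ W U t) → ∃ C : Multiset (Gen (s + 1) d s), C.card = j + 2 ∧
          W U = W (w ::ₘ C) ∧ Re K (x ::ₘ U) (w ::ₘ x ::ₘ C) := by
      intro x U hU hle
      have f1 := sum_sub (W U) w.1 hle
      have f2 := W_sum U
      have f3 := w.2.1
      rw [hU] at f2
      have f4 : (j + 2) * d = j * d + 2 * d := by ring
      obtain ⟨C, hC, hWC⟩ := existS (d := d) hs j (fun t => W U t - w.1 t) (by omega)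
      have hWU : W U = W (w ::ₘ C) := by
        rw [W_cons, hWC]
        funext t
        have := hle t
        show W U t = w.1 t + (W U t - w.1 t)
        omega
      refine ⟨C, hC, hWU, ?_⟩
      rw [Multiset.cons_swap]
      exact (ih (j + 3) (by omega) U (w ::ₘ C) hU hWU).cons x
    obtain ⟨C, hC, hWC, hRC⟩ := pullw u S' hS' hw1
    obtain ⟨C', hC', hWC', hRC'⟩ := pullw v T' hT' hw2
    have hmid : Re K (u ::ₘ C) (v ::ₘ C') := by
      apply ih (j + 3) (by omega) _ _ (by rw [Multiset.card_cons, hC])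
      rw [W_cons, W_cons, hWC, hWC', W_cons, W_cons] at hW
      rw [W_cons, W_cons]
      funext t
      have := congrFun hW t
      simp only [Pi.add_apply] at this ⊢
      omega
    exact hRC.trans ((hmid.cons w).trans hRC'.symm)
  intro S T hW
  exact key S.card S T rfl hW

end Pool.Agent.Helper857.PV
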