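import Pool.Agent.Helper857.PVc

set_option autoImplicit false

namespace Pool.Agent.Helper857.PV2

open Pool.Agent.Helper857.PV

/-- small weights -/
def w (t i j : ℕ) : ℕ :=
  if j = 0 then (if i = 0 then 5 else if i = 1 then 2 else 4)
  else if j = 1 then (if i = 0 then 1 else if i = 1 then 6 else 3)
  else 32 * (t - 1) + 16 * i

lemma w_succ (q i j : ℕ) : w (q + 2) i (j + 2) = 32 * (q + 1) + 16 * i := by
  unfold w
  rw [if_neg (by omega), if_neg (by omega)]
  omega

lemma w_pos (q i j : ℕ) : 0 < w (q + 2) i j := by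
  unfold w
  split_ifs <;> omega

lemma split_sum (q : ℕ) (f : ℕ → ℕ) : ∑ j ∈ Finset.range (q + 2), f j
    = ∑ j ∈ Finset.range q, f (j + 2) + f 1 + f 0 := by
  rw [Finset.sum_range_succ', Finset.sum_range_succ']

lemma bound (i i' : ℕ) (hi : i < 3) (hi' : i' < 3) (h : i ≠ i') (q : ℕ) :
    ∑ j ∈ Finset.range (q + 2), (w (q + 2) i j + w (q + 2) i' j) < 64 * (q + 1) ^ 2 := by
  rw [split_sum]
  have h1 : ∑ j ∈ Finset.range q, (w (q + 2) i (j + 2) + w (q + 2) i' (j + 2))
      = q * (64 * (q + 1) + 16 * (i + i')) := by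
    rw [Finset.sum_congr rfl (fun j _ => by rw [w_succ, w_succ]), Finset.sum_const,
      Finset.card_range, smul_eq_mul]
    ring
  rw [h1]
  have h2 : w (q + 2) i 1 + w (q + 2) i' 1 + (w (q + 2) i 0 + w (q + 2) i' 0) ≤ 15 := by
    interval_cases i <;> interval_cases i' <;> simp_all [w]
  have h3 : i + i' ≤ 3 := by omega
  have h4 : q * (64 * (q + 1) + 16 * (i + i')) ≤ q * (64 * (q + 1) + 48) :=
    Nat.mul_le_mul_left _ (by omega)
  have h5 : 64 * (q + 1) ^ 2 = q * (64 * (q + 1) + 48) + 16 * q + 64 := by ring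
  omega

lemma arithk (i i' : ℕ) (hi : i < 3) (hi' : i' < 3) (h : i ≠ i') (q X Y x0 x1 y0 y1 : ℕ)
    (hx0 : x0 = 0 ∨ x0 = 1) (hx1 : x1 = 0 ∨ x1 = 1) (hy0 : y0 = 0 ∨ y0 = 1)
    (hy1 : y1 = 0 ∨ y1 = 1) (hXq : X ≤ q) (hYq : Y ≤ q)
    (hc : (X + Y) + (x1 + y1) + (x0 + y0) = q + 2)
    (hs : (X * (32 * (q + 1) + 16 * i) + Y * (32 * (q + 1) + 16 * i'))
      + (x1 * w (q + 2) i 1 + y1 * w (q + 2) i' 1)
      + (x0 * w (q + 2) i 0 + y0 * w (q + 2) i' 0)
      = q * (32 * (q + 1) + 16 * i) + w (q + 2) i 1 + w (q + 2) i 0) :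
    X = q ∧ Y = 0 ∧ x0 = 1 ∧ x1 = 1 ∧ y0 = 0 ∧ y1 = 0 := by
  have v00 : w (q + 2) 0 0 = 5 := rfl
  have v10 : w (q + 2) 1 0 = 2 := rfl
  have v20 : w (q + 2) 2 0 = 4 := rfl
  have v01 : w (q + 2) 0 1 = 1 := rfl
  have v11 : w (q + 2) 1 1 = 6 := rfl
  have v21 : w (q + 2) 2 1 = 3 := rfl
  have hi3 : i = 0 ∨ i = 1 ∨ i = 2 := by omega
  have hi3' : i' = 0 ∨ i' = 1 ∨ i' = 2 := by omega
  -- linearise
  obtain ⟨P, hP⟩ : ∃ P, P = 32 * (q + 1) := ⟨_, rfl⟩
  have e1 : X * (32 * (q + 1) + 16 * i) + Y * (32 * (q + 1) + 16 * i')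
      = (X + Y) * P + 16 * (X * i) + 16 * (Y * i') := by rw [hP]; ring
  have e2 : q * (32 * (q + 1) + 16 * i) = q * P + 16 * (q * i) := by rw [hP]; ring
  rw [e1, e2] at hs
  have hXY : X + Y + (x1 + y1 + (x0 + y0)) = q + 2 := by omega
  -- the number of base elements is at most four
  have key2 : (X + Y) * P + (x1 + y1 + (x0 + y0)) * P = q * P + 2 * P := by
    rw [← add_mul, hXY, add_mul]
  clear e1 e2 hXY
  rcases hx0 with rfl | rfl <;> rcases hx1 with rfl | rfl <;> rcases hy0 with rfl | rfl <;>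
    rcases hy1 with rfl | rfl <;>
    rcases hi3 with rfl | rfl | rfl <;> rcases hi3' with rfl | rfl | rfl <;>
    simp only [v00, v10, v20, v01, v11, v21, mul_zero, mul_one, zero_mul, one_mul, add_zero,
      zero_add, and_true] at hs key2 ⊢ <;> omega

lemma key (i i' : ℕ) (hi : i < 3) (hi' : i' < 3) (h : i ≠ i') (q : ℕ) (x y : ℕ → ℕ)
    (hx : ∀ j, x j = 0 ∨ x j = 1) (hy : ∀ j, y j = 0 ∨ y j = 1)
    (hs : ∑ j ∈ Finset.range (q + 2), (x j * w (q + 2) i j + y j * w (q + 2) i' j)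
      = ∑ j ∈ Finset.range (q + 2), w (q + 2) i j)
    (hc : ∑ j ∈ Finset.range (q + 2), (x j + y j) = q + 2) :
    ∀ j, j < q + 2 → x j = 1 ∧ y j = 0 := by
  rw [split_sum, split_sum] at hs
  rw [split_sum] at hc
  have h1 : ∑ j ∈ Finset.range q, (x (j + 2) * w (q + 2) i (j + 2)
      + y (j + 2) * w (q + 2) i' (j + 2))
      = (∑ j ∈ Finset.range q, x (j + 2)) * (32 * (q + 1) + 16 * i)
        + (∑ j ∈ Finset.range q, y (j + 2)) * (32 * (q + 1) + 16 * i') := by
    rw [Finset.sum_mul, Finset.sum_mul, ← Finset.sum_add_distrib]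
    exact Finset.sum_congr rfl (fun j _ => by rw [w_succ, w_succ])
  have h2 : ∑ j ∈ Finset.range q, w (q + 2) i (j + 2) = q * (32 * (q + 1) + 16 * i) := by
    rw [Finset.sum_congr rfl (fun j _ => w_succ q i j), Finset.sum_const, Finset.card_range,
      smul_eq_mul]
  have h3 : ∑ j ∈ Finset.range q, (x (j + 2) + y (j + 2))
      = ∑ j ∈ Finset.range q, x (j + 2) + ∑ j ∈ Finset.range q, y (j + 2) :=
    Finset.sum_add_distrib
  rw [h1, h2] at hs
  rw [h3] at hc
  have le1 : ∀ f : ℕ → ℕ, (∀ j, f j = 0 ∨ f j = 1) →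
      ∑ j ∈ Finset.range q, f (j + 2) ≤ q := by
    intro f hf
    have : ∑ j ∈ Finset.range q, f (j + 2) ≤ ∑ _j ∈ Finset.range q, 1 := by
      apply Finset.sum_le_sum
      intro j _
      rcases hf (j + 2) with e | e <;> omega
    rwa [Finset.sum_const, Finset.card_range, smul_eq_mul, mul_one] at this
  obtain ⟨a1, a2, a3, a4, a5, a6⟩ := arithk i i' hi hi' h q _ _ (x 0) (x 1) (y 0) (y 1) (hx 0)
    (hx 1) (hy 0) (hy 1) (le1 x hx) (le1 y hy) hc hs
  have hY : ∀ j ∈ Finset.range q, y (j + 2) = 0 := by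
    intro j hj
    exact (Finset.sum_eq_zero_iff.mp a2) j hj
  have hX : ∀ j ∈ Finset.range q, x (j + 2) = 1 := by
    have hle : ∀ j ∈ Finset.range q, x (j + 2) ≤ 1 := by
      intro j _
      rcases hx (j + 2) with e | e <;> omega
    have hsum : ∑ j ∈ Finset.range q, x (j + 2) = ∑ _j ∈ Finset.range q, 1 := by
      rw [a1, Finset.sum_const, Finset.card_range, smul_eq_mul, mul_one]
    exact (Finset.sum_eq_sum_iff_of_le hle).mp hsum
  intro j hj
  by_cases h0 : j = 0
  · rw [h0]; exact ⟨a3, a5⟩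
  · by_cases h1' : j = 1
    · rw [h1']; exact ⟨a4, a6⟩
    · obtain ⟨j', rfl⟩ : ∃ j', j = j' + 2 := ⟨j - 2, by omega⟩
      have hj' : j' ∈ Finset.range q := Finset.mem_range.mpr (by omega)
      exact ⟨hX j' hj', hY j' hj'⟩

/-- full weights -/
def V (d t i : ℕ) : ℕ → ℕ
  | 0 => d - ∑ j ∈ Finset.range t, w t i j
  | (j + 1) => w t i j

lemma sel (i i' : ℕ) (hi : i < 3) (hi' : i' < 3) (h : i ≠ i') (q d : ℕ) (hd : 64 * (q + 1) ^ 2 ≤ d)
    (a b a' b' : ℕ → ℕ)
    (ha : ∀ j, j < q + 3 → a j + a' j = V d (q + 2) i j)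
    (hb : ∀ j, j < q + 3 → b j + b' j = V d (q + 2) i' j)
    (S : ∑ j ∈ Finset.range (q + 3), (a j + b j) = d)
    (C : ∑ j ∈ Finset.range (q + 3), (nz (a j) + nz (b j)) ≤ q + 3)
    (C' : ∑ j ∈ Finset.range (q + 3), (nz (a' j) + nz (b' j)) ≤ q + 3) :
    (∀ j, j < q + 3 → a j = V d (q + 2) i j ∧ b j = 0) ∨
      (∀ j, j < q + 3 → a j = 0 ∧ b j = V d (q + 2) i' j) := by
  have hbd := bound i i' hi hi' h q
  rw [Finset.sum_add_distrib] at hbd
  have Vpos : ∀ j, 0 < V d (q + 2) i j := by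
    intro j
    cases j with
    | zero => simp only [V]; omega
    | succ j => exact w_pos _ _ _
  have Vpos' : ∀ j, 0 < V d (q + 2) i' j := by
    intro j
    cases j with
    | zero => simp only [V]; omega
    | succ j => exact w_pos _ _ _
  have hge : ∀ j ∈ Finset.range (q + 3),
      2 ≤ (nz (a j) + nz (b j)) + (nz (a' j) + nz (b' j)) := by
    intro j hj
    rw [Finset.mem_range] at hj
    have h1 := ha j hj
    have h2 := hb j hj
    have h3 := Vpos j
    have h4 := Vpos' j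
    rcases nz_cases (a j) with ⟨p1, p2⟩ | ⟨p1, p2⟩ <;>
      rcases nz_cases (b j) with ⟨p3, p4⟩ | ⟨p3, p4⟩ <;>
      rcases nz_cases (a' j) with ⟨p5, p6⟩ | ⟨p5, p6⟩ <;>
      rcases nz_cases (b' j) with ⟨p7, p8⟩ | ⟨p7, p8⟩ <;> omega
  have hcst : ∑ _j ∈ Finset.range (q + 3), 2 = 2 * (q + 3) := by
    rw [Finset.sum_const, Finset.card_range, smul_eq_mul, mul_comm]
  have hle := Finset.sum_le_sum hge
  have htot : ∑ j ∈ Finset.range (q + 3),
      ((nz (a j) + nz (b j)) + (nz (a' j) + nz (b' j)))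
      = ∑ j ∈ Finset.range (q + 3), (nz (a j) + nz (b j))
        + ∑ j ∈ Finset.range (q + 3), (nz (a' j) + nz (b' j)) := Finset.sum_add_distrib
  rw [hcst, htot] at hle
  have heq : ∑ _j ∈ Finset.range (q + 3), 2 = ∑ j ∈ Finset.range (q + 3),
      ((nz (a j) + nz (b j)) + (nz (a' j) + nz (b' j))) := by
    rw [hcst, htot]; omega
  have heach := (Finset.sum_eq_sum_iff_of_le hge).mp heq
  have hC : ∑ j ∈ Finset.range (q + 3), (nz (a j) + nz (b j)) = q + 3 := by omega
  have form : ∀ j, j < q + 3 →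
      a j = nz (a j) * V d (q + 2) i j ∧ b j = nz (b j) * V d (q + 2) i' j := by
    intro j hj
    have h0 := heach j (Finset.mem_range.mpr hj)
    have h1 := ha j hj
    have h2 := hb j hj
    have h3 := Vpos j
    have h4 := Vpos' j
    rcases nz_cases (a j) with ⟨p1, p2⟩ | ⟨p1, p2⟩ <;>
      rcases nz_cases (b j) with ⟨p3, p4⟩ | ⟨p3, p4⟩ <;>
      rcases nz_cases (a' j) with ⟨p5, p6⟩ | ⟨p5, p6⟩ <;>
      rcases nz_cases (b' j) with ⟨p7, p8⟩ | ⟨p7, p8⟩ <;> rw [p2, p4] <;> omega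
  have zo : ∀ k, nz k = 0 ∨ nz k = 1 := by
    intro k
    rcases nz_cases k with ⟨_, p⟩ | ⟨_, p⟩
    · exact Or.inl p
    · exact Or.inr p
  rw [show q + 3 = (q + 2) + 1 by ring, Finset.sum_range_succ'] at hC S
  have hT : ∑ j ∈ Finset.range (q + 2), (a (j + 1) + b (j + 1))
      = ∑ j ∈ Finset.range (q + 2), (nz (a (j + 1)) * w (q + 2) i j + nz (b (j + 1)) * w (q + 2) i' j) := by
    apply Finset.sum_congr rfl
    intro j hj
    rw [Finset.mem_range] at hj
    have := form (j + 1) (by omega)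
    exact congrArg₂ (· + ·) this.1 this.2
  rw [hT] at S
  have hT2 : ∑ j ∈ Finset.range (q + 2), (nz (a (j + 1)) * w (q + 2) i j + nz (b (j + 1)) * w (q + 2) i' j)
      ≤ ∑ j ∈ Finset.range (q + 2), (w (q + 2) i j + w (q + 2) i' j) := by
    apply Finset.sum_le_sum
    intro j _
    have h1 : nz (a (j + 1)) * w (q + 2) i j ≤ w (q + 2) i j := by
      rcases zo (a (j + 1)) with p | p <;> rw [p] <;> omega
    have h2 : nz (b (j + 1)) * w (q + 2) i' j ≤ w (q + 2) i' j := by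
      rcases zo (b (j + 1)) with p | p <;> rw [p] <;> omega
    omega
  rw [Finset.sum_add_distrib (f := fun j => w (q + 2) i j)] at hT2
  have f0 := form 0 (by omega)
  have hV0 : V d (q + 2) i 0 = d - ∑ j ∈ Finset.range (q + 2), w (q + 2) i j := rfl
  have hV0' : V d (q + 2) i' 0 = d - ∑ j ∈ Finset.range (q + 2), w (q + 2) i' j := rfl
  rw [hV0] at f0
  rw [hV0'] at f0
  rcases nz_cases (a 0) with ⟨p1, p2⟩ | ⟨p1, p2⟩
  · rcases nz_cases (b 0) with ⟨p3, p4⟩ | ⟨p3, p4⟩
    · omega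
    · right
      rw [p2, p4] at f0 hC
      have hk := key i' i hi' hi h.symm q (fun j => nz (b (j + 1))) (fun j => nz (a (j + 1)))
        (fun j => zo _) (fun j => zo _) (by
          have : ∑ j ∈ Finset.range (q + 2),
              (nz (b (j + 1)) * w (q + 2) i' j + nz (a (j + 1)) * w (q + 2) i j)
              = ∑ j ∈ Finset.range (q + 2),
              (nz (a (j + 1)) * w (q + 2) i j + nz (b (j + 1)) * w (q + 2) i' j) :=
            Finset.sum_congr rfl (fun j _ => add_comm _ _)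
          show ∑ j ∈ Finset.range (q + 2),
              (nz (b (j + 1)) * w (q + 2) i' j + nz (a (j + 1)) * w (q + 2) i j) = _
          rw [this]
          omega) (by
          have : ∑ j ∈ Finset.range (q + 2), (nz (b (j + 1)) + nz (a (j + 1)))
              = ∑ j ∈ Finset.range (q + 2), (nz (a (j + 1)) + nz (b (j + 1))) :=
            Finset.sum_congr rfl (fun j _ => add_comm _ _)
          show ∑ j ∈ Finset.range (q + 2), (nz (b (j + 1)) + nz (a (j + 1))) = _
          rw [this]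
          omega)
      intro j hj
      cases j with
      | zero => exact ⟨p1, by rw [hV0']; omega⟩
      | succ j =>
        have h1 : nz (b (j + 1)) = 1 ∧ nz (a (j + 1)) = 0 := hk j (by omega)
        have h2 := form (j + 1) hj
        rw [h1.1, h1.2] at h2
        constructor
        · rw [h2.1]; omega
        · rw [h2.2]; omega
  · rcases nz_cases (b 0) with ⟨p3, p4⟩ | ⟨p3, p4⟩
    · left
      rw [p2, p4] at f0 hC
      have hk := key i i' hi hi' h q (fun j => nz (a (j + 1))) (fun j => nz (b (j + 1)))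
        (fun j => zo _) (fun j => zo _) (by
          show ∑ j ∈ Finset.range (q + 2),
              (nz (a (j + 1)) * w (q + 2) i j + nz (b (j + 1)) * w (q + 2) i' j) = _
          omega) (by
          show ∑ j ∈ Finset.range (q + 2), (nz (a (j + 1)) + nz (b (j + 1))) = _
          omega)
      intro j hj
      cases j with
      | zero => exact ⟨by rw [hV0]; omega, p3⟩
      | succ j =>
        have h1 : nz (a (j + 1)) = 1 ∧ nz (b (j + 1)) = 0 := hk j (by omega)
        have h2 := form (j + 1) hj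
        rw [h1.1, h1.2] at h2
        constructor
        · rw [h2.1]; omega
        · rw [h2.2]; omega
    · rw [p2, p4] at f0
      omega

end Pool.Agent.Helper857.PV2
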