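import Mathlib

set_option autoImplicit false

namespace Pool.Agent.Helper857.Pad

open Finset

variable {p : ℕ} [hp : Fact p.Prime]

/-- rationals with denominator prime to `p` -/
def Zp (p : ℕ) [hp : Fact p.Prime] : Subring ℚ where
  carrier := {x | ¬ p ∣ x.den}
  mul_mem' := by
    intro x y hx hy h
    have := h.trans (Rat.mul_den_dvd x y)
    rcases (hp.out.dvd_mul).mp this with h | h
    · exact hx h
    · exact hy h
  one_mem' := by simpa using hp.out.one_lt.ne'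
  add_mem' := by
    intro x y hx hy h
    have := h.trans (Rat.add_den_dvd x y)
    rcases (hp.out.dvd_mul).mp this with h | h
    · exact hx h
    · exact hy h
  zero_mem' := by simpa using hp.out.one_lt.ne'
  neg_mem' := by
    intro x hx h
    rw [Rat.neg_den] at h
    exact hx h

lemma mem_Zp (x : ℚ) : x ∈ Zp p ↔ ¬ p ∣ x.den := Iff.rfl

/-- membership in `p^k Z_(p)` -/
def I (p : ℕ) [hp : Fact p.Prime] (k : ℕ) (x : ℚ) : Prop := ∃ y ∈ Zp p, x = (p:ℚ)^k * y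

lemma I.zero (k : ℕ) : I p k 0 := ⟨0, (Zp p).zero_mem, by simp⟩

lemma I.add {k : ℕ} {x y : ℚ} (hx : I p k x) (hy : I p k y) : I p k (x+y) := by
  obtain ⟨a, ha, rfl⟩ := hx
  obtain ⟨b, hb, rfl⟩ := hy
  exact ⟨a+b, (Zp p).add_mem ha hb, by ring⟩

lemma I.neg {k : ℕ} {x : ℚ} (hx : I p k x) : I p k (-x) := by
  obtain ⟨a, ha, rfl⟩ := hx
  exact ⟨-a, (Zp p).neg_mem ha, by ring⟩

lemma I.sub {k : ℕ} {x y : ℚ} (hx : I p k x) (hy : I p k y) : I p k (x-y) := by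
  rw [sub_eq_add_neg]; exact hx.add hy.neg

lemma I.mul {j k : ℕ} {x y : ℚ} (hx : I p j x) (hy : I p k y) : I p (j+k) (x*y) := by
  obtain ⟨a, ha, rfl⟩ := hx
  obtain ⟨b, hb, rfl⟩ := hy
  exact ⟨a*b, (Zp p).mul_mem ha hb, by ring⟩

lemma nat_mem (n : ℕ) : (n:ℚ) ∈ Zp p := natCast_mem _ n

lemma int_mem (n : ℤ) : (n:ℚ) ∈ Zp p := intCast_mem _ n

lemma I.mono {j k : ℕ} (h : j ≤ k) {x : ℚ} (hx : I p k x) : I p j x := by
  obtain ⟨a, ha, rfl⟩ := hx
  obtain ⟨d, rfl⟩ := Nat.exists_eq_add_of_le h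
  refine ⟨(p:ℚ)^d * a, (Zp p).mul_mem ((Zp p).pow_mem (nat_mem p) d) ha, by ring⟩

lemma I.of_mem {x : ℚ} (hx : x ∈ Zp p) : I p 0 x := ⟨x, hx, by simp⟩

lemma I.mem {k : ℕ} {x : ℚ} (hx : I p k x) : x ∈ Zp p := by
  obtain ⟨a, ha, rfl⟩ := hx
  exact (Zp p).mul_mem ((Zp p).pow_mem (nat_mem p) k) ha

lemma I.mul_mem {k : ℕ} {x z : ℚ} (hx : I p k x) (hz : z ∈ Zp p) : I p k (x*z) := by
  simpa using hx.mul (I.of_mem hz)

lemma I.mem_mul {k : ℕ} {x z : ℚ} (hz : z ∈ Zp p) (hx : I p k x) : I p k (z*x) := by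
  rw [mul_comm]; exact hx.mul_mem hz

lemma I.sum {ι : Type*} {k : ℕ} (s : Finset ι) (f : ι → ℚ) (hf : ∀ i ∈ s, I p k (f i)) :
    I p k (∑ i ∈ s, f i) := by
  classical
  induction s using Finset.induction_on with
  | empty => simpa using I.zero k
  | insert a s ha ih =>
    rw [sum_insert ha]
    exact (hf a (mem_insert_self a s)).add (ih (fun i hi => hf i (mem_insert_of_mem hi)))

lemma I.pow {j : ℕ} {x : ℚ} (hx : I p j x) (n : ℕ) : I p (j*n) (x^n) := by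
  obtain ⟨a, ha, rfl⟩ := hx
  exact ⟨a^n, (Zp p).pow_mem ha n, by rw [mul_pow, pow_mul]⟩

lemma inv_nat_mem {n : ℕ} (h : ¬ p ∣ n) : ((n:ℚ))⁻¹ ∈ Zp p := by
  rw [mem_Zp]
  by_cases h0 : n = 0
  · subst h0; exact absurd (dvd_zero p) h
  · rwa [Rat.inv_natCast_den_of_pos (Nat.pos_of_ne_zero h0)]

lemma inv_int_mem {n : ℤ} (h : ¬ (p:ℤ) ∣ n) : ((n:ℚ))⁻¹ ∈ Zp p := by
  obtain ⟨m, rfl | rfl⟩ := n.eq_nat_or_neg
  · have h' : ¬ p ∣ m := fun hh => h (Int.natCast_dvd_natCast.mpr hh)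
    exact_mod_cast inv_nat_mem h'
  · have h' : ¬ p ∣ m := fun hh => h (dvd_neg.mpr (Int.natCast_dvd_natCast.mpr hh))
    push_cast
    rw [inv_neg]
    exact (Zp p).neg_mem (inv_nat_mem h')

lemma I.p_pow (k : ℕ) : I p k ((p:ℚ)^k) := ⟨1, (Zp p).one_mem, by simp⟩

lemma I.cancel {k n : ℕ} {x : ℚ} (h : ¬ p ∣ n) (hx : I p k ((n:ℚ)*x)) : I p k x := by
  have hn : (n:ℚ) ≠ 0 := by
    intro h0; apply h; have : n = 0 := by exact_mod_cast h0
    rw [this]; exact dvd_zero p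
  have := I.mem_mul (inv_nat_mem (p := p) h) hx
  rwa [← mul_assoc, inv_mul_cancel₀ hn, one_mul] at this

lemma I.cancel_p {k : ℕ} {x : ℚ} (hx : I p (k+1) ((p:ℚ)*x)) : I p k x := by
  obtain ⟨a, ha, e⟩ := hx
  refine ⟨a, ha, ?_⟩
  have hp0 : (p:ℚ) ≠ 0 := by exact_mod_cast hp.out.ne_zero
  apply mul_left_cancel₀ hp0
  rw [e]; ring

/-- units congruent to one -/
lemma unit {x : ℚ} (hx : I p 1 (x-1)) : x ≠ 0 ∧ x⁻¹ ∈ Zp p ∧ I p 1 (x⁻¹ - 1) := by
  obtain ⟨y, hy, e⟩ := hx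
  have hp0 : (p:ℚ) ≠ 0 := by exact_mod_cast hp.out.ne_zero
  have hd : (y.den:ℚ) ≠ 0 := by exact_mod_cast y.den_nz
  have hyd : (y.num:ℚ)/(y.den:ℚ) = y := Rat.num_div_den y
  have hx1 : x = ((y.den:ℤ) + p * y.num : ℤ) / (y.den:ℚ) := by
    push_cast
    rw [add_div, div_self hd, mul_div_assoc, hyd]
    rw [pow_one] at e
    linarith
  have hnd : ¬ (p:ℤ) ∣ ((y.den:ℤ) + p * y.num) := by
    intro h
    have : (p:ℤ) ∣ (y.den:ℤ) := (Int.dvd_add_left (dvd_mul_right _ _)).mp h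
    exact hy (Int.natCast_dvd_natCast.mp this)
  have hn0 : (((y.den:ℤ) + p * y.num : ℤ):ℚ) ≠ 0 := by
    intro h0
    apply hnd
    have : ((y.den:ℤ) + p * y.num : ℤ) = 0 := by exact_mod_cast h0
    rw [this]; exact dvd_zero _
  have hx0 : x ≠ 0 := by rw [hx1]; exact div_ne_zero hn0 hd
  have hmem : x⁻¹ ∈ Zp p := by
    rw [hx1, inv_div, div_eq_mul_inv]
    exact (Zp p).mul_mem (nat_mem _) (inv_int_mem hnd)
  refine ⟨hx0, hmem, ?_⟩
  have : x⁻¹ - 1 = (-(x-1)) * x⁻¹ := by field_simp; ring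
  rw [this]
  exact (I.neg ⟨y, hy, e⟩).mul_mem hmem

lemma quot {a s m : ℕ} (hm : 0 < m) (h : ¬ p^(s+1) ∣ m) (hs : s ≤ a) :
    I p (a-s) ((p:ℚ)^a/(m:ℚ)) := by
  obtain ⟨v, m', hm', e⟩ := Nat.exists_eq_pow_mul_and_not_dvd hm.ne' p hp.out.ne_one
  have hv : v ≤ s := by
    by_contra hlt
    apply h
    rw [e]
    exact (pow_dvd_pow p (by omega)).trans (dvd_mul_right _ _)
  have hp0 : (p:ℚ) ≠ 0 := by exact_mod_cast hp.out.ne_zero
  have hm0 : (m':ℚ) ≠ 0 := by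
    intro h0; apply hm'; have : m' = 0 := by exact_mod_cast h0
    rw [this]; exact dvd_zero p
  refine ⟨(p:ℚ)^(s-v) * (m':ℚ)⁻¹, (Zp p).mul_mem ((Zp p).pow_mem (nat_mem p) _) (inv_nat_mem hm'), ?_⟩
  rw [e]
  push_cast
  obtain ⟨c, rfl⟩ := Nat.exists_eq_add_of_le hv
  obtain ⟨d, rfl⟩ := Nat.exists_eq_add_of_le hs
  rw [show v + c + d - (v+c) = d by omega, show v + c - v = c by omega]
  field_simp
  ring

lemma quot1 {a m : ℕ} (ha : 1 ≤ a) (hm : 0 < m) (h : m < p^a) : I p 1 ((p:ℚ)^a/(m:ℚ)) := by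
  have := quot (p := p) (a := a) (s := a-1) hm (by
    rw [show a - 1 + 1 = a by omega]
    intro hd; exact absurd (Nat.le_of_dvd hm hd) (by omega)) (by omega)
  rwa [show a - (a-1) = 1 by omega] at this

/-- product of `1 - z i` -/
lemma prod_one_sub {m : ℕ} (z : ℕ → ℚ) (R : ℕ) (hz : ∀ i < R, I p m (z i)) :
    I p (2*m) (∏ i ∈ range R, (1 - z i) - (1 - ∑ i ∈ range R, z i)) := by
  induction R with
  | zero => simpa using I.zero (2*m)
  | succ R ih =>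
    have ih' := ih (fun i hi => hz i (by omega))
    rw [prod_range_succ, sum_range_succ]
    have hs : I p m (∑ i ∈ range R, z i) := I.sum _ _ (fun i hi => hz i (by rw [mem_range] at hi; omega))
    have h1 := hz R (by omega)
    have e : (∏ i ∈ range R, (1 - z i)) * (1 - z R) - (1 - (∑ i ∈ range R, z i + z R)) =
      (∏ i ∈ range R, (1 - z i) - (1 - ∑ i ∈ range R, z i)) * (1 - z R) + (∑ i ∈ range R, z i) * z R := by ring
    rw [e]
    have h2 : (1 - z R) ∈ Zp p := (Zp p).sub_mem (Zp p).one_mem h1.mem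
    have h3 := hs.mul h1
    rw [← two_mul] at h3
    exact (ih'.mul_mem h2).add h3

lemma prod_one {k : ℕ} (f : ℕ → ℚ) (R : ℕ) (hz : ∀ i < R, I p k (f i - 1)) :
    I p k (∏ i ∈ range R, f i - 1) := by
  induction R with
  | zero => simpa using I.zero k
  | succ R ih =>
    have ih' := ih (fun i hi => hz i (by omega))
    have h1 := hz R (by omega)
    rw [prod_range_succ]
    have e : (∏ i ∈ range R, f i) * f R - 1 = (∏ i ∈ range R, f i - 1) * (f R - 1) +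
      (∏ i ∈ range R, f i - 1) + (f R - 1) := by ring
    rw [e]
    exact ((ih'.mul_mem h1.mem).add ih').add h1

end Pool.Agent.Helper857.Pad
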