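import Mathlib

set_option autoImplicit false

namespace Pool.Agent.Helper857.W

open Finset

/-- the summand without its linear factor -/
noncomputable def t (n : ℕ) : ℚ := ((2*n).choose n : ℚ)^2 * ((3*n).choose n : ℚ) / 8^n

noncomputable def rho (n j : ℕ) : ℚ :=
  -(((n:ℚ) - 2*j) * ((n:ℚ) - 2*j - 1)) / (2 * (2*(n:ℚ) - 2*j - 1) * ((n:ℚ) + j + 1))

noncomputable def h (n j : ℕ) : ℚ := t n * ∏ i ∈ range j, rho n i

noncomputable def G (n j : ℕ) : ℚ := 2 * n * ((n:ℚ) - 2*j) * h n j / (2*(n:ℚ) - 2*j - 1)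

noncomputable def F (n j : ℕ) : ℚ := (10*(n:ℚ) - 2*j + 3) * h n j

lemma t_eq (n : ℕ) : t n = ((2*n).factorial : ℚ) * ((3*n).factorial) / ((n.factorial:ℚ)^5 * 8^n) := by
  unfold t
  rw [Nat.cast_choose ℚ (show n ≤ 2*n by omega), Nat.cast_choose ℚ (show n ≤ 3*n by omega)]
  rw [show 2*n - n = n by omega, show 3*n - n = 2*n by omega]
  have h1 : (n.factorial:ℚ) ≠ 0 := by exact_mod_cast n.factorial_ne_zero
  have h2 : ((2*n).factorial:ℚ) ≠ 0 := by exact_mod_cast (2*n).factorial_ne_zero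
  field_simp

lemma t_succ (n : ℕ) : t (n+1) = t n * (3 * (2*n+1) * (3*n+1) * (3*n+2)) / (4 * ((n:ℚ)+1)^3) := by
  rw [t_eq, t_eq]
  have h1 : (n.factorial:ℚ) ≠ 0 := by exact_mod_cast n.factorial_ne_zero
  rw [show 2*(n+1) = 2*n+1+1 by ring, show 3*(n+1) = 3*n+1+1+1 by ring]
  rw [Nat.factorial_succ (2*n+1), Nat.factorial_succ (2*n), Nat.factorial_succ (3*n+1+1),
    Nat.factorial_succ (3*n+1), Nat.factorial_succ (3*n), Nat.factorial_succ n]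
  push_cast
  have h3 : (n:ℚ) + 1 ≠ 0 := by positivity
  field_simp
  ring

lemma odd_ne (n j : ℕ) : (2*(n:ℚ) - 2*j - 1) ≠ 0 := by
  intro h
  have : (2*(n:ℤ) - 2*j - 1) = 0 := by exact_mod_cast h
  omega

lemma odd_ne' (n j : ℕ) : (2*(n:ℚ) - 2*j + 1) ≠ 0 := by
  intro h
  have : (2*(n:ℤ) - 2*j + 1) = 0 := by exact_mod_cast h
  omega

lemma h_succ (n j : ℕ) : h n (j+1) = h n j * rho n j := by
  unfold h; rw [prod_range_succ]; ring

lemma kappa (n j : ℕ) : ((n:ℚ) + 1 - 2*j) * h (n+1) j =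
    (2*(n:ℚ) - 2*j + 1) * (3*n+1) * (3*n+2) * (3*n+3) / (4 * ((n:ℚ)+1)^2 * ((n:ℚ)+j+1)) * h n j := by
  induction j with
  | zero =>
    simp only [h, prod_range_zero, mul_one, t_succ]
    have h3 : (n:ℚ) + 1 ≠ 0 := by positivity
    push_cast
    simp only [mul_zero, sub_zero, add_zero]
    field_simp
  | succ j ih =>
    rw [h_succ, h_succ]
    have e1 : ((n:ℚ) + 1 - 2*((j+1:ℕ):ℚ)) * (h (n+1) j * rho (n+1) j) =
        (((n:ℚ) + 1 - 2*j) * h (n+1) j) *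
        (-((n:ℚ) - 1 - 2*j) * ((n:ℚ) - 2*j) / (2 * (2*(n:ℚ) - 2*j + 1) * ((n:ℚ) + j + 2))) := by
      unfold rho
      have := odd_ne' n j
      have h4 : (n:ℚ) + j + 2 ≠ 0 := by positivity
      have h5 : 2*(((n+1:ℕ)):ℚ) - 2*j - 1 ≠ 0 := odd_ne (n+1) j
      have h6 : (((n+1:ℕ)):ℚ) + j + 1 ≠ 0 := by positivity
      push_cast at h5 h6 ⊢
      rw [show 2 * ((n:ℚ)+1) - 2*j - 1 = 2*(n:ℚ) - 2*j + 1 by ring, show (n:ℚ)+1+j+1 = (n:ℚ)+j+2 by ring]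
      generalize hd : 2*(n:ℚ) - 2*j + 1 = d at *
      field_simp
      ring
    rw [e1, ih]
    unfold rho
    have h1 := odd_ne' n j
    have h2 := odd_ne n j
    have h3 : (n:ℚ) + 1 ≠ 0 := by positivity
    have h4 : (n:ℚ) + j + 2 ≠ 0 := by positivity
    have h5 : (n:ℚ) + j + 1 ≠ 0 := by positivity
    push_cast
    rw [show (2 * (n:ℚ) - 2 * ((j:ℚ) + 1) + 1) = 2 * (n:ℚ) - 2*j - 1 by ring,
      show (n:ℚ) + ((j:ℚ) + 1) + 1 = n + j + 2 by ring]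
    generalize hd : 2*(n:ℚ) - 2*j + 1 = d at *
    generalize he : 2*(n:ℚ) - 2*j - 1 = e at *
    field_simp
    ring

lemma wz (n j : ℕ) : G (n+1) j - G n j = F n j - F n (j+1) := by
  have e1 : G (n+1) j = 3*(3*(n:ℚ)+1)*(3*n+2)/(2*((n:ℚ)+j+1)) * h n j := by
    unfold G
    have h1 := odd_ne' n j
    have h3 : (n:ℚ) + 1 ≠ 0 := by positivity
    have h5 : (n:ℚ) + j + 1 ≠ 0 := by positivity
    have h7 : 2*(((n+1:ℕ)):ℚ) - 2*j - 1 ≠ 0 := odd_ne (n+1) j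
    have k := kappa n j
    have : 2 * ((n+1:ℕ):ℚ) * (((n+1:ℕ):ℚ) - 2*j) * h (n+1) j = 2 * ((n:ℚ)+1) * (((n:ℚ) + 1 - 2*j) * h (n+1) j) := by
      push_cast; ring
    rw [this, k]
    push_cast
    rw [show 2 * ((n:ℚ)+1) - 2*j - 1 = 2*(n:ℚ) - 2*j + 1 by ring]
    generalize hd : 2*(n:ℚ) - 2*j + 1 = d at *
    field_simp
    ring
  rw [e1]
  unfold F G
  rw [h_succ]
  unfold rho
  have h2 := odd_ne n j
  have h5 : (n:ℚ) + j + 1 ≠ 0 := by positivity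
  push_cast
  generalize he : 2*(n:ℚ) - 2*j - 1 = e at *
  field_simp
  subst he
  ring

lemma h_zero {n j : ℕ} (hj : n < 2*j) : h n j = 0 := by
  unfold h
  have : ∏ i ∈ range j, rho n i = 0 := by
    apply Finset.prod_eq_zero (i := n/2) (by rw [mem_range]; omega)
    unfold rho
    have : ((n:ℚ) - 2*((n/2:ℕ):ℚ)) * ((n:ℚ) - 2*((n/2:ℕ):ℚ) - 1) = 0 := by
      rcases Nat.even_or_odd' n with ⟨m, hm | hm⟩
      · have : n/2 = m := by omega
        rw [this, hm]; push_cast; ring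
      · have : n/2 = m := by omega
        rw [this, hm]; push_cast; ring
    rw [this]; simp
  rw [this, mul_zero]

lemma sum_G (J N : ℕ) (hN : N ≤ 2*J) :
    ∑ n ∈ range N, (10*(n:ℚ)+3) * t n = ∑ j ∈ range J, G N j := by
  induction N with
  | zero => simp [G]
  | succ N ih =>
    rw [sum_range_succ, ih (by omega)]
    have : ∑ j ∈ range J, G (N+1) j = ∑ j ∈ range J, G N j + ∑ j ∈ range J, (F N j - F N (j+1)) := by
      rw [← sum_add_distrib]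
      apply sum_congr rfl
      intro j _
      rw [← wz]; ring
    rw [this, sum_range_sub']
    unfold F
    rw [h_zero (show N < 2*J by omega)]
    unfold h
    simp

noncomputable def w (N : ℚ) (r : ℕ) : ℚ :=
  ∏ i ∈ range r, ((2*(i:ℚ)+N)*(2*i+1-3*N)/((2*i+1)*(2*i+2)))

lemma G_step (n j : ℕ) : G n (j+1) * (2 * ((n:ℚ)+j+1) * (2*(n:ℚ) - 2*j - 3)) =
    -(((n:ℚ) - 2*j - 2) * ((n:ℚ) - 2*j - 1)) * G n j := by
  unfold G
  rw [h_succ]
  unfold rho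
  have h2 := odd_ne n j
  have h3 := odd_ne n (j+1)
  have h5 : (n:ℚ) + j + 1 ≠ 0 := by positivity
  have h8 : 2*(n:ℚ) - 2*j - 3 ≠ 0 := by
    push_cast at h3; intro h; apply h3; linarith
  push_cast
  rw [show 2*(n:ℚ) - 2*((j:ℚ)+1) - 1 = 2*(n:ℚ) - 2*j - 3 by ring]
  generalize he : 2*(n:ℚ) - 2*j - 1 = e at *
  generalize hf : 2*(n:ℚ) - 2*j - 3 = f at *
  field_simp
  ring

lemma G_rev (R r : ℕ) (hr : r ≤ R) : G (2*R+1) (R - r) = G (2*R+1) R * w ((2*R+1:ℕ):ℚ) r := by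
  induction r with
  | zero => simp [w]
  | succ r ih =>
    have ih' := ih (by omega)
    obtain ⟨j, hj⟩ : ∃ j, R = j + r + 1 := ⟨R - r - 1, by omega⟩
    have e1 : R - r = j + 1 := by omega
    have e2 : R - (r+1) = j := by omega
    rw [e1] at ih'
    rw [e2]
    have s := G_step (2*R+1) j
    have hw : w ((2*R+1:ℕ):ℚ) (r+1) = w ((2*R+1:ℕ):ℚ) r *
        ((2*(r:ℚ)+((2*R+1:ℕ):ℚ))*(2*r+1-3*((2*R+1:ℕ):ℚ))/((2*r+1)*(2*r+2))) := by
      unfold w; rw [prod_range_succ]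
    rw [hw]
    rw [← mul_assoc, ← ih']
    have h1 : (2*(r:ℚ)+1) ≠ 0 := by positivity
    have h2 : (2*(r:ℚ)+2) ≠ 0 := by positivity
    rw [mul_div_assoc', eq_div_iff (mul_ne_zero h1 h2)]
    have hR : (R:ℚ) = j + r + 1 := by rw [hj]; push_cast; ring
    push_cast at s ⊢
    rw [hR] at s ⊢
    linear_combination s

lemma S_eq (R : ℕ) : ∑ n ∈ range (2*R+1), (10*(n:ℚ)+3) * t n =
    G (2*R+1) R * ∑ r ∈ range (R+1), w ((2*R+1:ℕ):ℚ) r := by
  rw [sum_G (R+1) (2*R+1) (by omega), ← sum_range_reflect, mul_sum]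
  apply sum_congr rfl
  intro r hr
  rw [mem_range] at hr
  rw [← G_rev R r (by omega)]
  congr 1

end Pool.Agent.Helper857.W
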