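import Pool.Agent.Helper857.W1

set_option autoImplicit false

namespace Pool.Agent.Helper857.W

open Finset

noncomputable def od (n : ℕ) : ℚ := ∏ i ∈ range n, (2*(i:ℚ)+1)

lemma od_pos (n : ℕ) : 0 < od n := by
  unfold od; apply prod_pos; intro i _; positivity

lemma od_ne (n : ℕ) : od n ≠ 0 := (od_pos n).ne'

lemma od_succ (n : ℕ) : od (n+1) = od n * (2*(n:ℚ)+1) := by
  unfold od; rw [prod_range_succ]

lemma od_fact (n : ℕ) : ((2*n).factorial : ℚ) = 2^n * n.factorial * od n := by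
  induction n with
  | zero => simp [od]
  | succ n ih =>
    rw [show 2*(n+1) = 2*n+1+1 by ring, Nat.factorial_succ, Nat.factorial_succ, Nat.factorial_succ, od_succ]
    push_cast
    rw [ih]; ring

lemma od_fact' (n : ℕ) : ((2*n+1).factorial : ℚ) = 2^n * n.factorial * od (n+1) := by
  rw [Nat.factorial_succ, od_succ]
  push_cast
  rw [od_fact]; ring

lemma od_shift (s m : ℕ) : ∏ i ∈ range m, (2*((s:ℚ)+i)+1) = od (s+m) / od s := by
  rw [eq_div_iff (od_ne s)]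
  unfold od
  rw [prod_range_add, mul_comm]
  push_cast
  rfl

lemma fact_shift (n m : ℕ) : (n.factorial:ℚ) * ∏ i ∈ range m, ((n:ℚ)+i+1) = ((n+m).factorial:ℚ) := by
  induction m with
  | zero => simp
  | succ m ih =>
    rw [prod_range_succ, ← mul_assoc, ih, ← Nat.add_assoc, Nat.factorial_succ]
    push_cast; ring

lemma refl_prod (R : ℕ) (f g : ℕ → ℚ) (hfg : ∀ i k, i + k + 1 = R → f i = g k) :
    ∏ i ∈ range R, f i = ∏ i ∈ range R, g i := by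
  rw [← prod_range_reflect]
  apply prod_congr rfl
  intro i hi
  rw [mem_range] at hi
  exact hfg _ _ (by omega)

lemma p1 (R : ℕ) : ∏ i ∈ range R, ((((2*R+1:ℕ):ℚ) - 2*i) * (((2*R+1:ℕ):ℚ) - 2*i - 1)) = ((2*R+1).factorial:ℚ) := by
  rw [refl_prod R _ (fun k => (2*(k:ℚ)+3)*(2*k+2))]
  · induction R with
    | zero => simp
    | succ R ih =>
      rw [prod_range_succ, ih, show 2*(R+1)+1 = 2*R+1+1+1 by ring, Nat.factorial_succ (2*R+1+1),
        Nat.factorial_succ (2*R+1)]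
      push_cast; ring
  · intro i k hik
    subst hik
    push_cast; ring

lemma p2 (R : ℕ) : ∏ i ∈ range R, (2*((2*R+1:ℕ):ℚ) - 2*i - 1) = od (2*R+1) / od (R+1) := by
  rw [refl_prod R _ (fun k => 2*(((R+1:ℕ):ℚ)+k)+1)]
  · rw [od_shift]; congr 2; ring
  · intro i k hik
    subst hik
    push_cast; ring

lemma p3 (R : ℕ) : ((2*R+1).factorial:ℚ) * ∏ i ∈ range R, (((2*R+1:ℕ):ℚ) + i + 1) = ((3*R+1).factorial:ℚ) := by
  rw [fact_shift]; congr 2; ring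

lemma p4 (R : ℕ) : (R.factorial:ℚ) * ∏ i ∈ range R, (2*(i:ℚ)+1+((2*R+1:ℕ):ℚ)) = 2^R * ((2*R).factorial:ℚ) := by
  have : ∏ i ∈ range R, (2*(i:ℚ)+1+((2*R+1:ℕ):ℚ)) = 2^R * ∏ i ∈ range R, ((R:ℚ)+i+1) := by
    have h2 : (2:ℚ)^R = ∏ i ∈ range R, (2:ℚ) := by simp
    rw [h2, ← prod_mul_distrib]
    apply prod_congr rfl
    intro i _; push_cast; ring
  rw [this]
  have := fact_shift R R
  rw [show R + R = 2*R by ring] at this
  rw [← this]; ring

lemma p5 (R : ℕ) : ∏ i ∈ range R, (2*(i:ℚ)+1+2*((2*R+1:ℕ):ℚ)) = od (3*R+1) / od (2*R+1) := by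
  have := od_shift (2*R+1) R
  rw [show 2*R+1+R = 3*R+1 by ring] at this
  rw [← this]
  apply prod_congr rfl
  intro i _; push_cast; ring

lemma p6 (R : ℕ) : ∏ k ∈ range R, (1 - ((2*R+1:ℕ):ℚ)^2/(2*(k:ℚ)+2)^2) =
    (-1)^R * od R * (od (2*R+1) / od (R+1)) / (2^R * R.factorial)^2 := by
  have e1 : ∏ k ∈ range R, (1 - ((2*R+1:ℕ):ℚ)^2/(2*(k:ℚ)+2)^2) =
      (∏ k ∈ range R, (2*(k:ℚ)+2-((2*R+1:ℕ):ℚ))) * (∏ k ∈ range R, (2*(k:ℚ)+2+((2*R+1:ℕ):ℚ))) /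
        (∏ k ∈ range R, (2*(k:ℚ)+2))^2 := by
    rw [← prod_pow, ← prod_mul_distrib, ← prod_div_distrib]
    apply prod_congr rfl
    intro k _
    have : (2*(k:ℚ)+2) ≠ 0 := by positivity
    field_simp
    ring
  rw [e1]
  have e2 : ∏ k ∈ range R, (2*(k:ℚ)+2-((2*R+1:ℕ):ℚ)) = (-1)^R * od R := by
    rw [refl_prod R _ (fun k => (-1) * (2*(k:ℚ)+1))]
    · rw [prod_mul_distrib]; simp [od]
    · intro i k hik
      subst hik
      push_cast; ring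
  have e3 : ∏ k ∈ range R, (2*(k:ℚ)+2+((2*R+1:ℕ):ℚ)) = od (2*R+1) / od (R+1) := by
    have := od_shift (R+1) R
    rw [show R+1+R = 2*R+1 by ring] at this
    rw [← this]
    apply prod_congr rfl
    intro i _; push_cast; ring
  have e4 : ∏ k ∈ range R, (2*(k:ℚ)+2) = 2^R * R.factorial := by
    have h2 : (2:ℚ)^R = ∏ i ∈ range R, (2:ℚ) := by simp
    have h3 := fact_shift 0 R
    simp only [Nat.factorial_zero, Nat.cast_one, one_mul, Nat.cast_zero, zero_add] at h3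
    rw [h2, ← h3, ← prod_mul_distrib]
    apply prod_congr rfl
    intro i _; ring
  rw [e2, e3, e4]

lemma closed (R : ℕ) : 2 * h (2*R+1) R / ((2*R+1:ℕ):ℚ) *
    ∏ i ∈ range R, ((2*(i:ℚ)+1+((2*R+1:ℕ):ℚ))/(2*(i:ℚ)+1+2*((2*R+1:ℕ):ℚ))) =
    3 * ∏ k ∈ range R, (1 - ((2*R+1:ℕ):ℚ)^2/(2*(k:ℚ)+2)^2) := by
  have hrho : ∏ i ∈ range R, rho (2*R+1) i = (-1)^R * ((2*R+1).factorial:ℚ) /
      (2^R * (od (2*R+1) / od (R+1)) * (((3*R+1).factorial:ℚ) / ((2*R+1).factorial:ℚ))) := by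
    have h1 : ((2*R+1).factorial:ℚ) ≠ 0 := by exact_mod_cast (2*R+1).factorial_ne_zero
    have e : (((3*R+1).factorial:ℚ) / ((2*R+1).factorial:ℚ)) = ∏ i ∈ range R, (((2*R+1:ℕ):ℚ) + i + 1) := by
      rw [← p3]; field_simp
    rw [e, ← p1, ← p2]
    have h2 : (2:ℚ)^R = ∏ i ∈ range R, (2:ℚ) := by simp
    have h3 : (-1:ℚ)^R = ∏ i ∈ range R, (-1:ℚ) := by simp
    rw [h2, h3, ← prod_mul_distrib, ← prod_mul_distrib, ← prod_mul_distrib, ← prod_div_distrib]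
    apply prod_congr rfl
    intro i _
    unfold rho
    ring
  unfold h
  rw [hrho, p6, prod_div_distrib, p5]
  have hp4 : ∏ i ∈ range R, (2*(i:ℚ)+1+((2*R+1:ℕ):ℚ)) = 2^R * ((2*R).factorial:ℚ) / (R.factorial:ℚ) := by
    have h1 : (R.factorial:ℚ) ≠ 0 := by exact_mod_cast R.factorial_ne_zero
    rw [← p4]; field_simp
  rw [hp4, t_eq]
  have f1 : ((2*(2*R+1)).factorial : ℚ) = 2^(2*R+1) * (2*R+1).factorial * od (2*R+1) := od_fact _
  have f2 : ((3*(2*R+1)).factorial : ℚ) = (6*(R:ℚ)+3) * (2^(3*R+1) * (3*R+1).factorial * od (3*R+1)) := by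
    rw [← od_fact, show 3*(2*R+1) = 2*(3*R+1)+1 by ring, Nat.factorial_succ]
    push_cast; ring
  rw [f1, f2, od_fact' R, od_fact R, od_succ R]
  have g1 : ((3*R+1).factorial:ℚ) ≠ 0 := by exact_mod_cast (3*R+1).factorial_ne_zero
  have g2 : (R.factorial:ℚ) ≠ 0 := by exact_mod_cast R.factorial_ne_zero
  have g3 := od_ne R
  have g4 := od_ne (2*R+1)
  have g5 := od_ne (3*R+1)
  have g6 : (2:ℚ)^R ≠ 0 := by positivity
  have g7 : (2*(R:ℚ)+1) ≠ 0 := by positivity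
  have q1 : (2:ℚ)^(2*R+1) = 2 * (2^R)^2 := by rw [pow_succ, pow_mul, ← pow_mul, mul_comm 2 R, pow_mul]; ring
  have q2 : (2:ℚ)^(3*R+1) = 2 * (2^R)^3 := by rw [pow_succ, mul_comm 3 R, pow_mul]; ring
  have q3 : (8:ℚ)^(2*R+1) = 8 * (2^R)^6 := by
    rw [show (8:ℚ) = 2^3 by norm_num, ← pow_mul, show 3*(2*R+1) = R*6+3 by ring, pow_add, pow_mul]; ring
  rw [q1, q2, q3]
  push_cast
  generalize (2:ℚ)^R = x at *
  generalize od R = y at *
  generalize od (2*R+1) = z at *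
  generalize od (3*R+1) = u at *
  generalize ((3*R+1).factorial:ℚ) = v at *
  generalize (R.factorial:ℚ) = s at *
  generalize (-1:ℚ)^R = m at *
  field_simp
  ring

end Pool.Agent.Helper857.W
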