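import Pool.Agent.Helper857.W2

set_option autoImplicit false

namespace Pool.Agent.Helper857.W

open Finset

lemma cv (R : ℕ) : ∀ (a c : ℚ), (∀ i : ℕ, c + i ≠ 0) →
    ∑ r ∈ range (R+1), (-1)^r * (R.choose r : ℚ) * ((∏ i ∈ range r, (a+i)) / (∏ i ∈ range r, (c+i))) =
      (∏ i ∈ range R, (c-a+i)) / ∏ i ∈ range R, (c+i) := by
  induction R with
  | zero => intro a c _; simp
  | succ R ih =>
    intro a c hc
    have hc' : ∀ i : ℕ, c + 1 + i ≠ 0 := by
      intro i; have := hc (i+1); push_cast at this; rwa [add_assoc, add_comm 1 (i:ℚ)]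
    have i1 := ih a c hc
    have i2 := ih (a+1) (c+1) hc'
    rw [sum_range_succ'] 
    have e1 : ∀ r ∈ range (R+1), (-1:ℚ)^(r+1) * ((R+1).choose (r+1) : ℚ) *
        ((∏ i ∈ range (r+1), (a+i)) / (∏ i ∈ range (r+1), (c+i))) =
        (-1:ℚ)^(r+1) * (R.choose (r+1) : ℚ) * ((∏ i ∈ range (r+1), (a+i)) / (∏ i ∈ range (r+1), (c+i))) +
        -(a/c) * ((-1)^r * (R.choose r : ℚ) * ((∏ i ∈ range r, (a+1+i)) / (∏ i ∈ range r, (c+1+i)))) := by
      intro r _
      rw [Nat.choose_succ_succ]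
      push_cast
      have e2 : ∏ i ∈ range (r+1), (a+(i:ℚ)) = a * ∏ i ∈ range r, (a+1+(i:ℚ)) := by
        rw [prod_range_succ']; push_cast
        rw [mul_comm]; congr 1
        · ring
        · apply prod_congr rfl; intro i _; ring
      have e3 : ∏ i ∈ range (r+1), (c+(i:ℚ)) = c * ∏ i ∈ range r, (c+1+(i:ℚ)) := by
        rw [prod_range_succ']; push_cast
        rw [mul_comm]; congr 1
        · ring
        · apply prod_congr rfl; intro i _; ring
      have h0 : c ≠ 0 := by simpa using hc 0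
      have h1 : ∏ i ∈ range r, (c+1+(i:ℚ)) ≠ 0 := prod_ne_zero_iff.mpr (fun i _ => hc' i)
      rw [e2, e3]
      field_simp
      ring
    rw [sum_congr rfl e1, sum_add_distrib, ← mul_sum, i2]
    have e4 : ∑ r ∈ range (R+1), (-1:ℚ)^(r+1) * (R.choose (r+1) : ℚ) *
        ((∏ i ∈ range (r+1), (a+i)) / (∏ i ∈ range (r+1), (c+i))) = 
        (∏ i ∈ range R, (c-a+i)) / ∏ i ∈ range R, (c+i) - 1 := by
      have i1' := i1
      rw [sum_range_succ'] at i1'
      rw [sum_range_succ, Nat.choose_succ_self]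
      simp only [pow_zero, Nat.choose_zero_right, Nat.cast_one, range_zero, prod_empty, div_one, mul_one] at i1'
      rw [← i1']
      simp
    rw [e4]
    have e5 : ∏ i ∈ range (R+1), (c+(i:ℚ)) = c * ∏ i ∈ range R, (c+1+(i:ℚ)) := by
      rw [prod_range_succ']; push_cast
      rw [mul_comm]; congr 1
      · ring
      · apply prod_congr rfl; intro i _; ring
    have e6 : ∏ i ∈ range R, (c + 1 - (a+1) + (i:ℚ)) = ∏ i ∈ range R, (c - a + (i:ℚ)) := by
      apply prod_congr rfl; intro i _; ring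
    rw [e6]
    have h0 : c ≠ 0 := by simpa using hc 0
    have h1 : ∏ i ∈ range R, (c+1+(i:ℚ)) ≠ 0 := prod_ne_zero_iff.mpr (fun i _ => hc' i)
    have h2 : ∏ i ∈ range R, (c+(i:ℚ)) ≠ 0 := prod_ne_zero_iff.mpr (fun i _ => hc i)
    have h3 := hc R
    have e7 : c * ∏ i ∈ range R, (c+1+(i:ℚ)) = (∏ i ∈ range R, (c+(i:ℚ))) * (c+R) := by
      rw [← e5, prod_range_succ]
    have e8 : ∏ i ∈ range R, (c+1+(i:ℚ)) = (∏ i ∈ range R, (c+(i:ℚ))) * (c+R) / c := by
      rw [← e7]; field_simp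
    rw [prod_range_succ, prod_range_succ, e8]
    simp only [pow_zero, Nat.choose_zero_right, Nat.cast_one, range_zero, prod_empty]
    field_simp
    ring

lemma choose_prod (R r : ℕ) (hr : r ≤ R) :
    ∏ i ∈ range r, (((i:ℚ) - R)/((i:ℚ)+1)) = (-1)^r * (R.choose r : ℚ) := by
  induction r with
  | zero => simp
  | succ r ih =>
    rw [prod_range_succ, ih (by omega)]
    have h1 := Nat.choose_succ_right_eq R r
    have h2 : (R.choose (r+1) : ℚ) * ((r:ℚ)+1) = R.choose r * ((R:ℚ) - r) := by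
      have : ((R - r : ℕ):ℚ) = (R:ℚ) - r := by push_cast [Nat.cast_sub (show r ≤ R by omega)]; ring
      rw [← this]; exact_mod_cast h1
    have h3 : (r:ℚ)+1 ≠ 0 := by positivity
    have h4 : (R.choose (r+1) : ℚ) = R.choose r * ((R:ℚ) - r) / ((r:ℚ)+1) := by
      rw [← h2]; field_simp
    rw [h4, pow_succ]
    field_simp
    ring

noncomputable def w' (N : ℚ) (r : ℕ) : ℚ :=
  ∏ i ∈ range r, ((2*(i:ℚ)+N)*(2*i+1-N)/((2*i+1+2*N)*(2*i+2)))

lemma sum_w' (R : ℕ) : ∑ r ∈ range (R+1), w' ((2*R+1:ℕ):ℚ) r =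
    ∏ i ∈ range R, ((2*(i:ℚ)+1+((2*R+1:ℕ):ℚ))/(2*(i:ℚ)+1+2*((2*R+1:ℕ):ℚ))) := by
  set N : ℚ := ((2*R+1:ℕ):ℚ) with hN
  have hNpos : 0 < N := by rw [hN]; positivity
  have := cv R (N/2) (1/2+N) (by intro i; positivity)
  have e1 : (∏ i ∈ range R, (1/2+N-N/2+(i:ℚ))) / ∏ i ∈ range R, (1/2+N+(i:ℚ)) =
      ∏ i ∈ range R, ((2*(i:ℚ)+1+N)/(2*(i:ℚ)+1+2*N)) := by
    rw [← prod_div_distrib]
    apply prod_congr rfl
    intro i _
    have : 1/2+N+(i:ℚ) ≠ 0 := by positivity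
    have : 2*(i:ℚ)+1+2*N ≠ 0 := by positivity
    field_simp
    ring
  rw [← e1, ← this]
  apply sum_congr rfl
  intro r hr
  rw [mem_range] at hr
  rw [← choose_prod R r (by omega), ← prod_div_distrib, ← prod_mul_distrib]
  unfold w'
  apply prod_congr rfl
  intro i _
  have h1 : 1/2+N+(i:ℚ) ≠ 0 := by positivity
  have h2 : 2*(i:ℚ)+1+2*N ≠ 0 := by positivity
  have h3 : (i:ℚ)+1 ≠ 0 := by positivity
  have h4 : 2*(i:ℚ)+2 ≠ 0 := by positivity
  have h5 : (R:ℚ) = (N-1)/2 := by rw [hN]; push_cast; ring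
  rw [h5]
  field_simp
  ring

end Pool.Agent.Helper857.W
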