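import Pool.Agent.Helper857.W3
import Pool.Agent.Helper857.Pad

set_option autoImplicit false

namespace Pool.Agent.Helper857.W

open Finset Pad

variable {p : ℕ} [hp : Fact p.Prime]

noncomputable def yy (N : ℚ) (i : ℕ) : ℚ := N/(2*(i:ℚ)+1)
noncomputable def AA (N : ℚ) (r : ℕ) : ℚ := ∏ i ∈ range r, (1 - 3 * yy N i)
noncomputable def BB (N : ℚ) (r : ℕ) : ℚ := ∏ i ∈ range r, ((1 - yy N i)/(1 + 2 * yy N i))
noncomputable def WW (N : ℚ) (r : ℕ) : ℚ := ∏ i ∈ range r, ((2*(i:ℚ)+N)/(2*(i:ℚ)+2))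
noncomputable def QQ (N : ℚ) (r : ℕ) : ℚ := ∑ i ∈ range r, (yy N i)^2

lemma w_eq (N : ℚ) (r : ℕ) : w N r = WW N r * AA N r := by
  unfold w WW AA yy
  rw [← prod_mul_distrib]
  apply prod_congr rfl
  intro i _
  have h1 : 2*(i:ℚ)+1 ≠ 0 := by positivity
  have h2 : 2*(i:ℚ)+2 ≠ 0 := by positivity
  field_simp

lemma w'_eq (N : ℚ) (hN : 0 < N) (r : ℕ) : w' N r = WW N r * BB N r := by
  unfold w' WW BB yy
  rw [← prod_mul_distrib]
  apply prod_congr rfl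
  intro i _
  have h1 : 2*(i:ℚ)+1 ≠ 0 := by positivity
  have h2 : 2*(i:ℚ)+2 ≠ 0 := by positivity
  have h3 : 2*(i:ℚ)+1+2*N ≠ 0 := by positivity
  have h4 : 1 + 2*(N/(2*(i:ℚ)+1)) ≠ 0 := by positivity
  field_simp

lemma yy_I {a R : ℕ} (ha : 1 ≤ a) (hN : 2*R+1 = p^a) {i : ℕ} (hi : i < R) :
    I p 1 (yy ((2*R+1:ℕ):ℚ) i) := by
  have := quot1 (p := p) ha (show 0 < 2*i+1 by omega) (by rw [← hN]; omega)
  unfold yy
  rw [hN]
  push_cast at this ⊢
  exact this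

lemma AB {N : ℚ} {R : ℕ} (hy : ∀ i < R, I p 1 (yy N i)) (r : ℕ) (hr : r ≤ R) :
    I p 2 (AA N r - BB N r) ∧ I p 3 (AA N r - BB N r + 6 * QQ N r) ∧ I p 1 (BB N r - 1) := by
  induction r with
  | zero => simp [AA, BB, QQ]; exact ⟨I.zero 2, I.zero 3, I.zero 1⟩
  | succ r ih =>
    obtain ⟨h1, h2, h3⟩ := ih (by omega)
    have y1 := hy r (by omega)
    set y := yy N r with hyd
    have u1 : I p 1 ((1 + 2*y) - 1) := by
      have : (1 + 2*y) - 1 = 2 * y := by ring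
      rw [this]; exact I.mem_mul (by exact_mod_cast nat_mem 2) y1
    obtain ⟨n0, m0, i0⟩ := unit u1
    have eA : AA N (r+1) = AA N r * (1 - 3*y) := by unfold AA; rw [prod_range_succ]
    have eB : BB N (r+1) = BB N r * ((1 - y) * (1+2*y)⁻¹) := by unfold BB; rw [prod_range_succ]; rfl
    have eQ : QQ N (r+1) = QQ N r + y^2 := by unfold QQ; rw [sum_range_succ]
    have hinv : (1+2*y)*(1+2*y)⁻¹ = 1 := mul_inv_cancel₀ n0
    have key : (1 - 3*y) - (1-y)*(1+2*y)⁻¹ = -6*y^2*(1+2*y)⁻¹ := by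
      linear_combination (-(1-3*y)) * hinv
    have mB : BB N r ∈ Zp p := by
      have := (Zp p).add_mem h3.mem (Zp p).one_mem
      simpa using this
    have m3 : (1 - 3*y) ∈ Zp p :=
      (Zp p).sub_mem (Zp p).one_mem (I.mem_mul (by exact_mod_cast nat_mem 3) y1).mem
    have yy2 : I p 2 (y^2) := by simpa using y1.pow 2
    have e1 : AA N (r+1) - BB N (r+1) = (AA N r - BB N r) * (1 - 3*y) + y^2 * (-6 * BB N r * (1+2*y)⁻¹) := by
      rw [eA, eB]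
      linear_combination (BB N r) * key
    have m6 : (-6:ℚ) ∈ Zp p := by exact_mod_cast int_mem (-6)
    refine ⟨?_, ?_, ?_⟩
    · rw [e1]
      exact (h1.mul_mem m3).add (yy2.mul_mem ((Zp p).mul_mem ((Zp p).mul_mem m6 mB) m0))
    · have e2 : AA N (r+1) - BB N (r+1) + 6 * QQ N (r+1) =
          (AA N r - BB N r + 6 * QQ N r) + (AA N r - BB N r) * ((-3) * y) +
            y^2 * (-6 * ((BB N r - 1) * (1+2*y)⁻¹ + ((1+2*y)⁻¹ - 1))) := by
        rw [e1, eQ]; ring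
      rw [e2]
      have t1 : I p 3 ((AA N r - BB N r) * ((-3) * y)) :=
        h1.mul (I.mem_mul (by exact_mod_cast int_mem (-3)) y1)
      have t2 : I p 3 (y^2 * (-6 * ((BB N r - 1) * (1+2*y)⁻¹ + ((1+2*y)⁻¹ - 1)))) :=
        yy2.mul (I.mem_mul m6 ((h3.mul_mem m0).add i0))
      exact (h2.add t1).add t2
    · rw [eB]
      have e3 : BB N r * ((1 - y) * (1+2*y)⁻¹) - 1 =
        (BB N r - 1) * ((1 - y) * (1+2*y)⁻¹) + (-y) * (1+2*y)⁻¹ + ((1+2*y)⁻¹ - 1) := by ring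
      rw [e3]
      have m1 : (1 - y) ∈ Zp p := (Zp p).sub_mem (Zp p).one_mem y1.mem
      exact ((h3.mul_mem ((Zp p).mul_mem m1 m0)).add (y1.neg.mul_mem m0)).add i0

lemma WW_succ (N : ℚ) (r : ℕ) : WW N (r+1) = N/(2*((r:ℚ)+1)) * ∏ i ∈ range r, (1 + N/(2*((i:ℚ)+1))) := by
  induction r with
  | zero => simp [WW]
  | succ r ih =>
    have : WW N (r+1+1) = WW N (r+1) * ((2*((r+1:ℕ):ℚ)+N)/(2*((r+1:ℕ):ℚ)+2)) := by
      unfold WW; rw [prod_range_succ]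
    rw [this, ih, prod_range_succ]
    push_cast
    have h1 : (r:ℚ)+1 ≠ 0 := by positivity
    have h2 : (r:ℚ)+1+1 ≠ 0 := by positivity
    have h3 : 2*((r:ℚ)+1)+2 ≠ 0 := by positivity
    field_simp

lemma ev_I {a R : ℕ} (ha : 1 ≤ a) (hN : 2*R+1 = p^a) {i : ℕ} (hi : i < R) :
    I p 1 (((2*R+1:ℕ):ℚ)/(2*((i:ℚ)+1))) := by
  have := quot1 (p := p) ha (show 0 < 2*(i+1) by omega) (by rw [← hN]; omega)
  rw [hN]
  push_cast at this ⊢
  exact this

/-- the quotient of the sum -/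
noncomputable def TT (R : ℕ) : ℚ := (∑ n ∈ range (2*R+1), (10*(n:ℚ)+3) * t n) / ((2*R+1:ℕ):ℚ)

lemma main1 {a R : ℕ} (ha : 1 ≤ a) (hN : 2*R+1 = p^a) :
    I p 4 (TT R / 3 - (1 - ∑ k ∈ range R, (((2*R+1:ℕ):ℚ)/(2*((k:ℚ)+1)))^2
      - 6 * ∑ r ∈ range R, (((2*R+1:ℕ):ℚ)/(2*((r:ℚ)+1))) * QQ ((2*R+1:ℕ):ℚ) (r+1))) := by
  set N : ℚ := ((2*R+1:ℕ):ℚ) with hNd
  have hNpos : 0 < N := by rw [hNd]; positivity
  have hy : ∀ i < R, I p 1 (yy N i) := fun i hi => yy_I ha hN hi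
  have hG : G (2*R+1) R = 2 * h (2*R+1) R := by
    unfold G
    rw [← hNd]
    have : 2 * N - 2*(R:ℚ) - 1 = N := by rw [hNd]; push_cast; ring
    rw [this]
    have : N - 2*(R:ℚ) = 1 := by rw [hNd]; push_cast; ring
    rw [this]
    field_simp
  have hT : TT R = (2 * h (2*R+1) R / N) * ∑ r ∈ range (R+1), w N r := by
    unfold TT
    rw [S_eq, hG]
    ring
  set c := 2 * h (2*R+1) R / N with hc
  set P := ∏ k ∈ range R, (1 - N^2/(2*(k:ℚ)+2)^2) with hP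
  have hcl : c * (∑ r ∈ range (R+1), w' N r) = 3 * P := by
    rw [sum_w', hc, hP]; exact closed R
  have hP' : (∑ r ∈ range (R+1), w' N r) = ∏ i ∈ range R, ((1 + yy N i)/(1 + 2 * yy N i)) := by
    rw [sum_w']
    apply prod_congr rfl
    intro i _
    unfold yy
    rw [← hNd]
    have h1 : 2*(i:ℚ)+1 ≠ 0 := by positivity
    have h3 : 2*(i:ℚ)+1+2*N ≠ 0 := by positivity
    have h4 : 1 + 2*(N/(2*(i:ℚ)+1)) ≠ 0 := by positivity
    field_simp
  set F' := ∑ r ∈ range (R+1), w' N r with hF'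
  have hF'1 : I p 1 (F' - 1) := by
    rw [hP']
    apply prod_one
    intro i hi
    have y1 := hy i hi
    have u1 : I p 1 ((1 + 2*yy N i) - 1) := by
      have : (1 + 2*yy N i) - 1 = 2 * yy N i := by ring
      rw [this]; exact I.mem_mul (by exact_mod_cast nat_mem 2) y1
    obtain ⟨n0, m0, i0⟩ := unit u1
    have hinv : (1+2*yy N i)*(1+2*yy N i)⁻¹ = 1 := mul_inv_cancel₀ n0
    have : (1 + yy N i)/(1 + 2 * yy N i) - 1 = (-yy N i) * (1 + 2*yy N i)⁻¹ := by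
      rw [div_eq_mul_inv]
      linear_combination hinv
    rw [this]
    exact y1.neg.mul_mem m0
  have hz : ∀ k < R, I p 2 (N^2/(2*(k:ℚ)+2)^2) := by
    intro k hk
    have := (ev_I (p := p) ha hN hk).pow 2
    rw [show 1*2 = 2 by norm_num, div_pow] at this
    have e : (2*((k:ℚ)+1)) = 2*(k:ℚ)+2 := by ring
    rwa [e] at this
  have hP4 : I p 4 (P - (1 - ∑ k ∈ range R, N^2/(2*(k:ℚ)+2)^2)) := by
    have := prod_one_sub (p := p) (m := 2) (fun k => N^2/(2*(k:ℚ)+2)^2) R hz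
    exact this
  have hP1 : I p 1 (P - 1) := by
    rw [hP]
    apply prod_one
    intro k hk
    have : 1 - N^2/(2*(k:ℚ)+2)^2 - 1 = -(N^2/(2*(k:ℚ)+2)^2) := by ring
    rw [this]
    exact (hz k hk).neg.mono (by norm_num)
  obtain ⟨nF, mF, iF⟩ := unit hF'1
  have hc3 : c / 3 = P * F'⁻¹ := by
    field_simp
    linarith [hcl]
  have hc1 : I p 1 (c/3 - 1) := by
    rw [hc3]
    have : P * F'⁻¹ - 1 = (P - 1) * F'⁻¹ + (F'⁻¹ - 1) := by ring
    rw [this]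
    exact (hP1.mul_mem mF).add iF
  -- the difference
  set D := ∑ r ∈ range (R+1), w N r - F' with hD
  have hD1 : D = ∑ r ∈ range R, WW N (r+1) * (AA N (r+1) - BB N (r+1)) := by
    rw [hD, hF', ← sum_sub_distrib, sum_range_succ']
    have : w N 0 - w' N 0 = 0 := by simp [w, w']
    rw [this, add_zero]
    apply sum_congr rfl
    intro r _
    rw [w_eq, w'_eq N hNpos]; ring
  have hterm : ∀ r < R, I p 4 (WW N (r+1) * (AA N (r+1) - BB N (r+1)) + 6 * (N/(2*((r:ℚ)+1)) * QQ N (r+1))) ∧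
      I p 3 (WW N (r+1) * (AA N (r+1) - BB N (r+1))) := by
    intro r hr
    obtain ⟨h1, h2, h3⟩ := AB (p := p) hy (r+1) (by omega)
    have hU : I p 1 (∏ i ∈ range r, (1 + N/(2*((i:ℚ)+1))) - 1) := by
      apply prod_one
      intro i hi
      have h9 := ev_I (p := p) ha hN (show i < R by omega)
      have e9 : (1 + N/(2*((i:ℚ)+1))) - 1 = N/(2*((i:ℚ)+1)) := by ring
      rw [e9]
      exact h9
    have hU' : ∏ i ∈ range r, (1 + N/(2*((i:ℚ)+1))) ∈ Zp p := by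
      have := (Zp p).add_mem hU.mem (Zp p).one_mem
      simpa using this
    have he := ev_I (p := p) ha hN hr
    rw [WW_succ]
    constructor
    · have e : N/(2*((r:ℚ)+1)) * (∏ i ∈ range r, (1 + N/(2*((i:ℚ)+1)))) * (AA N (r+1) - BB N (r+1)) +
          6 * (N/(2*((r:ℚ)+1)) * QQ N (r+1)) =
          N/(2*((r:ℚ)+1)) * ((∏ i ∈ range r, (1 + N/(2*((i:ℚ)+1))) - 1) * (AA N (r+1) - BB N (r+1)) +
            (AA N (r+1) - BB N (r+1) + 6 * QQ N (r+1))) := by ring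
      rw [e]
      exact he.mul ((hU.mul h1).add h2)
    · rw [mul_assoc]
      exact he.mul (I.mem_mul hU' h1)
  have hD4 : I p 4 (D + 6 * ∑ r ∈ range R, N/(2*((r:ℚ)+1)) * QQ N (r+1)) := by
    rw [hD1, mul_sum, ← sum_add_distrib]
    exact I.sum _ _ (fun r hr => (hterm r (by simpa using hr)).1)
  have hD3 : I p 3 D := by
    rw [hD1]
    exact I.sum _ _ (fun r hr => (hterm r (by simpa using hr)).2)
  have hfin : TT R / 3 - (1 - ∑ k ∈ range R, (N/(2*((k:ℚ)+1)))^2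
      - 6 * ∑ r ∈ range R, (N/(2*((r:ℚ)+1))) * QQ N (r+1)) =
      (P - (1 - ∑ k ∈ range R, N^2/(2*(k:ℚ)+2)^2)) + (c/3 - 1) * D +
      (D + 6 * ∑ r ∈ range R, N/(2*((r:ℚ)+1)) * QQ N (r+1)) := by
    have e1 : ∑ k ∈ range R, (N/(2*((k:ℚ)+1)))^2 = ∑ k ∈ range R, N^2/(2*(k:ℚ)+2)^2 := by
      apply sum_congr rfl
      intro k _
      rw [div_pow]; congr 2; ring
    have e2 : TT R / 3 = P + (c/3) * D := by
      rw [hT, hD]
      have : c * F' = 3 * P := hcl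
      linear_combination (1/3) * this
    rw [e1, e2]; ring
  rw [hfin]
  have hcD : I p 4 ((c/3 - 1) * D) := hc1.mul hD3
  exact (hP4.add hcD).add hD4

end Pool.Agent.Helper857.W
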