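import Pool.Agent.Helper857.W5

set_option autoImplicit false

namespace Pool.Agent.Helper857.W

open Finset Pad

lemma halves (R : ℕ) (F : ℕ → ℚ) :
    ∑ m ∈ Icc 1 (2*R), F m = ∑ i ∈ Icc 1 R, (F i + F (2*R+1-i)) := by
  rw [sum_add_distrib, ← sum_filter_add_sum_filter_not (Icc 1 (2*R)) (fun m => m ≤ R)]
  congr 1
  · apply sum_congr
    · ext m; simp only [mem_filter, mem_Icc]; omega
    · intros; rfl
  · apply sum_nbij' (fun m => 2*R+1-m) (fun i => 2*R+1-i)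
    · intro m hm; simp only [mem_filter, mem_Icc] at hm ⊢; omega
    · intro m hm; simp only [mem_filter, mem_Icc] at hm ⊢; omega
    · intro m hm; simp only [mem_filter, mem_Icc] at hm ⊢; omega
    · intro m hm; simp only [mem_filter, mem_Icc] at hm ⊢; omega
    · intro m hm
      simp only [mem_filter, mem_Icc] at hm
      congr 1; omega

lemma parity (R : ℕ) (F : ℕ → ℚ) :
    ∑ m ∈ Icc 1 (2*R), F m = ∑ i ∈ Icc 1 R, (F (2*i) + F (2*R+1-2*i)) := by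
  rw [sum_add_distrib, ← sum_filter_add_sum_filter_not (Icc 1 (2*R)) (fun m => m % 2 = 0)]
  congr 1
  · apply sum_nbij' (fun m => m/2) (fun i => 2*i)
    · intro m hm; simp only [mem_filter, mem_Icc] at hm ⊢; omega
    · intro m hm; simp only [mem_filter, mem_Icc] at hm ⊢; omega
    · intro m hm; simp only [mem_filter, mem_Icc] at hm ⊢; omega
    · intro m hm; simp only [mem_filter, mem_Icc] at hm ⊢; omega
    · intro m hm
      simp only [mem_filter, mem_Icc] at hm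
      congr 1; omega
  · apply sum_nbij' (fun m => (2*R+1-m)/2) (fun i => 2*R+1-2*i)
    · intro m hm; simp only [mem_filter, mem_Icc] at hm ⊢; omega
    · intro m hm; simp only [mem_filter, mem_Icc] at hm ⊢; omega
    · intro m hm; simp only [mem_filter, mem_Icc] at hm ⊢; omega
    · intro m hm; simp only [mem_filter, mem_Icc] at hm ⊢; omega
    · intro m hm
      simp only [mem_filter, mem_Icc] at hm
      congr 1; omega

noncomputable def g (N : ℚ) (m : ℕ) : ℚ := N/(m:ℚ)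
noncomputable def XX (N : ℚ) (R : ℕ) : ℚ := ∑ r ∈ Icc 1 R, ∑ s ∈ Icc 1 R, if r < s then g N r * g N s ^ 2 else 0
noncomputable def YY (N : ℚ) (R : ℕ) : ℚ := ∑ r ∈ Icc 1 R, ∑ s ∈ Icc 1 R, if s < r then g N r * g N s ^ 2 else 0
noncomputable def KK (N : ℚ) (R : ℕ) : ℚ := ∑ r ∈ Icc 1 R, ∑ s ∈ Icc 1 R, if r + s ≤ R then g N r * g N s ^ 2 else 0
noncomputable def MM (N : ℚ) (R : ℕ) : ℚ := ∑ r ∈ Icc 1 R, ∑ s ∈ Icc 1 R, if R < r + s then g N r * g N s ^ 2 else 0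
noncomputable def LL (N : ℚ) (R : ℕ) : ℚ := ∑ r ∈ Icc 1 R, g N r
noncomputable def SS (N : ℚ) (R : ℕ) : ℚ := ∑ r ∈ Icc 1 R, g N r ^ 2
noncomputable def HH (N : ℚ) (R : ℕ) : ℚ := ∑ r ∈ Icc 1 R, g N r ^ 3

lemma KM (N : ℚ) (R : ℕ) : KK N R + MM N R = LL N R * SS N R := by
  unfold KK MM LL SS
  rw [sum_mul_sum, ← sum_add_distrib]
  apply sum_congr rfl
  intro r _
  rw [← sum_add_distrib]
  apply sum_congr rfl
  intro s _
  by_cases h : r + s ≤ R
  · rw [if_pos h, if_neg (by omega)]; ring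
  · rw [if_neg h, if_pos (by omega)]; ring

lemma XYH (N : ℚ) (R : ℕ) : XX N R + YY N R + HH N R = LL N R * SS N R := by
  unfold XX YY HH LL SS
  rw [sum_mul_sum, ← sum_add_distrib, ← sum_add_distrib]
  apply sum_congr rfl
  intro r hr
  have : g N r ^ 3 = ∑ s ∈ Icc 1 R, if s = r then g N r * g N s ^ 2 else 0 := by
    rw [sum_ite_eq' (Icc 1 R) r, if_pos hr]; ring
  rw [this, ← sum_add_distrib, ← sum_add_distrib]
  apply sum_congr rfl
  intro s _
  rcases lt_trichotomy r s with h | h | h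
  · rw [if_pos h, if_neg (by omega), if_neg (by omega)]; ring
  · rw [if_neg (by omega), if_neg (by omega), if_pos h.symm]; ring
  · rw [if_neg (by omega), if_pos h, if_neg (by omega)]; ring

lemma Kid (N : ℚ) (R : ℕ) : KK N R = 2 * XX N R + YY N R := by
  have e1 : KK N R = ∑ n ∈ Icc 1 R, ∑ s ∈ Icc 1 R, if s < n then g N (n-s) * g N s ^ 2 else 0 := by
    unfold KK
    rw [sum_comm]
    rw [sum_comm (s := Icc 1 R) (t := Icc 1 R) (f := fun n s => if s < n then g N (n-s) * g N s ^ 2 else 0)]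
    apply sum_congr rfl
    intro s hs
    rw [mem_Icc] at hs
    rw [← sum_filter, ← sum_filter]
    apply sum_nbij' (fun r => r + s) (fun n => n - s)
    · intro m hm; simp only [mem_filter, mem_Icc] at hm ⊢; omega
    · intro m hm; simp only [mem_filter, mem_Icc] at hm ⊢; omega
    · intro m hm; simp only [mem_filter, mem_Icc] at hm ⊢; omega
    · intro m hm; simp only [mem_filter, mem_Icc] at hm ⊢; omega
    · intro m hm
      simp only [mem_filter, mem_Icc] at hm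
      rw [show m + s - s = m by omega]
  have e2 : XX N R = ∑ n ∈ Icc 1 R, ∑ s ∈ Icc 1 R, if s < n then g N n ^ 2 * g N s else 0 := by
    unfold XX
    rw [sum_comm]
    apply sum_congr rfl
    intro n _
    apply sum_congr rfl
    intro s _
    split_ifs <;> ring
  have e3 : XX N R = ∑ n ∈ Icc 1 R, ∑ s ∈ Icc 1 R, if s < n then g N n ^ 2 * g N (n-s) else 0 := by
    rw [e2]
    apply sum_congr rfl
    intro n hn
    rw [mem_Icc] at hn
    rw [← sum_filter, ← sum_filter]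
    apply sum_nbij' (fun r => n - r) (fun r => n - r)
    · intro m hm; simp only [mem_filter, mem_Icc] at hm ⊢; omega
    · intro m hm; simp only [mem_filter, mem_Icc] at hm ⊢; omega
    · intro m hm; simp only [mem_filter, mem_Icc] at hm ⊢; omega
    · intro m hm; simp only [mem_filter, mem_Icc] at hm ⊢; omega
    · intro m hm
      simp only [mem_filter, mem_Icc] at hm
      rw [show n - (n - m) = m by omega]
  have e4 : 2 * XX N R + YY N R = (∑ n ∈ Icc 1 R, ∑ s ∈ Icc 1 R, if s < n then g N n ^ 2 * g N s else 0) +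
     (∑ n ∈ Icc 1 R, ∑ s ∈ Icc 1 R, if s < n then g N n ^ 2 * g N (n-s) else 0) + YY N R := by
    rw [← e2, ← e3]; ring
  rw [e1, e4]
  unfold YY
  rw [← sum_add_distrib, ← sum_add_distrib]
  apply sum_congr rfl
  intro n hn
  rw [← sum_add_distrib, ← sum_add_distrib]
  apply sum_congr rfl
  intro s hs
  rw [mem_Icc] at hn hs
  by_cases h : s < n
  · simp only [if_pos h]
    obtain ⟨d, rfl⟩ := Nat.exists_eq_add_of_lt h
    rw [show s + d + 1 - s = d + 1 by omega]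
    unfold g
    have h1 : (s:ℚ) ≠ 0 := by
      have : s ≠ 0 := by omega
      exact_mod_cast this
    have h2 : (d:ℚ) + 1 ≠ 0 := by positivity
    have h3 : (s:ℚ) + d + 1 ≠ 0 := by positivity
    push_cast
    field_simp
    ring
  · simp [if_neg h]

section
variable {p : ℕ} [hp : Fact p.Prime]

lemma g_two (N : ℚ) (m : ℕ) : g N (2*m) = g N m * (2:ℚ)⁻¹ := by
  unfold g; push_cast; rw [div_eq_mul_inv, div_eq_mul_inv, mul_inv]; ring

variable {a R : ℕ} (ha : 1 ≤ a) (hN : 2*R+1 = p^a)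
include ha hN

lemma g_I {m : ℕ} (hm : 1 ≤ m) (hm' : m ≤ 2*R) : I p 1 (g ((2*R+1:ℕ):ℚ) m) := by
  unfold g
  have := quot1 (p := p) (a := a) (m := m) ha hm (by omega)
  rw [hN]; push_cast at this ⊢; exact this

lemma half_mem : (2:ℚ)⁻¹ ∈ Zp p := by
  have h : ¬ p ∣ 2 := by
    intro h
    have h2 : p = 2 := (Nat.prime_dvd_prime_iff_eq hp.out Nat.prime_two).mp h
    have : p ∣ 2*R+1 := by rw [hN]; exact dvd_pow_self p (by omega)
    rw [h2] at this
    omega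
  exact_mod_cast inv_nat_mem h

lemma g_refl {m : ℕ} (hm : 1 ≤ m) (hm' : m ≤ 2*R) :
    I p 2 (g ((2*R+1:ℕ):ℚ) (2*R+1-m) + g ((2*R+1:ℕ):ℚ) m) ∧
    I p 4 (g ((2*R+1:ℕ):ℚ) (2*R+1-m) ^ 2 - g ((2*R+1:ℕ):ℚ) m ^ 2 - 2 * g ((2*R+1:ℕ):ℚ) m ^ 3) := by
  have hx := g_I (p := p) ha hN hm hm'
  set N : ℚ := ((2*R+1:ℕ):ℚ) with hNd
  set x := g N m with hxd
  have hm0 : (m:ℚ) ≠ 0 := by
    have : m ≠ 0 := by omega
    exact_mod_cast this
  obtain ⟨n0, m0, i0⟩ := unit (p := p) (x := 1 - x) (by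
    have : 1 - x - 1 = -x := by ring
    rw [this]; exact hx.neg)
  have hinv : (1-x)*(1-x)⁻¹ = 1 := mul_inv_cancel₀ n0
  have e : g N (2*R+1-m) = - x * (1-x)⁻¹ := by
    rw [hxd]
    unfold g
    have h1 : ((2*R+1-m:ℕ):ℚ) = N - m := by
      rw [hNd, Nat.cast_sub (by omega)]
    have h2 : N - m ≠ 0 := by
      rw [← h1]
      have : 2*R+1-m ≠ 0 := by omega
      exact_mod_cast this
    have h3 : 1 - N/(m:ℚ) ≠ 0 := by
      intro h; apply h2; field_simp at h; linarith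
    rw [h1]
    have h4 : 1 - N/(m:ℚ) = -((N - m)/m) := by field_simp; ring
    rw [h4, inv_neg, inv_div]
    field_simp
  rw [e]
  constructor
  · have : -x * (1-x)⁻¹ + x = (x * x) * (-(1-x)⁻¹) := by
      linear_combination (-x) * hinv
    rw [this]
    exact (hx.mul hx).mul_mem ((Zp p).neg_mem m0)
  · have : (-x * (1-x)⁻¹)^2 - x^2 - 2*x^3 = x^4 * ((3-2*x)*((1-x)⁻¹*(1-x)⁻¹)) := by
      generalize (1-x)⁻¹ = v at *
      linear_combination ((x^2+2*x^3)) * ((1-x)*v+1) * hinv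
    rw [this]
    have h4 : I p 4 (x^4) := by simpa using hx.pow 4
    have m3 : (3 - 2*x) ∈ Zp p := (Zp p).sub_mem (by exact_mod_cast nat_mem 3) (I.mem_mul (by exact_mod_cast nat_mem 2) hx).mem
    exact h4.mul_mem ((Zp p).mul_mem m3 ((Zp p).mul_mem m0 m0))

/-- relation between the square and cube sums -/
lemma SH : I p 4 (6 * SS ((2*R+1:ℕ):ℚ) R + 7 * HH ((2*R+1:ℕ):ℚ) R) := by
  set N : ℚ := ((2*R+1:ℕ):ℚ) with hNd
  have h1 := halves R (fun m => g N m ^ 2)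
  have h2 := parity R (fun m => g N m ^ 2)
  have hh := half_mem (p := p) ha hN
  have d1 : I p 4 (∑ m ∈ Icc 1 (2*R), g N m ^ 2 - (2 * SS N R + 2 * HH N R)) := by
    rw [h1]
    unfold SS HH
    rw [mul_sum, mul_sum, ← sum_add_distrib, ← sum_sub_distrib]
    apply I.sum
    intro i hi
    rw [mem_Icc] at hi
    have := (g_refl (p := p) ha hN (m := i) (by omega) (by omega)).2
    rw [← hNd] at this
    have e : g N i ^ 2 + g N (2*R+1-i) ^ 2 - (2 * g N i ^ 2 + 2 * g N i ^ 3) =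
      g N (2*R+1-i) ^ 2 - g N i ^ 2 - 2 * g N i ^ 3 := by ring
    rw [e]; exact this
  have d2 : I p 4 (∑ m ∈ Icc 1 (2*R), g N m ^ 2 - ((1/2) * SS N R + (1/4) * HH N R)) := by
    rw [h2]
    unfold SS HH
    rw [mul_sum, mul_sum, ← sum_add_distrib, ← sum_sub_distrib]
    apply I.sum
    intro i hi
    rw [mem_Icc] at hi
    have := (g_refl (p := p) ha hN (m := 2*i) (by omega) (by omega)).2
    rw [← hNd] at this
    have e : g N (2*i) ^ 2 + g N (2*R+1-2*i) ^ 2 - ((1/2) * g N i ^ 2 + (1/4) * g N i ^ 3) =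
      g N (2*R+1-2*i) ^ 2 - g N (2*i) ^ 2 - 2 * g N (2*i) ^ 3 := by
      rw [g_two]; ring
    rw [e]; exact this
  have e : 6 * SS N R + 7 * HH N R = 4 * ((∑ m ∈ Icc 1 (2*R), g N m ^ 2 - ((1/2) * SS N R + (1/4) * HH N R)) -
    (∑ m ∈ Icc 1 (2*R), g N m ^ 2 - (2 * SS N R + 2 * HH N R))) := by ring
  rw [e]
  exact I.mem_mul (by exact_mod_cast nat_mem 4) (d2.sub d1)

lemma H3 : I p 3 (HH ((2*R+1:ℕ):ℚ) R) := by
  unfold HH
  apply I.sum
  intro i hi
  rw [mem_Icc] at hi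
  simpa using (g_I (p := p) ha hN (m := i) (by omega) (by omega)).pow 3

lemma L1 : I p 1 (LL ((2*R+1:ℕ):ℚ) R) := by
  unfold LL
  apply I.sum
  intro i hi
  rw [mem_Icc] at hi
  exact (g_I (p := p) ha hN (m := i) (by omega) (by omega))

lemma trip {r s : ℕ} (hr : 1 ≤ r) (hr' : r ≤ 2*R) (hs : 1 ≤ s) (hs' : s ≤ 2*R) :
    I p 4 (g ((2*R+1:ℕ):ℚ) (2*R+1-r) * g ((2*R+1:ℕ):ℚ) s ^ 2 + g ((2*R+1:ℕ):ℚ) r * g ((2*R+1:ℕ):ℚ) s ^ 2) ∧
    I p 4 (g ((2*R+1:ℕ):ℚ) r * g ((2*R+1:ℕ):ℚ) (2*R+1-s) ^ 2 - g ((2*R+1:ℕ):ℚ) r * g ((2*R+1:ℕ):ℚ) s ^ 2) ∧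
    I p 4 (g ((2*R+1:ℕ):ℚ) (2*R+1-r) * g ((2*R+1:ℕ):ℚ) (2*R+1-s) ^ 2 + g ((2*R+1:ℕ):ℚ) r * g ((2*R+1:ℕ):ℚ) s ^ 2) := by
  have r1 := g_I (p := p) ha hN hr hr'
  have s1 := g_I (p := p) ha hN hs hs'
  have r1' := g_I (p := p) ha hN (m := 2*R+1-r) (by omega) (by omega)
  obtain ⟨r2, -⟩ := g_refl (p := p) ha hN hr hr'
  obtain ⟨-, s4⟩ := g_refl (p := p) ha hN hs hs'
  set N : ℚ := ((2*R+1:ℕ):ℚ) with hNd
  have s2 : I p 2 (g N s ^ 2) := by simpa using s1.pow 2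
  have s3 : I p 3 (g N s ^ 3) := by simpa using s1.pow 3
  have m2 : (2:ℚ) ∈ Zp p := by exact_mod_cast nat_mem 2
  have s3' : I p 3 (g N (2*R+1-s) ^ 2 - g N s ^ 2) := by
    have : g N (2*R+1-s) ^ 2 - g N s ^ 2 = (g N (2*R+1-s) ^ 2 - g N s ^ 2 - 2 * g N s ^ 3) + 2 * g N s ^ 3 := by ring
    rw [this]
    exact (s4.mono (by norm_num)).add (I.mem_mul m2 s3)
  have t1 : I p 4 (g N (2*R+1-r) * g N s ^ 2 + g N r * g N s ^ 2) := by
    rw [← add_mul]; exact r2.mul s2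
  refine ⟨t1, ?_, ?_⟩
  · rw [← mul_sub]; exact r1.mul s3'
  · have : g N (2*R+1-r) * g N (2*R+1-s) ^ 2 + g N r * g N s ^ 2 =
      g N (2*R+1-r) * (g N (2*R+1-s) ^ 2 - g N s ^ 2) + (g N (2*R+1-r) * g N s ^ 2 + g N r * g N s ^ 2) := by ring
    rw [this]
    exact (r1'.mul s3').add t1

noncomputable def Kp (N : ℚ) (R : ℕ) : ℚ := ∑ r ∈ Icc 1 (2*R), ∑ s ∈ Icc 1 (2*R), if r + s ≤ 2*R then g N r * g N s ^ 2 else 0

lemma Kp1 : I p 4 (Kp ((2*R+1:ℕ):ℚ) R - (LL ((2*R+1:ℕ):ℚ) R * SS ((2*R+1:ℕ):ℚ) R + XX ((2*R+1:ℕ):ℚ) R - YY ((2*R+1:ℕ):ℚ) R)) := by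
  set N : ℚ := ((2*R+1:ℕ):ℚ) with hNd
  unfold Kp LL SS XX YY
  rw [halves, sum_mul_sum, ← sum_add_distrib, ← sum_sub_distrib, ← sum_sub_distrib]
  apply I.sum
  intro i hi
  rw [halves, halves, ← sum_add_distrib, ← sum_add_distrib, ← sum_sub_distrib, ← sum_sub_distrib]
  apply I.sum
  intro j hj
  rw [mem_Icc] at hi hj
  obtain ⟨t1, t2, t3⟩ := trip (p := p) ha hN (r := i) (s := j) (by omega) (by omega) (by omega) (by omega)
  rw [← hNd] at t1 t2 t3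
  rw [if_pos (show i + j ≤ 2*R by omega), if_neg (show ¬ (2*R+1-i + (2*R+1-j) ≤ 2*R) by omega)]
  rcases lt_trichotomy i j with h | h | h
  · rw [if_pos (show i + (2*R+1-j) ≤ 2*R by omega), if_neg (show ¬ (2*R+1-i + j ≤ 2*R) by omega),
      if_pos h, if_neg (by omega)]
    have e : g N i * g N j ^ 2 + g N i * g N (2*R+1-j) ^ 2 + (0 + 0) -
      (g N i * g N j ^ 2 + g N i * g N j ^ 2 - 0) = g N i * g N (2*R+1-j) ^ 2 - g N i * g N j ^ 2 := by ring
    rw [e]; exact t2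
  · rw [if_neg (show ¬ (i + (2*R+1-j) ≤ 2*R) by omega), if_neg (show ¬ (2*R+1-i + j ≤ 2*R) by omega),
      if_neg (by omega), if_neg (by omega)]
    have e : g N i * g N j ^ 2 + 0 + (0 + 0) - (g N i * g N j ^ 2 + 0 - 0) = 0 := by ring
    rw [e]; exact I.zero 4
  · rw [if_neg (show ¬ (i + (2*R+1-j) ≤ 2*R) by omega), if_pos (show (2*R+1-i + j ≤ 2*R) by omega),
      if_neg (by omega), if_pos h]
    have e : g N i * g N j ^ 2 + 0 + (g N (2*R+1-i) * g N j ^ 2 + 0) -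
      (g N i * g N j ^ 2 + 0 - g N i * g N j ^ 2) = g N (2*R+1-i) * g N j ^ 2 + g N i * g N j ^ 2 := by ring
    rw [e]; exact t1

lemma Kp2 : I p 4 (Kp ((2*R+1:ℕ):ℚ) R - (1/8) * (KK ((2*R+1:ℕ):ℚ) R + XX ((2*R+1:ℕ):ℚ) R - YY ((2*R+1:ℕ):ℚ) R - MM ((2*R+1:ℕ):ℚ) R)) := by
  set N : ℚ := ((2*R+1:ℕ):ℚ) with hNd
  unfold Kp KK XX YY MM
  rw [parity, ← sum_add_distrib, ← sum_sub_distrib, ← sum_sub_distrib, mul_sum, ← sum_sub_distrib]
  apply I.sum
  intro i hi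
  rw [parity, parity, ← sum_add_distrib, ← sum_add_distrib, ← sum_sub_distrib, ← sum_sub_distrib,
    mul_sum, ← sum_sub_distrib]
  apply I.sum
  intro j hj
  rw [mem_Icc] at hi hj
  obtain ⟨t1, t2, t3⟩ := trip (p := p) ha hN (r := 2*i) (s := 2*j) (by omega) (by omega) (by omega) (by omega)
  rw [← hNd] at t1 t2 t3
  have g8 : g N (2*i) * g N (2*j) ^ 2 = (1/8) * (g N i * g N j ^ 2) := by
    rw [g_two, g_two]; ring
  have z4 := I.zero (p := p) 4
  by_cases h1 : i + j ≤ R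
  · rw [if_pos (show 2*i+2*j ≤ 2*R by omega), if_neg (show ¬ (2*R+1-2*i + (2*R+1-2*j) ≤ 2*R) by omega),
      if_pos h1, if_neg (show ¬ (R < i + j) by omega)]
    rcases lt_trichotomy i j with h | h | h
    · rw [if_pos (show 2*i + (2*R+1-2*j) ≤ 2*R by omega), if_neg (show ¬ (2*R+1-2*i + 2*j ≤ 2*R) by omega),
        if_pos h, if_neg (by omega)]
      have e : g N (2*i) * g N (2*j) ^ 2 + g N (2*i) * g N (2*R+1-2*j) ^ 2 + (0 + 0) -
        (1/8) * (g N i * g N j ^ 2 + g N i * g N j ^ 2 - 0 - 0) =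
          g N (2*i) * g N (2*R+1-2*j) ^ 2 - g N (2*i) * g N (2*j) ^ 2 := by
        linear_combination 2 * g8
      rw [e]; exact t2
    · rw [if_neg (show ¬ (2*i + (2*R+1-2*j) ≤ 2*R) by omega), if_neg (show ¬ (2*R+1-2*i + 2*j ≤ 2*R) by omega),
        if_neg (by omega), if_neg (by omega)]
      have e : g N (2*i) * g N (2*j) ^ 2 + 0 + (0 + 0) - (1/8) * (g N i * g N j ^ 2 + 0 - 0 - 0) = 0 := by
        linear_combination g8
      rw [e]; exact z4
    · rw [if_neg (show ¬ (2*i + (2*R+1-2*j) ≤ 2*R) by omega), if_pos (show (2*R+1-2*i + 2*j ≤ 2*R) by omega),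
        if_neg (by omega), if_pos h]
      have e : g N (2*i) * g N (2*j) ^ 2 + 0 + (g N (2*R+1-2*i) * g N (2*j) ^ 2 + 0) -
        (1/8) * (g N i * g N j ^ 2 + 0 - g N i * g N j ^ 2 - 0) =
          g N (2*R+1-2*i) * g N (2*j) ^ 2 + g N (2*i) * g N (2*j) ^ 2 := by ring
      rw [e]; exact t1
  · rw [if_neg (show ¬ (2*i+2*j ≤ 2*R) by omega), if_pos (show (2*R+1-2*i + (2*R+1-2*j) ≤ 2*R) by omega),
      if_neg h1, if_pos (show (R < i + j) by omega)]
    rcases lt_trichotomy i j with h | h | h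
    · rw [if_pos (show 2*i + (2*R+1-2*j) ≤ 2*R by omega), if_neg (show ¬ (2*R+1-2*i + 2*j ≤ 2*R) by omega),
        if_pos h, if_neg (by omega)]
      have e : 0 + g N (2*i) * g N (2*R+1-2*j) ^ 2 + (0 + g N (2*R+1-2*i) * g N (2*R+1-2*j) ^ 2) -
        (1/8) * (0 + g N i * g N j ^ 2 - 0 - g N i * g N j ^ 2) =
          (g N (2*i) * g N (2*R+1-2*j) ^ 2 - g N (2*i) * g N (2*j) ^ 2) +
          (g N (2*R+1-2*i) * g N (2*R+1-2*j) ^ 2 + g N (2*i) * g N (2*j) ^ 2) := by ring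
      rw [e]; exact t2.add t3
    · rw [if_neg (show ¬ (2*i + (2*R+1-2*j) ≤ 2*R) by omega), if_neg (show ¬ (2*R+1-2*i + 2*j ≤ 2*R) by omega),
        if_neg (by omega), if_neg (by omega)]
      have e : 0 + 0 + (0 + g N (2*R+1-2*i) * g N (2*R+1-2*j) ^ 2) -
        (1/8) * (0 + 0 - 0 - g N i * g N j ^ 2) =
          (g N (2*R+1-2*i) * g N (2*R+1-2*j) ^ 2 + g N (2*i) * g N (2*j) ^ 2) := by
        linear_combination -g8
      rw [e]; exact t3
    · rw [if_neg (show ¬ (2*i + (2*R+1-2*j) ≤ 2*R) by omega), if_pos (show (2*R+1-2*i + 2*j ≤ 2*R) by omega),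
        if_neg (by omega), if_pos h]
      have e : 0 + 0 + (g N (2*R+1-2*i) * g N (2*j) ^ 2 + g N (2*R+1-2*i) * g N (2*R+1-2*j) ^ 2) -
        (1/8) * (0 + 0 - g N i * g N j ^ 2 - g N i * g N j ^ 2) =
          (g N (2*R+1-2*i) * g N (2*j) ^ 2 + g N (2*i) * g N (2*j) ^ 2) +
          (g N (2*R+1-2*i) * g N (2*R+1-2*j) ^ 2 + g N (2*i) * g N (2*j) ^ 2) := by
        linear_combination (-2) * g8
      rw [e]; exact t1.add t3

end

end Pool.Agent.Helper857.W
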