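import Pool.Agent.Helper857.W6

set_option autoImplicit false

namespace Pool.Agent.Helper857.W

open Finset Pad

variable {p : ℕ} [hp : Fact p.Prime] {a R : ℕ}

lemma sum_shift (R : ℕ) (F : ℕ → ℚ) : ∑ r ∈ Icc 1 R, F r = ∑ r ∈ range R, F (r+1) := by
  apply sum_nbij' (fun i => i - 1) (fun s => s + 1)
  · intro m hm; simp only [mem_Icc, mem_range] at hm ⊢; omega
  · intro m hm; simp only [mem_Icc, mem_range] at hm ⊢; omega
  · intro m hm; simp only [mem_Icc] at hm; omega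
  · intro m hm; simp only [mem_range] at hm; omega
  · intro m hm
    simp only [mem_Icc] at hm
    rw [show m - 1 + 1 = m by omega]

noncomputable def VV (R : ℕ) : ℚ := ∑ r ∈ range R, (((2*R+1:ℕ):ℚ)/(2*((r:ℚ)+1))) * QQ ((2*R+1:ℕ):ℚ) (r+1)

lemma VV_eq (R : ℕ) : VV R = ∑ r ∈ Icc 1 R, ∑ s ∈ Icc 1 R,
    if R < r + s then g ((2*R+1:ℕ):ℚ) (2*r) * g ((2*R+1:ℕ):ℚ) (2*R+1-2*s) ^ 2 else 0 := by
  unfold VV
  rw [sum_shift]
  apply sum_congr rfl
  intro r hr
  rw [mem_range] at hr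
  rw [← sum_filter, ← mul_sum]
  congr 1
  · unfold g; push_cast; rfl
  · unfold QQ
    apply sum_nbij' (fun i => R - i) (fun s => R - s)
    · intro m hm; simp only [mem_filter, mem_Icc, mem_range] at hm ⊢; omega
    · intro m hm; simp only [mem_filter, mem_Icc, mem_range] at hm ⊢; omega
    · intro m hm; simp only [mem_range] at hm ⊢; omega
    · intro m hm; simp only [mem_filter, mem_Icc] at hm ⊢; omega
    · intro m hm
      simp only [mem_range] at hm
      rw [show 2*R+1 - 2*(R-m) = 2*m+1 by omega]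
      unfold yy g; push_cast; rfl

lemma VV_M (ha : 1 ≤ a) (hN : 2*R+1 = p^a) : I p 4 (VV R - (1/8) * MM ((2*R+1:ℕ):ℚ) R) := by
  rw [VV_eq]
  unfold MM
  rw [mul_sum, ← sum_sub_distrib]
  apply I.sum
  intro r hr
  rw [mul_sum, ← sum_sub_distrib]
  apply I.sum
  intro s hs
  rw [mem_Icc] at hr hs
  obtain ⟨-, t2, -⟩ := trip (p := p) ha hN (r := 2*r) (s := 2*s) (by omega) (by omega) (by omega) (by omega)
  have g8 : g ((2*R+1:ℕ):ℚ) (2*r) * g ((2*R+1:ℕ):ℚ) (2*s) ^ 2 = (1/8) * (g ((2*R+1:ℕ):ℚ) r * g ((2*R+1:ℕ):ℚ) s ^ 2) := by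
    rw [g_two, g_two]; ring
  by_cases h : R < r + s
  · rw [if_pos h, if_pos h, ← g8]; exact t2
  · rw [if_neg h, if_neg h]; simpa using I.zero 4

lemma VV3 (ha : 1 ≤ a) (hN : 2*R+1 = p^a) : I p 3 (VV R) := by
  unfold VV
  apply I.sum
  intro r hr
  rw [mem_range] at hr
  apply I.mul (j := 1) (k := 2) (ev_I (p := p) ha hN hr)
  unfold QQ
  apply I.sum
  intro i hi
  rw [mem_range] at hi
  simpa using (yy_I (p := p) ha hN (i := i) (by omega)).pow 2

lemma SS_eq (R : ℕ) : ∑ k ∈ range R, (((2*R+1:ℕ):ℚ)/(2*((k:ℚ)+1)))^2 = (1/4) * SS ((2*R+1:ℕ):ℚ) R := by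
  unfold SS
  rw [sum_shift, mul_sum]
  apply sum_congr rfl
  intro r hr
  unfold g
  push_cast
  field_simp
  norm_num

lemma main2 (ha : 1 ≤ a) (hN : 2*R+1 = p^a) :
    I p 4 (TT R / 3 - 1 + (1/4) * SS ((2*R+1:ℕ):ℚ) R + 6 * VV R) := by
  have := main1 (p := p) ha hN
  rw [SS_eq] at this
  have e : TT R / 3 - 1 + (1/4) * SS ((2*R+1:ℕ):ℚ) R + 6 * VV R =
    TT R / 3 - (1 - (1/4) * SS ((2*R+1:ℕ):ℚ) R - 6 * VV R) := by ring
  rw [e]
  exact this

lemma fin5 (ha : 1 ≤ a) (hN : 2*R+1 = p^a) (h5 : 5 ≤ p) :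
    I p 4 (16 * (TT R - 3) + 49 * HH ((2*R+1:ℕ):ℚ) R) := by
  have n3 : ¬ p ∣ 3 := fun h => absurd (Nat.le_of_dvd (by norm_num) h) (by omega)
  have n2 : ¬ p ∣ 2 := fun h => absurd (Nat.le_of_dvd (by norm_num) h) (by omega)
  have n6 : ¬ p ∣ 6 := by
    intro h
    rw [show 6 = 2*3 by norm_num, hp.out.dvd_mul] at h
    exact h.elim n2 n3
  have hm := main2 (p := p) ha hN
  have sh := SH (p := p) ha hN
  have h3 := H3 (p := p) ha hN
  have l1 := L1 (p := p) ha hN
  have k1 := Kp1 (p := p) ha hN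
  have k2 := Kp2 (p := p) ha hN
  have v := VV_M (p := p) ha hN
  have km := KM ((2*R+1:ℕ):ℚ) R
  have xyh := XYH ((2*R+1:ℕ):ℚ) R
  have kid := Kid ((2*R+1:ℕ):ℚ) R
  set N : ℚ := ((2*R+1:ℕ):ℚ) with hNd
  have m (n : ℕ) : ((n:ℕ):ℚ) ∈ Zp p := nat_mem n
  have s3 : I p 3 (SS N R) := by
    apply I.cancel n6
    have e : ((6:ℕ):ℚ) * SS N R = (6 * SS N R + 7 * HH N R) - 7 * HH N R := by push_cast; ring
    rw [e]
    exact (sh.mono (by norm_num)).sub (I.mem_mul (by exact_mod_cast m 7) h3)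
  have ls : I p 4 (LL N R * SS N R) := l1.mul s3
  set P := LL N R * SS N R with hP
  set K := KK N R
  set M := MM N R
  set X := XX N R
  set Y := YY N R
  set H := HH N R
  set S := SS N R
  set V := VV R
  set T := TT R
  set K' := Kp N R
  have x3y : I p 4 (X - 3 * Y) := by
    apply I.cancel n3
    have e : ((3:ℕ):ℚ) * (X - 3*Y) = 8 * ((K' - (1/8) * (K + X - Y - M)) - (K' - (P + X - Y))) - 9 * P := by
      push_cast
      linear_combination (-1) * km + (2) * kid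
    rw [e]
    exact (I.mem_mul (by exact_mod_cast m 8) (k2.sub k1)).sub (I.mem_mul (by exact_mod_cast m 9) ls)
  have h4y : I p 4 (H + 4 * Y) := by
    have e : H + 4 * Y = P - (X - 3*Y) := by linear_combination xyh
    rw [e]; exact ls.sub x3y
  have v32 : I p 4 (32 * V - 7 * H) := by
    have e : 32 * V - 7 * H = 32 * (V - (1/8) * M) + 4 * P - 8 * (X - 3*Y) - 7 * (H + 4*Y) := by
      linear_combination (4) * km + (-4) * kid
    rw [e]
    exact (((I.mem_mul (by exact_mod_cast m 32) v).add (I.mem_mul (by exact_mod_cast m 4) ls)).sub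
      (I.mem_mul (by exact_mod_cast m 8) x3y)).sub (I.mem_mul (by exact_mod_cast m 7) h4y)
  have e : 16 * (T - 3) + 49 * H = 48 * (T/3 - 1 + (1/4) * S + 6 * V) - 2 * (6 * S + 7 * H) - 9 * (32 * V - 7 * H) := by
    ring
  rw [e]
  exact ((I.mem_mul (by exact_mod_cast m 48) hm).sub (I.mem_mul (by exact_mod_cast m 2) sh)).sub
    (I.mem_mul (by exact_mod_cast m 9) v32)

lemma fin3 (ha : 1 ≤ a) (hN : 2*R+1 = p^a) (h3 : p = 3) :
    I p 4 (8 * (TT R - 3) - 7 * HH ((2*R+1:ℕ):ℚ) R) := by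
  have hm := main2 (p := p) ha hN
  have sh := SH (p := p) ha hN
  have v3 := VV3 (p := p) ha hN
  set N : ℚ := ((2*R+1:ℕ):ℚ) with hNd
  have m (n : ℕ) : ((n:ℕ):ℚ) ∈ Zp p := nat_mem n
  have hv : I p 4 (144 * VV R) := by
    have e : 144 * VV R = ((p:ℚ)^1 * VV R) * 48 := by rw [h3]; push_cast; ring
    rw [e]
    have := (I.p_pow (p := p) 1).mul v3
    exact this.mul_mem (by exact_mod_cast m 48)
  have e : 8 * (TT R - 3) - 7 * HH N R = 24 * (TT R/3 - 1 + (1/4) * SS N R + 6 * VV R) -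
    (6 * SS N R + 7 * HH N R) - 144 * VV R := by ring
  rw [e]
  exact ((I.mem_mul (by exact_mod_cast m 24) hm).sub sh).sub hv

/-- reduction of the cube sum to `a = 1` -/
lemma classred (ha : 1 ≤ a) (hN : 2*R+1 = p^a) (hodd : p ≠ 2) :
    I p 4 (HH ((2*R+1:ℕ):ℚ) R - (p:ℚ)^3 * ∑ j ∈ Icc 1 ((p-1)/2), 1/(j:ℚ)^3) := by
  obtain ⟨b, rfl⟩ : ∃ b, a = b + 1 := ⟨a-1, by omega⟩
  have hp0 : 0 < p := hp.out.pos
  have hpodd : p % 2 = 1 := by
    rcases hp.out.eq_two_or_odd with h | h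
    · exact absurd h hodd
    · exact h
  obtain ⟨c, hc⟩ : ∃ c, p = 2*c+1 := ⟨p/2, by omega⟩
  have hq : 0 < p^b := pow_pos hp0 b
  set q := p^b with hqd
  have hN' : 2*R+1 = q*p := by rw [hN, pow_succ]
  unfold HH
  rw [← sum_filter_add_sum_filter_not (Icc 1 R) (fun i => q ∣ i)]
  have e1 : ∑ i ∈ (Icc 1 R).filter (fun i => q ∣ i), g ((2*R+1:ℕ):ℚ) i ^ 3 =
      (p:ℚ)^3 * ∑ j ∈ Icc 1 ((p-1)/2), 1/(j:ℚ)^3 := by
    rw [mul_sum]
    symm
    apply sum_nbij' (fun j => q*j) (fun i => i/q)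
    · intro j hj
      simp only [mem_filter, mem_Icc] at hj ⊢
      refine ⟨⟨Nat.mul_pos hq (by omega), ?_⟩, dvd_mul_right _ _⟩
      have h1 : 2 * (q * j) ≤ q * (p-1) := by
        have : 2 * j ≤ p - 1 := by omega
        calc 2 * (q*j) = q * (2*j) := by ring
          _ ≤ q * (p-1) := Nat.mul_le_mul_left q this
      have h2 : q * (p-1) + q = q*p := by
        obtain ⟨k, rfl⟩ : ∃ k, p = k+1 := ⟨p-1, by omega⟩
        simp; ring
      omega
    · intro i hi
      simp only [mem_filter, mem_Icc] at hi ⊢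
      obtain ⟨⟨h1, h2⟩, k, rfl⟩ := hi
      rw [Nat.mul_div_cancel_left k hq]
      have hk : 1 ≤ k := by
        rcases Nat.eq_zero_or_pos k with h | h
        · subst h; simp at h1
        · exact h
      refine ⟨hk, ?_⟩
      by_contra hlt
      have h3 : p + 1 ≤ 2 * k := by omega
      have h4 : q * (p+1) ≤ 2 * (q*k) := by
        calc q * (p+1) ≤ q * (2*k) := Nat.mul_le_mul_left q h3
          _ = 2 * (q*k) := by ring
      have h5 : q * (p+1) = q*p + q := by ring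
      omega
    · intro j hj
      exact Nat.mul_div_cancel_left j hq
    · intro i hi
      simp only [mem_filter, mem_Icc] at hi
      exact Nat.mul_div_cancel' hi.2
    · intro j hj
      simp only [mem_Icc] at hj
      unfold g
      have hj0 : (j:ℚ) ≠ 0 := by
        have : j ≠ 0 := by omega
        exact_mod_cast this
      have hq0 : (q:ℚ) ≠ 0 := by exact_mod_cast hq.ne'
      rw [hN']
      push_cast
      field_simp
  rw [e1, add_sub_cancel_left]
  apply I.sum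
  intro i hi
  simp only [mem_filter, mem_Icc] at hi
  have hb : 1 ≤ b := by
    by_contra h
    have : b = 0 := by omega
    apply hi.2
    rw [hqd, this]; simp
  have h2 := quot (p := p) (a := b+1) (s := b-1) (m := i) (by omega) (by
    rw [show b - 1 + 1 = b by omega]; exact hi.2) (by omega)
  rw [show b + 1 - (b-1) = 2 by omega] at h2
  unfold g
  rw [hN]
  push_cast
  exact (h2.pow 3).mono (by norm_num)

end Pool.Agent.Helper857.W
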