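import Pool.Agent.Helper857.W7

set_option autoImplicit false

namespace Pool.Agent.Helper857.W

open Finset Pad

variable {p : ℕ} [hp : Fact p.Prime]

lemma bern_mem (i : ℕ) (hi : i + 1 < p) : bernoulli i ∈ Zp p := by
  induction i using Nat.strong_induction_on with
  | _ i ih =>
    have h := sum_bernoulli (i+1)
    rw [sum_range_succ] at h
    have hc : ((i+1).choose i : ℚ) = ((i+1:ℕ):ℚ) := by
      rw [Nat.choose_succ_self_right]
    rw [hc] at h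
    have hnd : ¬ p ∣ (i+1) := fun hd => absurd (Nat.le_of_dvd (by omega) hd) (by omega)
    have hinv := inv_nat_mem (p := p) hnd
    have h0 : ((i+1:ℕ):ℚ) ≠ 0 := by positivity
    have e : bernoulli i = ((i+1:ℕ):ℚ)⁻¹ * ((if i + 1 = 1 then (1:ℚ) else 0) -
        ∑ k ∈ range i, ((i+1).choose k : ℚ) * bernoulli k) := by
      rw [← h]; field_simp; ring
    rw [e]
    apply (Zp p).mul_mem hinv
    apply (Zp p).sub_mem
    · split_ifs
      · exact (Zp p).one_mem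
      · exact (Zp p).zero_mem
    · apply (Zp p).sum_mem
      intro k hk
      rw [mem_range] at hk
      exact (Zp p).mul_mem (nat_mem _) (ih k hk (by omega))

lemma fermat (k : ℕ) (hk : ¬ p ∣ k) : I p 1 ((k:ℚ)^(p-1) - 1) := by
  have h0 : (k : ZMod p) ≠ 0 := by
    intro h; exact hk ((ZMod.natCast_eq_zero_iff k p).mp h)
  have h1 := ZMod.pow_card_sub_one_eq_one h0
  have h2 : (((k:ℤ)^(p-1) - 1 : ℤ) : ZMod p) = 0 := by
    push_cast; rw [h1]; ring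
  rw [ZMod.intCast_zmod_eq_zero_iff_dvd] at h2
  obtain ⟨c, hc⟩ := h2
  refine ⟨(c:ℚ), int_mem c, ?_⟩
  have : (((k:ℤ)^(p-1) - 1 : ℤ) : ℚ) = (((p:ℤ) * c : ℤ):ℚ) := by rw [hc]
  push_cast at this
  rw [this]; ring

lemma sub_pow (x : ℚ) (hx : x ∈ Zp p) (n : ℕ) :
    I p 2 ((x - p)^(n+1) - (x^(n+1) - (n+1) * p * x^n)) := by
  induction n with
  | zero => simpa using I.zero 2
  | succ n ih =>
    have e : (x - p)^(n+1+1) - (x^(n+1+1) - ((n+1:ℕ)+1) * p * x^(n+1)) =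
      ((x - p)^(n+1) - (x^(n+1) - (n+1) * p * x^n)) * (x - p) + (p:ℚ)^2 * ((n+1) * x^n) := by
      push_cast; ring
    rw [e]
    refine (ih.mul_mem ((Zp p).sub_mem hx (nat_mem p))).add ((I.p_pow 2).mul_mem ?_)
    exact (Zp p).mul_mem (by exact_mod_cast nat_mem (n+1)) ((Zp p).pow_mem hx n)

lemma even_sub_pow (x : ℚ) (hx : x ∈ Zp p) (n : ℕ) (hn : Even (n+1)) :
    I p 2 ((p - x)^(n+1) - (x^(n+1) - (n+1) * p * x^n)) := by
  have : ((p:ℚ) - x)^(n+1) = (x - p)^(n+1) := by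
    rw [← neg_sub, hn.neg_pow]
  rw [this]
  exact sub_pow x hx n

/-- power sum and Bernoulli number -/
lemma powsum (h5 : 5 ≤ p) :
    I p 2 (∑ k ∈ range p, (k:ℚ)^(p-3) - p * bernoulli (p-3)) := by
  obtain ⟨m, hm⟩ : ∃ m, p - 3 = m := ⟨_, rfl⟩
  rw [hm, sum_range_pow, sum_range_succ]
  have hc : ((m+1).choose m : ℚ) = (m:ℚ)+1 := by
    rw [Nat.choose_succ_self_right]; push_cast; ring
  rw [hc, show m + 1 - m = 1 by omega]
  have h0 : (m:ℚ)+1 ≠ 0 := by positivity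
  have e : ∑ i ∈ range m, bernoulli i * ((m+1).choose i : ℚ) * (p:ℚ)^(m+1-i)/((m:ℚ)+1) +
      bernoulli m * ((m:ℚ)+1) * (p:ℚ)^1/((m:ℚ)+1) - p * bernoulli m =
      ∑ i ∈ range m, bernoulli i * ((m+1).choose i : ℚ) * (p:ℚ)^(m+1-i)/((m:ℚ)+1) := by
    field_simp; ring
  rw [e]
  apply I.sum
  intro i hi
  rw [mem_range] at hi
  have hnd : ¬ p ∣ (m+1) := fun hd => absurd (Nat.le_of_dvd (by omega) hd) (by omega)
  have hinv := inv_nat_mem (p := p) hnd
  push_cast at hinv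
  have e2 : bernoulli i * ((m+1).choose i : ℚ) * (p:ℚ)^(m+1-i)/((m:ℚ)+1) =
    (p:ℚ)^(m+1-i) * (bernoulli i * ((m+1).choose i : ℚ) * ((m:ℚ)+1)⁻¹) := by
    rw [div_eq_mul_inv]; ring
  rw [e2]
  refine I.mono (show 2 ≤ m+1-i by omega) ((I.p_pow _).mul_mem ?_)
  exact (Zp p).mul_mem ((Zp p).mul_mem (bern_mem i (by omega)) (nat_mem _)) hinv

lemma harm3 (h5 : 5 ≤ p) :
    I p 1 (∑ j ∈ Icc 1 ((p-1)/2), 1/(j:ℚ)^3 + 2 * bernoulli (p-3)) := by
  have n3 : ¬ p ∣ 3 := fun h => absurd (Nat.le_of_dvd (by norm_num) h) (by omega)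
  have n2 : ¬ p ∣ 2 := fun h => absurd (Nat.le_of_dvd (by norm_num) h) (by omega)
  have hodd : p % 2 = 1 := by
    rcases hp.out.eq_two_or_odd with h | h
    · omega
    · exact h
  obtain ⟨c, hc⟩ : ∃ c, p = 2*c+1 := ⟨p/2, by omega⟩
  obtain ⟨n, hn⟩ : ∃ n, p - 3 = n + 1 := ⟨p - 4, by omega⟩
  have hpn : (p:ℚ) = n + 4 := by
    have : p = n + 4 := by omega
    rw [this]; push_cast; ring
  have hev : Even (n+1) := by rw [← hn]; exact ⟨c - 1, by omega⟩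
  have hps := powsum (p := p) h5
  rw [hn] at hps
  have m (n : ℕ) : ((n:ℕ):ℚ) ∈ Zp p := nat_mem n
  -- rewrite the power sum
  have hs0 : ∑ k ∈ range p, (k:ℚ)^(n+1) = ∑ k ∈ Icc 1 (2*c), (k:ℚ)^(n+1) := by
    have h1 : range p = insert 0 (Icc 1 (2*c)) := by
      ext x; simp only [mem_range, mem_insert, mem_Icc]; omega
    rw [h1, sum_insert (by simp)]
    simp
  rw [hs0] at hps
  set s := ∑ k ∈ Icc 1 (2*c), (k:ℚ)^(n+1) with hs
  set A := ∑ i ∈ Icc 1 c, (i:ℚ)^(n+1) with hA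
  set S' := ∑ i ∈ Icc 1 c, (i:ℚ)^n with hS'
  set B := bernoulli (n+1) with hB
  set u : ℚ := 2^(n+1) with hu
  have d1 : I p 2 (s - (2 * A - (n+1) * p * S')) := by
    rw [hs, halves, hA, hS', mul_sum, mul_sum, ← sum_sub_distrib, ← sum_sub_distrib]
    apply I.sum
    intro i hi
    rw [mem_Icc] at hi
    have e1 : ((2*c+1-i:ℕ):ℚ) = (p:ℚ) - i := by
      rw [Nat.cast_sub (by omega), hc]
    rw [e1]
    have := even_sub_pow (p := p) (i:ℚ) (m i) n hev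
    have e : (i:ℚ)^(n+1) + ((p:ℚ) - i)^(n+1) - (2 * (i:ℚ)^(n+1) - (n+1) * p * (i:ℚ)^n) =
      (p - (i:ℚ))^(n+1) - ((i:ℚ)^(n+1) - (n+1) * p * (i:ℚ)^n) := by ring
    rw [e]; exact this
  have d2 : I p 2 (s - (2 * u * A - (n+1) * p * (u * (1/2)) * S')) := by
    rw [hs, parity, hA, hS', mul_sum, mul_sum, ← sum_sub_distrib, ← sum_sub_distrib]
    apply I.sum
    intro i hi
    rw [mem_Icc] at hi
    have e1 : ((2*c+1-2*i:ℕ):ℚ) = (p:ℚ) - 2*i := by
      rw [Nat.cast_sub (by omega), hc]; push_cast; ring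
    rw [e1]
    have := even_sub_pow (p := p) (2*(i:ℚ)) (by exact_mod_cast m (2*i)) n hev
    have e2 : ((2*i:ℕ):ℚ) = 2 * (i:ℚ) := by push_cast; ring
    rw [e2]
    have e : (2*(i:ℚ))^(n+1) + ((p:ℚ) - 2*i)^(n+1) - (2 * u * (i:ℚ)^(n+1) - (n+1) * p * (u * (1/2)) * (i:ℚ)^n) =
      (p - (2*(i:ℚ)))^(n+1) - ((2*(i:ℚ))^(n+1) - (n+1) * p * (2*(i:ℚ))^n) := by
      rw [hu, mul_pow, mul_pow, pow_succ 2 n]; ring
    rw [e]; exact this
  have mu : u ∈ Zp p := by rw [hu]; exact (Zp p).pow_mem (by exact_mod_cast m 2) _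
  have mS : S' ∈ Zp p := by
    rw [hS']; apply (Zp p).sum_mem; intro i _; exact (Zp p).pow_mem (m i) _
  have fu : I p 1 (4 * u - 1) := by
    have := fermat (p := p) 2 n2
    have e : ((2:ℕ):ℚ)^(p-1) - 1 = 4 * u - 1 := by
      rw [hu, show p - 1 = n + 1 + 2 by omega]; push_cast; ring
    rw [← e]; exact this
  have hB1 : B ∈ Zp p := by rw [hB]; exact bern_mem _ (by omega)
  have s1 : I p 1 s := by
    have e : s = (s - p * B) + (p:ℚ)^1 * B := by ring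
    rw [e]
    exact (hps.mono (by norm_num)).add ((I.p_pow 1).mul_mem hB1)
  have pS : I p 1 (p * S') := by
    have := (I.p_pow (p := p) 1).mul_mem mS
    simpa using this
  have d3 : I p 2 (2 * s + p * S') := by
    apply I.cancel n3
    have e : ((3:ℕ):ℚ) * (2 * s + p * S') =
      8 * ((s - (2 * u * A - (n+1) * p * (u * (1/2)) * S')) - u * (s - (2 * A - (n+1) * p * S'))) +
      2 * ((4 * u - 1) * s) + (p * S') * ((4 * u - 1) * (n+1)) + ((p:ℚ)^1 * (p * S')) * 1 := by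
      rw [hpn]; push_cast; ring
    rw [e]
    have t1 : I p 2 (8 * ((s - (2 * u * A - (n+1) * p * (u * (1/2)) * S')) - u * (s - (2 * A - (n+1) * p * S')))) :=
      I.mem_mul (by exact_mod_cast m 8) (d2.sub (I.mem_mul mu d1))
    have t2 : I p 2 (2 * ((4 * u - 1) * s)) := I.mem_mul (by exact_mod_cast m 2) (fu.mul s1)
    have t3 : I p 2 ((p * S') * ((4 * u - 1) * (n+1))) :=
      pS.mul (fu.mul_mem (by exact_mod_cast m (n+1)))
    have t4 : I p 2 (((p:ℚ)^1 * (p * S')) * 1) :=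
      ((I.p_pow 1).mul pS).mul_mem ((Zp p).one_mem)
    exact ((t1.add t2).add t3).add t4
  have d4 : I p 1 (2 * B + S') := by
    apply I.cancel_p
    have e : (p:ℚ) * (2 * B + S') = (2 * s + p * S') - 2 * (s - p * B) := by ring
    rw [e]
    exact d3.sub (I.mem_mul (by exact_mod_cast m 2) hps)
  have hcc : (p-1)/2 = c := by omega
  rw [hcc, hn]
  have d5 : I p 1 (∑ j ∈ Icc 1 c, 1/(j:ℚ)^3 - S') := by
    rw [hS', ← sum_sub_distrib]
    apply I.sum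
    intro i hi
    rw [mem_Icc] at hi
    have hnd : ¬ p ∣ i := fun hd => absurd (Nat.le_of_dvd (by omega) hd) (by omega)
    have hf := fermat (p := p) i hnd
    have hinv := inv_nat_mem (p := p) hnd
    have hi0 : (i:ℚ) ≠ 0 := by
      have : i ≠ 0 := by omega
      exact_mod_cast this
    have e : 1/(i:ℚ)^3 - (i:ℚ)^n = -((i:ℚ)^(p-1) - 1) * ((i:ℚ)⁻¹)^3 := by
      rw [show p - 1 = n + 3 by omega, pow_add]
      field_simp
      ring
    rw [e]
    exact hf.neg.mul_mem ((Zp p).pow_mem hinv 3)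
  have e : ∑ j ∈ Icc 1 c, 1/(j:ℚ)^3 + 2 * bernoulli (n+1) = (∑ j ∈ Icc 1 c, 1/(j:ℚ)^3 - S') + (2 * B + S') := by
    ring
  rw [e]
  exact d5.add d4

end Pool.Agent.Helper857.W
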