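import Pool.Agent.Helper857.W2

set_option autoImplicit false

namespace Pool.Agent.Helper857.X

open Finset

/-- the summand without its linear factor -/
noncomputable def t (n : ℕ) : ℚ := ((2*n).choose n : ℚ)^2 * ((3*n).choose n : ℚ) / (-192)^n

noncomputable def rho (n K : ℕ) : ℚ :=
  -3 * ((2*(n:ℚ)+2*K+1) * ((n:ℚ)-K)) / ((2*(n:ℚ)-2*K-1) * (2*(n:ℚ)+K+2))

noncomputable def h (n K : ℕ) : ℚ := t n / (2*(n:ℚ)+1) * ∏ i ∈ range K, rho n i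

noncomputable def F (n K : ℕ) : ℚ := ((5*(n:ℚ)+1)*(2*n+1) + 2*K*n) * h n K

noncomputable def G (n K : ℕ) : ℚ := 16 * n * ((n:ℚ)-K) * (2*n+K+1) / (2*(n:ℚ)-2*K-1) * h n K

lemma t_eq (n : ℕ) : t n = ((2*n).factorial : ℚ) * ((3*n).factorial) / ((n.factorial:ℚ)^5 * (-192)^n) := by
  unfold t
  rw [Nat.cast_choose ℚ (show n ≤ 2*n by omega), Nat.cast_choose ℚ (show n ≤ 3*n by omega)]
  rw [show 2*n - n = n by omega, show 3*n - n = 2*n by omega]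
  have h1 : (n.factorial:ℚ) ≠ 0 := by exact_mod_cast n.factorial_ne_zero
  have h2 : ((2*n).factorial:ℚ) ≠ 0 := by exact_mod_cast (2*n).factorial_ne_zero
  field_simp

lemma t_succ (n : ℕ) : t (n+1) = t n * (-((2*n+1) * (3*n+1) * (3*n+2))) / (32 * ((n:ℚ)+1)^3) * 1 := by
  rw [t_eq, t_eq]
  have h1 : (n.factorial:ℚ) ≠ 0 := by exact_mod_cast n.factorial_ne_zero
  rw [show 2*(n+1) = 2*n+1+1 by ring, show 3*(n+1) = 3*n+1+1+1 by ring]
  rw [Nat.factorial_succ (2*n+1), Nat.factorial_succ (2*n), Nat.factorial_succ (3*n+1+1),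
    Nat.factorial_succ (3*n+1), Nat.factorial_succ (3*n), Nat.factorial_succ n]
  push_cast
  have h3 : (n:ℚ) + 1 ≠ 0 := by positivity
  rw [pow_succ (-192:ℚ) n]
  field_simp
  ring

lemma odd_ne (n j : ℕ) : (2*(n:ℚ) - 2*j - 1) ≠ 0 := by
  intro h
  have : (2*(n:ℤ) - 2*j - 1) = 0 := by exact_mod_cast h
  omega

lemma odd_ne' (n j : ℕ) : (2*(n:ℚ) - 2*j + 1) ≠ 0 := by
  intro h
  have : (2*(n:ℤ) - 2*j + 1) = 0 := by exact_mod_cast h
  omega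

lemma h_succ (n j : ℕ) : h n (j+1) = h n j * rho n j := by
  unfold h; rw [prod_range_succ]; ring

lemma h_zero {n K : ℕ} (hK : n < K) : h n K = 0 := by
  unfold h
  have : ∏ i ∈ range K, rho n i = 0 := by
    apply Finset.prod_eq_zero (i := n) (by rw [mem_range]; omega)
    unfold rho
    simp
  rw [this, mul_zero]

lemma kappa (n K : ℕ) : ((n:ℚ) + 1 - K) * h (n+1) K =
    -((2*(n:ℚ)+2*K+1) * (2*(n:ℚ) - 2*K + 1) * (3*n+1) * (3*n+2)) /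
      (16 * ((n:ℚ)+1) * (2*(n:ℚ)+K+2) * (2*(n:ℚ)+K+3)) * h n K := by
  induction K with
  | zero =>
    simp only [h, prod_range_zero, mul_one, t_succ]
    have h3 : (n:ℚ) + 1 ≠ 0 := by positivity
    have h4 : 2*((n:ℚ)+1) + 1 ≠ 0 := by positivity
    have h5 : 2*(n:ℚ)+1 ≠ 0 := by positivity
    have h6 : 2*(n:ℚ)+2 ≠ 0 := by positivity
    have h7 : 2*(n:ℚ)+3 ≠ 0 := by positivity
    push_cast
    simp only [mul_zero, sub_zero, add_zero]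
    field_simp
    ring
  | succ K ih =>
    rw [h_succ, h_succ]
    have e1 : ((n:ℚ) + 1 - ((K+1:ℕ):ℚ)) * (h (n+1) K * rho (n+1) K) =
        (((n:ℚ) + 1 - K) * h (n+1) K) *
        (-3 * ((2*(n:ℚ)+2*K+3) * ((n:ℚ)-K)) / ((2*(n:ℚ)-2*K+1) * (2*(n:ℚ)+K+4))) := by
      unfold rho
      have := odd_ne' n K
      have h4 : 2*(n:ℚ) + K + 4 ≠ 0 := by positivity
      push_cast
      rw [show 2 * ((n:ℚ)+1) - 2*K - 1 = 2*(n:ℚ) - 2*K + 1 by ring, show 2*((n:ℚ)+1)+K+2 = 2*(n:ℚ)+K+4 by ring]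
      generalize hd : 2*(n:ℚ) - 2*K + 1 = d at *
      field_simp
      ring
    rw [e1, ih]
    unfold rho
    have h1 := odd_ne' n K
    have h2 := odd_ne n K
    have h3 : (n:ℚ) + 1 ≠ 0 := by positivity
    have h4 : 2*(n:ℚ) + K + 2 ≠ 0 := by positivity
    have h5 : 2*(n:ℚ) + K + 3 ≠ 0 := by positivity
    have h6 : 2*(n:ℚ) + K + 4 ≠ 0 := by positivity
    push_cast
    rw [show (2 * (n:ℚ) - 2 * ((K:ℚ) + 1) + 1) = 2 * (n:ℚ) - 2*K - 1 by ring,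
      show 2*(n:ℚ) + ((K:ℚ) + 1) + 2 = 2*n + K + 3 by ring,
      show 2*(n:ℚ) + ((K:ℚ) + 1) + 3 = 2*n + K + 4 by ring]
    generalize hd : 2*(n:ℚ) - 2*K + 1 = d at *
    generalize he : 2*(n:ℚ) - 2*K - 1 = e at *
    field_simp
    ring

lemma wz (n K : ℕ) : G (n+1) K - G n K = F n (K+1) - F n K := by
  have e1 : G (n+1) K = -((2*(n:ℚ)+2*K+1) * (3*n+1) * (3*n+2)) / (2*(n:ℚ)+K+2) * h n K := by
    unfold G
    have h1 := odd_ne' n K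
    have h3 : (n:ℚ) + 1 ≠ 0 := by positivity
    have h5 : 2*(n:ℚ)+K+2 ≠ 0 := by positivity
    have h6 : 2*(n:ℚ)+K+3 ≠ 0 := by positivity
    have k := kappa n K
    have : 16 * ((n+1:ℕ):ℚ) * (((n+1:ℕ):ℚ) - K) * (2 * ((n+1:ℕ):ℚ) + K + 1) / (2*((n+1:ℕ):ℚ) - 2*K - 1) * h (n+1) K =
        16 * ((n:ℚ)+1) * (2*(n:ℚ)+K+3) / (2*(n:ℚ) - 2*K + 1) * (((n:ℚ) + 1 - K) * h (n+1) K) := by
      push_cast
      rw [show 2 * ((n:ℚ)+1) - 2*K - 1 = 2*(n:ℚ) - 2*K + 1 by ring]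
      ring
    rw [this, k]
    generalize hd : 2*(n:ℚ) - 2*K + 1 = d at *
    field_simp
  rw [e1]
  unfold F G
  rw [h_succ]
  unfold rho
  have h2 := odd_ne n K
  have h5 : 2*(n:ℚ)+K+2 ≠ 0 := by positivity
  push_cast
  generalize he : 2*(n:ℚ) - 2*K - 1 = e at *
  field_simp
  subst he
  ring

lemma sum_G (J N : ℕ) (hN : N ≤ J) :
    ∑ n ∈ range N, (5*(n:ℚ)+1) * t n = - ∑ K ∈ range J, G N K := by
  induction N with
  | zero => simp [G]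
  | succ N ih =>
    rw [sum_range_succ, ih (by omega)]
    have : ∑ K ∈ range J, G (N+1) K = ∑ K ∈ range J, G N K + ∑ K ∈ range J, (F N (K+1) - F N K) := by
      rw [← sum_add_distrib]
      apply sum_congr rfl
      intro j _
      rw [← wz]; ring
    rw [this, sum_range_sub (fun K => F N K)]
    unfold F
    rw [h_zero (show N < J by omega)]
    unfold h
    have : 2*(N:ℚ)+1 ≠ 0 := by positivity
    simp
    field_simp
    ring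

lemma G_step (n K : ℕ) : G n (K+1) * ((2*(n:ℚ)+K+1) * (2*(n:ℚ) - 2*K - 3)) =
    -3 * ((2*(n:ℚ)+2*K+1) * ((n:ℚ)-K-1)) * G n K := by
  unfold G
  rw [h_succ]
  unfold rho
  have h2 := odd_ne n K
  have h3 := odd_ne n (K+1)
  have h5 : 2*(n:ℚ) + K + 1 ≠ 0 := by positivity
  have h6 : 2*(n:ℚ) + K + 2 ≠ 0 := by positivity
  have h8 : 2*(n:ℚ) - 2*K - 3 ≠ 0 := by
    push_cast at h3; intro h; apply h3; linarith
  push_cast
  rw [show 2*(n:ℚ) - 2*((K:ℚ)+1) - 1 = 2*(n:ℚ) - 2*K - 3 by ring]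
  generalize he : 2*(n:ℚ) - 2*K - 1 = e at *
  generalize hf : 2*(n:ℚ) - 2*K - 3 = f at *
  field_simp
  ring

/-- forward terms -/
noncomputable def fw (N : ℚ) (r : ℕ) : ℚ :=
  ∏ i ∈ range r, ((-1/3) * ((2*(i:ℚ)+N)*(2*i+1-5*N)/((2*i+1+N)*(2*i+2-3*N))))

/-- backward terms -/
noncomputable def bk (N : ℚ) (s : ℕ) : ℚ :=
  ∏ i ∈ range s, ((-3) * ((2*(i:ℚ)+3*N)*(2*i+1-N)/((2*i+2-N)*(2*i+1+5*N))))

lemma G_bk (R s : ℕ) (hs : s ≤ R) : G (2*R+1) (R + s) = G (2*R+1) R * bk ((2*R+1:ℕ):ℚ) s := by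
  induction s with
  | zero => simp [bk]
  | succ s ih =>
    have ih' := ih (by omega)
    have st := G_step (2*R+1) (R+s)
    have hw : bk ((2*R+1:ℕ):ℚ) (s+1) = bk ((2*R+1:ℕ):ℚ) s *
        ((-3) * ((2*(s:ℚ)+3*((2*R+1:ℕ):ℚ))*(2*s+1-((2*R+1:ℕ):ℚ))/((2*s+2-((2*R+1:ℕ):ℚ))*(2*s+1+5*((2*R+1:ℕ):ℚ))))) := by
      unfold bk; rw [prod_range_succ]
    rw [hw, ← mul_assoc (G (2*R+1) R), ← ih', show R + (s+1) = R + s + 1 by ring]
    set N : ℚ := ((2*R+1:ℕ):ℚ) with hN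
    have hNpos : 0 < N := by rw [hN]; positivity
    have hRN : (R:ℚ) = (N-1)/2 := by rw [hN]; push_cast; ring
    have h1 : (2*(s:ℚ)+2-N) ≠ 0 := by
      have h9 := odd_ne R s
      intro h; apply h9
      rw [hRN]; linarith
    have h2 : (2*(s:ℚ)+1+5*N) ≠ 0 := by positivity
    have hc : ((R+s:ℕ):ℚ) = (N-1)/2 + s := by push_cast; rw [hRN]
    rw [hc] at st
    have st2 : G (2*R+1) (R+s+1) * ((2*(s:ℚ)+1+5*N) * (2*(s:ℚ)+2-N)) =
        -3 * ((2*(s:ℚ)+3*N) * (2*(s:ℚ)+1-N)) * G (2*R+1) (R+s) := by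
      linear_combination (-2) * st
    generalize hd : (2*(s:ℚ)+2-N) = d at *
    generalize he : (2*(s:ℚ)+1+5*N) = e at *
    have : G (2*R+1) (R+s+1) = -3 * ((2*(s:ℚ)+3*N) * (2*(s:ℚ)+1-N)) * G (2*R+1) (R+s) / (e * d) := by
      rw [eq_div_iff (mul_ne_zero h2 h1)]; exact st2
    rw [this]
    field_simp

lemma G_fw (R r : ℕ) (hr : r ≤ R) : G (2*R+1) (R - r) = G (2*R+1) R * fw ((2*R+1:ℕ):ℚ) r := by
  induction r with
  | zero => simp [fw]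
  | succ r ih =>
    have ih' := ih (by omega)
    obtain ⟨j, hj⟩ : ∃ j, R = j + r + 1 := ⟨R - r - 1, by omega⟩
    have e1 : R - r = j + 1 := by omega
    have e2 : R - (r+1) = j := by omega
    rw [e1] at ih'
    rw [e2]
    have st := G_step (2*R+1) j
    have hw : fw ((2*R+1:ℕ):ℚ) (r+1) = fw ((2*R+1:ℕ):ℚ) r *
        ((-1/3) * ((2*(r:ℚ)+((2*R+1:ℕ):ℚ))*(2*r+1-5*((2*R+1:ℕ):ℚ))/((2*r+1+((2*R+1:ℕ):ℚ))*(2*r+2-3*((2*R+1:ℕ):ℚ))))) := by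
      unfold fw; rw [prod_range_succ]
    rw [hw, ← mul_assoc (G (2*R+1) R), ← ih']
    set N : ℚ := ((2*R+1:ℕ):ℚ) with hN
    have hNpos : 0 < N := by rw [hN]; positivity
    have hjN : (j:ℚ) = (N-1)/2 - r - 1 := by rw [hN, hj]; push_cast; ring
    have hj0 : (0:ℚ) ≤ j := by positivity
    have h1 : (2*(r:ℚ)+1+N) ≠ 0 := by positivity
    have h2 : (2*(r:ℚ)+2-3*N) ≠ 0 := by
      have : (2*(r:ℚ)+2-3*N) < 0 := by rw [hjN] at hj0; linarith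
      exact this.ne
    rw [hjN] at st
    have st2 : G (2*R+1) j * ((2*(r:ℚ)+1+N) * (2*(r:ℚ)+2-3*N)) =
        (-1/3) * ((2*(r:ℚ)+N) * (2*(r:ℚ)+1-5*N)) * G (2*R+1) (j+1) := by
      linear_combination (-2/3) * st
    generalize hd : (2*(r:ℚ)+2-3*N) = d at *
    generalize he : (2*(r:ℚ)+1+N) = e at *
    have : G (2*R+1) j = (-1/3) * ((2*(r:ℚ)+N) * (2*(r:ℚ)+1-5*N)) * G (2*R+1) (j+1) / (e * d) := by
      rw [eq_div_iff (mul_ne_zero h1 h2)]; exact st2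
    rw [this]
    field_simp

lemma S_eq (R : ℕ) : ∑ n ∈ range (2*R+1), (5*(n:ℚ)+1) * t n =
    - G (2*R+1) R * (1 + ∑ r ∈ range R, fw ((2*R+1:ℕ):ℚ) (r+1) + ∑ s ∈ range R, bk ((2*R+1:ℕ):ℚ) (s+1)) := by
  rw [sum_G (2*R+1) (2*R+1) le_rfl]
  have e1 : ∑ K ∈ range (2*R+1), G (2*R+1) K = ∑ K ∈ range (R+1), G (2*R+1) K + ∑ s ∈ range R, G (2*R+1) (R + (s+1)) := by
    rw [show 2*R+1 = (R+1) + R by ring, sum_range_add]
    congr 1
    apply sum_congr rfl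
    intro s _
    congr 1; ring
  have e2 : ∑ K ∈ range (R+1), G (2*R+1) K = ∑ r ∈ range (R+1), G (2*R+1) (R - r) := by
    rw [← sum_range_reflect]
    apply sum_congr rfl
    intro r _
    congr 1
  rw [e1, e2, sum_range_succ']
  have e3 : ∑ r ∈ range R, G (2*R+1) (R - (r+1)) = G (2*R+1) R * ∑ r ∈ range R, fw ((2*R+1:ℕ):ℚ) (r+1) := by
    rw [mul_sum]
    apply sum_congr rfl
    intro r hr
    rw [mem_range] at hr
    exact G_fw R (r+1) (by omega)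
  have e4 : ∑ s ∈ range R, G (2*R+1) (R + (s+1)) = G (2*R+1) R * ∑ s ∈ range R, bk ((2*R+1:ℕ):ℚ) (s+1) := by
    rw [mul_sum]
    apply sum_congr rfl
    intro r hr
    rw [mem_range] at hr
    exact G_bk R (r+1) (by omega)
  rw [e3, e4, Nat.sub_zero]
  ring

end Pool.Agent.Helper857.X
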