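import Pool.Agent.Helper857.X5

set_option autoImplicit false

namespace Pool.Agent.Helper857.X

open Finset Pad
open Pool.Agent.Helper857.W (g g_I g_two sum_shift fermat)

variable {p : ℕ} [hp : Fact p.Prime]

noncomputable def al (N : ℚ) (r : ℕ) : ℚ := ∑ m ∈ Icc 1 (2*r), (-1)^m * g N m

lemma al_eq (N : ℚ) (r : ℕ) : al N r = 1/2 * hh N r - oo N r := by
  unfold al
  rw [sum_shift]
  induction r with
  | zero => simp [hh, oo]
  | succ r ih =>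
    rw [show 2*(r+1) = 2*r+1+1 by ring, sum_range_succ, sum_range_succ, ih, hh_succ, oo_succ]
    have e1 : (-1:ℚ)^(2*r+1) = -1 := by rw [pow_succ, pow_mul]; norm_num
    have e2 : (-1:ℚ)^(2*r+1+1) = 1 := by rw [pow_succ, e1]; norm_num
    have e3 : g N (2*r+1+1) = g N (r+1) * (2:ℚ)⁻¹ := by
      rw [← g_two]; congr 1
    rw [e1, e2, e3]
    ring

/-- a single term of the second order part -/
noncomputable def qt (N : ℚ) (r : ℕ) : ℚ :=
  (-1/3)^r * (g N r * (1/2)) * (5 * al N r - g N r) + (-3)^r * (3 * g N r * (1/2)) * (5 * al N r - 2 * g N r)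

lemma Qp_eq (N : ℚ) (R : ℕ) : Qp N R = ∑ r ∈ Icc 1 R, qt N r := by
  rw [sum_shift]
  unfold Qp qt
  apply sum_congr rfl
  intro r _
  rw [al_eq]; ring

lemma sum_mult (q M c : ℕ) (hq : 0 < q) (hc : c < q) (f : ℕ → ℚ) :
    ∑ m ∈ (Icc 1 (q*M+c)).filter (fun m => q ∣ m), f m = ∑ m ∈ Icc 1 M, f (q*m) := by
  symm
  apply sum_nbij' (fun j => q*j) (fun i => i/q)
  · intro j hj
    simp only [mem_filter, mem_Icc] at hj ⊢
    refine ⟨⟨Nat.mul_pos hq (by omega), ?_⟩, dvd_mul_right _ _⟩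
    exact (Nat.mul_le_mul_left q hj.2).trans (Nat.le_add_right _ _)
  · intro i hi
    simp only [mem_filter, mem_Icc] at hi ⊢
    obtain ⟨⟨h1, h2⟩, k, rfl⟩ := hi
    rw [Nat.mul_div_cancel_left k hq]
    constructor
    · rcases Nat.eq_zero_or_pos k with h | h
      · subst h; simp at h1
      · exact h
    · by_contra hlt
      have h3 : q * (M+1) ≤ q * k := Nat.mul_le_mul_left q (by omega)
      have h4 : q * (M+1) = q*M+q := by ring
      omega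
  · intro j hj
    exact Nat.mul_div_cancel_left j hq
  · intro i hi
    simp only [mem_filter, mem_Icc] at hi
    exact Nat.mul_div_cancel' hi.2
  · intro j hj; rfl

lemma class_sum (k q M c : ℕ) (hq : 0 < q) (hc : c < q) (f : ℕ → ℚ)
    (hf : ∀ m, 1 ≤ m → m ≤ q*M+c → ¬ q ∣ m → I p k (f m)) :
    I p k (∑ m ∈ Icc 1 (q*M+c), f m - ∑ m ∈ Icc 1 M, f (q*m)) := by
  rw [← sum_filter_add_sum_filter_not (Icc 1 (q*M+c)) (fun m => q ∣ m), sum_mult q M c hq hc, add_sub_cancel_left]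
  apply I.sum
  intro m hm
  simp only [mem_filter, mem_Icc] at hm
  exact hf m hm.1.1 hm.1.2 hm.2

variable {b R R0 : ℕ} (hN : 2*R+1 = p^(b+1)) (h0 : 2*R0+1 = p) (h5 : 5 ≤ p)

include hN h0 h5

lemma R_eq : R = p^b * R0 + (p^b-1)/2 ∧ (p^b-1)/2 < p^b := by
  have hq : 0 < p^b := pow_pos hp.out.pos b
  have hodd : (p^b) % 2 = 1 := by
    have h1 : Odd p := ⟨R0, h0.symm⟩
    exact Nat.odd_iff.mp h1.pow
  refine ⟨?_, by omega⟩
  have h1 : 2*R+1 = p^b * (2*R0+1) := by rw [h0, hN, pow_succ]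
  obtain ⟨c, hc⟩ : ∃ c, p^b = 2*c+1 := ⟨p^b/2, by omega⟩
  have h2 : p^b * (2*R0+1) = 2 * (p^b * R0) + p^b := by ring
  have h3 : (p^b-1)/2 = c := by omega
  rw [h3]
  omega

lemma g_class (m : ℕ) (hm : 1 ≤ m) : g ((2*R+1:ℕ):ℚ) (p^b*m) = g (p:ℚ) m := by
  have hp0 : (p:ℚ) ≠ 0 := by exact_mod_cast hp.out.ne_zero
  have hm0 : (m:ℚ) ≠ 0 := by
    have : m ≠ 0 := by omega
    exact_mod_cast this
  unfold g
  rw [hN]
  push_cast
  rw [pow_succ]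
  field_simp

lemma g_notclass {m : ℕ} (hm : 1 ≤ m) (hd : ¬ p^b ∣ m) : I p 2 (g ((2*R+1:ℕ):ℚ) m) := by
  have hb : 1 ≤ b := by
    by_contra h
    have : b = 0 := by omega
    apply hd
    rw [this]; simp
  have h2 := quot (p := p) (a := b+1) (s := b-1) (m := m) (by omega) (by
    rw [show b - 1 + 1 = b by omega]; exact hd) (by omega)
  rw [show b + 1 - (b-1) = 2 by omega] at h2
  unfold g
  rw [hN]
  push_cast
  exact h2

lemma al_class {r : ℕ} (hr : r ≤ R0) : I p 2 (al ((2*R+1:ℕ):ℚ) (p^b*r) - al (p:ℚ) r) := by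
  have hq : 0 < p^b := pow_pos hp.out.pos b
  have hodd : Odd (p^b) := by
    have h1 : Odd p := ⟨R0, h0.symm⟩
    exact h1.pow
  have := class_sum (p := p) 2 (p^b) (2*r) 0 hq hq (fun m => (-1:ℚ)^m * g ((2*R+1:ℕ):ℚ) m) (by
    intro m h1 h2 h3
    apply I.mem_mul
    · exact (Zp p).pow_mem ((Zp p).neg_mem (Zp p).one_mem) _
    · exact g_notclass hN h0 h5 h1 h3)
  unfold al
  rw [show 2 * (p^b*r) = p^b*(2*r)+0 by ring]
  have e : ∑ m ∈ Icc 1 (2*r), (-1:ℚ)^(p^b*m) * g ((2*R+1:ℕ):ℚ) (p^b*m) = ∑ m ∈ Icc 1 (2*r), (-1)^m * g (p:ℚ) m := by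
    apply sum_congr rfl
    intro m hm
    rw [mem_Icc] at hm
    rw [g_class hN h0 h5 m hm.1, pow_mul, hodd.neg_one_pow]
  rw [e] at this
  exact this

omit hN h0 h5 in
lemma unit_pow_class {z : ℤ} (hz : ¬ (p:ℤ) ∣ z) (b : ℕ) : I p 1 ((z:ℚ)^(p^b) - z) := by
  have h1 : ((z^(p^b) - z : ℤ) : ZMod p) = 0 := by
    push_cast
    rw [ZMod.pow_card_pow]; ring
  rw [ZMod.intCast_zmod_eq_zero_iff_dvd] at h1
  obtain ⟨c, hc⟩ := h1
  refine ⟨(c:ℚ), int_mem c, ?_⟩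
  have : (((z:ℤ)^(p^b) - z : ℤ) : ℚ) = (((p:ℤ) * c : ℤ):ℚ) := by rw [hc]
  push_cast at this
  rw [this]; ring

omit hN h0 h5 in
lemma pow_diff {x y : ℚ} (hx : x ∈ Zp p) (hy : y ∈ Zp p) (h : I p 1 (x - y)) (n : ℕ) : I p 1 (x^n - y^n) := by
  induction n with
  | zero => simpa using I.zero 1
  | succ n ih =>
    have e : x^(n+1) - y^(n+1) = (x^n - y^n) * x + (x - y) * y^n := by ring
    rw [e]
    exact (ih.mul_mem hx).add (h.mul_mem ((Zp p).pow_mem hy n))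

lemma pow3_class (r : ℕ) : I p 1 ((-3:ℚ)^(p^b*r) - (-3)^r) ∧ I p 1 ((-1/3:ℚ)^(p^b*r) - (-1/3)^r) := by
  have h3 : ¬ (p:ℤ) ∣ (-3) := by
    intro h
    have h' : (p:ℤ) ∣ 3 := by simpa using h
    have : p ∣ 3 := by exact_mod_cast h'
    have := Nat.le_of_dvd (by norm_num) this
    omega
  have m3 : (-3:ℚ) ∈ Zp p := by exact_mod_cast int_mem (-3)
  have m3' := third_mem (p := p) h5
  have k := unit_pow_class h3 b
  push_cast at k
  have k2 : I p 1 ((-1/3:ℚ)^(p^b) - (-1/3)) := by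
    have e0 : (-1/3:ℚ)^(p^b) * (-3)^(p^b) = 1 := by rw [← mul_pow]; norm_num
    have e : (-1/3:ℚ)^(p^b) - (-1/3) = ((-3:ℚ)^(p^b) - (-3)) * ((1/3) * (-1/3)^(p^b)) := by
      linear_combination (-1/3) * e0
    rw [e]
    have : (1/3:ℚ) ∈ Zp p := by
      have : (1/3:ℚ) = -(-1/3) := by norm_num
      rw [this]; exact (Zp p).neg_mem m3'
    exact k.mul_mem ((Zp p).mul_mem this ((Zp p).pow_mem m3' _))
  constructor
  · rw [pow_mul]
    exact pow_diff ((Zp p).pow_mem m3 _) m3 k r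
  · rw [pow_mul]
    exact pow_diff ((Zp p).pow_mem m3' _) m3' k2 r

lemma al_I {r : ℕ} (hr : r ≤ R) : I p 1 (al ((2*R+1:ℕ):ℚ) r) := by
  unfold al
  apply I.sum
  intro m hm
  rw [mem_Icc] at hm
  apply I.mem_mul
  · exact (Zp p).pow_mem ((Zp p).neg_mem (Zp p).one_mem) _
  · exact gI (a := b+1) (by omega) hN h5 hm.1 (by omega)

lemma Qp_class : I p 3 (Qp ((2*R+1:ℕ):ℚ) R - Qp (p:ℚ) R0) := by
  have hq : 0 < p^b := pow_pos hp.out.pos b
  obtain ⟨hR, hc⟩ := R_eq hN h0 h5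
  have m2 := halfm (p := p) h5
  have m3' := third_mem (p := p) h5
  have m3 : (-3:ℚ) ∈ Zp p := by exact_mod_cast int_mem (-3)
  have n (k : ℕ) : ((k:ℕ):ℚ) ∈ Zp p := nat_mem k
  have n5 : (5:ℚ) ∈ Zp p := by exact_mod_cast n 5
  have n2 : (2:ℚ) ∈ Zp p := by exact_mod_cast n 2
  have n3 : (3:ℚ) ∈ Zp p := by exact_mod_cast n 3
  rw [Qp_eq, Qp_eq]
  have k1 := class_sum (p := p) 3 (p^b) R0 ((p^b-1)/2) hq hc (fun r => qt ((2*R+1:ℕ):ℚ) r) (by
    intro r h1 h2 h3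
    rw [← hR] at h2
    have g2 := g_notclass hN h0 h5 h1 h3
    have a1 := al_I hN h0 h5 h2
    unfold qt
    have p1 : I p 2 ((-1/3)^r * (g ((2*R+1:ℕ):ℚ) r * (1/2))) := I.mem_mul ((Zp p).pow_mem m3' _) (g2.mul_mem m2)
    have p2 : I p 2 ((-3)^r * (3 * g ((2*R+1:ℕ):ℚ) r * (1/2))) := I.mem_mul ((Zp p).pow_mem m3 _) ((I.mem_mul n3 g2).mul_mem m2)
    have g1 : I p 1 (g ((2*R+1:ℕ):ℚ) r) := g2.mono (by norm_num)
    exact (p1.mul ((I.mem_mul n5 a1).sub g1)).add (p2.mul ((I.mem_mul n5 a1).sub (I.mem_mul n2 g1))))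
  rw [← hR] at k1
  have k2 : I p 3 (∑ r ∈ Icc 1 R0, qt ((2*R+1:ℕ):ℚ) (p^b*r) - ∑ r ∈ Icc 1 R0, qt (p:ℚ) r) := by
    rw [← sum_sub_distrib]
    apply I.sum
    intro r hr
    rw [mem_Icc] at hr
    obtain ⟨w1, w2⟩ := pow3_class (b := b) hN h0 h5 r
    have ac := al_class hN h0 h5 hr.2
    have hle : p^b*r ≤ R := by
      rw [hR]
      exact (Nat.mul_le_mul_left _ hr.2).trans (Nat.le_add_right _ _)
    have a1 := al_I hN h0 h5 hle
    have gc := g_class hN h0 h5 r hr.1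
    have g1 : I p 1 (g ((2*R+1:ℕ):ℚ) (p^b*r)) :=
      gI (a := b+1) (by omega) hN h5 (Nat.mul_pos hq hr.1) (by omega)
    unfold qt
    rw [gc] at g1 ⊢
    set A := al ((2*R+1:ℕ):ℚ) (p^b*r)
    set A0 := al (p:ℚ) r
    set x := g (p:ℚ) r
    set u := (-1/3:ℚ)^(p^b*r)
    set v := (-3:ℚ)^(p^b*r)
    set u0 := (-1/3:ℚ)^r
    set v0 := (-3:ℚ)^r
    have mu0 : u0 ∈ Zp p := (Zp p).pow_mem m3' _
    have mv0 : v0 ∈ Zp p := (Zp p).pow_mem m3 _
    have e : u * (x * (1/2)) * (5 * A - x) + v * (3 * x * (1/2)) * (5 * A - 2 * x) -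
      (u0 * (x * (1/2)) * (5 * A0 - x) + v0 * (3 * x * (1/2)) * (5 * A0 - 2 * x)) =
      (u - u0) * (x * ((5 * A - x) * (1/2))) + (v - v0) * (x * ((5 * A - 2 * x) * (3 * (1/2)))) +
      x * ((A - A0) * (5 * (1/2) * u0 + 5 * 3 * (1/2) * v0)) := by ring
    rw [e]
    have t1 : I p 3 ((u - u0) * (x * ((5 * A - x) * (1/2)))) :=
      w2.mul (g1.mul (((I.mem_mul n5 a1).sub g1).mul_mem m2))
    have t2 : I p 3 ((v - v0) * (x * ((5 * A - 2 * x) * (3 * (1/2))))) :=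
      w1.mul (g1.mul (((I.mem_mul n5 a1).sub (I.mem_mul n2 g1)).mul_mem ((Zp p).mul_mem n3 m2)))
    have t3 : I p 3 (x * ((A - A0) * (5 * (1/2) * u0 + 5 * 3 * (1/2) * v0))) := by
      refine g1.mul (k := 2) (ac.mul_mem ?_)
      exact (Zp p).add_mem ((Zp p).mul_mem ((Zp p).mul_mem n5 m2) mu0)
        ((Zp p).mul_mem ((Zp p).mul_mem ((Zp p).mul_mem n5 n3) m2) mv0)
    exact (t1.add t2).add t3
  have e : ∑ r ∈ Icc 1 R, qt ((2*R+1:ℕ):ℚ) r - ∑ r ∈ Icc 1 R0, qt (p:ℚ) r =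
    (∑ r ∈ Icc 1 R, qt ((2*R+1:ℕ):ℚ) r - ∑ r ∈ Icc 1 R0, qt ((2*R+1:ℕ):ℚ) (p^b*r)) +
    (∑ r ∈ Icc 1 R0, qt ((2*R+1:ℕ):ℚ) (p^b*r) - ∑ r ∈ Icc 1 R0, qt (p:ℚ) r) := by ring
  rw [e]
  exact k1.add k2

/-- powers modulo p^2 -/
lemma pow_class2 (z : ℕ) (hz : ¬ p ∣ z) : I p 2 ((z:ℚ)^(2*R) - (z:ℚ)^(2*R0)) := by
  -- 2R = 2R0 + 2R0 * p * k
  have hdiv : 2*R0*p ∣ p^(b+1) - p := by
    have h1 : p - 1 ∣ p^b - 1 := by
      have := Nat.sub_dvd_pow_sub_pow p 1 b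
      simpa using this
    have h2 : p^(b+1) - p = p * (p^b - 1) := by
      rw [Nat.mul_sub, mul_one, pow_succ, mul_comm]
    rw [h2, mul_comm (2*R0) p]
    apply Nat.mul_dvd_mul_left
    rw [show 2*R0 = p - 1 by omega]
    exact h1
  obtain ⟨k, hk⟩ := hdiv
  have hle : p ≤ p^(b+1) := by
    calc p = p^1 := (pow_one p).symm
      _ ≤ p^(b+1) := Nat.pow_le_pow_right hp.out.pos (by omega)
  have e2 : 2*R = 2*R0 + 2*R0*p*k := by omega
  have f := fermat (p := p) z hz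
  rw [show p - 1 = 2*R0 by omega] at f
  set y : ℚ := (z:ℚ)^(2*R0) with hy
  have my : y ∈ Zp p := (Zp p).pow_mem (nat_mem z) _
  -- y^p - 1 in I2
  have h2 : I p 2 (y^p - 1) := by
    obtain ⟨c, hc, e⟩ := f
    have : y = 1 + (p:ℚ)^1 * c := by linarith
    have hsum : y^p - 1 = (y - 1) * ∑ i ∈ range p, y^i := by
      rw [mul_comm, geom_sum_mul]
    have hS : I p 1 (∑ i ∈ range p, y^i) := by
      have e3 : ∑ i ∈ range p, y^i = ∑ i ∈ range p, (y^i - 1) + p := by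
        rw [sum_sub_distrib]; simp
      rw [e3]
      refine (I.sum _ _ (fun i _ => ?_)).add (by simpa using I.p_pow (p := p) 1)
      have := pow_diff my (Zp p).one_mem ⟨c, hc, e⟩ i
      simpa using this
    rw [hsum]
    exact (show I p 1 (y - 1) from ⟨c, hc, e⟩).mul hS
  have e4 : (z:ℚ)^(2*R) = y * (y^p)^k := by
    rw [e2, pow_add, hy, ← pow_mul, ← pow_mul, mul_assoc (2*R0) p k]
  rw [e4]
  have h3 : I p 2 ((y^p)^k - 1) := by
    have : ∀ k : ℕ, I p 2 ((y^p)^k - 1) := by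
      intro k
      induction k with
      | zero => simpa using I.zero 2
      | succ k ih =>
        have e5 : (y^p)^(k+1) - 1 = ((y^p)^k - 1) * y^p + (y^p - 1) := by ring
        rw [e5]
        exact (ih.mul_mem ((Zp p).pow_mem my p)).add h2
    exact this k
  have e6 : y * (y^p)^k - y = ((y^p)^k - 1) * y := by ring
  rw [e6]
  exact h3.mul_mem my

end Pool.Agent.Helper857.X
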