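import Pool.Agent.Helper857.X9
import Pool.Agent.Helper857.X6

set_option autoImplicit false
set_option linter.all false
set_option linter.unusedSectionVars false
set_option linter.unusedVariables false

namespace Pool.Agent.Helper857.X

open Finset Pad
open Pool.Agent.Helper857.W (g g_I g_two WW WW_succ)
open Pool.Agent.Helper857

section cst
variable {p : ℕ} [hp : Fact p.Prime] {K : Type*} [Field K] [CharP K p]

/-- `x` is `p`-integral and reduces to `k` -/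
def Cst (p : ℕ) [hp : Fact p.Prime] {K : Type*} [Field K] (x : ℚ) (k : K) : Prop := x ∈ Zp p ∧ (x : K) = k

lemma den_ne {x : ℚ} (hx : x ∈ Zp p) : (x.den : K) ≠ 0 := by
  intro h
  rw [CharP.cast_eq_zero_iff K p] at h
  exact hx h

lemma Cst.add {x y : ℚ} {a b : K} (hx : Cst p x a) (hy : Cst p y b) : Cst p (x+y) (a+b) := by
  refine ⟨(Zp p).add_mem hx.1 hy.1, ?_⟩
  rw [Rat.cast_add_of_ne_zero (den_ne hx.1) (den_ne hy.1), hx.2, hy.2]

lemma Cst.mul {x y : ℚ} {a b : K} (hx : Cst p x a) (hy : Cst p y b) : Cst p (x*y) (a*b) := by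
  refine ⟨(Zp p).mul_mem hx.1 hy.1, ?_⟩
  rw [Rat.cast_mul_of_ne_zero (den_ne hx.1) (den_ne hy.1), hx.2, hy.2]

lemma Cst.sub {x y : ℚ} {a b : K} (hx : Cst p x a) (hy : Cst p y b) : Cst p (x-y) (a-b) := by
  refine ⟨(Zp p).sub_mem hx.1 hy.1, ?_⟩
  rw [Rat.cast_sub_of_ne_zero (den_ne hx.1) (den_ne hy.1), hx.2, hy.2]

lemma Cst.neg {x : ℚ} {a : K} (hx : Cst p x a) : Cst p (-x) (-a) := by
  refine ⟨(Zp p).neg_mem hx.1, ?_⟩
  rw [Rat.cast_neg, hx.2]

lemma Cst.nat (n : ℕ) : Cst p (n:ℚ) (n:K) := ⟨nat_mem n, Rat.cast_natCast n⟩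
lemma Cst.int (n : ℤ) : Cst p (n:ℚ) (n:K) := ⟨int_mem n, Rat.cast_intCast n⟩

lemma Cst.inv {n : ℕ} (h : ¬ p ∣ n) : Cst p (1/(n:ℚ)) (1/(n:K)) := by
  rw [one_div, one_div]
  exact ⟨inv_nat_mem h, Rat.cast_inv_nat n⟩

lemma Cst.pow {x : ℚ} {a : K} (hx : Cst p x a) (n : ℕ) : Cst p (x^n) (a^n) := by
  induction n with
  | zero => simpa using Cst.nat (p := p) (K := K) 1
  | succ n ih => rw [pow_succ, pow_succ]; exact ih.mul hx

lemma Cst.sum (n : ℕ) (f : ℕ → ℚ) (k : ℕ → K) (h : ∀ i < n, Cst p (f i) (k i)) :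
    Cst p (∑ i ∈ range n, f i) (∑ i ∈ range n, k i) := by
  induction n with
  | zero => simpa using Cst.nat (p := p) (K := K) 0
  | succ n ih =>
    rw [sum_range_succ, sum_range_succ]
    exact (ih (fun i hi => h i (by omega))).add (h n (by omega))

lemma Cst.congr {x : ℚ} {a b : K} (hx : Cst p x a) (h : a = b) : Cst p x b := h ▸ hx
lemma Cst.congr' {x y : ℚ} {a : K} (hx : Cst p x a) (h : x = y) : Cst p y a := h ▸ hx

lemma Cst.I_one {x : ℚ} (hx : Cst p x (0:K)) : I p 1 x := by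
  obtain ⟨h1, h2⟩ := hx
  rw [Rat.cast_def, div_eq_zero_iff] at h2
  rcases h2 with h2 | h2
  · rw [CharP.intCast_eq_zero_iff K p] at h2
    obtain ⟨m, hm⟩ := h2
    refine ⟨(m:ℚ) * ((x.den:ℕ):ℚ)⁻¹, (Zp p).mul_mem (int_mem m) (inv_nat_mem h1), ?_⟩
    have : (x.num : ℚ) = p * m := by exact_mod_cast congrArg (Int.cast : ℤ → ℚ) hm
    rw [← mul_assoc, pow_one, ← this, ← div_eq_mul_inv, Rat.num_div_den]
  · exact absurd h2 (den_ne h1)

end cst

section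
variable {p : ℕ} [hp : Fact p.Prime] {R : ℕ} (h0 : 2*R+1 = p) (h5 : 5 ≤ p)

/-- the second order sum as a function of a field -/
def EE (F : Type*) [Field F] (R : ℕ) : F := ∑ r ∈ range R,
  ((-(1/((3:ℕ):F)))^(r+1) * (5 * ((Fl.H F (r+1) - Fl.ob F (r+1)) * (1/((r+1:ℕ):F))) - 2 * (1/((r+1:ℕ):F))^2) +
   (-3)^(r+1) * (15 * ((Fl.H F (r+1) - Fl.ob F (r+1)) * (1/((r+1:ℕ):F))) - 12 * (1/((r+1:ℕ):F))^2))

lemma Qp_EE (N : ℚ) (R : ℕ) : 4 * Qp N R = N^2 * EE ℚ R := by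
  unfold Qp EE
  rw [mul_sum, mul_sum]
  apply sum_congr rfl
  intro r _
  have h1 : hh N (r+1) = N * Fl.H ℚ (r+1) := by
    unfold hh Fl.H
    rw [mul_sum]
    apply sum_congr rfl
    intro i _
    unfold W.g
    push_cast; ring
  have h2 : 2 * oo N (r+1) = N * Fl.ob ℚ (r+1) := by
    unfold oo Fl.ob
    rw [mul_sum, mul_sum]
    apply sum_congr rfl
    intro i _
    unfold W.g
    push_cast; ring
  have h3 : g N (r+1) = N * (1/((r+1:ℕ):ℚ)) := by unfold W.g; push_cast; ring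
  have h2' : oo N (r+1) = N * Fl.ob ℚ (r+1) / 2 := by linear_combination (1/2) * h2
  rw [h1, h2', h3]
  push_cast
  ring

lemma EE_K {K : Type*} [Field K] {w : K} (hw : w^2 = -3) (h3 : (3:K) ≠ 0) (R : ℕ) :
    EE K R = 5 * (Fl.M R w⁻¹ + Fl.A2 R w⁻¹ - Fl.AO R w⁻¹) - 2 * Fl.A2 R w⁻¹ +
      15 * (Fl.M R w + Fl.A2 R w - Fl.AO R w) - 12 * Fl.A2 R w := by
  have hwi : (w⁻¹)^2 = -(1/((3:ℕ):K)) := by
    rw [inv_pow, hw]; push_cast; rw [inv_neg, one_div]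
  unfold EE Fl.M Fl.A2 Fl.AO
  simp only [mul_sub, mul_add, mul_sum]
  simp only [← sum_add_distrib, ← sum_sub_distrib]
  apply sum_congr rfl
  intro r _
  have e1 : (w⁻¹)^(2*r+2) = (-(1/((3:ℕ):K)))^(r+1) := by
    rw [show 2*r+2 = 2*(r+1) by ring, pow_mul, hwi]
  have e2 : w^(2*r+2) = (-3)^(r+1) := by
    rw [show 2*r+2 = 2*(r+1) by ring, pow_mul, hw]
  rw [e1, e2, Fl.H_succ]
  have e3 : ((r+1:ℕ):K) = (r:K)+1 := by push_cast; ring
  rw [e3]
  have e4 : ∀ x : K, x/((r:K)+1)^2 = x * (1/((r:K)+1))^2 := by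
    intro x; rw [div_pow, one_pow, mul_one_div]
  simp only [e4]
  ring

include h0 h5

lemma ndvd {n : ℕ} (h1 : 1 ≤ n) (h2 : n ≤ 2*R) : ¬ p ∣ n := by
  intro h
  have := Nat.le_of_dvd (by omega) h
  omega

variable {K : Type*} [Field K] [CharP K p]

lemma H_cst {r : ℕ} (hr : r ≤ R) : Cst p (Fl.H ℚ r) (Fl.H K r) := by
  unfold Fl.H
  apply Cst.sum
  intro i hi
  have := Cst.inv (K := K) (ndvd h0 h5 (n := i+1) (by omega) (by omega))
  push_cast at this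
  exact this

lemma ob_cst {r : ℕ} (hr : r ≤ R) : Cst p (Fl.ob ℚ r) (Fl.ob K r) := by
  unfold Fl.ob
  apply Cst.sum
  intro i hi
  have h1 := Cst.inv (K := K) (ndvd h0 h5 (n := 2*i+1) (by omega) (by omega))
  have h2 := (Cst.nat (p := p) (K := K) 2).mul h1
  push_cast at h2
  rw [mul_one_div, mul_one_div] at h2
  exact h2

lemma EE_cst : Cst p (EE ℚ R) (EE K R) := by
  unfold EE
  apply Cst.sum
  intro r hr
  have hH := H_cst (K := K) h0 h5 (r := r+1) (by omega)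
  have hO := ob_cst (K := K) h0 h5 (r := r+1) (by omega)
  have hi := Cst.inv (K := K) (ndvd h0 h5 (n := r+1) (by omega) (by omega))
  have h3 := Cst.inv (K := K) (ndvd h0 h5 (n := 3) (by omega) (by omega))
  have c5 := Cst.nat (p := p) (K := K) 5
  have c2 := Cst.nat (p := p) (K := K) 2
  have c15 := Cst.nat (p := p) (K := K) 15
  have c12 := Cst.nat (p := p) (K := K) 12
  have c3 := (Cst.nat (p := p) (K := K) 3).neg
  have t1 := (h3.neg.pow (r+1)).mul ((c5.mul ((hH.sub hO).mul hi)).sub (c2.mul (hi.pow 2)))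
  have t2 := (c3.pow (r+1)).mul ((c15.mul ((hH.sub hO).mul hi)).sub (c12.mul (hi.pow 2)))
  have t3 := t1.add t2
  simp only [Nat.cast_ofNat] at t3 ⊢
  exact t3

lemma s3_cst : Cst p (Fl.s3 ℚ R) (Fl.s3 K R) := by
  unfold Fl.s3
  apply Cst.sum
  intro r hr
  have hi := (Cst.inv (K := K) (ndvd h0 h5 (n := r+1) (by omega) (by omega))).pow 2
  rw [div_pow, div_pow, one_pow, one_pow] at hi
  push_cast at hi
  exact hi

lemma Qp_val {c b : ℤ} (hc : (4:ℤ)^R - 1 = (2*R+1) * c) (hb : Fl.sg R * (-3:ℤ)^R - 1 = (2*R+1) * b) :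
    I p 3 (Qp (p:ℚ) R - (p:ℚ)^2 * (10 * (c:ℚ)^2 - 5 * c * b + (b:ℚ)^2 + 5/9 * Fl.s3 ℚ R)) := by
  have key : I p 1 (9 * EE ℚ R - (36 * (10 * (c:ℚ)^2 - 5 * c * b + (b:ℚ)^2) + 20 * Fl.s3 ℚ R)) := by
    obtain ⟨w, hw⟩ := IsAlgClosed.exists_pow_nat_eq (-3 : AlgebraicClosure (ZMod p)) (n := 2) (by norm_num)
    have hQ := Fl.QK (K := AlgebraicClosure (ZMod p)) h0 h5 hc hb hw
    rw [← EE_K hw (Fl.three_ne h0 h5)] at hQ
    have h1 := (Cst.nat (p := p) (K := AlgebraicClosure (ZMod p)) 9).mul (EE_cst (K := AlgebraicClosure (ZMod p)) h0 h5)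
    have cc := Cst.int (p := p) (K := AlgebraicClosure (ZMod p)) c
    have cb := Cst.int (p := p) (K := AlgebraicClosure (ZMod p)) b
    have h2 := (((Cst.nat (p := p) (K := AlgebraicClosure (ZMod p)) 10).mul (cc.pow 2)).sub
      (((Cst.nat (p := p) (K := AlgebraicClosure (ZMod p)) 5).mul cc).mul cb)).add (cb.pow 2)
    have h3 := ((Cst.nat (p := p) (K := AlgebraicClosure (ZMod p)) 36).mul h2).add
      ((Cst.nat (p := p) (K := AlgebraicClosure (ZMod p)) 20).mul (s3_cst h0 h5))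
    have h4 := h1.sub h3
    simp only [Nat.cast_ofNat] at h4
    rw [hQ, sub_self] at h4
    exact h4.I_one
  have e : (36:ℕ) * (Qp (p:ℚ) R - (p:ℚ)^2 * (10 * (c:ℚ)^2 - 5 * c * b + (b:ℚ)^2 + 5/9 * Fl.s3 ℚ R)) =
      (p:ℚ)^2 * (9 * EE ℚ R - (36 * (10 * (c:ℚ)^2 - 5 * c * b + (b:ℚ)^2) + 20 * Fl.s3 ℚ R)) := by
    have := Qp_EE (p:ℚ) R
    push_cast
    linear_combination 9 * this
  have h36 : ¬ p ∣ 36 := by
    intro h
    have : (36:ℕ) = 2*2*(3*3) := by norm_num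
    rw [this] at h
    rcases (hp.out.dvd_mul).mp h with h | h <;> rcases (hp.out.dvd_mul).mp h with h | h <;>
      have := Nat.le_of_dvd (by norm_num) h <;> omega
  apply I.cancel h36
  rw [e]
  exact (I.p_pow 2).mul key

end

end Pool.Agent.Helper857.X
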