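import Pool.Agent.Helper857.X10

set_option autoImplicit false
set_option linter.all false
set_option linter.unusedSectionVars false
set_option linter.unusedVariables false

namespace Pool.Agent.Helper857.X

open Finset Pad
open Pool.Agent.Helper857.W (g g_I g_two WW WW_succ fermat bern_mem)
open Pool.Agent.Helper857

section
variable {p : ℕ} [hp : Fact p.Prime]

lemma bpoly_mem {x : ℚ} (hx : x ∈ Zp p) (n : ℕ) (hn : n + 1 < p) :
    (Polynomial.bernoulli n).eval x ∈ Zp p := by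
  rw [Polynomial.bernoulli, Polynomial.eval_finset_sum]
  apply (Zp p).sum_mem
  intro i hi
  rw [mem_range] at hi
  rw [Polynomial.eval_monomial]
  apply (Zp p).mul_mem
  · exact (Zp p).mul_mem (bern_mem _ (by omega)) (nat_mem _)
  · exact (Zp p).pow_mem hx _

lemma bpoly_I {x y : ℚ} (hx : x ∈ Zp p) (hy : y ∈ Zp p) (h : I p 1 (x - y)) (n : ℕ) (hn : n + 1 < p) :
    I p 1 ((Polynomial.bernoulli n).eval x - (Polynomial.bernoulli n).eval y) := by
  rw [Polynomial.bernoulli, Polynomial.eval_finset_sum, Polynomial.eval_finset_sum, ← sum_sub_distrib]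
  apply I.sum
  intro i hi
  rw [mem_range] at hi
  rw [Polynomial.eval_monomial, Polynomial.eval_monomial, ← mul_sub]
  apply I.mem_mul
  · exact (Zp p).mul_mem (bern_mem _ (by omega)) (nat_mem _)
  · exact pow_diff hx hy h _

variable {R : ℕ} (h0 : 2*R+1 = p) (h5 : 5 ≤ p)
include h0 h5

lemma s3_bern : I p 1 (2 * Fl.s3 ℚ R - eps R * (Polynomial.bernoulli (p-2)).eval (1/3)) := by
  have hR : R % 3 ≠ 1 := Fl.R3' h0 h5
  have m3 : (1/3:ℚ) ∈ Zp p := by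
    have : (1/3:ℚ) = -(-1/3) := by norm_num
    rw [this]; exact (Zp p).neg_mem (third_mem h5)
  set n := 2*R/3 with hn
  obtain ⟨q, hq⟩ : ∃ q, p - 3 = q + 1 := ⟨p-4, by omega⟩
  have hsum := Polynomial.sum_range_pow_eq_bernoulli_sub (n+1) (p-3)
  have hB : bernoulli (p-3).succ = 0 := by
    apply bernoulli_eq_zero_of_odd
    · exact ⟨R-1, by omega⟩
    · omega
  rw [hB, sub_zero, sum_range_succ', show (p-3).succ = p-2 by omega] at hsum
  have hz : ((0:ℕ):ℚ)^(p-3) = 0 := by rw [hq]; simp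
  rw [hz, add_zero] at hsum
  -- compare with inverse squares
  have h1 : I p 1 (∑ k ∈ range n, (((k+1:ℕ):ℚ))^(p-3) - Fl.s3 ℚ R) := by
    unfold Fl.s3
    rw [← sum_sub_distrib]
    apply I.sum
    intro k hk
    rw [mem_range] at hk
    have hnd : ¬ p ∣ (k+1) := ndvd h0 h5 (by omega) (by omega)
    have f := fermat (p := p) (k+1) hnd
    have i1 := inv_nat_mem hnd
    have hk0 : ((k+1:ℕ):ℚ) ≠ 0 := by positivity
    have e : ((k+1:ℕ):ℚ)^(p-3) - 1/((k:ℚ)+1)^2 = (((k+1:ℕ):ℚ)^(p-1) - 1) * (((k+1:ℕ):ℚ)⁻¹)^2 := by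
      rw [show p-1 = p-3+2 by omega, pow_add]
      push_cast at hk0 ⊢
      field_simp
    rw [e]
    exact f.mul_mem ((Zp p).pow_mem i1 _)
  have hnm : ((n+1:ℕ):ℚ) ∈ Zp p := nat_mem _
  have hpq : (((p-3:ℕ):ℚ) + 1) = p - 2 := by
    rw [Nat.cast_sub (by omega)]; push_cast; ring
  rw [hpq] at hsum
  set P := ∑ k ∈ range n, (((k+1:ℕ):ℚ))^(p-3) with hP
  have hPm : P ∈ Zp p := (Zp p).sum_mem (fun k _ => (Zp p).pow_mem (nat_mem _) _)
  have h2 : I p 1 (2 * P + (Polynomial.bernoulli (p-2)).eval ((n+1:ℕ):ℚ)) := by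
    rw [← hsum]
    have e : 2 * P + ((p:ℚ) - 2) * P = (p:ℚ)^1 * P := by ring
    rw [e]; exact (I.p_pow 1).mul_mem hPm
  have h3 : I p 1 ((Polynomial.bernoulli (p-2)).eval ((n+1:ℕ):ℚ) + eps R * (Polynomial.bernoulli (p-2)).eval (1/3)) := by
    unfold eps
    split_ifs with hc
    · have e1 : ((n+1:ℕ):ℚ) - (1 - 1/3) = (p:ℚ)^1 * (1/3) := by
        have : 3 * (n+1) = p + 2 := by omega
        have h' : (3:ℚ) * ((n+1:ℕ):ℚ) = p + 2 := by exact_mod_cast this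
        linear_combination (1/3) * h'
      have h4 := bpoly_I (p := p) hnm ((Zp p).sub_mem (Zp p).one_mem m3)
        (by rw [e1]; exact (I.p_pow 1).mul_mem m3) (p-2) (by omega)
      rw [Polynomial.bernoulli_eval_one_sub] at h4
      have hodd : (-1:ℚ)^(p-2) = -1 := Odd.neg_one_pow ⟨R-1, by omega⟩
      rw [hodd] at h4
      have e2 : ∀ u v : ℚ, u + 1 * v = u - -1 * v := by intro u v; ring
      rw [e2]; exact h4
    · have e1 : ((n+1:ℕ):ℚ) - 1/3 = (p:ℚ)^1 * (1/3) := by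
        have : 3 * (n+1) = p + 1 := by omega
        have h' : (3:ℚ) * ((n+1:ℕ):ℚ) = p + 1 := by exact_mod_cast this
        linear_combination (1/3) * h'
      have h4 := bpoly_I (p := p) hnm m3
        (by rw [e1]; exact (I.p_pow 1).mul_mem m3) (p-2) (by omega)
      have e2 : ∀ u v : ℚ, u + -1 * v = u - v := by intro u v; ring
      rw [e2]; exact h4
  have two : (2:ℚ) ∈ Zp p := by exact_mod_cast nat_mem (p := p) 2
  have e : 2 * Fl.s3 ℚ R - eps R * (Polynomial.bernoulli (p-2)).eval (1/3) =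
    (2 * P + (Polynomial.bernoulli (p-2)).eval ((n+1:ℕ):ℚ)) - 2 * (P - Fl.s3 ℚ R) -
      ((Polynomial.bernoulli (p-2)).eval ((n+1:ℕ):ℚ) + eps R * (Polynomial.bernoulli (p-2)).eval (1/3)) := by ring
  rw [e]
  exact (h2.sub (I.mem_mul two h1)).sub h3

end

section
variable {p : ℕ} [hp : Fact p.Prime] {b R R0 : ℕ} (hN : 2*R+1 = p^(b+1)) (h0 : 2*R0+1 = p) (h5 : 5 ≤ p)
include hN h0 h5

omit hN h0 h5 in
lemma I_int {z : ℤ} (h : I p 1 (z:ℚ)) : (p:ℤ) ∣ z := by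
  obtain ⟨y, hy, e⟩ := h
  have h1 : (z:ℚ) * y.den = p * y.num := by
    rw [e, pow_one, mul_assoc, Rat.mul_den_eq_num]
  have h2 : z * y.den = p * y.num := by exact_mod_cast h1
  have h3 : (p:ℤ) ∣ z * y.den := ⟨y.num, h2⟩
  rcases (Nat.prime_iff_prime_int.mp hp.out).dvd_or_dvd h3 with h | h
  · exact h
  · exact absurd (by exact_mod_cast h) hy

omit hN h0 h5 in
lemma sg_eps (R : ℕ) : ((Fl.sg R : ℤ) : ℚ) = eps R := by
  unfold Fl.sg eps; split_ifs <;> simp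

/-- the final congruence -/
theorem final : I p 3 (TT R * eps R - (1 + 5/18 * (p:ℚ)^2 * (eps R0 * (Polynomial.bernoulli (p-2)).eval (1/3)))) := by
  have hp1 : 2*R0+1 = p^1 := by rw [pow_one]; exact h0
  obtain ⟨hm, hβ⟩ := main (p := p) (a := b+1) (by omega) hN h5
  obtain ⟨-, hβ0⟩ := main (p := p) (a := 1) (by omega) hp1 h5
  have hα := (A_unit (p := p) (a := b+1) (by omega) hN h5).2
  have hα0 := (A_unit (p := p) (a := 1) (by omega) hp1 h5).2
  have n (k : ℕ) : ((k:ℕ):ℚ) ∈ Zp p := nat_mem k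
  have n2 : ¬ p ∣ 2 := fun h => absurd (Nat.le_of_dvd (by norm_num) h) (by omega)
  have n3 : ¬ p ∣ 3 := fun h => absurd (Nat.le_of_dvd (by norm_num) h) (by omega)
  have k2 := pow_class2 hN h0 h5 2 n2
  have k3 := pow_class2 hN h0 h5 3 n3
  set α : ℚ := 4^R - 1 with hαd
  set β : ℚ := eps R * (-3)^R - 1 with hβd
  set α0 : ℚ := 4^R0 - 1 with hα0d
  set β0 : ℚ := eps R0 * (-3)^R0 - 1 with hβ0d
  have dα : I p 2 (α - α0) := by
    have e : α - α0 = ((2:ℕ):ℚ)^(2*R) - ((2:ℕ):ℚ)^(2*R0) := by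
      rw [hαd, hα0d, pow_mul, pow_mul]; norm_num
    rw [e]; exact k2
  have dβ : I p 2 (β - β0) := by
    have e : (β - β0) * (β + β0 + 2) = ((3:ℕ):ℚ)^(2*R) - ((3:ℕ):ℚ)^(2*R0) := by
      have e1 : ((3:ℕ):ℚ)^(2*R) = (-3)^R * (-3)^R := by rw [pow_mul, ← mul_pow]; norm_num
      have e2 : ((3:ℕ):ℚ)^(2*R0) = (-3)^R0 * (-3)^R0 := by rw [pow_mul, ← mul_pow]; norm_num
      rw [e1, e2, hβd, hβ0d]
      linear_combination (-3:ℚ)^R * (-3)^R * eps_sq R - (-3:ℚ)^R0 * (-3)^R0 * eps_sq R0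
    have hh := halfm (p := p) h5
    have u : I p 1 ((β + β0 + 2) * (1/2) - 1) := by
      have e3 : (β + β0 + 2) * (1/2) - 1 = (β + β0) * (1/2) := by ring
      rw [e3]; exact (hβ.add hβ0).mul_mem hh
    apply unit_cancel u
    have e4 : (β - β0) * ((β + β0 + 2) * (1/2)) = ((β - β0) * (β + β0 + 2)) * (1/2) := by ring
    rw [e4, e]
    exact k3.mul_mem hh
  -- integers c, b0
  have hq := Qp_class hN h0 h5
  have hpZ : (2*(R0:ℤ)+1) = p := by exact_mod_cast h0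
  have hpQ : (2*(R0:ℚ)+1) = p := by exact_mod_cast h0
  obtain ⟨c, hc⟩ : ∃ c : ℤ, (4:ℤ)^R0 - 1 = (2*R0+1) * c := by
    have : (p:ℤ) ∣ (4:ℤ)^R0 - 1 := by
      apply I_int
      push_cast
      exact hα0
    rw [hpZ]; exact this
  obtain ⟨b', hb⟩ : ∃ b' : ℤ, Fl.sg R0 * (-3:ℤ)^R0 - 1 = (2*R0+1) * b' := by
    have : (p:ℤ) ∣ Fl.sg R0 * (-3:ℤ)^R0 - 1 := by
      apply I_int
      push_cast
      rw [sg_eps]
      exact hβ0
    rw [hpZ]; exact this
  have hv := Qp_val h0 h5 hc hb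
  have hα0' : α0 = p * c := by
    have := congrArg (Int.cast : ℤ → ℚ) hc
    push_cast at this
    rw [hpQ] at this
    exact this
  have hβ0' : β0 = p * b' := by
    have := congrArg (Int.cast : ℤ → ℚ) hb
    push_cast at this
    rw [hpQ, sg_eps] at this
    exact this
  have hs := s3_bern h0 h5
  have n5 : (5:ℚ) ∈ Zp p := by exact_mod_cast n 5
  have n10 : (10:ℚ) ∈ Zp p := by exact_mod_cast n 10
  have n518 : (5/18:ℚ) ∈ Zp p := by
    have : ¬ p ∣ 18 := by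
      intro h
      have e : (18:ℕ) = 2 * (3 * 3) := by norm_num
      rw [e] at h
      rcases (hp.out.dvd_mul).mp h with h | h
      · exact n2 h
      · rcases (hp.out.dvd_mul).mp h with h | h <;> exact n3 h
    have h18 := inv_nat_mem this
    have e : (5/18:ℚ) = 5 * ((18:ℕ):ℚ)⁻¹ := by norm_num
    rw [e]; exact (Zp p).mul_mem n5 h18
  have d1 : I p 3 ((5 * α * β - 10 * α^2 - β^2) - (5 * α0 * β0 - 10 * α0^2 - β0^2)) := by
    have e : (5 * α * β - 10 * α^2 - β^2) - (5 * α0 * β0 - 10 * α0^2 - β0^2) =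
      5 * ((α - α0) * β) + 5 * ((β - β0) * α0) - 10 * ((α - α0) * (α + α0)) - (β - β0) * (β + β0) := by ring
    rw [e]
    exact (((I.mem_mul n5 (dα.mul hβ)).add (I.mem_mul n5 (dβ.mul hα0))).sub
      (I.mem_mul n10 (dα.mul (hα.add hα0)))).sub (dβ.mul (hβ.add hβ0))
  have d2 : I p 3 ((p:ℚ)^2 * (5/18 * (2 * Fl.s3 ℚ R0 - eps R0 * (Polynomial.bernoulli (p-2)).eval (1/3)))) :=
    (I.p_pow 2).mul (I.mem_mul n518 hs)
  have e : TT R * eps R - (1 + 5/18 * (p:ℚ)^2 * (eps R0 * (Polynomial.bernoulli (p-2)).eval (1/3))) =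
    (TT R * eps R - (1 + 5 * α * β - 10 * α^2 - β^2 + Qp ((2*R+1:ℕ):ℚ) R)) +
    ((5 * α * β - 10 * α^2 - β^2) - (5 * α0 * β0 - 10 * α0^2 - β0^2)) +
    (Qp ((2*R+1:ℕ):ℚ) R - Qp (p:ℚ) R0) +
    (Qp (p:ℚ) R0 - (p:ℚ)^2 * (10 * (c:ℚ)^2 - 5 * c * b' + (b':ℚ)^2 + 5/9 * Fl.s3 ℚ R0)) +
    ((p:ℚ)^2 * (5/18 * (2 * Fl.s3 ℚ R0 - eps R0 * (Polynomial.bernoulli (p-2)).eval (1/3)))) := by
    rw [hα0', hβ0']; ring
  rw [e]
  exact (((hm.add d1).add hq).add hv).add d2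

omit hN h0 h5 in
lemma leg3 {R : ℕ} {n : ℕ} (hn : 2*R+1 = n) (hR : R % 3 ≠ 1) : ((legendreSym 3 (n:ℤ) : ℤ) : ℚ) = eps R := by
  rw [legendreSym.mod]
  unfold eps
  split_ifs with h
  · have : (n:ℤ) % (3:ℕ) = 1 := by omega
    rw [this, legendreSym.at_one]; simp
  · have : (n:ℤ) % (3:ℕ) = 2 := by omega
    rw [this]
    have : legendreSym 3 2 = -1 := by decide
    rw [this]; simp

end

end Pool.Agent.Helper857.X
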