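import Pool.Agent.Helper857.X1

set_option autoImplicit false

namespace Pool.Agent.Helper857.X

open Finset
open Pool.Agent.Helper857.W (od od_pos od_succ od_fact od_fact' od_shift fact_shift refl_prod)

lemma od_ne0 (n : ℕ) : od n ≠ 0 := (od_pos n).ne'

noncomputable def L1 (R : ℕ) : ℚ := ∏ i ∈ range R, (1 - ((2*R+1:ℕ):ℚ)/(2*((i:ℚ)+1)))
noncomputable def L2 (R : ℕ) : ℚ := ∏ i ∈ range R, (1 - ((2*R+1:ℕ):ℚ)/((i:ℚ)+1))
noncomputable def L3 (R : ℕ) : ℚ := ∏ i ∈ range R, (1 - 3*((2*R+1:ℕ):ℚ)/((i:ℚ)+1))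
noncomputable def L4 (R : ℕ) : ℚ := ∏ i ∈ range (2*R), (1 + ((2*R+1:ℕ):ℚ)/(2*((i:ℚ)+1)))

lemma den1 (R : ℕ) : ∏ i ∈ range R, ((i:ℚ)+1) = R.factorial := by
  have := fact_shift 0 R
  simp only [Nat.factorial_zero, Nat.cast_one, one_mul, Nat.cast_zero, zero_add] at this
  exact this

lemma den2 (R : ℕ) : ∏ i ∈ range R, (2*((i:ℚ)+1)) = 2^R * R.factorial := by
  rw [prod_mul_distrib, den1]; simp

lemma L1_eq (R : ℕ) : L1 R * (2^R * R.factorial) = (-1)^R * od R := by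
  unfold L1
  rw [← den2, ← prod_mul_distrib]
  have : ∏ i ∈ range R, ((1 - ((2*R+1:ℕ):ℚ)/(2*((i:ℚ)+1))) * (2*((i:ℚ)+1))) = ∏ i ∈ range R, (2*(i:ℚ)+2-((2*R+1:ℕ):ℚ)) := by
    apply prod_congr rfl
    intro i _
    have : (2*((i:ℚ)+1)) ≠ 0 := by positivity
    rw [sub_mul, div_mul_cancel₀ _ this]
    ring
  rw [this, refl_prod R _ (fun k => (-1) * (2*(k:ℚ)+1))]
  · rw [prod_mul_distrib]; simp [od]
  · intro i k hik
    subst hik
    push_cast; ring

lemma L2_eq (R : ℕ) : L2 R * (R.factorial * R.factorial) = (-1)^R * ((2*R).factorial : ℚ) := by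
  have h := fact_shift R R
  rw [show R + R = 2*R by ring] at h
  have key : L2 R * R.factorial = (-1)^R * ∏ i ∈ range R, ((R:ℚ)+i+1) := by
    unfold L2
    rw [← den1, ← prod_mul_distrib]
    have : ∏ i ∈ range R, ((1 - ((2*R+1:ℕ):ℚ)/((i:ℚ)+1)) * ((i:ℚ)+1)) = ∏ i ∈ range R, ((i:ℚ)+1-((2*R+1:ℕ):ℚ)) := by
      apply prod_congr rfl
      intro i _
      have : ((i:ℚ)+1) ≠ 0 := by positivity
      rw [sub_mul, div_mul_cancel₀ _ this]
      ring
    rw [this, refl_prod R _ (fun k => (-1) * ((R:ℚ)+k+1))]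
    · rw [prod_mul_distrib]; simp
    · intro i k hik
      subst hik
      push_cast; ring
  rw [← h, ← mul_assoc, key]
  ring

lemma L3_eq (R : ℕ) : L3 R * (R.factorial * (5*R+2).factorial) = (-1)^R * ((6*R+2).factorial : ℚ) := by
  have h := fact_shift (5*R+2) R
  rw [show 5*R+2+R = 6*R+2 by ring] at h
  have key : L3 R * R.factorial = (-1)^R * ∏ i ∈ range R, (((5*R+2:ℕ):ℚ)+i+1) := by
    unfold L3
    rw [← den1, ← prod_mul_distrib]
    have : ∏ i ∈ range R, ((1 - 3*((2*R+1:ℕ):ℚ)/((i:ℚ)+1)) * ((i:ℚ)+1)) = ∏ i ∈ range R, ((i:ℚ)+1-3*((2*R+1:ℕ):ℚ)) := by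
      apply prod_congr rfl
      intro i _
      have : ((i:ℚ)+1) ≠ 0 := by positivity
      rw [sub_mul, div_mul_cancel₀ _ this]
      ring
    rw [this, refl_prod R _ (fun k => (-1) * (((5*R+2:ℕ):ℚ)+k+1))]
    · rw [prod_mul_distrib]; simp
    · intro i k hik
      subst hik
      push_cast; ring
  rw [← h, ← mul_assoc, key]
  ring

lemma L4_eq (R : ℕ) : L4 R * (4^R * (2*R).factorial * od (R+1)) = od (3*R+1) := by
  unfold L4
  have e4 : (4:ℚ)^R = 2^(2*R) := by rw [pow_mul]; norm_num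
  have h := od_shift (R+1) (2*R)
  rw [show R+1+2*R = 3*R+1 by ring] at h
  rw [e4, ← den2, ← mul_assoc, ← prod_mul_distrib]
  have : ∏ i ∈ range (2*R), ((1 + ((2*R+1:ℕ):ℚ)/(2*((i:ℚ)+1))) * (2*((i:ℚ)+1))) = ∏ i ∈ range (2*R), (2*(((R+1:ℕ):ℚ)+i)+1) := by
    apply prod_congr rfl
    intro i _
    have : (2*((i:ℚ)+1)) ≠ 0 := by positivity
    field_simp
    push_cast
    ring
  rw [this, h]
  have := od_ne0 (R+1)
  field_simp

lemma A_L (R : ℕ) : (4:ℚ)^R * L1 R = L2 R := by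
  have h1 := L1_eq R
  have h2 := L2_eq R
  have h3 := od_fact R
  have f1 : (R.factorial:ℚ) ≠ 0 := by exact_mod_cast R.factorial_ne_zero
  have f2 : (2:ℚ)^R ≠ 0 := by positivity
  have f4 : (4:ℚ)^R = 2^R * 2^R := by rw [← mul_pow]; norm_num
  apply mul_right_cancel₀ (mul_ne_zero f1 f1)
  rw [h2, h3, f4]
  linear_combination (2^R * (R.factorial:ℚ)) * h1

lemma prod_rho (R : ℕ) : (∏ i ∈ range R, rho (2*R+1) i) *
    (od (2*R+1) * od (2*R+1) * ((R+1).factorial * (5*R+3).factorial)) =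
    (-3)^R * (od (3*R+1) * od (R+1) * ((2*R+1).factorial * (4*R+3).factorial)) := by
  have a1 : ∏ i ∈ range R, (2*((2*R+1:ℕ):ℚ)+2*i+1) = od (3*R+1) / od (2*R+1) := by
    have := od_shift (2*R+1) R
    rw [show 2*R+1+R = 3*R+1 by ring] at this
    rw [← this]
    apply prod_congr rfl
    intro i _; push_cast; ring
  have a2 : ∏ i ∈ range R, (2*((2*R+1:ℕ):ℚ)-2*i-1) = od (2*R+1) / od (R+1) := by
    have := od_shift (R+1) R
    rw [show R+1+R = 2*R+1 by ring] at this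
    rw [← this]
    apply refl_prod
    intro i k hik
    subst hik
    push_cast; ring
  have a3 : ((R+1).factorial:ℚ) * ∏ i ∈ range R, (((2*R+1:ℕ):ℚ)-i) = ((2*R+1).factorial:ℚ) := by
    have := fact_shift (R+1) R
    rw [show R+1+R = 2*R+1 by ring] at this
    rw [← this]
    congr 1
    apply refl_prod
    intro i k hik
    subst hik
    push_cast; ring
  have a4 : ((4*R+3).factorial:ℚ) * ∏ i ∈ range R, (2*((2*R+1:ℕ):ℚ)+i+2) = ((5*R+3).factorial:ℚ) := by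
    have := fact_shift (4*R+3) R
    rw [show 4*R+3+R = 5*R+3 by ring] at this
    rw [← this]
    congr 1
    apply prod_congr rfl
    intro i _; push_cast; ring
  have e : ∏ i ∈ range R, rho (2*R+1) i = (-3)^R * ((∏ i ∈ range R, (2*((2*R+1:ℕ):ℚ)+2*i+1)) * (∏ i ∈ range R, (((2*R+1:ℕ):ℚ)-i))) /
      ((∏ i ∈ range R, (2*((2*R+1:ℕ):ℚ)-2*i-1)) * (∏ i ∈ range R, (2*((2*R+1:ℕ):ℚ)+i+2))) := by
    have h3 : (-3:ℚ)^R = ∏ i ∈ range R, (-3:ℚ) := by simp
    rw [h3, ← prod_mul_distrib, ← prod_mul_distrib, ← prod_mul_distrib, ← prod_div_distrib]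
    rfl
  have n1 := od_ne0 (2*R+1)
  have n2 := od_ne0 (R+1)
  have n3 := od_ne0 (3*R+1)
  have n4 : ((R+1).factorial:ℚ) ≠ 0 := by exact_mod_cast (R+1).factorial_ne_zero
  have n5 : ((4*R+3).factorial:ℚ) ≠ 0 := by exact_mod_cast (4*R+3).factorial_ne_zero
  have n6 : ((5*R+3).factorial:ℚ) ≠ 0 := by exact_mod_cast (5*R+3).factorial_ne_zero
  rw [e, a1, a2]
  set P3 := ∏ i ∈ range R, (((2*R+1:ℕ):ℚ)-i) with hP3
  set P4 := ∏ i ∈ range R, (2*((2*R+1:ℕ):ℚ)+i+2) with hP4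
  have n7 : P4 ≠ 0 := by
    intro h; rw [h, mul_zero] at a4; exact n6 a4.symm
  rw [← a3, ← a4]
  field_simp

lemma G_center (R : ℕ) : -G (2*R+1) R / ((2*R+1:ℕ):ℚ) * ((-3)^R * 16^R) * L2 R = L1 R ^ 2 * L3 R * L4 R := by
  have h1 := L1_eq R
  have h2 := L2_eq R
  have h3 := L3_eq R
  have h4 := L4_eq R
  have h5 := prod_rho R
  have f1 : ((2*(2*R+1)).factorial : ℚ) = 2^(2*R+1) * (2*R+1).factorial * od (2*R+1) := od_fact _
  have f2 : ((4*R+3).factorial:ℚ) = (4*R+3) * (2*(2*R+1)).factorial := by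
    rw [show 4*R+3 = 2*(2*R+1)+1 by ring, Nat.factorial_succ]; push_cast; ring
  have f3 : ((3*(2*R+1)).factorial:ℚ) = (6*R+3) * (6*R+2).factorial := by
    rw [show 3*(2*R+1) = 6*R+2+1 by ring, Nat.factorial_succ]; push_cast; ring
  have f4 : ((5*R+3).factorial:ℚ) = (5*R+3) * (5*R+2).factorial := by
    rw [Nat.factorial_succ]; push_cast; ring
  have f5 : ((R+1).factorial:ℚ) = (R+1) * R.factorial := by
    rw [Nat.factorial_succ]; push_cast; ring
  have f6 : ((2*R+1).factorial:ℚ) = (2*R+1) * (2*R).factorial := by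
    rw [Nat.factorial_succ]; push_cast; ring
  have f7 : od (R+1) = od R * (2*R+1) := od_succ R
  have f8 := od_fact R
  have n1 := od_ne0 (2*R+1)
  have n2 := od_ne0 (R+1)
  have n2' := od_ne0 R
  have n3 := od_ne0 (3*R+1)
  have n4 : (R.factorial:ℚ) ≠ 0 := by exact_mod_cast R.factorial_ne_zero
  have n5 : ((2*R).factorial:ℚ) ≠ 0 := by exact_mod_cast (2*R).factorial_ne_zero
  have n6 : ((5*R+2).factorial:ℚ) ≠ 0 := by exact_mod_cast (5*R+2).factorial_ne_zero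
  have n7 : ((6*R+2).factorial:ℚ) ≠ 0 := by exact_mod_cast (6*R+2).factorial_ne_zero
  have n8 : (2*(R:ℚ)+1) ≠ 0 := by positivity
  have n9 : (5*(R:ℚ)+3) ≠ 0 := by positivity
  have n10 : (4*(R:ℚ)+3) ≠ 0 := by positivity
  have n11 : ((R:ℚ)+1) ≠ 0 := by positivity
  have n12 : (2:ℚ)^R ≠ 0 := by positivity
  have n13 : (-3:ℚ)^R ≠ 0 := by
    apply pow_ne_zero; norm_num
  -- solve for the pieces
  have e1 : L1 R = (-1)^R * od R / (2^R * R.factorial) := by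
    rw [← h1]; field_simp
  have e2 : L2 R = (-1)^R * ((2*R).factorial : ℚ) / (R.factorial * R.factorial) := by
    rw [← h2]; field_simp
  have e3 : L3 R = (-1)^R * ((6*R+2).factorial : ℚ) / (R.factorial * (5*R+2).factorial) := by
    rw [← h3]; field_simp
  have q4 : (4:ℚ)^R = (2^R)^2 := by rw [← pow_mul, mul_comm, pow_mul]; norm_num
  have e4 : L4 R = od (3*R+1) / (4^R * (2*R).factorial * od (R+1)) := by
    rw [← h4, q4]; field_simp
  have e5 : ∏ i ∈ range R, rho (2*R+1) i = (-3)^R * (od (3*R+1) * od (R+1) * ((2*R+1).factorial * (4*R+3).factorial)) /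
      (od (2*R+1) * od (2*R+1) * ((R+1).factorial * (5*R+3).factorial)) := by
    rw [← h5, f5, f4]
    field_simp
  unfold G h
  rw [e5, t_eq, e1, e2, e3, e4, f2, f1, f3, f4, f5, f6, f7, f8, q4]
  have q1 : (2:ℚ)^(2*R+1) = 2 * (2^R)^2 := by rw [pow_succ, pow_mul, ← pow_mul, mul_comm 2 R, pow_mul]; ring
  have q2 : (-192:ℚ)^(2*R+1) = -192 * ((2^R)^6*(-3)^R)^2 := by
    have : (-192:ℚ)^R = (2^R)^6 * (-3)^R := by
      rw [← pow_mul, mul_comm R 6, pow_mul, ← mul_pow]; norm_num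
    rw [pow_succ, mul_comm 2 R, pow_mul, this]; ring
  have q3 : (16:ℚ)^R = (2^R)^4 := by rw [← pow_mul, mul_comm R 4, pow_mul]; norm_num
  have q5 : ((-1:ℚ)^R)^2 = 1 := by rw [← pow_mul, mul_comm, pow_mul]; norm_num
  rw [q1, q2, q3]
  push_cast
  have d1 : 2*(2*(R:ℚ)+1) - 2*R - 1 = 2*R+1 := by ring
  rw [d1]
  generalize (2:ℚ)^R = x at *
  generalize (-3:ℚ)^R = y at *
  generalize od R = z at *
  generalize od (2*R+1) = u at *
  generalize od (3*R+1) = v at *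
  generalize ((6*R+2).factorial:ℚ) = s at *
  generalize ((5*R+2).factorial:ℚ) = s5 at *
  generalize (R.factorial:ℚ) = s1 at *
  generalize (-1:ℚ)^R = m at *
  field_simp
  ring_nf
  rw [show m^3 = m*m^2 by ring, q5]
  ring

end Pool.Agent.Helper857.X
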