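import Pool.Agent.Helper857.X2
import Pool.Agent.Helper857.W8

set_option autoImplicit false

namespace Pool.Agent.Helper857.X

open Finset Pad
open Pool.Agent.Helper857.W (g g_I g_two WW WW_succ)

variable {p : ℕ} [hp : Fact p.Prime]

lemma prod_lin (f c : ℕ → ℚ) (n : ℕ) (hc : ∀ i < n, I p 1 (c i))
    (hf : ∀ i < n, I p 2 (f i - (1 + c i))) :
    I p 2 (∏ i ∈ range n, f i - (1 + ∑ i ∈ range n, c i)) := by
  induction n with
  | zero => simpa using I.zero 2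
  | succ n ih =>
    have ih' := ih (fun i hi => hc i (by omega)) (fun i hi => hf i (by omega))
    have hs : I p 1 (∑ i ∈ range n, c i) := I.sum _ _ (fun i hi => hc i (by rw [mem_range] at hi; omega))
    have h1 := hc n (by omega)
    have h2 := hf n (by omega)
    rw [prod_range_succ, sum_range_succ]
    have e : (∏ i ∈ range n, f i) * f n - (1 + (∑ i ∈ range n, c i + c n)) =
      (∏ i ∈ range n, f i - (1 + ∑ i ∈ range n, c i)) * f n + (f n - (1 + c n)) * (1 + ∑ i ∈ range n, c i) +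
        (∑ i ∈ range n, c i) * c n := by ring
    rw [e]
    have m1 : f n ∈ Zp p := by
      have := (Zp p).add_mem h2.mem ((Zp p).add_mem (Zp p).one_mem h1.mem)
      simpa using this
    have m2 : 1 + ∑ i ∈ range n, c i ∈ Zp p := (Zp p).add_mem (Zp p).one_mem hs.mem
    exact ((ih'.mul_mem m1).add (h2.mul_mem m2)).add (hs.mul h1)

lemma inv_lin {u : ℚ} (hu : I p 1 u) : I p 2 ((1 - u)⁻¹ - (1 + u)) := by
  obtain ⟨n0, m0, i0⟩ := unit (p := p) (x := 1 - u) (by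
    have : 1 - u - 1 = -u := by ring
    rw [this]; exact hu.neg)
  have hinv : (1-u)*(1-u)⁻¹ = 1 := mul_inv_cancel₀ n0
  have e : (1 - u)⁻¹ - (1 + u) = (u * u) * (1-u)⁻¹ := by
    linear_combination (1 + u) * hinv
  rw [e]
  exact (hu.mul hu).mul_mem m0

lemma frac_lin {u v : ℚ} (hu : I p 1 u) (hv : I p 1 v) : I p 2 ((1 - u) / (1 + v) - (1 + (-u - v))) := by
  have h1 := inv_lin (p := p) (u := -v) hv.neg
  rw [sub_neg_eq_add] at h1
  have e : (1 - u) / (1 + v) - (1 + (-u - v)) = ((1+v)⁻¹ - (1 + -v)) * (1 - u) + u * v := by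
    rw [div_eq_mul_inv]; ring
  rw [e]
  exact (h1.mul_mem ((Zp p).sub_mem (Zp p).one_mem hu.mem)).add (hu.mul hv)

noncomputable def hh (N : ℚ) (r : ℕ) : ℚ := ∑ i ∈ range r, g N (i+1)
noncomputable def oo (N : ℚ) (r : ℕ) : ℚ := ∑ i ∈ range r, g N (2*i+1)

lemma hh_succ (N : ℚ) (r : ℕ) : hh N (r+1) = hh N r + g N (r+1) := by unfold hh; rw [sum_range_succ]
lemma oo_succ (N : ℚ) (r : ℕ) : oo N (r+1) = oo N r + g N (2*r+1) := by unfold oo; rw [sum_range_succ]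

lemma fw_eq (N : ℚ) (hN : ∀ i : ℕ, 2*(i:ℚ)+2-3*N ≠ 0) (hN' : 0 < N) (r : ℕ) :
    fw N (r+1) = (-1/3)^(r+1) * (WW N (r+1) * (∏ i ∈ range (r+1), ((1 - 5 * g N (2*i+1))/(1 + g N (2*i+1)))) *
      ∏ i ∈ range (r+1), (1 - 3/2 * g N (i+1))⁻¹) := by
  have h3 : (-1/3:ℚ)^(r+1) = ∏ i ∈ range (r+1), (-1/3:ℚ) := by rw [prod_const, card_range]
  unfold fw WW g
  rw [h3, ← prod_mul_distrib, ← prod_mul_distrib, ← prod_mul_distrib]
  apply prod_congr rfl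
  intro i _
  have h1 := hN i
  have h2 : 2*(i:ℚ)+1+N ≠ 0 := by positivity
  have h4 : 2*(i:ℚ)+2 ≠ 0 := by positivity
  have h5 : (i:ℚ)+1 ≠ 0 := by positivity
  have h6 : 2*(i:ℚ)+1 ≠ 0 := by positivity
  have e1 : (1 - 3/2 * (N/((i+1:ℕ):ℚ)))⁻¹ = (2*(i:ℚ)+2) / (2*(i:ℚ)+2-3*N) := by
    rw [inv_eq_one_div, eq_div_iff h1, one_div, inv_mul_eq_iff_eq_mul₀]
    · push_cast; field_simp
    · push_cast
      intro h
      apply h1
      field_simp at h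
      linarith
  have e2 : (1 - 5 * (N/((2*i+1:ℕ):ℚ)))/(1 + N/((2*i+1:ℕ):ℚ)) = (2*(i:ℚ)+1-5*N)/(2*(i:ℚ)+1+N) := by
    push_cast
    have : 1 + N/(2*(i:ℚ)+1) ≠ 0 := by positivity
    field_simp
  rw [e1, e2]
  generalize 2*(i:ℚ)+2-3*N = d at *
  field_simp

lemma bk_eq (N : ℚ) (hN : ∀ i : ℕ, 2*(i:ℚ)+2-N ≠ 0) (hN' : 0 < N) (r : ℕ) :
    bk N (r+1) = (-3)^(r+1) * (WW (3*N) (r+1) * (∏ i ∈ range (r+1), ((1 - g N (2*i+1))/(1 + 5 * g N (2*i+1)))) *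
      ∏ i ∈ range (r+1), (1 - 1/2 * g N (i+1))⁻¹) := by
  have h3 : (-3:ℚ)^(r+1) = ∏ i ∈ range (r+1), (-3:ℚ) := by simp
  unfold bk WW g
  rw [h3, ← prod_mul_distrib, ← prod_mul_distrib, ← prod_mul_distrib]
  apply prod_congr rfl
  intro i _
  have h1 := hN i
  have h2 : 2*(i:ℚ)+1+5*N ≠ 0 := by positivity
  have h4 : 2*(i:ℚ)+2 ≠ 0 := by positivity
  have h5 : (i:ℚ)+1 ≠ 0 := by positivity
  have h6 : 2*(i:ℚ)+1 ≠ 0 := by positivity
  have e1 : (1 - 1/2 * (N/((i+1:ℕ):ℚ)))⁻¹ = (2*(i:ℚ)+2) / (2*(i:ℚ)+2-N) := by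
    rw [inv_eq_one_div, eq_div_iff h1, one_div, inv_mul_eq_iff_eq_mul₀]
    · push_cast; field_simp
    · push_cast
      intro h
      apply h1
      field_simp at h
      linarith
  have e2 : (1 - N/((2*i+1:ℕ):ℚ))/(1 + 5 * (N/((2*i+1:ℕ):ℚ))) = (2*(i:ℚ)+1-N)/(2*(i:ℚ)+1+5*N) := by
    push_cast
    have : 1 + 5*(N/(2*(i:ℚ)+1)) ≠ 0 := by positivity
    field_simp
  rw [e1, e2]
  generalize 2*(i:ℚ)+2-N = d at *
  field_simp

lemma choose_prod' (R m : ℕ) : (((2*R).choose m : ℕ):ℚ) = (-1)^m * ∏ j ∈ range m, (1 - g ((2*R+1:ℕ):ℚ) (j+1)) := by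
  induction m with
  | zero => simp
  | succ m ih =>
    rw [prod_range_succ, pow_succ]
    have h1 := Nat.choose_succ_right_eq (2*R) m
    have h3 : ((m+1:ℕ):ℚ) ≠ 0 := by positivity
    have h2 : ((2*R).choose (m+1) : ℚ) * ((m+1:ℕ):ℚ) = (2*R).choose m * ((2*R:ℕ):ℚ) - (2*R).choose m * (m:ℚ) := by
      rcases le_or_gt m (2*R) with hm | hm
      · have : ((2*R - m : ℕ):ℚ) = ((2*R:ℕ):ℚ) - m := by rw [Nat.cast_sub hm]
        rw [← mul_sub, ← this]; exact_mod_cast h1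
      · rw [Nat.choose_eq_zero_of_lt hm, Nat.choose_eq_zero_of_lt (show 2*R < m+1 by omega)]; simp
    have e : 1 - g ((2*R+1:ℕ):ℚ) (m+1) = -(((2*R:ℕ):ℚ) - m)/((m+1:ℕ):ℚ) := by
      unfold g
      field_simp
      push_cast; ring
    rw [e]
    have : ((2*R).choose (m+1) : ℚ) = (((2*R).choose m : ℕ):ℚ) * (((2*R:ℕ):ℚ) - m) / ((m+1:ℕ):ℚ) := by
      rw [eq_div_iff h3, h2]; ring
    rw [this, ih]
    ring

lemma choose_even (R r : ℕ) : (((2*R+1).choose (2*(r+1)) : ℕ):ℚ) =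
    -(g ((2*R+1:ℕ):ℚ) (r+1) * (1/2)) * ∏ j ∈ range (2*r+1), (1 - g ((2*R+1:ℕ):ℚ) (j+1)) := by
  have h1 := Nat.add_one_mul_choose_eq (2*R) (2*r+1)
  have h2 : (((2*R+1).choose (2*(r+1)) : ℕ):ℚ) * ((2*(r+1):ℕ):ℚ) = ((2*R+1:ℕ):ℚ) * ((2*R).choose (2*r+1) : ℕ) := by
    rw [show 2*(r+1) = 2*r+1+1 by ring]
    exact_mod_cast h1.symm
  rw [choose_prod'] at h2
  have h3 : ((2*(r+1):ℕ):ℚ) ≠ 0 := by positivity
  have : (((2*R+1).choose (2*(r+1)) : ℕ):ℚ) = ((2*R+1:ℕ):ℚ) * ((-1)^(2*r+1) * ∏ j ∈ range (2*r+1), (1 - g ((2*R+1:ℕ):ℚ) (j+1))) / ((2*(r+1):ℕ):ℚ) := by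
    rw [eq_div_iff h3, h2]
  rw [this, pow_succ, pow_mul]
  have : g ((2*R+1:ℕ):ℚ) (r+1) * (1/2) = ((2*R+1:ℕ):ℚ)/((2*(r+1):ℕ):ℚ) := by
    unfold g; push_cast; field_simp
  rw [this]
  simp
  ring

lemma sum_oe (N : ℚ) (r : ℕ) : ∑ j ∈ range (2*r+1), g N (j+1) = oo N (r+1) + 1/2 * hh N r := by
  induction r with
  | zero => simp [oo, hh]
  | succ r ih =>
    rw [show 2*(r+1)+1 = 2*r+1+1+1 by ring, sum_range_succ, sum_range_succ, ih, oo_succ N (r+1), hh_succ]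
    have : g N (2*r+1+1) = g N (r+1) * (2:ℚ)⁻¹ := by
      rw [← g_two]; congr 1
    rw [this, show 2*r+1+1+1 = 2*(r+1)+1 by ring]
    ring

variable {a R : ℕ} (ha : 1 ≤ a) (hN : 2*R+1 = p^a) (h5 : 5 ≤ p)

include h5 in
lemma third_mem : (-1/3:ℚ) ∈ Zp p := by
  have n3 : ¬ p ∣ 3 := fun h => absurd (Nat.le_of_dvd (by norm_num) h) (by omega)
  have := inv_nat_mem (p := p) n3
  have e : (-1/3:ℚ) = -((3:ℕ):ℚ)⁻¹ := by norm_num
  rw [e]
  exact (Zp p).neg_mem this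

include h5 in
lemma halfm : (1/2:ℚ) ∈ Zp p := by
  have n2 : ¬ p ∣ 2 := fun h => absurd (Nat.le_of_dvd (by norm_num) h) (by omega)
  have := inv_nat_mem (p := p) n2
  have e : (1/2:ℚ) = ((2:ℕ):ℚ)⁻¹ := by norm_num
  rw [e]
  exact this

include ha hN h5

lemma gI {m : ℕ} (hm : 1 ≤ m) (hm' : m ≤ 2*R) : I p 1 (g ((2*R+1:ℕ):ℚ) m) := g_I ha hN hm hm'

/-- each forward term against the binomial term -/
lemma fw_I {r : ℕ} (hr : r < R) :
    I p 3 (fw ((2*R+1:ℕ):ℚ) (r+1) + (-1/3)^(r+1) * (((2*R+1).choose (2*(r+1)) : ℕ):ℚ) -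
      (-1/3)^(r+1) * (g ((2*R+1:ℕ):ℚ) (r+1) * (1/2)) *
        (5/2 * hh ((2*R+1:ℕ):ℚ) (r+1) - 5 * oo ((2*R+1:ℕ):ℚ) (r+1) - g ((2*R+1:ℕ):ℚ) (r+1))) := by
  have m3 := third_mem (p := p) h5
  have m2 := halfm (p := p) h5
  have m (n : ℕ) : ((n:ℕ):ℚ) ∈ Zp p := nat_mem n
  rw [choose_even]
  set N : ℚ := ((2*R+1:ℕ):ℚ) with hNd
  have hNpos : 0 < N := by rw [hNd]; positivity
  have gi (m : ℕ) (h1 : 1 ≤ m) (h2 : m ≤ 2*R) : I p 1 (g N m) := gI ha hN h5 h1 h2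
  have hne : ∀ i : ℕ, 2*(i:ℚ)+2-3*N ≠ 0 := by
    intro i h
    have : (2*(i:ℤ)+2-3*((2*R+1:ℕ):ℤ)) = 0 := by
      rw [hNd] at h; exact_mod_cast h
    push_cast at this
    omega
  rw [fw_eq N hne hNpos, WW_succ]
  have a1 : I p 2 (∏ i ∈ range r, (1 + N/(2*((i:ℚ)+1))) - (1 + ∑ i ∈ range r, 1/2 * g N (i+1))) := by
    apply prod_lin
    · intro i hi; exact I.mem_mul m2 (gi _ (by omega) (by omega))
    · intro i hi
      have : 1 + N/(2*((i:ℚ)+1)) - (1 + 1/2 * g N (i+1)) = 0 := by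
        unfold g; push_cast; field_simp; ring
      rw [this]; exact I.zero 2
  have a2 : I p 2 (∏ i ∈ range (r+1), ((1 - 5 * g N (2*i+1))/(1 + g N (2*i+1))) - (1 + ∑ i ∈ range (r+1), (-6) * g N (2*i+1))) := by
    apply prod_lin
    · intro i hi; exact I.mem_mul (by exact_mod_cast int_mem (-6)) (gi _ (by omega) (by omega))
    · intro i hi
      have h1 := gi (2*i+1) (by omega) (by omega)
      have := frac_lin (p := p) (I.mem_mul (by exact_mod_cast m 5 : (5:ℚ) ∈ Zp p) h1) h1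
      have e : (1:ℚ) + (-(5 * g N (2*i+1)) - g N (2*i+1)) = 1 + (-6) * g N (2*i+1) := by ring
      rwa [e] at this
  have m32 : (3/2:ℚ) ∈ Zp p := by
    have : (3/2:ℚ) = 3 * (1/2) := by norm_num
    rw [this]; exact (Zp p).mul_mem (by exact_mod_cast m 3) m2
  have a3 : I p 2 (∏ i ∈ range (r+1), (1 - 3/2 * g N (i+1))⁻¹ - (1 + ∑ i ∈ range (r+1), 3/2 * g N (i+1))) := by
    apply prod_lin
    · intro i hi; exact I.mem_mul m32 (gi _ (by omega) (by omega))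
    · intro i hi
      exact inv_lin (I.mem_mul m32 (gi _ (by omega) (by omega)))
  have a4 : I p 2 (∏ j ∈ range (2*r+1), (1 - g N (j+1)) - (1 + ∑ j ∈ range (2*r+1), (-g N (j+1)))) := by
    apply prod_lin
    · intro i hi; exact (gi _ (by omega) (by omega)).neg
    · intro i hi
      have : 1 - g N (i+1) - (1 + -g N (i+1)) = 0 := by ring
      rw [this]; exact I.zero 2
  rw [← mul_sum] at a1 a2 a3
  rw [sum_neg_distrib, sum_oe] at a4
  have x1 := gi (r+1) (by omega) (by omega)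
  have hh1 : I p 1 (hh N r) := I.sum _ _ (fun i hi => by rw [mem_range] at hi; exact gi _ (by omega) (by omega))
  have hh2 : I p 1 (hh N (r+1)) := I.sum _ _ (fun i hi => by rw [mem_range] at hi; exact gi _ (by omega) (by omega))
  have oo1 : I p 1 (oo N (r+1)) := I.sum _ _ (fun i hi => by rw [mem_range] at hi; exact gi _ (by omega) (by omega))
  change I p 2 (_ - (1 + 1/2 * hh N r)) at a1
  change I p 2 (_ - (1 + (-6) * oo N (r+1))) at a2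
  change I p 2 (_ - (1 + 3/2 * hh N (r+1))) at a3
  have ex : N/(2*((r:ℚ)+1)) = g N (r+1) * (1/2) := by unfold g; push_cast; field_simp
  rw [ex]
  set x := g N (r+1) with hx
  set P1 := ∏ i ∈ range r, (1 + N/(2*((i:ℚ)+1)))
  set P2 := ∏ i ∈ range (r+1), ((1 - 5 * g N (2*i+1))/(1 + g N (2*i+1)))
  set P3 := ∏ i ∈ range (r+1), (1 - 3/2 * g N (i+1))⁻¹
  set P4 := ∏ j ∈ range (2*r+1), (1 - g N (j+1))
  have hhs : hh N (r+1) = hh N r + x := hh_succ N r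
  set H := hh N (r+1)
  set H0 := hh N r
  set O := oo N (r+1)
  have h1 : I p 1 (1/2 * H0) := I.mem_mul m2 hh1
  have h2 : I p 1 ((-6) * O) := I.mem_mul (by exact_mod_cast int_mem (-6)) oo1
  have h3 : I p 1 (3/2 * H) := I.mem_mul m32 hh2
  have mP1 : P1 ∈ Zp p := by
    have := (Zp p).add_mem a1.mem ((Zp p).add_mem (Zp p).one_mem h1.mem); simpa using this
  have mP2 : P2 ∈ Zp p := by
    have := (Zp p).add_mem a2.mem ((Zp p).add_mem (Zp p).one_mem h2.mem); simpa using this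
  have mP3 : P3 ∈ Zp p := by
    have := (Zp p).add_mem a3.mem ((Zp p).add_mem (Zp p).one_mem h3.mem); simpa using this
  have key : I p 2 (P1 * P2 * P3 - (1 + (1/2 * H0 + (-6) * O + 3/2 * H))) := by
    have e : P1 * P2 * P3 - (1 + (1/2 * H0 + (-6) * O + 3/2 * H)) =
      (P1 - (1 + 1/2 * H0)) * (P2 * P3) + (P2 - (1 + (-6) * O)) * ((1 + 1/2*H0) * P3) +
      (P3 - (1 + 3/2 * H)) * ((1 + 1/2*H0) * (1 + (-6)*O)) +
      ((1/2 * H0) * ((-6) * O) * (1 + 3/2 * H) + (1/2*H0) * (3/2 * H) + ((-6) * O) * (3/2 * H)) := by ring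
    rw [e]
    have n1 : 1 + 1/2*H0 ∈ Zp p := (Zp p).add_mem (Zp p).one_mem h1.mem
    have n2 : 1 + (-6)*O ∈ Zp p := (Zp p).add_mem (Zp p).one_mem h2.mem
    have n3 : 1 + 3/2*H ∈ Zp p := (Zp p).add_mem (Zp p).one_mem h3.mem
    refine (((a1.mul_mem ((Zp p).mul_mem mP2 mP3)).add (a2.mul_mem ((Zp p).mul_mem n1 mP3))).add
      (a3.mul_mem ((Zp p).mul_mem n1 n2))).add ?_
    exact (((h1.mul h2).mul_mem n3).add (h1.mul h3)).add (h2.mul h3)
  have e : (-1/3)^(r+1) * (x * (1/2) * P1 * P2 * P3) + (-1/3)^(r+1) * (-(x * (1/2)) * P4) -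
      (-1/3)^(r+1) * (x * (1/2)) * (5/2 * H - 5 * O - x) =
      ((-1/3)^(r+1) * (1/2)) * (x * ((P1 * P2 * P3 - (1 + (1/2 * H0 + (-6) * O + 3/2 * H))) -
        (P4 - (1 + -(O + 1/2 * H0))))) := by
    rw [hhs]; ring
  rw [e]
  refine I.mem_mul ((Zp p).mul_mem ((Zp p).pow_mem m3 _) m2) ?_
  exact x1.mul (key.sub a4)

/-- each backward term against the binomial term -/
lemma bk_I {r : ℕ} (hr : r < R) :
    I p 3 (bk ((2*R+1:ℕ):ℚ) (r+1) + 3 * ((-3)^(r+1) * (((2*R+1).choose (2*(r+1)) : ℕ):ℚ)) -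
      (-3)^(r+1) * (3 * g ((2*R+1:ℕ):ℚ) (r+1) * (1/2)) *
        (5/2 * hh ((2*R+1:ℕ):ℚ) (r+1) - 5 * oo ((2*R+1:ℕ):ℚ) (r+1) - 2 * g ((2*R+1:ℕ):ℚ) (r+1))) := by
  have m3 : (-3:ℚ) ∈ Zp p := by exact_mod_cast int_mem (-3)
  have m2 := halfm (p := p) h5
  have m (n : ℕ) : ((n:ℕ):ℚ) ∈ Zp p := nat_mem n
  rw [choose_even]
  set N : ℚ := ((2*R+1:ℕ):ℚ) with hNd
  have hNpos : 0 < N := by rw [hNd]; positivity
  have gi (m : ℕ) (h1 : 1 ≤ m) (h2 : m ≤ 2*R) : I p 1 (g N m) := gI ha hN h5 h1 h2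
  have hne : ∀ i : ℕ, 2*(i:ℚ)+2-N ≠ 0 := by
    intro i h
    have : (2*(i:ℤ)+2-((2*R+1:ℕ):ℤ)) = 0 := by
      rw [hNd] at h; exact_mod_cast h
    push_cast at this
    omega
  rw [bk_eq N hne hNpos, WW_succ]
  have m32 : (3/2:ℚ) ∈ Zp p := by
    have : (3/2:ℚ) = 3 * (1/2) := by norm_num
    rw [this]; exact (Zp p).mul_mem (by exact_mod_cast m 3) m2
  have a1 : I p 2 (∏ i ∈ range r, (1 + 3*N/(2*((i:ℚ)+1))) - (1 + ∑ i ∈ range r, 3/2 * g N (i+1))) := by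
    apply prod_lin
    · intro i hi; exact I.mem_mul m32 (gi _ (by omega) (by omega))
    · intro i hi
      have : 1 + 3*N/(2*((i:ℚ)+1)) - (1 + 3/2 * g N (i+1)) = 0 := by
        unfold g; push_cast; field_simp; ring
      rw [this]; exact I.zero 2
  have a2 : I p 2 (∏ i ∈ range (r+1), ((1 - g N (2*i+1))/(1 + 5 * g N (2*i+1))) - (1 + ∑ i ∈ range (r+1), (-6) * g N (2*i+1))) := by
    apply prod_lin
    · intro i hi; exact I.mem_mul (by exact_mod_cast int_mem (-6)) (gi _ (by omega) (by omega))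
    · intro i hi
      have h1 := gi (2*i+1) (by omega) (by omega)
      have := frac_lin (p := p) h1 (I.mem_mul (by exact_mod_cast m 5 : (5:ℚ) ∈ Zp p) h1)
      have e : (1:ℚ) + (-(g N (2*i+1)) - 5 * g N (2*i+1)) = 1 + (-6) * g N (2*i+1) := by ring
      rwa [e] at this
  have a3 : I p 2 (∏ i ∈ range (r+1), (1 - 1/2 * g N (i+1))⁻¹ - (1 + ∑ i ∈ range (r+1), 1/2 * g N (i+1))) := by
    apply prod_lin
    · intro i hi; exact I.mem_mul m2 (gi _ (by omega) (by omega))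
    · intro i hi
      exact inv_lin (I.mem_mul m2 (gi _ (by omega) (by omega)))
  have a4 : I p 2 (∏ j ∈ range (2*r+1), (1 - g N (j+1)) - (1 + ∑ j ∈ range (2*r+1), (-g N (j+1)))) := by
    apply prod_lin
    · intro i hi; exact (gi _ (by omega) (by omega)).neg
    · intro i hi
      have : 1 - g N (i+1) - (1 + -g N (i+1)) = 0 := by ring
      rw [this]; exact I.zero 2
  rw [← mul_sum] at a1 a2 a3
  rw [sum_neg_distrib, sum_oe] at a4
  have x1 := gi (r+1) (by omega) (by omega)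
  have hh1 : I p 1 (hh N r) := I.sum _ _ (fun i hi => by rw [mem_range] at hi; exact gi _ (by omega) (by omega))
  have hh2 : I p 1 (hh N (r+1)) := I.sum _ _ (fun i hi => by rw [mem_range] at hi; exact gi _ (by omega) (by omega))
  have oo1 : I p 1 (oo N (r+1)) := I.sum _ _ (fun i hi => by rw [mem_range] at hi; exact gi _ (by omega) (by omega))
  change I p 2 (_ - (1 + 3/2 * hh N r)) at a1
  change I p 2 (_ - (1 + (-6) * oo N (r+1))) at a2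
  change I p 2 (_ - (1 + 1/2 * hh N (r+1))) at a3
  have ex : 3*N/(2*((r:ℚ)+1)) = 3 * g N (r+1) * (1/2) := by unfold g; push_cast; field_simp
  rw [ex]
  set x := g N (r+1) with hx
  set P1 := ∏ i ∈ range r, (1 + 3*N/(2*((i:ℚ)+1)))
  set P2 := ∏ i ∈ range (r+1), ((1 - g N (2*i+1))/(1 + 5 * g N (2*i+1)))
  set P3 := ∏ i ∈ range (r+1), (1 - 1/2 * g N (i+1))⁻¹
  set P4 := ∏ j ∈ range (2*r+1), (1 - g N (j+1))
  have hhs : hh N (r+1) = hh N r + x := hh_succ N r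
  set H := hh N (r+1)
  set H0 := hh N r
  set O := oo N (r+1)
  have h1 : I p 1 (3/2 * H0) := I.mem_mul m32 hh1
  have h2 : I p 1 ((-6) * O) := I.mem_mul (by exact_mod_cast int_mem (-6)) oo1
  have h3 : I p 1 (1/2 * H) := I.mem_mul m2 hh2
  have mP1 : P1 ∈ Zp p := by
    have := (Zp p).add_mem a1.mem ((Zp p).add_mem (Zp p).one_mem h1.mem); simpa using this
  have mP2 : P2 ∈ Zp p := by
    have := (Zp p).add_mem a2.mem ((Zp p).add_mem (Zp p).one_mem h2.mem); simpa using this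
  have mP3 : P3 ∈ Zp p := by
    have := (Zp p).add_mem a3.mem ((Zp p).add_mem (Zp p).one_mem h3.mem); simpa using this
  have key : I p 2 (P1 * P2 * P3 - (1 + (3/2 * H0 + (-6) * O + 1/2 * H))) := by
    have e : P1 * P2 * P3 - (1 + (3/2 * H0 + (-6) * O + 1/2 * H)) =
      (P1 - (1 + 3/2 * H0)) * (P2 * P3) + (P2 - (1 + (-6) * O)) * ((1 + 3/2*H0) * P3) +
      (P3 - (1 + 1/2 * H)) * ((1 + 3/2*H0) * (1 + (-6)*O)) +
      ((3/2 * H0) * ((-6) * O) * (1 + 1/2 * H) + (3/2*H0) * (1/2 * H) + ((-6) * O) * (1/2 * H)) := by ring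
    rw [e]
    have n1 : 1 + 3/2*H0 ∈ Zp p := (Zp p).add_mem (Zp p).one_mem h1.mem
    have n2 : 1 + (-6)*O ∈ Zp p := (Zp p).add_mem (Zp p).one_mem h2.mem
    have n3 : 1 + 1/2*H ∈ Zp p := (Zp p).add_mem (Zp p).one_mem h3.mem
    refine (((a1.mul_mem ((Zp p).mul_mem mP2 mP3)).add (a2.mul_mem ((Zp p).mul_mem n1 mP3))).add
      (a3.mul_mem ((Zp p).mul_mem n1 n2))).add ?_
    exact (((h1.mul h2).mul_mem n3).add (h1.mul h3)).add (h2.mul h3)
  have e : (-3)^(r+1) * (3 * x * (1/2) * P1 * P2 * P3) + 3 * ((-3)^(r+1) * (-(x * (1/2)) * P4)) -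
      (-3)^(r+1) * (3 * x * (1/2)) * (5/2 * H - 5 * O - 2 * x) =
      ((-3)^(r+1) * (1/2) * 3) * (x * ((P1 * P2 * P3 - (1 + (3/2 * H0 + (-6) * O + 1/2 * H))) -
        (P4 - (1 + -(O + 1/2 * H0))))) := by
    rw [hhs]; ring
  rw [e]
  refine I.mem_mul ((Zp p).mul_mem ((Zp p).mul_mem ((Zp p).pow_mem m3 _) m2) (by exact_mod_cast m 3)) ?_
  exact x1.mul (key.sub a4)

end Pool.Agent.Helper857.X
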