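import Pool.Agent.Helper857.X3

set_option autoImplicit false

namespace Pool.Agent.Helper857.X

open Finset Pad
open Pool.Agent.Helper857.W (g g_I g_two WW WW_succ)

lemma split_oe {M : Type*} [AddCommMonoid M] (f : ℕ → M) (n : ℕ) :
    ∑ m ∈ range (2*n), f m = ∑ k ∈ range n, (f (2*k) + f (2*k+1)) := by
  induction n with
  | zero => simp
  | succ n ih =>
    rw [show 2*(n+1) = 2*n+1+1 by ring, sum_range_succ, sum_range_succ, ih, sum_range_succ, add_assoc]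

def ee (R : ℕ) : ℤ := ∑ k ∈ range (R+1), ((2*R+1).choose (2*k) : ℤ) * (-3)^k
def od' (R : ℕ) : ℤ := ∑ k ∈ range (R+1), ((2*R+1).choose (2*k+1) : ℤ) * (-3)^k

lemma zs (R : ℕ) : ((⟨1, 1⟩ : Zsqrtd (-3)))^(2*R+1) = ⟨ee R, od' R⟩ := by
  have h1 : (⟨1, 1⟩ : Zsqrtd (-3)) = Zsqrtd.sqrtd + 1 := by
    ext <;> simp
  rw [h1, add_pow, show 2*R+1+1 = 2*(R+1) by ring, split_oe]
  have hsq : (Zsqrtd.sqrtd : Zsqrtd (-3))^2 = ((-3:ℤ) : Zsqrtd (-3)) := by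
    rw [pow_two, Zsqrtd.dmuld]
  have h2 : ∀ k ∈ range (R+1), ((Zsqrtd.sqrtd : Zsqrtd (-3))^(2*k) * 1^(2*R+1-2*k) * (((2*R+1).choose (2*k) : ℕ) : Zsqrtd (-3)) +
      (Zsqrtd.sqrtd : Zsqrtd (-3))^(2*k+1) * 1^(2*R+1-(2*k+1)) * (((2*R+1).choose (2*k+1) : ℕ) : Zsqrtd (-3))) =
      ((((2*R+1).choose (2*k) : ℤ) * (-3)^k : ℤ) : Zsqrtd (-3)) +
      Zsqrtd.sqrtd * ((((2*R+1).choose (2*k+1) : ℤ) * (-3)^k : ℤ) : Zsqrtd (-3)) := by
    intro k _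
    rw [one_pow, one_pow, pow_succ, pow_mul, hsq]
    push_cast
    ring
  rw [sum_congr rfl h2, sum_add_distrib, ← mul_sum, ← Int.cast_sum, ← Int.cast_sum]
  change ((ee R : ℤ) : Zsqrtd (-3)) + Zsqrtd.sqrtd * ((od' R : ℤ) : Zsqrtd (-3)) = _
  generalize ee R = x
  generalize od' R = y
  ext <;> simp

lemma zs6 (m : ℕ) : ((⟨1, 1⟩ : Zsqrtd (-3)))^(6*m) = ⟨64^m, 0⟩ := by
  have h : ((⟨1, 1⟩ : Zsqrtd (-3)))^6 = ⟨64, 0⟩ := by
    ext <;> rfl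
  rw [pow_mul, h]
  induction m with
  | zero => rfl
  | succ m ih => rw [pow_succ, ih, pow_succ]; ext <;> simp

lemma eo (R : ℕ) (hR : R % 3 ≠ 1) : ee R = 4^R ∧ od' R = (if R % 3 = 0 then 1 else -1) * 4^R := by
  have h := zs R
  rcases (show R % 3 = 0 ∨ R % 3 = 2 by omega) with h0 | h0
  · obtain ⟨m, rfl⟩ : ∃ m, R = 3*m := ⟨R/3, by omega⟩
    rw [show 2*(3*m)+1 = 6*m+1 by ring, pow_succ, zs6] at h
    have e1 := congrArg Zsqrtd.re h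
    have e2 := congrArg Zsqrtd.im h
    simp only [Zsqrtd.re_mul, Zsqrtd.im_mul, mul_one, mul_zero, zero_mul, add_zero] at e1 e2
    rw [if_pos h0, ← e1, ← e2, pow_mul]
    norm_num
  · obtain ⟨m, rfl⟩ : ∃ m, R = 3*m+2 := ⟨R/3, by omega⟩
    rw [show 2*(3*m+2)+1 = 6*m+5 by ring, pow_add, zs6] at h
    have h5 : ((⟨1, 1⟩ : Zsqrtd (-3)))^5 = ⟨16, -16⟩ := by
      ext <;> rfl
    rw [h5] at h
    have e1 := congrArg Zsqrtd.re h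
    have e2 := congrArg Zsqrtd.im h
    simp only [Zsqrtd.re_mul, Zsqrtd.im_mul, mul_zero, zero_mul, add_zero] at e1 e2
    rw [if_neg (by omega), ← e1, ← e2, pow_add, pow_mul]
    norm_num

noncomputable def CB (R : ℕ) : ℚ := ∑ k ∈ range (R+1), (-3)^k * (((2*R+1).choose (2*k) : ℕ) : ℚ)
noncomputable def CA (R : ℕ) : ℚ := ∑ k ∈ range (R+1), (-1/3)^k * (((2*R+1).choose (2*k) : ℕ) : ℚ)

noncomputable def eps (R : ℕ) : ℚ := if R % 3 = 0 then 1 else -1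

lemma eps_sq (R : ℕ) : eps R * eps R = 1 := by unfold eps; split_ifs <;> norm_num

lemma CB_eq (R : ℕ) (hR : R % 3 ≠ 1) : CB R = 4^R := by
  have h := (eo R hR).1
  have : CB R = ((ee R : ℤ) : ℚ) := by
    unfold CB ee
    push_cast
    apply sum_congr rfl
    intro k _; ring
  rw [this, h]; push_cast; ring

lemma CA_eq (R : ℕ) (hR : R % 3 ≠ 1) : CA R * (-3)^R = eps R * 4^R := by
  have h := (eo R hR).2
  have : CA R * (-3)^R = ((od' R : ℤ) : ℚ) := by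
    unfold CA od'
    rw [sum_mul, ← sum_range_reflect]
    push_cast
    apply sum_congr rfl
    intro k hk
    rw [mem_range] at hk
    have e2 : (2*R+1).choose (2*(R-k)) = (2*R+1).choose (2*k+1) := by
      rw [← Nat.choose_symm (show 2*k+1 ≤ 2*R+1 by omega)]
      congr 1; omega
    rw [e2]
    have e3 : (-3:ℚ)^R = (-3)^(R-k) * (-3)^k := by rw [← pow_add]; congr 1; omega
    rw [e3]
    have e4 : (-1/3:ℚ)^(R-k) * (-3)^(R-k) = 1 := by rw [← mul_pow]; norm_num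
    calc (-1/3:ℚ)^(R-k) * (((2*R+1).choose (2*k+1) : ℕ) : ℚ) * ((-3)^(R-k) * (-3)^k) =
        ((-1/3:ℚ)^(R-k) * (-3)^(R-k)) * ((((2*R+1).choose (2*k+1) : ℕ) : ℚ) * (-3)^k) := by ring
      _ = _ := by rw [e4, one_mul]
  rw [this, h]
  unfold eps
  push_cast
  split_ifs <;> simp

/-- second order part -/
noncomputable def Qp (N : ℚ) (R : ℕ) : ℚ := ∑ r ∈ range R,
  ((-1/3)^(r+1) * (g N (r+1) * (1/2)) * (5/2 * hh N (r+1) - 5 * oo N (r+1) - g N (r+1)) +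
   (-3)^(r+1) * (3 * g N (r+1) * (1/2)) * (5/2 * hh N (r+1) - 5 * oo N (r+1) - 2 * g N (r+1)))

noncomputable def Phi (R : ℕ) : ℚ := 1 + ∑ r ∈ range R, fw ((2*R+1:ℕ):ℚ) (r+1) + ∑ s ∈ range R, bk ((2*R+1:ℕ):ℚ) (s+1)

variable {p : ℕ} [hp : Fact p.Prime] {a R : ℕ} (ha : 1 ≤ a) (hN : 2*R+1 = p^a) (h5 : 5 ≤ p)

include ha hN h5

lemma Phi_I : I p 3 (Phi R - (5 - CA R - 3 * CB R + Qp ((2*R+1:ℕ):ℚ) R)) := by
  have e : Phi R - (5 - CA R - 3 * CB R + Qp ((2*R+1:ℕ):ℚ) R) = ∑ r ∈ range R,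
    ((fw ((2*R+1:ℕ):ℚ) (r+1) + (-1/3)^(r+1) * (((2*R+1).choose (2*(r+1)) : ℕ):ℚ) -
      (-1/3)^(r+1) * (g ((2*R+1:ℕ):ℚ) (r+1) * (1/2)) *
        (5/2 * hh ((2*R+1:ℕ):ℚ) (r+1) - 5 * oo ((2*R+1:ℕ):ℚ) (r+1) - g ((2*R+1:ℕ):ℚ) (r+1))) +
    (bk ((2*R+1:ℕ):ℚ) (r+1) + 3 * ((-3)^(r+1) * (((2*R+1).choose (2*(r+1)) : ℕ):ℚ)) -
      (-3)^(r+1) * (3 * g ((2*R+1:ℕ):ℚ) (r+1) * (1/2)) *
        (5/2 * hh ((2*R+1:ℕ):ℚ) (r+1) - 5 * oo ((2*R+1:ℕ):ℚ) (r+1) - 2 * g ((2*R+1:ℕ):ℚ) (r+1)))) := by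
    unfold Phi CA CB Qp
    rw [sum_range_succ' (fun k => (-1/3:ℚ)^k * (((2*R+1).choose (2*k) : ℕ) : ℚ)),
      sum_range_succ' (fun k => (-3:ℚ)^k * (((2*R+1).choose (2*k) : ℕ) : ℚ))]
    simp only [sum_add_distrib, sum_sub_distrib, ← mul_sum]
    simp
    ring
  rw [e]
  apply I.sum
  intro r hr
  rw [mem_range] at hr
  exact (fw_I ha hN h5 hr).add (bk_I ha hN h5 hr)

omit ha h5 in
lemma R3 (h5 : 5 ≤ p) : R % 3 ≠ 1 := by
  intro h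
  have : 3 ∣ p^a := by rw [← hN]; omega
  have := Nat.Prime.dvd_of_dvd_pow Nat.prime_three this
  have := (Nat.prime_dvd_prime_iff_eq Nat.prime_three hp.out).mp this
  omega

/-- the even binomials are divisible by p -/
lemma CA_one : I p 1 (CA R - 1) := by
  unfold CA
  rw [sum_range_succ']
  simp only [pow_zero, mul_zero, Nat.choose_zero_right, Nat.cast_one, mul_one, add_sub_cancel_right]
  apply I.sum
  intro r hr
  rw [mem_range] at hr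
  rw [choose_even]
  have x1 := gI ha hN h5 (m := r+1) (by omega) (by omega)
  have e : (-1/3:ℚ)^(r+1) * (-(g ((2*R+1:ℕ):ℚ) (r+1) * (1/2)) * ∏ j ∈ range (2*r+1), (1 - g ((2*R+1:ℕ):ℚ) (j+1))) =
    g ((2*R+1:ℕ):ℚ) (r+1) * (-(-1/3:ℚ)^(r+1) * (1/2) * ∏ j ∈ range (2*r+1), (1 - g ((2*R+1:ℕ):ℚ) (j+1))) := by ring
  rw [e]
  apply x1.mul_mem
  apply (Zp p).mul_mem ((Zp p).mul_mem ((Zp p).neg_mem ((Zp p).pow_mem (third_mem h5) _)) (halfm h5))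
  apply (Zp p).prod_mem
  intro j hj
  rw [mem_range] at hj
  exact (Zp p).sub_mem (Zp p).one_mem (gI ha hN h5 (m := j+1) (by omega) (by omega)).mem

end Pool.Agent.Helper857.X
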