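import Pool.Agent.Helper857.X4

set_option autoImplicit false

namespace Pool.Agent.Helper857.X

open Finset Pad
open Pool.Agent.Helper857.W (g g_I g_two SS HH SH H3 halves sum_shift g_refl)

variable {p : ℕ} [hp : Fact p.Prime]

lemma prod_quad (z : ℕ → ℚ) (n : ℕ) (hz : ∀ i < n, I p 1 (z i)) :
    I p 3 (2 * ∏ i ∈ range n, (1 + z i) - (2 + 2 * ∑ i ∈ range n, z i + (∑ i ∈ range n, z i)^2 - ∑ i ∈ range n, (z i)^2)) := by
  induction n with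
  | zero => simpa using I.zero 3
  | succ n ih =>
    have ih' := ih (fun i hi => hz i (by omega))
    have hs : I p 1 (∑ i ∈ range n, z i) := I.sum _ _ (fun i hi => hz i (by rw [mem_range] at hi; omega))
    have hq : I p 2 (∑ i ∈ range n, (z i)^2) := I.sum _ _ (fun i hi => by
      rw [mem_range] at hi
      simpa using (hz i (by omega)).pow 2)
    have h1 := hz n (by omega)
    rw [prod_range_succ, sum_range_succ, sum_range_succ]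
    set P := ∏ i ∈ range n, (1 + z i)
    set S := ∑ i ∈ range n, z i
    set Q := ∑ i ∈ range n, (z i)^2
    have e : 2 * (P * (1 + z n)) - (2 + 2 * (S + z n) + (S + z n)^2 - (Q + z n ^ 2)) =
      (2 * P - (2 + 2 * S + S^2 - Q)) * (1 + z n) + (S * S - Q) * z n := by ring
    rw [e]
    have m1 : 1 + z n ∈ Zp p := (Zp p).add_mem (Zp p).one_mem h1.mem
    exact (ih'.mul_mem m1).add (((hs.mul hs).sub hq).mul h1)

variable {a R : ℕ} (ha : 1 ≤ a) (hN : 2*R+1 = p^a) (h5 : 5 ≤ p)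

include ha hN h5

lemma S3 : I p 3 (SS ((2*R+1:ℕ):ℚ) R) := by
  have n3 : ¬ p ∣ 3 := fun h => absurd (Nat.le_of_dvd (by norm_num) h) (by omega)
  have n2 : ¬ p ∣ 2 := fun h => absurd (Nat.le_of_dvd (by norm_num) h) (by omega)
  have n6 : ¬ p ∣ 6 := by
    intro h
    rw [show 6 = 2*3 by norm_num, hp.out.dvd_mul] at h
    exact h.elim n2 n3
  have sh := SH (p := p) ha hN
  have h3 := H3 (p := p) ha hN
  apply I.cancel n6
  have e : ((6:ℕ):ℚ) * SS ((2*R+1:ℕ):ℚ) R = (6 * SS ((2*R+1:ℕ):ℚ) R + 7 * HH ((2*R+1:ℕ):ℚ) R) - 7 * HH ((2*R+1:ℕ):ℚ) R := by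
    push_cast; ring
  rw [e]
  exact (sh.mono (by norm_num)).sub (I.mem_mul (by exact_mod_cast nat_mem 7) h3)

omit h5 in
lemma g_add {m : ℕ} (hm : 1 ≤ m) (hm' : m ≤ 2*R) :
    I p 3 (g ((2*R+1:ℕ):ℚ) m + g ((2*R+1:ℕ):ℚ) (2*R+1-m) + g ((2*R+1:ℕ):ℚ) m ^ 2) := by
  have hx := g_I (p := p) ha hN hm hm'
  have h2 := (g_refl (p := p) ha hN hm hm').1
  have e : g ((2*R+1:ℕ):ℚ) m + g ((2*R+1:ℕ):ℚ) (2*R+1-m) = g ((2*R+1:ℕ):ℚ) m * g ((2*R+1:ℕ):ℚ) (2*R+1-m) := by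
    unfold g
    obtain ⟨k, hk⟩ : ∃ k, 2*R+1 = m + k := ⟨2*R+1-m, by omega⟩
    have hk0 : k ≠ 0 := by omega
    have hm0 : m ≠ 0 := by omega
    rw [hk, show m + k - m = k by omega]
    have h1 : (m:ℚ) ≠ 0 := by exact_mod_cast hm0
    have h2 : (k:ℚ) ≠ 0 := by exact_mod_cast hk0
    push_cast
    field_simp
    ring
  have e2 : g ((2*R+1:ℕ):ℚ) m + g ((2*R+1:ℕ):ℚ) (2*R+1-m) + g ((2*R+1:ℕ):ℚ) m ^ 2 =
    g ((2*R+1:ℕ):ℚ) m * (g ((2*R+1:ℕ):ℚ) (2*R+1-m) + g ((2*R+1:ℕ):ℚ) m) := by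
    rw [e]; ring
  rw [e2]
  exact hx.mul h2

lemma SS_range : I p 3 (∑ i ∈ range R, g ((2*R+1:ℕ):ℚ) (i+1) ^ 2) := by
  have := S3 (p := p) ha hN h5
  unfold SS at this
  rwa [sum_shift] at this

/-- a product over the lower half -/
lemma L_gen {c : ℚ} (hc : c ∈ Zp p) :
    I p 3 (2 * ∏ i ∈ range R, (1 + c * g ((2*R+1:ℕ):ℚ) (i+1)) -
      (2 + 2 * (c * hh ((2*R+1:ℕ):ℚ) R) + (c * hh ((2*R+1:ℕ):ℚ) R)^2)) := by
  have hz : ∀ i < R, I p 1 (c * g ((2*R+1:ℕ):ℚ) (i+1)) := fun i hi => I.mem_mul hc (gI ha hN h5 (by omega) (by omega))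
  have h1 := prod_quad (p := p) (fun i => c * g ((2*R+1:ℕ):ℚ) (i+1)) R hz
  have h2 := SS_range (p := p) ha hN h5
  rw [← mul_sum] at h1
  have e3 : ∑ i ∈ range R, (c * g ((2*R+1:ℕ):ℚ) (i+1))^2 = c^2 * ∑ i ∈ range R, g ((2*R+1:ℕ):ℚ) (i+1) ^ 2 := by
    rw [mul_sum]; apply sum_congr rfl; intro i _; ring
  rw [e3] at h1
  have h3 : I p 3 (c^2 * ∑ i ∈ range R, g ((2*R+1:ℕ):ℚ) (i+1) ^ 2) := I.mem_mul ((Zp p).pow_mem hc 2) h2
  have e : 2 * ∏ i ∈ range R, (1 + c * g ((2*R+1:ℕ):ℚ) (i+1)) -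
      (2 + 2 * (c * hh ((2*R+1:ℕ):ℚ) R) + (c * hh ((2*R+1:ℕ):ℚ) R)^2) =
      (2 * ∏ i ∈ range R, (1 + c * g ((2*R+1:ℕ):ℚ) (i+1)) -
      (2 + 2 * (c * hh ((2*R+1:ℕ):ℚ) R) + (c * hh ((2*R+1:ℕ):ℚ) R)^2 - c^2 * ∑ i ∈ range R, g ((2*R+1:ℕ):ℚ) (i+1) ^ 2)) -
      c^2 * ∑ i ∈ range R, g ((2*R+1:ℕ):ℚ) (i+1) ^ 2 := by ring
  rw [e]
  exact h1.sub h3

lemma L4_one : I p 3 (L4 R - 1) := by
  have n2 : ¬ p ∣ 2 := fun h => absurd (Nat.le_of_dvd (by norm_num) h) (by omega)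
  set N : ℚ := ((2*R+1:ℕ):ℚ) with hNd
  have m2 := halfm (p := p) h5
  have s3 := S3 (p := p) ha hN h5
  have h3 := H3 (p := p) ha hN
  have hz : ∀ i < 2*R, I p 1 (1/2 * g N (i+1)) := fun i hi => I.mem_mul m2 (gI ha hN h5 (by omega) (by omega))
  have h1 := prod_quad (p := p) (fun i => 1/2 * g N (i+1)) (2*R) hz
  have e0 : ∏ i ∈ range (2*R), (1 + 1/2 * g N (i+1)) = L4 R := by
    unfold L4
    apply prod_congr rfl
    intro i _
    unfold g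
    rw [hNd]
    push_cast
    field_simp
  rw [e0, ← mul_sum] at h1
  have e3 : ∑ i ∈ range (2*R), (1/2 * g N (i+1))^2 = 1/4 * ∑ i ∈ range (2*R), g N (i+1) ^ 2 := by
    rw [mul_sum]; apply sum_congr rfl; intro i _; ring
  rw [e3, ← sum_shift (2*R) (fun m => g N m), ← sum_shift (2*R) (fun m => g N m ^ 2), halves, halves] at h1
  have a1 : I p 3 (∑ i ∈ Icc 1 R, (g N i + g N (2*R+1-i))) := by
    have e : ∑ i ∈ Icc 1 R, (g N i + g N (2*R+1-i)) = ∑ i ∈ Icc 1 R, (g N i + g N (2*R+1-i) + g N i ^ 2) - SS N R := by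
      unfold SS; rw [← sum_sub_distrib]; apply sum_congr rfl; intro i _; ring
    rw [e]
    refine (I.sum _ _ (fun i hi => ?_)).sub s3
    rw [mem_Icc] at hi
    exact g_add ha hN hi.1 (by omega)
  have a2 : I p 3 (∑ i ∈ Icc 1 R, (g N i ^ 2 + g N (2*R+1-i) ^ 2)) := by
    have e : ∑ i ∈ Icc 1 R, (g N i ^ 2 + g N (2*R+1-i) ^ 2) =
      ∑ i ∈ Icc 1 R, (g N (2*R+1-i) ^ 2 - g N i ^ 2 - 2 * g N i ^ 3) + 2 * SS N R + 2 * HH N R := by
      unfold SS HH; rw [mul_sum, mul_sum, ← sum_add_distrib, ← sum_add_distrib]; apply sum_congr rfl; intro i _; ring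
    rw [e]
    have m2' : (2:ℚ) ∈ Zp p := by exact_mod_cast nat_mem 2
    refine ((I.sum _ _ (fun i hi => ?_)).add (I.mem_mul m2' s3)).add (I.mem_mul m2' h3)
    rw [mem_Icc] at hi
    exact (g_refl (p := p) ha hN hi.1 (by omega)).2.mono (by norm_num)
  set X := ∑ i ∈ Icc 1 R, (g N i + g N (2*R+1-i))
  set Y := ∑ i ∈ Icc 1 R, (g N i ^ 2 + g N (2*R+1-i) ^ 2)
  apply I.cancel n2
  have e : ((2:ℕ):ℚ) * (L4 R - 1) = (2 * L4 R - (2 + 2 * (1/2 * X) + (1/2 * X)^2 - 1/4 * Y)) + X * (1 + 1/4 * X) - 1/4 * Y := by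
    push_cast; ring
  rw [e]
  have m4 : (1/4:ℚ) ∈ Zp p := by
    have : (1/4:ℚ) = (1/2) * (1/2) := by norm_num
    rw [this]; exact (Zp p).mul_mem m2 m2
  have m5 : 1 + 1/4 * X ∈ Zp p := (Zp p).add_mem (Zp p).one_mem ((Zp p).mul_mem m4 a1.mem)
  exact (h1.add (a1.mul_mem m5)).sub (I.mem_mul m4 a2)

lemma units : I p 1 (hh ((2*R+1:ℕ):ℚ) R) ∧ I p 3 (L2 R - (L1 R)^2) ∧ I p 3 (L3 R - (L2 R)^3) ∧ I p 1 (L1 R - 1) ∧ I p 1 (L2 R - 1) := by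
  have n2 : ¬ p ∣ 2 := fun h => absurd (Nat.le_of_dvd (by norm_num) h) (by omega)
  have m2 := halfm (p := p) h5
  have m (n : ℕ) : ((n:ℕ):ℚ) ∈ Zp p := nat_mem n
  have c1 := L_gen (p := p) ha hN h5 (c := -(1/2)) ((Zp p).neg_mem m2)
  have c2 := L_gen (p := p) ha hN h5 (c := -1) ((Zp p).neg_mem (Zp p).one_mem)
  have c3 := L_gen (p := p) ha hN h5 (c := -3) (by exact_mod_cast int_mem (-3))
  have e1 : ∏ i ∈ range R, (1 + -(1/2) * g ((2*R+1:ℕ):ℚ) (i+1)) = L1 R := by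
    unfold L1 g; apply prod_congr rfl; intro i _; push_cast; field_simp; ring
  have e2 : ∏ i ∈ range R, (1 + -1 * g ((2*R+1:ℕ):ℚ) (i+1)) = L2 R := by
    unfold L2 g; apply prod_congr rfl; intro i _; push_cast; ring
  have e3 : ∏ i ∈ range R, (1 + -3 * g ((2*R+1:ℕ):ℚ) (i+1)) = L3 R := by
    unfold L3 g; apply prod_congr rfl; intro i _; push_cast; ring
  rw [e1] at c1
  rw [e2] at c2
  rw [e3] at c3
  have hh1 : I p 1 (hh ((2*R+1:ℕ):ℚ) R) := I.sum _ _ (fun i hi => by rw [mem_range] at hi; exact gI ha hN h5 (by omega) (by omega))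
  set h := hh ((2*R+1:ℕ):ℚ) R
  have h3 : I p 3 (h^3) := by simpa using hh1.pow 3
  -- exact second order forms
  have d1 : I p 3 (L1 R - (1 - 1/2 * h + 1/8 * h^2)) := by
    apply I.cancel n2
    have : ((2:ℕ):ℚ) * (L1 R - (1 - 1/2 * h + 1/8 * h^2)) = 2 * L1 R - (2 + 2 * (-(1/2) * h) + (-(1/2) * h)^2) := by push_cast; ring
    rw [this]; exact c1
  have d2 : I p 3 (L2 R - (1 - h + 1/2 * h^2)) := by
    apply I.cancel n2
    have : ((2:ℕ):ℚ) * (L2 R - (1 - h + 1/2 * h^2)) = 2 * L2 R - (2 + 2 * (-1 * h) + (-1 * h)^2) := by push_cast; ring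
    rw [this]; exact c2
  have d3 : I p 3 (L3 R - (1 - 3 * h + 9/2 * h^2)) := by
    apply I.cancel n2
    have : ((2:ℕ):ℚ) * (L3 R - (1 - 3 * h + 9/2 * h^2)) = 2 * L3 R - (2 + 2 * (-3 * h) + (-3 * h)^2) := by push_cast; ring
    rw [this]; exact c3
  have m8 : (1/8:ℚ) ∈ Zp p := by
    have : (1/8:ℚ) = (1/2) * ((1/2) * (1/2)) := by norm_num
    rw [this]; exact (Zp p).mul_mem m2 ((Zp p).mul_mem m2 m2)
  have mE1 : 1 - 1/2 * h + 1/8 * h^2 ∈ Zp p := (Zp p).add_mem ((Zp p).sub_mem (Zp p).one_mem ((Zp p).mul_mem m2 hh1.mem)) ((Zp p).mul_mem m8 ((Zp p).pow_mem hh1.mem 2))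
  have mE2 : 1 - h + 1/2 * h^2 ∈ Zp p := (Zp p).add_mem ((Zp p).sub_mem (Zp p).one_mem hh1.mem) ((Zp p).mul_mem m2 ((Zp p).pow_mem hh1.mem 2))
  have mL1 : L1 R ∈ Zp p := by
    have := (Zp p).add_mem d1.mem mE1; simpa using this
  have mL2 : L2 R ∈ Zp p := by
    have := (Zp p).add_mem d2.mem mE2; simpa using this
  have m64 : (1/64:ℚ) ∈ Zp p := by
    have : (1/64:ℚ) = (1/8) * (1/8) := by norm_num
    rw [this]; exact (Zp p).mul_mem m8 m8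
  refine ⟨hh1, ?_, ?_, ?_, ?_⟩
  · have e : L2 R - L1 R ^ 2 = (L2 R - (1 - h + 1/2 * h^2)) - (L1 R - (1 - 1/2 * h + 1/8 * h^2)) * (L1 R + (1 - 1/2 * h + 1/8 * h^2)) +
        h^3 * (1/8 - 1/64 * h) := by ring
    rw [e]
    refine (d2.sub (d1.mul_mem ((Zp p).add_mem mL1 mE1))).add (h3.mul_mem ?_)
    exact (Zp p).sub_mem m8 ((Zp p).mul_mem m64 hh1.mem)
  · have e : L3 R - L2 R ^ 3 = (L3 R - (1 - 3 * h + 9/2 * h^2)) -
        (L2 R - (1 - h + 1/2 * h^2)) * (L2 R ^ 2 + L2 R * (1 - h + 1/2 * h^2) + (1 - h + 1/2 * h^2)^2) +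
        h^3 * (4 - 18 * (1/8) * h + 6 * (1/8) * h^2 - 1/8 * h^3) := by ring
    rw [e]
    refine (d3.sub (d2.mul_mem ?_)).add (h3.mul_mem ?_)
    · exact (Zp p).add_mem ((Zp p).add_mem ((Zp p).pow_mem mL2 2) ((Zp p).mul_mem mL2 mE2)) ((Zp p).pow_mem mE2 2)
    · have mh := hh1.mem
      have n4 : (4:ℚ) ∈ Zp p := by exact_mod_cast m 4
      have n18 : (18:ℚ) ∈ Zp p := by exact_mod_cast m 18
      have n6 : (6:ℚ) ∈ Zp p := by exact_mod_cast m 6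
      exact (Zp p).sub_mem ((Zp p).add_mem ((Zp p).sub_mem n4 ((Zp p).mul_mem ((Zp p).mul_mem n18 m8) mh))
        ((Zp p).mul_mem ((Zp p).mul_mem n6 m8) ((Zp p).pow_mem mh 2))) ((Zp p).mul_mem m8 ((Zp p).pow_mem mh 3))
  · have e : L1 R - 1 = (L1 R - (1 - 1/2 * h + 1/8 * h^2)) + h * (-(1/2) + 1/8 * h) := by ring
    rw [e]
    exact (d1.mono (by norm_num)).add (hh1.mul_mem ((Zp p).add_mem ((Zp p).neg_mem m2) ((Zp p).mul_mem m8 hh1.mem)))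
  · have e : L2 R - 1 = (L2 R - (1 - h + 1/2 * h^2)) + h * (-1 + 1/2 * h) := by ring
    rw [e]
    exact (d2.mono (by norm_num)).add (hh1.mul_mem ((Zp p).add_mem ((Zp p).neg_mem (Zp p).one_mem) ((Zp p).mul_mem m2 hh1.mem)))

lemma A_unit : I p 3 (L1 R - 4^R) ∧ I p 1 ((4:ℚ)^R - 1) := by
  obtain ⟨_, h2, _, h4, _⟩ := units (p := p) ha hN h5
  obtain ⟨n0, m0, i0⟩ := unit h4
  have hA := A_L R
  have e : L1 R - 4^R = -(L2 R - L1 R ^ 2) * (L1 R)⁻¹ := by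
    have : (L1 R) * (L1 R)⁻¹ = 1 := mul_inv_cancel₀ n0
    rw [← hA]
    linear_combination (4^R - L1 R) * this
  have k1 : I p 3 (L1 R - 4^R) := by rw [e]; exact h2.neg.mul_mem m0
  refine ⟨k1, ?_⟩
  have : (4:ℚ)^R - 1 = (L1 R - 1) - (L1 R - 4^R) := by ring
  rw [this]
  exact h4.sub (k1.mono (by norm_num))

omit ha hN h5 in
/-- the normalized sum -/
noncomputable def TT (R : ℕ) : ℚ := (∑ n ∈ range (2*R+1), (5*(n:ℚ)+1) * t n) / ((2*R+1:ℕ):ℚ)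

omit ha hN h5 in
lemma unit_cancel {k : ℕ} {x u : ℚ} (hu : I p 1 (u - 1)) (h : I p k (x * u)) : I p k x := by
  obtain ⟨n0, m0, _⟩ := unit hu
  have : x = (x * u) * u⁻¹ := by rw [mul_assoc, mul_inv_cancel₀ n0, mul_one]
  rw [this]; exact h.mul_mem m0

lemma Qp_I : I p 2 (Qp ((2*R+1:ℕ):ℚ) R) := by
  unfold Qp
  have m2 := halfm (p := p) h5
  have m3 := third_mem (p := p) h5
  have m (n : ℕ) : ((n:ℕ):ℚ) ∈ Zp p := nat_mem n
  have m3' : (-3:ℚ) ∈ Zp p := by exact_mod_cast int_mem (-3)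
  have m5 : (5/2:ℚ) ∈ Zp p := by
    have : (5/2:ℚ) = 5 * (1/2) := by norm_num
    rw [this]; exact (Zp p).mul_mem (by exact_mod_cast m 5) m2
  have n5 : (5:ℚ) ∈ Zp p := by exact_mod_cast m 5
  have n2 : (2:ℚ) ∈ Zp p := by exact_mod_cast m 2
  have n3 : (3:ℚ) ∈ Zp p := by exact_mod_cast m 3
  apply I.sum
  intro r hr
  rw [mem_range] at hr
  have x1 := gI (p := p) ha hN h5 (m := r+1) (by omega) (by omega)
  have hh2 : I p 1 (hh ((2*R+1:ℕ):ℚ) (r+1)) := I.sum _ _ (fun i hi => by rw [mem_range] at hi; exact gI ha hN h5 (by omega) (by omega))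
  have oo1 : I p 1 (oo ((2*R+1:ℕ):ℚ) (r+1)) := I.sum _ _ (fun i hi => by rw [mem_range] at hi; exact gI ha hN h5 (by omega) (by omega))
  have b0 : I p 1 (5/2 * hh ((2*R+1:ℕ):ℚ) (r+1) - 5 * oo ((2*R+1:ℕ):ℚ) (r+1)) :=
    (I.mem_mul m5 hh2).sub (I.mem_mul n5 oo1)
  have p1 : I p 1 ((-1/3)^(r+1) * (g ((2*R+1:ℕ):ℚ) (r+1) * (1/2))) :=
    I.mem_mul ((Zp p).pow_mem m3 _) (x1.mul_mem m2)
  have p2 : I p 1 ((-3)^(r+1) * (3 * g ((2*R+1:ℕ):ℚ) (r+1) * (1/2))) :=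
    I.mem_mul ((Zp p).pow_mem m3' _) ((I.mem_mul n3 x1).mul_mem m2)
  exact (p1.mul (b0.sub x1)).add (p2.mul (b0.sub (I.mem_mul n2 x1)))

lemma main : I p 3 (TT R * eps R - (1 + 5 * ((4:ℚ)^R - 1) * (eps R * (-3)^R - 1) - 10 * ((4:ℚ)^R - 1)^2 - (eps R * (-3)^R - 1)^2
    + Qp ((2*R+1:ℕ):ℚ) R)) ∧ I p 1 (eps R * (-3)^R - 1) := by
  have hR3 := R3 (p := p) hN h5
  have hphi := Phi_I (p := p) ha hN h5
  have hCA := CA_eq R hR3
  have hCB := CB_eq R hR3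
  have hCA1 := CA_one (p := p) ha hN h5
  have heps := eps_sq R
  obtain ⟨_, u2, u3, u4, u5⟩ := units (p := p) ha hN h5
  obtain ⟨v1, v2⟩ := A_unit (p := p) ha hN h5
  have l4 := L4_one (p := p) ha hN h5
  have hq := Qp_I (p := p) ha hN h5
  have hG := G_center R
  have hAL := A_L R
  have m (n : ℕ) : ((n:ℕ):ℚ) ∈ Zp p := nat_mem n
  have meps : eps R ∈ Zp p := by
    unfold eps; split_ifs
    · exact (Zp p).one_mem
    · exact (Zp p).neg_mem (Zp p).one_mem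
  have hT : TT R = (-G (2*R+1) R / ((2*R+1:ℕ):ℚ)) * Phi R := by
    unfold TT Phi
    rw [S_eq]; ring
  have h16 : (16:ℚ)^R = 4^R * 4^R := by rw [← mul_pow]; norm_num
  rw [h16] at hG
  set Q := Qp ((2*R+1:ℕ):ℚ) R
  set A : ℚ := 4^R with hA
  set B : ℚ := eps R * (-3)^R with hB
  set P := Phi R
  set c := -G (2*R+1) R / ((2*R+1:ℕ):ℚ)
  have mB : B ∈ Zp p := (Zp p).mul_mem meps ((Zp p).pow_mem (by exact_mod_cast int_mem (-3)) _)
  have mA : A ∈ Zp p := (Zp p).pow_mem (by exact_mod_cast m 4) _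
  have hCAB : CA R * B = A := by
    rw [hB]; linear_combination eps R * hCA + A * heps
  have hB1 : I p 1 (B - 1) := by
    have e : B - 1 = (A - 1) - (CA R - 1) * B := by rw [← hCAB]; ring
    rw [e]; exact v2.sub (hCA1.mul_mem mB)
  refine ⟨?_, hB1⟩
  rw [hCB] at hphi
  have mCA : CA R ∈ Zp p := by
    have := (Zp p).add_mem hCA1.mem (Zp p).one_mem; simpa using this
  have mQ := hq.mem
  have mP : P ∈ Zp p := by
    have := (Zp p).add_mem hphi.mem ((Zp p).add_mem ((Zp p).sub_mem ((Zp p).sub_mem (by exact_mod_cast m 5 : (5:ℚ) ∈ Zp p) mCA)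
      ((Zp p).mul_mem (by exact_mod_cast m 3 : (3:ℚ) ∈ Zp p) mA)) mQ)
    simpa using this
  have mL1 : L1 R ∈ Zp p := by
    have := (Zp p).add_mem u4.mem (Zp p).one_mem; simpa using this
  have mL2 : L2 R ∈ Zp p := by
    have := (Zp p).add_mem u5.mem (Zp p).one_mem; simpa using this
  have mL3 : L3 R ∈ Zp p := by
    have := (Zp p).add_mem u3.mem ((Zp p).pow_mem mL2 3); simpa using this
  -- L1^2 L3 L4 = A^6 L2 mod p^3
  have k1 : I p 3 (L1 R ^ 2 * L3 R * L4 R - A^6 * L2 R) := by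
    have e : L1 R ^ 2 * L3 R * L4 R - A^6 * L2 R =
      L1 R ^ 2 * L3 R * (L4 R - 1) + L1 R ^ 2 * (L3 R - L2 R ^ 3) +
        (L1 R - A) * (A^3 * L1 R * (L1 R + A) * (L1 R ^ 2 + A^2)) := by
      rw [← hAL]; ring
    rw [e]
    refine ((I.mem_mul ?_ l4).add (I.mem_mul ((Zp p).pow_mem mL1 2) u3)).add (v1.mul_mem ?_)
    · exact (Zp p).mul_mem ((Zp p).pow_mem mL1 2) mL3
    · exact (Zp p).mul_mem ((Zp p).mul_mem ((Zp p).mul_mem ((Zp p).pow_mem mA 3) mL1) ((Zp p).add_mem mL1 mA))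
        ((Zp p).add_mem ((Zp p).pow_mem mL1 2) ((Zp p).pow_mem mA 2))
  have k2 : I p 3 (TT R * eps R * B - A^4 * P) := by
    have hu : I p 1 (A^2 * L2 R - 1) := by
      have e : A^2 * L2 R - 1 = (A - 1) * ((A + 1) * L2 R) + (L2 R - 1) := by ring
      rw [e]
      exact (v2.mul_mem ((Zp p).mul_mem ((Zp p).add_mem mA (Zp p).one_mem) mL2)).add u5
    apply unit_cancel hu
    have e : (TT R * eps R * B - A^4 * P) * (A^2 * L2 R) = (L1 R ^ 2 * L3 R * L4 R - A^6 * L2 R) * P := by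
      rw [hT, ← hG, hB]
      linear_combination (c * P * (-3)^R * A^2 * L2 R) * heps
    rw [e]
    exact k1.mul_mem mP
  have k3 : I p 3 (TT R * eps R * B^2 - (A^4 * (5 * B - A - 3 * A * B) + Q)) := by
    have e : TT R * eps R * B^2 - (A^4 * (5 * B - A - 3 * A * B) + Q) =
      (TT R * eps R * B - A^4 * P) * B + (P - (5 - CA R - 3 * A + Q)) * (A^4 * B) +
        Q * ((A - 1) * ((A+1)*(A^2+1) * B) + (B - 1)) := by
      rw [← hCAB]; ring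
    rw [e]
    have t1 : I p 1 ((A - 1) * ((A+1)*(A^2+1) * B) + (B - 1)) := by
      refine (v2.mul_mem ?_).add hB1
      exact (Zp p).mul_mem ((Zp p).mul_mem ((Zp p).add_mem mA (Zp p).one_mem) ((Zp p).add_mem ((Zp p).pow_mem mA 2) (Zp p).one_mem)) mB
    have t2 := hq.mul t1
    exact ((k2.mul_mem mB).add (hphi.mul_mem ((Zp p).mul_mem ((Zp p).pow_mem mA 4) mB))).add t2
  -- final
  have hB2 : I p 1 (B^2 - 1) := by
    have e : B^2 - 1 = (B - 1) * (B + 1) := by ring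
    rw [e]; exact hB1.mul_mem ((Zp p).add_mem mB (Zp p).one_mem)
  apply unit_cancel hB2
  obtain ⟨α, hα⟩ : ∃ α, α = A - 1 := ⟨_, rfl⟩
  obtain ⟨β, hβ⟩ : ∃ β, β = B - 1 := ⟨_, rfl⟩
  have hA' : A = 1 + α := by rw [hα]; ring
  have hB' : B = 1 + β := by rw [hβ]; ring
  rw [← hα] at v2
  rw [← hβ] at hB1
  have mα := v2.mem
  have mβ := hB1.mem
  have t30 : I p 3 (α^3) := by simpa using v2.pow 3
  have t03 : I p 3 (β^3) := by simpa using hB1.pow 3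
  have t21 : I p 3 (α^2*β) := by
    have := (v2.pow 2).mul hB1; simpa using this
  have t12 : I p 3 (α*β^2) := by
    have := v2.mul (hB1.pow 2); simpa using this
  have e : (TT R * eps R - (1 + 5 * (A - 1) * (B - 1) - 10 * (A - 1)^2 - (B - 1)^2 + Q)) * B^2 =
    (TT R * eps R * B^2 - (A^4 * (5 * B - A - 3 * A * B) + Q)) - Q * (B^2 - 1) +
    (α^3 * (-20 - 15*α - 4*α^2 - 10*β - 10*α*β - 3*α^2*β) + (α^2*β) * (20 + 10*β) +
      (α*β^2) * (-10 - 5*β) + β^3 * (2 + β)) := by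
    rw [hA', hB']; ring
  rw [e]
  have n (k : ℕ) : ((k:ℕ):ℚ) ∈ Zp p := nat_mem k
  have z (k : ℤ) : ((k:ℤ):ℚ) ∈ Zp p := int_mem k
  have c1 : (-20 - 15*α - 4*α^2 - 10*β - 10*α*β - 3*α^2*β) ∈ Zp p := by
    have n20 : (-20:ℚ) ∈ Zp p := by exact_mod_cast z (-20)
    have n15 : (15:ℚ) ∈ Zp p := by exact_mod_cast n 15
    have n4 : (4:ℚ) ∈ Zp p := by exact_mod_cast n 4
    have n10 : (10:ℚ) ∈ Zp p := by exact_mod_cast n 10
    have n3 : (3:ℚ) ∈ Zp p := by exact_mod_cast n 3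
    exact (Zp p).sub_mem ((Zp p).sub_mem ((Zp p).sub_mem ((Zp p).sub_mem ((Zp p).sub_mem n20 ((Zp p).mul_mem n15 mα))
      ((Zp p).mul_mem n4 ((Zp p).pow_mem mα 2))) ((Zp p).mul_mem n10 mβ)) ((Zp p).mul_mem ((Zp p).mul_mem n10 mα) mβ))
      ((Zp p).mul_mem ((Zp p).mul_mem n3 ((Zp p).pow_mem mα 2)) mβ)
  have c2 : (20 + 10*β) ∈ Zp p :=
    (Zp p).add_mem (by exact_mod_cast n 20) ((Zp p).mul_mem (by exact_mod_cast n 10) mβ)
  have c3 : (-10 - 5*β) ∈ Zp p :=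
    (Zp p).sub_mem (by exact_mod_cast z (-10)) ((Zp p).mul_mem (by exact_mod_cast n 5) mβ)
  have c4 : (2 + β) ∈ Zp p :=
    (Zp p).add_mem (by exact_mod_cast n 2) mβ
  have t0 : I p 3 (Q * (B^2 - 1)) := hq.mul hB2
  exact (k3.sub t0).add ((((t30.mul_mem c1).add (t21.mul_mem c2)).add (t12.mul_mem c3)).add (t03.mul_mem c4))

end Pool.Agent.Helper857.X
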