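import Mathlib

set_option autoImplicit false
set_option linter.all false
set_option linter.unusedSectionVars false
set_option linter.unusedVariables false

namespace Pool.Agent.Helper857.Fl

open Finset Polynomial

section comb

def cc (R j : ℕ) : ℕ := (2*R+1).choose j / (2*R+1)

lemma cc_spec {R : ℕ} (hp : (2*R+1).Prime) {j : ℕ} (h0 : j ≠ 0) (h1 : j < 2*R+1) :
    (2*R+1).choose j = (2*R+1) * cc R j := by
  have := hp.dvd_choose_self h0 h1
  unfold cc
  rw [Nat.mul_div_cancel' this]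

/-- homogeneous finite logarithm with integer coefficients -/
def Fh (R : ℕ) {A : Type*} [CommRing A] (x y : A) : A :=
  ∑ k ∈ range (2*R), (-1)^k * (cc R (k+1) : A) * x^(2*R-k) * y^(k+1)

lemma Fh_spec {R : ℕ} (hp : (2*R+1).Prime) {A : Type*} [CommRing A] (x y : A) :
    ((2*R+1:ℕ):A) * Fh R x y = x^(2*R+1) - y^(2*R+1) - (x-y)^(2*R+1) := by
  have h := add_pow (-y) x (2*R+1)
  rw [sum_range_succ, sum_range_succ'] at h
  have hodd : (-y)^(2*R+1) = -y^(2*R+1) := by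
    rw [Odd.neg_pow ⟨R, rfl⟩]
  have h2 : ∀ k ∈ range (2*R), (-y)^(k+1) * x^(2*R+1-(k+1)) * (((2*R+1).choose (k+1) : ℕ) : A) =
      -(((2*R+1:ℕ):A) * ((-1)^k * (cc R (k+1) : A) * x^(2*R-k) * y^(k+1))) := by
    intro k hk
    rw [mem_range] at hk
    rw [cc_spec hp (show k+1 ≠ 0 by omega) (by omega), show 2*R+1-(k+1) = 2*R-k by omega, neg_pow]
    push_cast
    ring
  rw [sum_congr rfl h2, sum_neg_distrib, ← mul_sum] at h
  have e : -y + x = x - y := by ring
  rw [e] at h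
  change _ = -(((2*R+1:ℕ):A) * Fh R x y) + _ + _ at h
  rw [h, hodd]
  simp
  ring

lemma Fh_map {R : ℕ} {A B : Type*} [CommRing A] [CommRing B] (φ : A →+* B) (x y : A) :
    φ (Fh R x y) = Fh R (φ x) (φ y) := by
  unfold Fh
  rw [map_sum]
  apply sum_congr rfl
  intro k _
  simp

lemma fh1 {R : ℕ} (hp : (2*R+1).Prime) {c : ℤ} (hc : (4:ℤ)^R - 1 = (2*R+1) * c) {A : Type*} [CommRing A] (t : A) :
    Fh R (1+t) (1-t) = Fh R 1 t - Fh R 1 (-t) - 2 * (c:A) * t^(2*R+1) := by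
  have key : Fh R (1+(X:ℤ[X])) (1-X) = Fh R 1 X - Fh R 1 (-X) - 2 * ((c:ℤ):ℤ[X]) * X^(2*R+1) := by
    have hne : ((2*R+1:ℕ):ℤ[X]) ≠ 0 := by
      exact_mod_cast (show (2*R+1:ℕ) ≠ 0 by omega)
    apply mul_left_cancel₀ hne
    have e1 := Fh_spec hp (1+(X:ℤ[X])) (1-X)
    have e2 := Fh_spec hp (1:ℤ[X]) X
    have e3 := Fh_spec hp (1:ℤ[X]) (-X)
    have hc' : ((4:ℤ[X])^R - 1) = (2*R+1) * ((c:ℤ):ℤ[X]) := by exact_mod_cast congrArg (Int.cast : ℤ → ℤ[X]) hc
    rw [e1, mul_sub, mul_sub, e2, e3]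
    have hodd : (-(X:ℤ[X]))^(2*R+1) = -X^(2*R+1) := by rw [Odd.neg_pow ⟨R, rfl⟩]
    have h2 : (1 + (X:ℤ[X]) - (1 - X))^(2*R+1) = 2 * 4^R * X^(2*R+1) := by
      have : 1 + (X:ℤ[X]) - (1 - X) = 2 * X := by ring
      rw [this, mul_pow, pow_succ (2:ℤ[X]), pow_mul]; norm_num; ring
    rw [hodd, h2]
    push_cast
    simp only [sub_neg_eq_add, one_pow]
    linear_combination (-2 * X^(2*R+1)) * hc'
  have := congrArg (eval₂RingHom (Int.castRingHom A) t) key
  rw [Fh_map] at this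
  simp only [map_sub, map_mul, Fh_map, map_pow] at this
  simpa using this

lemma fh2 {R : ℕ} (hp : (2*R+1).Prime) {c : ℤ} (hc : (4:ℤ)^R - 1 = (2*R+1) * c) {A : Type*} [CommRing A] (t : A) :
    Fh R 2 (1+t) = Fh R 1 t + Fh R 1 (-t) + 2 * (c:A) := by
  have key : Fh R 2 (1+(X:ℤ[X])) = Fh R 1 X + Fh R 1 (-X) + 2 * ((c:ℤ):ℤ[X]) := by
    have hne : ((2*R+1:ℕ):ℤ[X]) ≠ 0 := by
      exact_mod_cast (show (2*R+1:ℕ) ≠ 0 by omega)
    apply mul_left_cancel₀ hne
    have e1 := Fh_spec hp (2:ℤ[X]) (1+X)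
    have e2 := Fh_spec hp (1:ℤ[X]) X
    have e3 := Fh_spec hp (1:ℤ[X]) (-X)
    have hc' : ((4:ℤ[X])^R - 1) = (2*R+1) * ((c:ℤ):ℤ[X]) := by exact_mod_cast congrArg (Int.cast : ℤ → ℤ[X]) hc
    rw [e1, mul_add, mul_add, e2, e3]
    have hodd : (-(X:ℤ[X]))^(2*R+1) = -X^(2*R+1) := by rw [Odd.neg_pow ⟨R, rfl⟩]
    have h2 : (2:ℤ[X])^(2*R+1) = 2 * 4^R := by
      rw [pow_succ (2:ℤ[X]), pow_mul]; norm_num; ring
    have h3 : (2:ℤ[X]) - (1 + X) = 1 - X := by ring
    rw [hodd, h2, h3]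
    push_cast
    simp only [sub_neg_eq_add, one_pow]
    linear_combination 2 * hc'
  have := congrArg (eval₂RingHom (Int.castRingHom A) t) key
  rw [Fh_map] at this
  simp only [map_add, map_mul, Fh_map] at this
  simpa using this

end comb

section field
variable {K : Type*} [Field K] {p : ℕ} [hp : Fact p.Prime] [CharP K p] {R : ℕ} (h0 : 2*R+1 = p) (h5 : 5 ≤ p)

include h0 in
lemma ne_k {k : ℕ} (hk : k < 2*R) : (k:K) + 1 ≠ 0 := by
  intro h
  have h1 : ((k+1:ℕ):K) = 0 := by push_cast; exact h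
  rw [CharP.cast_eq_zero_iff K p] at h1
  have := Nat.le_of_dvd (by omega) h1
  omega

include h0 in
lemma p_zero : 2*(R:K) + 1 = 0 := by
  have : ((2*R+1:ℕ):K) = 0 := by rw [h0]; exact CharP.cast_eq_zero K p
  push_cast at this; exact this

include h0 in
lemma ne_odd {k : ℕ} (hk : k < R) : 2*(k:K) + 1 ≠ 0 := by
  have := ne_k (K := K) h0 (k := 2*k) (by omega)
  push_cast at this; exact this

include h0 h5 in
lemma two_ne : (2:K) ≠ 0 := by
  have := ne_k (K := K) h0 (k := 1) (by omega)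
  push_cast at this
  intro h; apply this; rw [← h]; norm_num

include h0 h5 in
lemma three_ne : (3:K) ≠ 0 := by
  have := ne_k (K := K) h0 (k := 2) (by omega)
  push_cast at this
  intro h; apply this; rw [← h]; norm_num

/-- the integer quotients are the inverses up to sign -/
lemma choose_K (hpp : 2*R+1 = p) (j : ℕ) (hj : j ≤ 2*R) : (((2*R).choose j : ℕ) : K) = (-1)^j := by
  induction j with
  | zero => simp
  | succ j ih =>
    have ih' := ih (by omega)
    have h1 := Nat.choose_succ_right_eq (2*R) j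
    have h2 : (((2*R).choose (j+1) : ℕ):K) * ((j:K)+1) = (((2*R).choose j : ℕ):K) * (2*(R:K) - j) := by
      have : ((2*R-j:ℕ):K) = 2*(R:K) - j := by rw [Nat.cast_sub (by omega)]; push_cast; ring
      rw [← this]; exact_mod_cast congrArg (Nat.cast : ℕ → K) h1
    have h3 := ne_k (K := K) hpp (k := j) (by omega)
    have h4 := p_zero (K := K) hpp
    apply mul_right_cancel₀ h3
    rw [h2, ih', pow_succ]
    linear_combination (-1)^j * h4

lemma cc_K (hpp : 2*R+1 = p) {k : ℕ} (hk : k < 2*R) : (-1)^k * (cc R (k+1) : K) = 1/((k:K)+1) := by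
  have hprime : (2*R+1).Prime := by rw [hpp]; exact hp.out
  have h3 := ne_k (K := K) hpp hk
  rw [eq_div_iff h3]
  have h1 := Nat.add_one_mul_choose_eq (2*R) k
  rw [cc_spec hprime (show k+1 ≠ 0 by omega) (by omega)] at h1
  have h2 : (2*R).choose k = cc R (k+1) * (k+1) := by
    apply Nat.eq_of_mul_eq_mul_left (show 0 < 2*R+1 by omega)
    rw [h1]; ring
  have h4 := choose_K (K := K) hpp k (by omega)
  rw [h2] at h4
  push_cast at h4
  rw [mul_assoc, h4, ← mul_pow]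
  norm_num

lemma Fh_K (hpp : 2*R+1 = p) {A : Type*} [CommRing A] [Algebra K A] (x y : A) :
    Fh R x y = ∑ k ∈ range (2*R), algebraMap K A (1/((k:K)+1)) * x^(2*R-k) * y^(k+1) := by
  unfold Fh
  apply sum_congr rfl
  intro k hk
  rw [mem_range] at hk
  rw [← cc_K hpp hk]
  simp

variable (R)
def L1 (x : K) : K := ∑ k ∈ range (2*R), x^(k+1)/((k:K)+1)
def L2 (x : K) : K := ∑ k ∈ range (2*R), x^(k+1)/((k:K)+1)^2
variable (K)
def H (k : ℕ) : K := ∑ i ∈ range k, 1/((i:K)+1)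
def ob (k : ℕ) : K := ∑ i ∈ range k, 2/(2*(i:K)+1)
variable {K}
def D (x : K) : K := ∑ m ∈ range (2*R), x^(m+1) * H K m/((m:K)+1)
def AO (x : K) : K := ∑ j ∈ range R, x^(2*j+2) * ob K (j+1) / ((j:K)+1)
def M (x : K) : K := ∑ j ∈ range R, x^(2*j+2) * H K j/((j:K)+1)
def A2 (x : K) : K := ∑ j ∈ range R, x^(2*j+2)/((j:K)+1)^2
def A1 (x : K) : K := ∑ j ∈ range R, x^(2*j+2)/((j:K)+1)
variable {R}

lemma Fh_one (hpp : 2*R+1 = p) (x : K) : Fh R 1 x = L1 R x := by
  rw [Fh_K (K := K) hpp]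
  unfold L1
  apply sum_congr rfl
  intro k _
  simp
  ring

lemma refl (hpp : 2*R+1 = p) (f : ℕ → K) : ∑ k ∈ range (2*R), f k = ∑ k ∈ range (2*R), f (2*R-1-k) := by
  rw [sum_range_reflect]

lemma cast_refl (hpp : 2*R+1 = p) {k : ℕ} (hk : k < 2*R) : ((2*R-1-k:ℕ):K) + 1 = -((k:K)+1) := by
  have h := p_zero (K := K) hpp
  have : ((2*R-1-k:ℕ):K) = 2*(R:K) - 1 - k := by
    rw [Nat.cast_sub (by omega), Nat.cast_sub (by omega)]; push_cast; ring
  rw [this]; linear_combination h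

lemma L1_inv (hpp : 2*R+1 = p) {x : K} (hx : x ≠ 0) : L1 R x⁻¹ * x^p = - L1 R x := by
  unfold L1
  rw [refl hpp, sum_mul, ← sum_neg_distrib]
  apply sum_congr rfl
  intro k hk
  rw [mem_range] at hk
  have h2 := ne_k (K := K) hpp hk
  have e : x^p = x^(2*R-1-k+1) * x^(k+1) := by rw [← pow_add, ← hpp]; congr 1; omega
  have h1 : x^(2*R-1-k+1) ≠ 0 := pow_ne_zero _ hx
  rw [cast_refl hpp hk, e, inv_pow, div_mul_eq_mul_div, ← mul_assoc, inv_mul_cancel₀ h1, one_mul, div_neg]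

lemma L2_inv (hpp : 2*R+1 = p) {x : K} (hx : x ≠ 0) : L2 R x⁻¹ * x^p = L2 R x := by
  unfold L2
  rw [refl hpp, sum_mul]
  apply sum_congr rfl
  intro k hk
  rw [mem_range] at hk
  have h2 := ne_k (K := K) hpp hk
  have e : x^p = x^(2*R-1-k+1) * x^(k+1) := by rw [← pow_add, ← hpp]; congr 1; omega
  have h1 : x^(2*R-1-k+1) ≠ 0 := pow_ne_zero _ hx
  rw [cast_refl hpp hk, e, inv_pow, div_mul_eq_mul_div, ← mul_assoc, inv_mul_cancel₀ h1, one_mul, neg_sq]

lemma split_oe {M : Type*} [AddCommMonoid M] (f : ℕ → M) (n : ℕ) :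
    ∑ m ∈ range (2*n), f m = ∑ k ∈ range n, (f (2*k) + f (2*k+1)) := by
  induction n with
  | zero => simp
  | succ n ih =>
    rw [show 2*(n+1) = 2*n+1+1 by ring, sum_range_succ, sum_range_succ, ih, sum_range_succ, add_assoc]

include h0 h5

lemma L2_even (x : K) : L2 R x + L2 R (-x) = 1/2 * A2 R x := by
  unfold L2 A2
  rw [← sum_add_distrib, split_oe, mul_sum]
  apply sum_congr rfl
  intro k hk
  rw [mem_range] at hk
  have h2 := two_ne (K := K) h0 h5
  have h3 := ne_k (K := K) h0 (k := k) (by omega)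
  have e1 : (-x)^(2*k+1) = -x^(2*k+1) := by rw [Odd.neg_pow ⟨k, rfl⟩]
  have e2 : (-x)^(2*k+1+1) = x^(2*k+2) := by rw [Even.neg_pow ⟨k+1, by ring⟩]
  rw [e1, e2]
  push_cast
  have h4 : (2*(k:K)+1+1) ≠ 0 := by
    have : (2*(k:K)+1+1) = 2 * ((k:K)+1) := by ring
    rw [this]; exact mul_ne_zero h2 h3
  have h5 : (2*(k:K)+1+1) = 2 * ((k:K)+1) := by ring
  rw [h5]
  field_simp
  ring

lemma L2_odd (x : K) : L2 R x - L2 R (-x) = ∑ k ∈ range R, 2 * x^(2*k+1)/(2*(k:K)+1)^2 := by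
  unfold L2
  rw [← sum_sub_distrib, split_oe]
  apply sum_congr rfl
  intro k hk
  rw [mem_range] at hk
  have h3 := ne_odd (K := K) h0 (k := k) (by omega)
  have e1 : (-x)^(2*k+1) = -x^(2*k+1) := by rw [Odd.neg_pow ⟨k, rfl⟩]
  have e2 : (-x)^(2*k+1+1) = x^(2*k+1+1) := by rw [Even.neg_pow ⟨k+1, by ring⟩]
  rw [e1, e2]
  push_cast
  field_simp
  ring

lemma L1_even (x : K) : L1 R x + L1 R (-x) = A1 R x := by
  unfold L1 A1
  rw [← sum_add_distrib, split_oe]
  apply sum_congr rfl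
  intro k hk
  rw [mem_range] at hk
  have h2 := two_ne (K := K) h0 h5
  have h3 := ne_k (K := K) h0 (k := k) (by omega)
  have e1 : (-x)^(2*k+1) = -x^(2*k+1) := by rw [Odd.neg_pow ⟨k, rfl⟩]
  have e2 : (-x)^(2*k+1+1) = x^(2*k+2) := by rw [Even.neg_pow ⟨k+1, by ring⟩]
  rw [e1, e2]
  push_cast
  have h5 : (2*(k:K)+1+1) = 2 * ((k:K)+1) := by ring
  rw [h5]
  field_simp
  ring

/-- distribution relation -/
lemma L2_dist (x : K) : L2 R (x^2) = 2 * ((1 + x^p) * L2 R x + (1 - x^p) * L2 R (-x)) := by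
  have h1 := L2_even (K := K) h0 h5 x
  have h2 := L2_odd (K := K) h0 h5 x
  have t2 := two_ne (K := K) h0 h5
  have e : L2 R (x^2) = A2 R x + x^p * (2 * ∑ k ∈ range R, 2 * x^(2*k+1)/(2*(k:K)+1)^2) := by
    unfold L2 A2
    rw [two_mul R, sum_range_add, mul_sum, mul_sum]
    congr 1
    · apply sum_congr rfl
      intro k _
      rw [← pow_mul]; congr 2
    · apply sum_congr rfl
      intro k hk
      rw [mem_range] at hk
      have h3 := ne_odd (K := K) h0 (k := k) (by omega)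
      have h4 := p_zero (K := K) h0
      have e3 : ((R+k:ℕ):K) + 1 = (2*(k:K)+1)/2 := by
        push_cast; field_simp; linear_combination h4
      rw [e3, ← pow_mul, ← h0, show 2*(R+k+1) = (2*R+1) + (2*k+1) by ring, pow_add]
      field_simp
  have h1' : 2 * (L2 R x + L2 R (-x)) = A2 R x := by rw [h1]; field_simp
  rw [e, ← h2]
  linear_combination (-1) * h1'

lemma L2_one : L2 R (1:K) = 0 := by
  have h := L2_dist (K := K) h0 h5 1
  have h3 := three_ne (K := K) h0 h5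
  simp only [one_pow] at h
  have : (3:K) * L2 R 1 = 0 := by linear_combination -h
  exact (mul_eq_zero.mp this).resolve_left h3

lemma H_full : H K (2*R) = 0 := by
  have : H K (2*R) = - H K (2*R) := by
    unfold H
    conv_lhs => rw [refl h0]
    rw [← sum_neg_distrib]
    apply sum_congr rfl
    intro k hk
    rw [mem_range] at hk
    rw [cast_refl h0 hk]
    rw [one_div, inv_neg, one_div]
  have h2 := two_ne (K := K) h0 h5
  have : (2:K) * H K (2*R) = 0 := by linear_combination this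
  exact (mul_eq_zero.mp this).resolve_left h2

omit h0 h5 in
lemma H_succ (k : ℕ) : H K (k+1) = H K k + 1/((k:K)+1) := by unfold H; rw [sum_range_succ]
omit h0 h5 in
lemma ob_succ (k : ℕ) : ob K (k+1) = ob K k + 2/(2*(k:K)+1) := by unfold ob; rw [sum_range_succ]

lemma H_even {j : ℕ} (hj : j ≤ R) : H K (2*j) = 1/2 * H K j + 1/2 * ob K j := by
  have h2 := two_ne (K := K) h0 h5
  induction j with
  | zero => simp [H, ob]
  | succ j ih =>
    rw [show 2*(j+1) = 2*j+1+1 by ring, H_succ, H_succ, ih (by omega), H_succ, ob_succ]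
    have h3 := ne_k (K := K) h0 (k := j) (by omega)
    have h4 := ne_odd (K := K) h0 (k := j) (by omega)
    push_cast
    have h5 : (2*(j:K)+1+1) = 2 * ((j:K)+1) := by ring
    rw [h5]
    field_simp
    ring

lemma H_odd {j : ℕ} (hj : j < R) : H K (2*j+1) = 1/2 * H K j + 1/2 * ob K (j+1) := by
  have h2 := two_ne (K := K) h0 h5
  rw [H_succ, H_even h0 h5 (by omega), ob_succ]
  have h4 := ne_odd (K := K) h0 (k := j) (by omega)
  push_cast
  field_simp
  ring

lemma H_R : H K R = - ob K R := by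
  have h1 := H_even (K := K) h0 h5 (le_refl R)
  rw [H_full h0 h5] at h1
  have h2 := two_ne (K := K) h0 h5
  field_simp at h1
  linear_combination -h1

lemma D_even (x : K) : 2 * (D R x + D R (-x)) = M R x + AO R x := by
  unfold D M AO
  rw [← sum_add_distrib, split_oe, mul_sum, ← sum_add_distrib]
  apply sum_congr rfl
  intro k hk
  rw [mem_range] at hk
  have h2 := two_ne (K := K) h0 h5
  have h3 := ne_k (K := K) h0 (k := k) (by omega)
  have e1 : (-x)^(2*k+1) = -x^(2*k+1) := by rw [Odd.neg_pow ⟨k, rfl⟩]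
  have e2 : (-x)^(2*k+1+1) = x^(2*k+2) := by rw [Even.neg_pow ⟨k+1, by ring⟩]
  rw [e1, e2, H_odd h0 h5 hk]
  push_cast
  have h5 : (2*(k:K)+1+1) = 2 * ((k:K)+1) := by ring
  rw [h5]
  field_simp
  ring

end field

end Pool.Agent.Helper857.Fl
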