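import Pool.Agent.Helper857.X7

set_option autoImplicit false
set_option linter.all false
set_option linter.unusedSectionVars false
set_option linter.unusedVariables false

namespace Pool.Agent.Helper857.Fl

open Finset Polynomial

section field
variable {K : Type*} [Field K] {p : ℕ} [hp : Fact p.Prime] [CharP K p] {R : ℕ} (h0 : 2*R+1 = p) (h5 : 5 ≤ p)

lemma deriv_zero (P : K[X]) (hdeg : P.natDegree < 2*p) (hd : derivative P = 0) :
    P = C (P.coeff 0) + C (P.coeff p) * X^p := by
  have hp1 := hp.out.one_lt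
  ext n
  simp only [coeff_add, coeff_C_mul, coeff_X_pow]
  rw [coeff_C]
  by_cases h : n = 0
  · subst h
    simp [show ¬ (0 = p) by omega]
  · by_cases h2 : n = p
    · subst h2; simp [h]
    · simp only [h, h2, if_false, mul_zero, add_zero]
      by_cases h3 : p ∣ n
      · apply coeff_eq_zero_of_natDegree_lt
        obtain ⟨m, rfl⟩ := h3
        have : 2 ≤ m := by
          by_contra hm
          interval_cases m
          · simp at h
          · simp at h2
        nlinarith
      · have h4 := congrArg (fun Q => coeff Q (n-1)) hd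
        simp only [coeff_derivative, coeff_zero] at h4
        rw [show n-1+1 = n by omega] at h4
        have h5 : ((n-1:ℕ):K) + 1 = ((n:ℕ):K) := by
          rw [Nat.cast_sub (by omega)]; push_cast; ring
        rw [h5] at h4
        rcases mul_eq_zero.mp h4 with h6 | h6
        · exact h6
        · rw [CharP.cast_eq_zero_iff K p] at h6; exact absurd h6 h3

variable (K) (R)
noncomputable def pL1 : K[X] := ∑ k ∈ range (2*R), C (1/((k:K)+1)) * X^(k+1)
noncomputable def pL2 : K[X] := ∑ k ∈ range (2*R), C (1/((k:K)+1)^2) * X^(k+1)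
noncomputable def pD : K[X] := ∑ k ∈ range (2*R), C (H K k/((k:K)+1)) * X^(k+1)
noncomputable def pAO : K[X] := ∑ j ∈ range R, C (ob K (j+1)/((j:K)+1)) * X^(2*j+2)
noncomputable def pM : K[X] := ∑ j ∈ range R, C (H K j/((j:K)+1)) * X^(2*j+2)
noncomputable def pA1 : K[X] := ∑ j ∈ range R, C (1/((j:K)+1)) * X^(2*j+2)
noncomputable def pW : K[X] := ∑ k ∈ range (2*R), C (1/((k:K)+1)^2) * ((1-X)^(k+1) * (1+X)^(2*R-k))
variable {K} {R}

lemma eL1 (x : K) : eval x (pL1 K R) = L1 R x := by
  unfold pL1 L1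
  rw [eval_finset_sum]
  apply sum_congr rfl
  intro k _
  simp
  ring
lemma eL2 (x : K) : eval x (pL2 K R) = L2 R x := by
  unfold pL2 L2
  rw [eval_finset_sum]
  apply sum_congr rfl
  intro k _
  simp
  ring
lemma eD (x : K) : eval x (pD K R) = D R x := by
  unfold pD D
  rw [eval_finset_sum]
  apply sum_congr rfl
  intro k _
  simp
  ring
lemma eAO (x : K) : eval x (pAO K R) = AO R x := by
  unfold pAO AO
  rw [eval_finset_sum]
  apply sum_congr rfl
  intro k _
  simp
  ring
lemma eM (x : K) : eval x (pM K R) = M R x := by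
  unfold pM M
  rw [eval_finset_sum]
  apply sum_congr rfl
  intro k _
  simp
  ring
lemma eA1 (x : K) : eval x (pA1 K R) = A1 R x := by
  unfold pA1 A1
  rw [eval_finset_sum]
  apply sum_congr rfl
  intro k _
  simp
  ring

lemma tel_geom (n : ℕ) : (1-X) * ∑ k ∈ range n, (X:K[X])^k = 1 - X^n := by
  induction n with
  | zero => simp
  | succ n ih => rw [sum_range_succ, mul_add, ih]; ring

lemma tel_H (n : ℕ) : (1-X) * ∑ k ∈ range n, C (H K k) * X^k =
    ∑ k ∈ range n, C (1/((k:K)+1)) * X^(k+1) - C (H K n) * X^n := by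
  induction n with
  | zero => simp [H]
  | succ n ih => rw [sum_range_succ, mul_add, ih, sum_range_succ, H_succ, C_add]; ring

lemma tel_ob (n : ℕ) : (1-X^2) * ∑ j ∈ range n, C (2 * ob K (j+1)) * X^(2*j+1) =
    ∑ j ∈ range n, C (4/(2*(j:K)+1)) * X^(2*j+1) - C (2 * ob K n) * X^(2*n+1) := by
  induction n with
  | zero => simp [ob]
  | succ n ih =>
    rw [sum_range_succ, mul_add, ih, sum_range_succ, ob_succ]
    have : (4/(2*(n:K)+1)) = 2 * (2/(2*(n:K)+1)) := by ring
    rw [this]
    simp only [C_add, C_mul]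
    ring

lemma tel_M (n : ℕ) : (1-X^2) * ∑ j ∈ range n, C (2 * H K j) * X^(2*j+1) =
    2 * X * ∑ j ∈ range n, C (1/((j:K)+1)) * X^(2*j+2) - C (2 * H K n) * X^(2*n+1) := by
  induction n with
  | zero => simp [H]
  | succ n ih =>
    rw [sum_range_succ, mul_add, ih, sum_range_succ, H_succ]
    simp only [C_add, C_mul]
    have : (C (2:K)) = 2 := map_ofNat C 2
    rw [this]
    ring

lemma tel_A1 (n : ℕ) : (1-X^2) * ∑ j ∈ range n, 2 * (X:K[X])^(2*j+1) = 2 * X - 2 * X^(2*n+1) := by
  induction n with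
  | zero => simp
  | succ n ih => rw [sum_range_succ, mul_add, ih]; ring

section
include h0

lemma dL1 : (1-X) * derivative (pL1 K R) = 1 - X^(2*R) := by
  rw [← tel_geom]
  congr 1
  unfold pL1
  rw [derivative_sum]
  apply sum_congr rfl
  intro k hk
  rw [mem_range] at hk
  have h3 := ne_k (K := K) h0 hk
  rw [derivative_C_mul_X_pow]
  push_cast
  rw [one_div, inv_mul_cancel₀ h3, C_1, one_mul]

lemma dL2 : X * derivative (pL2 K R) = pL1 K R := by
  unfold pL1 pL2
  rw [derivative_sum, mul_sum]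
  apply sum_congr rfl
  intro k hk
  rw [mem_range] at hk
  have h3 := ne_k (K := K) h0 hk
  rw [derivative_C_mul_X_pow]
  push_cast
  have : 1/((k:K)+1)^2 * ((k:K)+1) = 1/((k:K)+1) := by field_simp
  rw [this]
  ring

end

include h0 h5

lemma dD : (1-X) * derivative (pD K R) = pL1 K R := by
  have h := tel_H (K := K) (2*R)
  rw [H_full h0 h5, C_0, zero_mul, sub_zero] at h
  unfold pL1
  rw [← h]
  congr 1
  unfold pD
  rw [derivative_sum]
  apply sum_congr rfl
  intro k hk
  rw [mem_range] at hk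
  have h3 := ne_k (K := K) h0 hk
  rw [derivative_C_mul_X_pow]
  push_cast
  rw [div_mul_cancel₀ _ h3]

lemma dAO : (1-X^2) * derivative (pAO K R) =
    ∑ j ∈ range R, C (4/(2*(j:K)+1)) * X^(2*j+1) - C (2 * ob K R) * X^(2*R+1) := by
  rw [← tel_ob]
  congr 1
  unfold pAO
  rw [derivative_sum]
  apply sum_congr rfl
  intro k hk
  rw [mem_range] at hk
  have h3 := ne_k (K := K) h0 (k := k) (by omega)
  rw [derivative_C_mul_X_pow, show 2*k+2-1 = 2*k+1 by omega]
  push_cast
  have : ob K (k+1)/((k:K)+1) * (2*(k:K)+2) = 2 * ob K (k+1) := by field_simp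
  rw [this]

lemma dM : (1-X^2) * derivative (pM K R) = 2 * X * pA1 K R - C (2 * H K R) * X^(2*R+1) := by
  unfold pA1
  rw [← tel_M]
  congr 1
  unfold pM
  rw [derivative_sum]
  apply sum_congr rfl
  intro k hk
  rw [mem_range] at hk
  have h3 := ne_k (K := K) h0 (k := k) (by omega)
  rw [derivative_C_mul_X_pow, show 2*k+2-1 = 2*k+1 by omega]
  push_cast
  have : H K k/((k:K)+1) * (2*(k:K)+2) = 2 * H K k := by field_simp
  rw [this]

lemma dA1 : (1-X^2) * derivative (pA1 K R) = 2 * X - 2 * X^(2*R+1) := by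
  rw [← tel_A1]
  congr 1
  unfold pA1
  rw [derivative_sum]
  apply sum_congr rfl
  intro k hk
  rw [mem_range] at hk
  have h3 := ne_k (K := K) h0 (k := k) (by omega)
  rw [derivative_C_mul_X_pow, show 2*k+2-1 = 2*k+1 by omega]
  push_cast
  have : 1/((k:K)+1) * (2*(k:K)+2) = 2 := by field_simp
  rw [this]
  have : (C (2:K)) = 2 := map_ofNat C 2
  rw [this]

omit h0 h5 in
lemma dXp : derivative ((X:K[X])^p) = 0 := by
  rw [derivative_X_pow]; simp

omit h0 h5 hp in
lemma nsub {f g : K[X]} {n : ℕ} (hf : f.natDegree ≤ n) (hg : g.natDegree ≤ n) : (f-g).natDegree ≤ n :=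
  (natDegree_sub_le f g).trans (max_le hf hg)

omit h0 h5 hp in
lemma deg_L1 : (pL1 K R).natDegree ≤ 2*R := by
  unfold pL1
  apply natDegree_sum_le_of_forall_le
  intro k hk
  rw [mem_range] at hk
  exact (natDegree_C_mul_X_pow_le _ _).trans (by omega)

omit h0 h5 hp in
lemma deg_L2 : (pL2 K R).natDegree ≤ 2*R := by
  unfold pL2
  apply natDegree_sum_le_of_forall_le
  intro k hk
  rw [mem_range] at hk
  exact (natDegree_C_mul_X_pow_le _ _).trans (by omega)

omit h0 h5 hp in
lemma deg_D : (pD K R).natDegree ≤ 2*R := by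
  unfold pD
  apply natDegree_sum_le_of_forall_le
  intro k hk
  rw [mem_range] at hk
  exact (natDegree_C_mul_X_pow_le _ _).trans (by omega)

omit h0 h5 hp in
lemma deg_AO : (pAO K R).natDegree ≤ 2*R := by
  unfold pAO
  apply natDegree_sum_le_of_forall_le
  intro k hk
  rw [mem_range] at hk
  exact (natDegree_C_mul_X_pow_le _ _).trans (by omega)

omit h0 h5 hp in
lemma deg_M : (pM K R).natDegree ≤ 2*R := by
  unfold pM
  apply natDegree_sum_le_of_forall_le
  intro k hk
  rw [mem_range] at hk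
  exact (natDegree_C_mul_X_pow_le _ _).trans (by omega)

omit h0 h5 hp in
lemma deg_A1 : (pA1 K R).natDegree ≤ 2*R := by
  unfold pA1
  apply natDegree_sum_le_of_forall_le
  intro k hk
  rw [mem_range] at hk
  exact (natDegree_C_mul_X_pow_le _ _).trans (by omega)

/-- identity (ii) -/
lemma L1_sq (x : K) : L1 R x ^ 2 = 2 * (1 - x^p) * D R x - 2 * x^p * L2 R x := by
  set V : K[X] := (pL1 K R)*(pL1 K R) - 2 * ((1 - X^p) * pD K R) + 2 * (X^p * pL2 K R) with hV
  have hXp : derivative ((X:K[X])^p) = 0 := dXp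
  have hd : derivative V = 0 := by
    have h1 : (X:K[X]) * (1-X) ≠ 0 := by
      apply mul_ne_zero X_ne_zero
      intro h
      have := congrArg (eval (0:K)) h
      simp at this
    apply mul_left_cancel₀ h1
    rw [mul_zero, hV]
    simp only [derivative_add, derivative_sub, derivative_mul, hXp, derivative_one, derivative_ofNat]
    have e1 := dL1 (K := K) h0
    have e2 := dL2 (K := K) h0
    have e3 := dD (K := K) h0 h5
    have e4 : (X:K[X])^p = X^(2*R) * X := by rw [← h0, pow_succ]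
    linear_combination 2*X*pL1 K R * e1 - 2*X*(1-X^p)*e3 + 2*X^p*(1-X)*e2 + 2 * pL1 K R * e4
  have hdeg : V.natDegree < 2*p := by
    have : V.natDegree ≤ 2*p-1 := by
      rw [hV]
      have d2 : (2:K[X]).natDegree ≤ 0 := by rw [natDegree_ofNat]
      have dp : ((1:K[X]) - X^p).natDegree ≤ p := by
        apply (natDegree_sub_le _ _).trans
        simp
      have dp' : ((X:K[X])^p).natDegree ≤ p := by simp
      apply natDegree_add_le_of_degree_le
      · apply nsub
        · exact (natDegree_mul_le_of_le deg_L1 deg_L1).trans (by omega)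
        · exact (natDegree_mul_le_of_le d2 (natDegree_mul_le_of_le dp deg_D)).trans (by omega)
      · exact (natDegree_mul_le_of_le d2 (natDegree_mul_le_of_le dp' deg_L2)).trans (by omega)
    have := hp.out.one_lt
    omega
  have h := deriv_zero V hdeg hd
  have h1 := congrArg (eval (0:K)) h
  have h2 := congrArg (eval (1:K)) h
  have h3 := congrArg (eval x) h
  have hp0 : p ≠ 0 := hp.out.ne_zero
  have l10 : L1 R (0:K) = 0 := by simp [L1]
  have l20 : L2 R (0:K) = 0 := by simp [L2]
  have d0 : D R (0:K) = 0 := by simp [D]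
  have l11 : L1 R (1:K) = 0 := by
    have := H_full (K := K) h0 h5
    unfold H at this; unfold L1; simpa using this
  have l21 := L2_one (K := K) h0 h5
  simp only [eval_add, eval_sub, eval_mul, eval_pow, eval_X, eval_C] at h1 h2 h3
  rw [hV] at h1 h2 h3
  simp only [eval_add, eval_sub, eval_mul, eval_pow, eval_X, eval_C, eL1, eL2, eD, eval_ofNat, eval_one, one_pow, zero_pow hp0, l10, l20, l11, l21, d0] at h1 h2 h3
  linear_combination h3 - (1 - x^p) * h1 - x^p * h2

omit h0 h5 hp in
lemma deg_W : (pW K R).natDegree ≤ 2*R+1 := by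
  unfold pW
  apply natDegree_sum_le_of_forall_le
  intro k hk
  rw [mem_range] at hk
  have a1 : ((1:K[X])-X).natDegree ≤ 1 := nsub (by simp) (by simp)
  have a2 : ((1:K[X])+X).natDegree ≤ 1 := natDegree_add_le_of_degree_le (by simp) (by simp)
  have a3 := natDegree_pow_le_of_le (k+1) a1
  have a4 := natDegree_pow_le_of_le (2*R-k) a2
  have a5 := natDegree_mul_le_of_le a3 a4
  exact (natDegree_C_mul_le _ _).trans (a5.trans (by omega))

lemma dW : (1-X^2) * derivative (pW K R) = - 2 * Fh R (1+(X:K[X])) (1-X) := by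
  rw [Fh_K (K := K) h0]
  unfold pW
  rw [derivative_sum, mul_sum, mul_sum]
  apply sum_congr rfl
  intro k hk
  rw [mem_range] at hk
  have h3 := ne_k (K := K) h0 hk
  obtain ⟨m, hm⟩ : ∃ m, 2*R - k = m + 1 := ⟨2*R-k-1, by omega⟩
  have hmK : (m:K) + 1 = -((k:K)+1) := by
    have := cast_refl (K := K) h0 hk
    rw [← this]; congr 2; omega
  rw [hm]
  have hC : C (1/((k:K)+1)^2) * ((k:K[X])+1) = C (1/((k:K)+1)) := by
    have : ((k:K[X])+1) = C ((k:K)+1) := by simp
    rw [this, ← C_mul]; congr 1; field_simp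
  have hmK' : (m:K[X]) + 1 = -((k:K[X])+1) := by
    have := congrArg (C : K → K[X]) hmK
    simpa using this
  have d1 : derivative ((1:K[X]) - X) = -1 := by simp
  have d2 : derivative ((1:K[X]) + X) = 1 := by simp
  rw [derivative_C_mul, derivative_mul, derivative_pow, derivative_pow, d1, d2]
  simp only [Nat.add_sub_cancel, C_eq_natCast, Polynomial.algebraMap_apply, Algebra.algebraMap_self, RingHom.id_apply]
  push_cast
  rw [hmK']
  linear_combination (-(1-X)^(k+1)*(1+X)^(m+1)*2) * hC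

/-- W as a function -/
def Wf (R : ℕ) (x : K) : K := ∑ k ∈ range (2*R), (1-x)^(k+1) * (1+x)^(2*R-k) / ((k:K)+1)^2

omit h0 h5 hp in
lemma eW (x : K) : eval x (pW K R) = Wf R x := by
  unfold pW Wf
  rw [eval_finset_sum]
  apply sum_congr rfl
  intro k _
  simp
  ring

lemma Wf_even (x : K) : Wf R (-x) = Wf R x := by
  unfold Wf
  rw [refl h0]
  apply sum_congr rfl
  intro k hk
  rw [mem_range] at hk
  rw [cast_refl h0 hk, neg_sq, show 2*R-1-k+1 = 2*R-k by omega, show 2*R-(2*R-1-k) = k+1 by omega]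
  ring

omit h0 h5 hp in
lemma AO_even (x : K) : AO R (-x) = AO R x := by
  unfold AO
  apply sum_congr rfl
  intro k hk
  rw [show 2*k+2 = 2*(k+1) by ring, pow_mul, pow_mul, neg_sq]

lemma Fh_diff : Fh R 1 (X:K[X]) - Fh R 1 (-X) = ∑ j ∈ range R, C (2/(2*(j:K)+1)) * X^(2*j+1) := by
  rw [Fh_K (K := K) h0, Fh_K (K := K) h0, ← sum_sub_distrib, split_oe]
  apply sum_congr rfl
  intro k hk
  rw [mem_range] at hk
  have e1 : (-(X:K[X]))^(2*k+1) = -X^(2*k+1) := by rw [Odd.neg_pow ⟨k, rfl⟩]
  have e2 : (-(X:K[X]))^(2*k+1+1) = X^(2*k+1+1) := by rw [Even.neg_pow ⟨k+1, by ring⟩]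
  rw [e1, e2]
  have : (2/(2*(k:K)+1)) = 2 * (1/(2*(k:K)+1)) := by ring
  rw [this]
  have h2 : (C (2:K)) = 2 := map_ofNat C 2
  simp only [C_mul, h2, Polynomial.algebraMap_apply, Algebra.algebraMap_self, RingHom.id_apply, one_pow, mul_one]
  push_cast
  ring

lemma Fh_sum : Fh R 1 (X:K[X]) + Fh R 1 (-X) = pA1 K R := by
  unfold pA1
  rw [Fh_K (K := K) h0, Fh_K (K := K) h0, ← sum_add_distrib, split_oe]
  apply sum_congr rfl
  intro k hk
  rw [mem_range] at hk
  have t2 := two_ne (K := K) h0 h5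
  have h3 := ne_k (K := K) h0 (k := k) (by omega)
  have e1 : (-(X:K[X]))^(2*k+1) = -X^(2*k+1) := by rw [Odd.neg_pow ⟨k, rfl⟩]
  have e2 : (-(X:K[X]))^(2*k+1+1) = X^(2*k+2) := by rw [Even.neg_pow ⟨k+1, by ring⟩]
  rw [e1, e2]
  have h6 : (2*(k:K)+1+1) = 2 * ((k:K)+1) := by ring
  have h7 : (1/((k:K)+1)) = 2 * (1/(2*((k:K)+1))) := by field_simp
  rw [h7]
  have h2 : (C (2:K)) = 2 := map_ofNat C 2
  simp only [C_mul, h2, Polynomial.algebraMap_apply, Algebra.algebraMap_self, RingHom.id_apply, one_pow, mul_one]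
  push_cast
  rw [h6]
  ring

variable {c : ℤ} (hc : (4:ℤ)^R - 1 = (2*R+1) * c)
include hc

lemma ob_R : ob K R = 2 * (c:K) := by
  have hprime : (2*R+1).Prime := by rw [h0]; exact hp.out
  have h1 := dW (K := K) h0 h5
  rw [fh1 hprime hc, Fh_diff h0 h5] at h1
  have h2 := dAO (K := K) h0 h5
  have h3 := congrArg (eval (1:K)) h1
  have h4 := congrArg (eval (1:K)) h2
  simp only [eval_add, eval_sub, eval_mul, eval_pow, eval_X, eval_C, eval_one, one_pow, sub_self, zero_mul, eval_finset_sum, mul_one, eval_neg, eval_ofNat, eval_intCast] at h3 h4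
  have h5' : ∑ j ∈ range R, (4/(2*(j:K)+1)) = 2 * ∑ j ∈ range R, (2/(2*(j:K)+1)) := by
    rw [mul_sum]; apply sum_congr rfl; intro j _; ring
  rw [h5'] at h4
  have t2 := two_ne (K := K) h0 h5
  have h6 : 2 * ob K R = 2 * (2 * (c:K)) := by linear_combination h4 + h3
  exact mul_left_cancel₀ t2 h6

lemma H_Rc : H K R = -2 * (c:K) := by
  rw [H_R h0 h5, ob_R h0 h5 hc]; ring

/-- identity (v) -/
lemma AO_W (x : K) : AO R x = - Wf R x := by
  have hprime : (2*R+1).Prime := by rw [h0]; exact hp.out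
  have hXp : derivative ((X:K[X])^p) = 0 := dXp
  have hd : derivative (pAO K R + pW K R) = 0 := by
    have h1 : (1:K[X]) - X^2 ≠ 0 := by
      intro h
      have := congrArg (eval (0:K)) h
      simp at this
    apply mul_left_cancel₀ h1
    rw [mul_zero, derivative_add, mul_add, dW h0 h5, dAO h0 h5, fh1 hprime hc, Fh_diff h0 h5, ob_R h0 h5 hc]
    have h5' : ∑ j ∈ range R, C (4/(2*(j:K)+1)) * (X:K[X])^(2*j+1) = 2 * ∑ j ∈ range R, C (2/(2*(j:K)+1)) * X^(2*j+1) := by
      rw [mul_sum]; apply sum_congr rfl; intro j _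
      have : 4/(2*(j:K)+1) = 2 * (2/(2*(j:K)+1)) := by ring
      rw [this, C_mul, map_ofNat C 2]; ring
    rw [h5']
    have h6 : C (2 * (2 * (c:K))) = 4 * ((c:ℤ):K[X]) := by
      rw [C_mul, C_mul, map_ofNat C 2]; simp; ring
    rw [h6]
    ring
  have hdeg : (pAO K R + pW K R).natDegree < 2*p := by
    have : (pAO K R + pW K R).natDegree ≤ p := by
      apply natDegree_add_le_of_degree_le
      · exact deg_AO.trans (by omega)
      · exact deg_W.trans (by omega)
    have := hp.out.one_lt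
    omega
  have h := deriv_zero _ hdeg hd
  have h1 := congrArg (eval (0:K)) h
  have h2 := congrArg (eval (-x)) h
  have h3 := congrArg (eval x) h
  have hp0 : p ≠ 0 := hp.out.ne_zero
  have hodd : (-x)^p = -x^p := by rw [← h0, Odd.neg_pow ⟨R, rfl⟩]
  have a0 : AO R (0:K) = 0 := by simp [AO]
  have w0 : Wf R (0:K) = 0 := by
    have := L2_one (K := K) h0 h5
    unfold L2 at this; unfold Wf; simpa using this
  simp only [eval_add, eval_sub, eval_mul, eval_pow, eval_X, eval_C, eAO, eW, zero_pow hp0, a0, w0, hodd, AO_even, Wf_even h0 h5] at h1 h2 h3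
  have t2 := two_ne (K := K) h0 h5
  have : 2 * (AO R x + Wf R x) = 2 * 0 := by linear_combination h2 + h3 - 2 * h1
  have := mul_left_cancel₀ t2 this
  linear_combination this

omit hc h0 h5 in
lemma two_pow_p : (2:K)^p = 2 := by
  have := add_pow_char (R := K) (p := p) 1 1
  norm_num at this
  exact this

lemma L1_half : 2 * (pL1 K R).comp (C (1/2) * (1 + X)) = pA1 K R + 2 * C (c:K) := by
  have hprime : (2*R+1).Prime := by rw [h0]; exact hp.out
  have t2 := two_ne (K := K) h0 h5
  have h := fh2 hprime hc (X:K[X])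
  rw [Fh_sum h0 h5] at h
  have h2 : Fh R 2 (1 + (X:K[X])) = 2 * (pL1 K R).comp (C (1/2) * (1 + X)) := by
    rw [Fh_K (K := K) h0]
    unfold pL1
    rw [Polynomial.sum_comp, mul_sum]
    apply sum_congr rfl
    intro k hk
    rw [mem_range] at hk
    simp only [mul_comp, C_comp, pow_comp, X_comp, Polynomial.algebraMap_apply, Algebra.algebraMap_self, RingHom.id_apply]
    have e1 : (2:K[X])^(2*R-k) = 2 * C (1/2)^(k+1) := by
      have e2 : (2:K)^(2*R-k) = 2 * (1/2)^(k+1) := by
        have e3 := two_pow_p (K := K) (p := p)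
        have e4 : (2:K)^(2*R-k) * 2^(k+1) = 2 := by
          rw [← pow_add, show 2*R-k+(k+1) = p by omega, e3]
        rw [one_div, inv_pow, eq_mul_inv_iff_mul_eq₀ (pow_ne_zero _ t2), e4]
      have e5 := congrArg (C : K → K[X]) e2
      rw [C_pow, C_mul, C_pow, map_ofNat C 2] at e5
      exact e5
    rw [e1, mul_pow]
    ring
  rw [← h2, h]
  simp

lemma pA1_even : (pA1 K R).comp (-X) = pA1 K R := by
  unfold pA1
  rw [Polynomial.sum_comp]
  apply sum_congr rfl
  intro k hk
  simp only [mul_comp, C_comp, pow_comp, X_comp]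
  rw [show 2*k+2 = 2*(k+1) by ring, pow_mul, pow_mul, neg_sq]

lemma L1_half' : 2 * (pL1 K R).comp (C (1/2) * (1 - X)) = pA1 K R + 2 * C (c:K) := by
  have h := congrArg (fun Q => Q.comp (-(X:K[X]))) (L1_half (K := K) h0 h5 hc)
  simp only [add_comp, mul_comp, C_comp, comp_assoc, X_comp, one_comp, ofNat_comp] at h
  rw [pA1_even h0 h5 hc] at h
  rw [sub_eq_add_neg]
  exact_mod_cast h

/-- identity (vi) -/
lemma M_eq (x : K) : M R x = -2 * (L2 R ((1-x)/2) + L2 R ((1+x)/2)) - 2 * c * A1 R x - 2 * (c:K)^2 := by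
  have t2 := two_ne (K := K) h0 h5
  set E : K[X] := (pL2 K R).comp (C (1/2) * (1 - X)) + (pL2 K R).comp (C (1/2) * (1 + X)) with hE
  set V : K[X] := pM K R + 2 * E + 2 * (C (c:K) * pA1 K R) with hV
  have dE1 : (1 + X) * derivative ((pL2 K R).comp (C (1/2) * (1 + X))) = (pL1 K R).comp (C (1/2) * (1 + X)) := by
    rw [derivative_comp]
    have d2 : derivative (C (1/2) * ((1:K[X]) + X)) = C (1/2) := by simp
    rw [d2]
    have := congrArg (fun Q => Q.comp (C (1/2) * (1 + (X:K[X])))) (dL2 (K := K) h0)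
    simp only [mul_comp, X_comp] at this
    rw [← this]; ring
  have dE2 : (1 - X) * derivative ((pL2 K R).comp (C (1/2) * (1 - X))) = -(pL1 K R).comp (C (1/2) * (1 - X)) := by
    rw [derivative_comp]
    have d2 : derivative (C (1/2) * ((1:K[X]) - X)) = -C (1/2) := by simp
    rw [d2]
    have := congrArg (fun Q => Q.comp (C (1/2) * (1 - (X:K[X])))) (dL2 (K := K) h0)
    simp only [mul_comp, X_comp] at this
    rw [← this]; ring
  have hd : derivative V = 0 := by
    have h1 : (1:K[X]) - X^2 ≠ 0 := by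
      intro h
      have := congrArg (eval (0:K)) h
      simp at this
    apply mul_left_cancel₀ h1
    rw [mul_zero, hV, hE]
    simp only [derivative_add, derivative_mul, derivative_ofNat, derivative_C]
    have e1 := dM (K := K) h0 h5
    have e2 := dA1 (K := K) h0 h5
    have e3 := L1_half (K := K) h0 h5 hc
    have e4 := L1_half' (K := K) h0 h5 hc
    have e5 : C (2 * H K R) = -4 * C (c:K) := by
      rw [H_Rc h0 h5 hc, show 2 * (-2 * (c:K)) = (-4) * (c:K) by ring, C_mul, C_neg, map_ofNat C 4]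
    rw [e5] at e1
    linear_combination e1 + 2 * (1+X) * dE2 + 2 * (1-X) * dE1 + 2 * C (c:K) * e2 + (1-X) * e3 - (1+X) * e4
  have a1 : (C (1/2) * ((1:K[X])-X)).natDegree ≤ 1 := (natDegree_C_mul_le _ _).trans (nsub (by simp) (by simp))
  have a2 : (C (1/2) * ((1:K[X])+X)).natDegree ≤ 1 := (natDegree_C_mul_le _ _).trans (natDegree_add_le_of_degree_le (by simp) (by simp))
  have hdeg' : V.natDegree ≤ 2*R := by
    rw [hV, hE]
    have d2 : (2:K[X]).natDegree ≤ 0 := by rw [natDegree_ofNat]
    have d3 : (C (c:K)).natDegree ≤ 0 := by simp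
    apply natDegree_add_le_of_degree_le
    · apply natDegree_add_le_of_degree_le deg_M
      refine (natDegree_mul_le_of_le d2 (natDegree_add_le_of_degree_le (n := 2*R) ?_ ?_)).trans (by omega)
      · exact (natDegree_comp_le).trans ((Nat.mul_le_mul deg_L2 a1).trans (by omega))
      · exact (natDegree_comp_le).trans ((Nat.mul_le_mul deg_L2 a2).trans (by omega))
    · exact (natDegree_mul_le_of_le d2 (natDegree_mul_le_of_le d3 deg_A1)).trans (by omega)
  have hdeg : V.natDegree < 2*p := by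
    have := hp.out.one_lt
    omega
  have hcp : V.coeff p = 0 := coeff_eq_zero_of_natDegree_lt (by omega)
  have h := deriv_zero V hdeg hd
  rw [hcp] at h
  have h1 := congrArg (eval (1:K)) h
  have h3 := congrArg (eval x) h
  have l20 : L2 R (0:K) = 0 := by simp [L2]
  have l21 := L2_one (K := K) h0 h5
  have hA1 : A1 R (1:K) = H K R := by simp [A1, H]
  have hA2 : A2 R (1:K) = 0 := by
    have e := L2_even (K := K) h0 h5 1
    have e2 := L2_inv (K := K) h0 (x := -1) (by norm_num)
    have hodd : (-(1:K))^p = -1 := by rw [← h0, Odd.neg_pow ⟨R, rfl⟩, one_pow]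
    rw [hodd] at e2
    have e3 : (-1:K)⁻¹ = -1 := by norm_num
    rw [e3] at e2
    have e4 : 2 * L2 R (-1:K) = 2 * 0 := by linear_combination -e2
    have e5 := mul_left_cancel₀ t2 e4
    rw [l21, e5] at e
    have e6 : 2 * A2 R (1:K) * (1/2) = 0 := by linear_combination -2 * e
    field_simp at e6
    exact e6
  have hM : 2 * M R (1:K) = (H K R)^2 - A2 R (1:K) := by
    unfold M A2
    have : ∀ n, 2 * ∑ j ∈ range n, (1:K)^(2*j+2) * H K j/((j:K)+1) = (H K n)^2 - ∑ j ∈ range n, (1:K)^(2*j+2)/((j:K)+1)^2 := by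
      intro n
      induction n with
      | zero => simp [H]
      | succ n ih =>
        rw [sum_range_succ, mul_add, ih, sum_range_succ, H_succ, one_pow]
        have : (1:K)/((n:K)+1)^2 = (1/((n:K)+1))^2 := by rw [div_pow, one_pow]
        rw [this]; ring
    exact this R
  rw [hV, hE] at h1 h3
  simp only [eval_add, eval_sub, eval_mul, eval_pow, eval_X, eval_C, eM, eA1, eL2, eval_comp, eval_ofNat, eval_one, zero_mul, C_0, eval_zero] at h1 h3
  have e0 : (1/2:K) * (1-1) = 0 := by ring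
  have e1 : (1/2:K) * (1+1) = 1 := by field_simp; norm_num
  rw [e0, e1, l20, l21, hA1, H_Rc h0 h5 hc] at h1
  rw [hA2, H_Rc h0 h5 hc] at hM
  have hM' : M R (1:K) = 2 * (c:K)^2 := by
    apply mul_left_cancel₀ t2; rw [hM]; ring
  rw [hM'] at h1
  have e2 : (1/2:K) * (1-x) = (1-x)/2 := by ring
  have e3 : (1/2:K) * (1+x) = (1+x)/2 := by ring
  rw [e2, e3] at h3
  linear_combination h3 - h1

end field

end Pool.Agent.Helper857.Fl
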