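import Pool.Agent.Helper857.X8
import Pool.Agent.Helper857.X4

set_option autoImplicit false
set_option linter.all false
set_option linter.unusedSectionVars false
set_option linter.unusedVariables false

namespace Pool.Agent.Helper857.Fl

open Finset Polynomial

def sg (R : ℕ) : ℤ := if R % 3 = 0 then 1 else -1

lemma sg_sq (R : ℕ) : sg R * sg R = 1 := by unfold sg; split_ifs <;> norm_num

lemma zs_cancel {n : ℕ} (hn : n ≠ 0) {x y : ℤ√(-3)} (h : (n : ℤ√(-3)) * x = n * y) : x = y := by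
  have e1 := congrArg Zsqrtd.re h
  have e2 := congrArg Zsqrtd.im h
  simp at e1 e2
  ext
  · rcases e1 with e | e
    · exact e
    · exact absurd e hn
  · rcases e2 with e | e
    · exact e
    · exact absurd e hn

lemma Fh_zs {R : ℕ} (hp : (2*R+1).Prime) (hR : R % 3 ≠ 1) {c b : ℤ} (hc : (4:ℤ)^R - 1 = (2*R+1) * c)
    (hb : sg R * (-3:ℤ)^R - 1 = (2*R+1) * b) :
    Fh R 1 (-(⟨0, 1⟩ : ℤ√(-3))) = ⟨-c, -(sg R * (c-b))⟩ := by
  apply zs_cancel (n := 2*R+1) (by omega)
  rw [Fh_spec hp]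
  have h1 : (1 : ℤ√(-3)) - (-(⟨0,1⟩)) = ⟨1, 1⟩ := by ext <;> simp
  obtain ⟨e1, e2⟩ := X.eo R hR
  rw [h1, X.zs, e1, e2]
  have h2 : (-(⟨0, 1⟩ : ℤ√(-3)))^(2*R+1) = ⟨0, -(-3)^R⟩ := by
    rw [Odd.neg_pow ⟨R, rfl⟩, pow_succ, pow_mul]
    have : (⟨0, 1⟩ : ℤ√(-3))^2 = ((-3 : ℤ) : ℤ√(-3)) := by
      ext
      · rfl
      · rfl
    rw [this, ← Int.cast_pow]
    generalize (-3:ℤ)^R = m
    ext <;> simp
  rw [h2]
  have h3 : (-3:ℤ)^R = sg R * (1 + (2*R+1)*b) := by
    have := sg_sq R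
    linear_combination sg R * hb - (-3)^R * this
  have h4 : (if R % 3 = 0 then (1:ℤ) else -1) = sg R := rfl
  rw [h4]
  ext
  · simp
    linear_combination -hc
  · simp
    rw [h3]
    linear_combination (-sg R) * hc

section field
variable {K : Type*} [Field K] {p : ℕ} [hp : Fact p.Prime] [CharP K p] {R : ℕ} (h0 : 2*R+1 = p) (h5 : 5 ≤ p)
  {c b : ℤ} (hc : (4:ℤ)^R - 1 = (2*R+1) * c) (hb : sg R * (-3:ℤ)^R - 1 = (2*R+1) * b)
  {w : K} (hw : w^2 = -3)
include h0 h5

lemma R3' : R % 3 ≠ 1 := by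
  intro h
  have : 3 ∣ p := by rw [← h0]; omega
  have := (Nat.prime_dvd_prime_iff_eq Nat.prime_three hp.out).mp this
  omega

include hc hb hw in
lemma L1_w' : L1 R (-w) = -(c:K) - (sg R : K) * w * (c - b) := by
  have hprime : (2*R+1).Prime := by rw [h0]; exact hp.out
  have h := Fh_zs hprime (R3' h0 h5) hc hb
  have hw' : w * w = ((-3 : ℤ) : K) := by rw [← sq, hw]; norm_num
  have h2 := congrArg (Zsqrtd.lift ⟨w, hw'⟩ : ℤ√(-3) →+* K) h
  rw [Fh_map] at h2
  simp only [map_one, map_neg, Zsqrtd.lift_apply_apply] at h2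
  have e : ((0:ℤ):K) + ((1:ℤ):K) * w = w := by simp
  rw [e, Fh_one h0] at h2
  rw [h2]
  push_cast
  ring

include hc hb hw in
lemma L1_w : L1 R w = -(c:K) + (sg R : K) * w * (c - b) := by
  have hw2 : (-w)^2 = -3 := by rw [neg_sq, hw]
  have := L1_w' (K := K) h0 h5 hc hb hw2
  rw [neg_neg] at this
  rw [this]; ring

include hb in
lemma three_pow : (-3:K)^R = (sg R : K) := by
  have h1 : (sg R : K) * (-3)^R - 1 = 0 := by
    have h2 := congrArg (Int.cast : ℤ → K) hb
    push_cast at h2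
    rw [h2, p_zero (K := K) h0, zero_mul]
  have h3 : (sg R : K) * (sg R : K) = 1 := by exact_mod_cast congrArg (Int.cast : ℤ → K) (sg_sq R)
  linear_combination (sg R : K) * h1 - (-3)^R * h3

include hb hw in
lemma w_pow : w^p = (sg R : K) * w := by
  rw [← h0, pow_succ, pow_mul, hw, three_pow h0 h5 hb]

omit h0 h5 in
lemma cube_sum {z : K} (hz : z^2 + z + 1 = 0) (g : ℕ → K) (n : ℕ) :
    ∑ k ∈ range n, (1 + z^(k+1) + z^(2*(k+1))) * g (k+1) = ∑ j ∈ range (n/3), 3 * g (3*(j+1)) := by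
  have hz3 : z^3 = 1 := by linear_combination (z-1) * hz
  induction n with
  | zero => simp
  | succ n ih =>
    rw [sum_range_succ, ih]
    obtain ⟨t, ht⟩ : ∃ t, n = 3*t ∨ n = 3*t+1 ∨ n = 3*t+2 := ⟨n/3, by omega⟩
    rcases ht with rfl | rfl | rfl
    · have e : (3*t+1)/3 = 3*t/3 := by omega
      have e1 : z^(3*t+1) = z := by rw [pow_succ, pow_mul, hz3, one_pow, one_mul]
      have e2 : z^(2*(3*t+1)) = z^2 := by rw [mul_comm, pow_mul, e1]
      rw [e, e1, e2]
      linear_combination g (3*t+1) * hz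
    · have e : (3*t+1+1)/3 = (3*t+1)/3 := by omega
      have e1 : z^(3*t+1+1) = z^2 := by rw [show 3*t+1+1 = 3*t+2 by ring, pow_add, pow_mul, hz3, one_pow, one_mul]
      have e2 : z^(2*(3*t+1+1)) = z := by
        rw [mul_comm, pow_mul, e1]; linear_combination z * hz3
      rw [e, e1, e2]
      linear_combination g (3*t+1+1) * hz
    · have e : (3*t+2+1)/3 = t+1 := by omega
      have e' : (3*t+2)/3 = t := by omega
      have e1 : z^(3*t+2+1) = 1 := by rw [show 3*t+2+1 = 3*(t+1) by ring, pow_mul, hz3, one_pow]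
      have e2 : z^(2*(3*t+2+1)) = 1 := by
        rw [mul_comm, pow_mul, e1, one_pow]
      rw [e, e', e1, e2, sum_range_succ, show 3*(t+1) = 3*t+2+1 by ring]
      ring

/-- the truncated sum of inverse squares -/
def s3 (K : Type*) [Field K] (R : ℕ) : K := ∑ j ∈ range (2*R/3), 1/((j:K)+1)^2

lemma L2_cube {z : K} (hz : z^2 + z + 1 = 0) : L2 R z + L2 R (z^2) = s3 K R / 3 := by
  have t3 := three_ne (K := K) h0 h5
  have h := cube_sum hz (fun m => 1/(m:K)^2) (2*R)
  have e : ∑ k ∈ range (2*R), (1 + z^(k+1) + z^(2*(k+1))) * (1/((k+1:ℕ):K)^2) = L2 R 1 + L2 R z + L2 R (z^2) := by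
    unfold L2
    rw [← sum_add_distrib, ← sum_add_distrib]
    apply sum_congr rfl
    intro k _
    push_cast
    rw [← pow_mul]
    ring
  rw [e, L2_one h0 h5, zero_add] at h
  rw [h]
  unfold s3
  rw [sum_div]
  apply sum_congr rfl
  intro j hj
  rw [mem_range] at hj
  have h3 := ne_k (K := K) h0 (k := j) (by omega)
  push_cast
  field_simp

/-- the values at roots of unity -/
lemma L2_z {z S : K} (hz : z^2 + z + 1 = 0) (hS : S = s3 K R / 3) :
    L2 R z = -(z^p)^2 * S ∧ 2 * L2 R (-z) = (1 - z^p) * S := by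
  have t2 := two_ne (K := K) h0 h5
  have t3 := three_ne (K := K) h0 h5
  have hz3 : z^3 = 1 := by linear_combination (z-1) * hz
  have hz0 : z ≠ 0 := by
    intro h; rw [h] at hz3; simp at hz3
  have hodd : ∀ x : K, (-x)^p = -x^p := by intro x; rw [← h0, Odd.neg_pow ⟨R, rfl⟩]
  have hy : (z^p)^2 + z^p + 1 = 0 := by
    have e1 : (z^2 + z + 1)^p = 0 := by rw [hz, zero_pow hp.out.ne_zero]
    rw [add_pow_char, add_pow_char, one_pow, ← pow_mul, mul_comm 2 p, pow_mul] at e1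
    exact e1
  have hzi : z⁻¹ = z^2 := by
    rw [inv_eq_iff_eq_inv, eq_comm, inv_eq_of_mul_eq_one_left]
    rw [← hz3]; ring
  have h1 := L2_cube (K := K) h0 h5 hz
  have h2 := L2_inv (K := K) h0 hz0
  rw [hzi] at h2
  have h3 := L2_dist (K := K) h0 h5 z
  rw [← hS] at h1
  generalize z^p = y at *
  have hy3 : y^3 = 1 := by linear_combination (y-1) * hy
  have e : L2 R (z^2) = y^2 * L2 R z := by
    linear_combination y^2 * h2 - L2 R (z^2) * hy3
  have a1 : L2 R z = -y^2 * S := by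
    rw [e] at h1
    linear_combination (-y^2) * h1 + (y^2 * L2 R z) * hy + (L2 R z) * (- hy3) + 0 * hy
  refine ⟨a1, ?_⟩
  rw [e, a1] at h3
  have e4 : 2 * (1 - y) * L2 R (-z) = -3 * y * S := by
    linear_combination (-1) * h3 + 2 * S * y * hy - S * y * hy3
  have e5 : (1 - y) * (1 - y^2) = 3 := by linear_combination (-1) * hy + hy3
  apply mul_left_cancel₀ t3
  linear_combination (1-y^2) * e4 - 2 * L2 R (-z) * e5 + 3 * S * hy3

omit h5 in
lemma Wf_L2 {x : K} (hx : 1 + x ≠ 0) : Wf R x = (1 + x^p) * L2 R ((1-x)/(1+x)) := by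
  have e : (1:K) + x^p = (1+x)^p := by rw [add_pow_char, one_pow]
  rw [e]
  unfold Wf L2
  rw [mul_sum]
  apply sum_congr rfl
  intro k hk
  rw [mem_range] at hk
  have e2 : (1+x)^p = (1+x)^(2*R-k) * (1+x)^(k+1) := by rw [← pow_add]; congr 1; omega
  rw [e2, div_pow]
  have := pow_ne_zero (k+1) hx
  field_simp

include hc hb hw in
/-- the main evaluation in characteristic `p` -/
theorem QK : 9 * (5 * (M R w⁻¹ + A2 R w⁻¹ - AO R w⁻¹) - 2 * A2 R w⁻¹ + 15 * (M R w + A2 R w - AO R w) - 12 * A2 R w) =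
    36 * (10 * (c:K)^2 - 5 * c * b + (b:K)^2) + 20 * s3 K R := by
  have t2 := two_ne (K := K) h0 h5
  have t3 := three_ne (K := K) h0 h5
  obtain ⟨S, hS⟩ : ∃ S : K, S = s3 K R / 3 := ⟨_, rfl⟩
  have hS3 : s3 K R = 3 * S := by rw [hS]; field_simp
  have hodd : ∀ x : K, (-x)^p = -x^p := by intro x; rw [← h0, Odd.neg_pow ⟨R, rfl⟩]
  -- basic facts on w
  have hw0 : w ≠ 0 := by
    intro h; rw [h] at hw; apply t3; linear_combination hw
  have hw1 : 1 + w ≠ 0 := by
    intro h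
    have : (2:K)*2 = 0 := by linear_combination hw - (w-1) * h
    rcases mul_eq_zero.mp this with h | h <;> exact t2 h
  have hwi : w⁻¹ = -w/3 := by field_simp; linear_combination hw
  have hwp := w_pow (K := K) h0 h5 hb hw
  have hsg : (sg R : K) * (sg R : K) = 1 := by exact_mod_cast congrArg (Int.cast : ℤ → K) (sg_sq R)
  have hl := L1_w (K := K) h0 h5 hc hb hw
  have hl' := L1_w' (K := K) h0 h5 hc hb hw
  -- root of unity
  obtain ⟨z, hzd⟩ : ∃ z : K, z = -(1+w)/2 := ⟨_, rfl⟩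
  have hz2 : 2 * z = -(1+w) := by rw [hzd]; field_simp
  have hz : z^2 + z + 1 = 0 := by
    have : 4 * (z^2 + z + 1) = 4 * 0 := by linear_combination (2*z + 1 - w) * hz2 + hw
    have t4 : (4:K) ≠ 0 := by
      intro h; have : (2:K)*2 = 0 := by linear_combination h
      rcases mul_eq_zero.mp this with h | h <;> exact t2 h
    exact mul_left_cancel₀ t4 this
  have hz' : (z^2)^2 + z^2 + 1 = 0 := by linear_combination (z^2 - z + 1) * hz
  obtain ⟨v1, v2⟩ := L2_z (K := K) h0 h5 hz hS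
  obtain ⟨v3, v4⟩ := L2_z (K := K) h0 h5 hz' hS
  have hy : (z^p)^2 + z^p + 1 = 0 := by
    have e1 : (z^2 + z + 1)^p = 0 := by rw [hz, zero_pow hp.out.ne_zero]
    rw [add_pow_char, add_pow_char, one_pow, ← pow_mul, mul_comm 2 p, pow_mul] at e1
    exact e1
  have hwy : w^p = -1 - 2 * z^p := by
    have e1 : w = -(1 + 2 * z) := by linear_combination hz2
    rw [e1, hodd, add_pow_char, one_pow, mul_pow, two_pow_p]; ring
  have e4 : (z^2)^p = (z^p)^2 := by rw [← pow_mul, mul_comm, pow_mul]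
  rw [e4] at v3 v4
  have m1 : (1-w)/2 = -z^2 := by
    field_simp
    linear_combination 2 * hz - hz2
  have m2 : (1+w)/2 = -z := by
    field_simp
    linear_combination hz2
  have hM := M_eq (K := K) h0 h5 hc w
  rw [m1, m2, ← L1_even h0 h5, hl, hl'] at hM
  have hA := AO_W (K := K) h0 h5 hc w
  have hAi := AO_W (K := K) h0 h5 hc w⁻¹
  have hw1i : 1 + w⁻¹ ≠ 0 := by
    intro h
    apply hw1
    have : w * (1 + w⁻¹) = w + 1 := by field_simp
    rw [add_comm, ← this, h, mul_zero]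
  have r1 : (1-w)/(1+w) = z := by
    rw [div_eq_iff hw1]
    apply mul_left_cancel₀ t2
    linear_combination (-(1+w)) * hz2 + hw
  have r2 : (1-w⁻¹)/(1+w⁻¹) = -z := by
    rw [div_eq_iff hw1i]
    apply mul_left_cancel₀ hw0
    have : w * w⁻¹ = 1 := mul_inv_cancel₀ hw0
    apply mul_left_cancel₀ t2
    linear_combination (-2 + 2 * z) * this + (w+1) * hz2 - hw
  rw [Wf_L2 h0 hw1, r1] at hA
  rw [Wf_L2 h0 hw1i, r2, inv_pow] at hAi
  have hDw := D_even (K := K) h0 h5 w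
  have hDi := D_even (K := K) h0 h5 w⁻¹
  have q1 := L1_sq (K := K) h0 h5 w
  have q2 := L1_sq (K := K) h0 h5 (-w)
  have q3 := L1_sq (K := K) h0 h5 w⁻¹
  have q4 := L1_sq (K := K) h0 h5 (-w)⁻¹
  have i1 := L1_inv (K := K) h0 hw0
  have i2 := L2_inv (K := K) h0 hw0
  have i3 := L1_inv (K := K) h0 (neg_ne_zero.mpr hw0)
  have i4 := L2_inv (K := K) h0 (neg_ne_zero.mpr hw0)
  have n1 : (-w)⁻¹ = -w⁻¹ := inv_neg
  rw [n1] at q4 i3 i4
  rw [hodd] at q2 q4 i3 i4
  rw [inv_pow] at q3 q4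
  have a1 := L2_even (K := K) h0 h5 w
  have a2 := L2_even (K := K) h0 h5 w⁻¹
  have hwp0 : w^p ≠ 0 := pow_ne_zero _ hw0
  have hωv : w^p * (w^p)⁻¹ = 1 := mul_inv_cancel₀ hwp0
  have hω : (w^p)^2 = -3 := by
    rw [hwp]; linear_combination w^2 * hsg + hw
  have hl1 : L1 R w = -(c:K) + w^p * (c - b) := by rw [hl, hwp]
  have hl2 : L1 R (-w) = -(c:K) - w^p * (c - b) := by rw [hl', hwp]
  rw [← hwp] at hM
  generalize (w^p)⁻¹ = v at *
  generalize w^p = ω at *
  generalize z^p = y at *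
  have hv3 : 3 * v = -ω := by linear_combination (-ω) * hωv + v * hω
  have hv2 : 3 * v^2 = -1 := by linear_combination v * hv3 - hωv
  rw [hl1] at q1 i1
  rw [hl2] at q2 i3
  generalize L1 R w⁻¹ = m1' at *
  generalize L1 R (-w⁻¹) = m2' at *
  generalize L2 R w⁻¹ = U at *
  generalize L2 R (-w⁻¹) = U' at *
  generalize L2 R w = P at *
  generalize L2 R (-w) = P' at *
  generalize D R w = Dw at *
  generalize D R (-w) = Dw' at *
  generalize D R w⁻¹ = Di at *
  generalize D R (-w⁻¹) = Di' at *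
  have j1 : m1' = -v * (-(c:K) + ω * (c - b)) := by linear_combination v * i1 - m1' * hωv
  have j3 : m2' = v * (-(c:K) - ω * (c - b)) := by linear_combination (-v) * i3 - m2' * hωv
  rw [j1] at q3
  rw [j3] at q4
  have a1' : A2 R w = 2 * (P + P') := by rw [a1]; field_simp
  have a2' : A2 R w⁻¹ = 2 * (U + U') := by rw [a2]; field_simp
  have E1 : 8 * Dw = (1 + ω) * ((-(c:K) + ω * (c - b))^2 - 6 * U) := by
    linear_combination (-(1+ω)) * q1 + 2 * Dw * hω + (1+ω) * (2 * U * hω - 2 * ω * i2)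
  have E2 : 8 * Dw' = (1 - ω) * ((-(c:K) - ω * (c - b))^2 - 6 * U') := by
    linear_combination (-(1-ω)) * q2 + 2 * Dw' * hω + (1-ω) * (2 * U' * hω + 2 * ω * i4)
  have E3 : (-(c:K) + ω * (c - b))^2 + 2 * ω * U = -(6 + 2*ω) * Di := by
    linear_combination (-3) * q3 + (-(c:K) + ω * (c - b))^2 * hv2 + (2 * Di + 2 * U) * hv3
  have E4 : (-(c:K) - ω * (c - b))^2 - 2 * ω * U' = -(6 - 2*ω) * Di' := by
    linear_combination (-3) * q4 + (-(c:K) - ω * (c - b))^2 * hv2 - (2 * Di' + 2 * U') * hv3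
  have E3' : 24 * Di = -((-(c:K) + ω * (c - b))^2 + 2 * ω * U) * (3 - ω) := by
    rw [E3]; linear_combination 2 * Di * hω
  have E4' : 24 * Di' = -((-(c:K) - ω * (c - b))^2 - 2 * ω * U') * (3 + ω) := by
    rw [E4]; linear_combination 2 * Di' * hω
  have hMw : M R w = -3 * S + 2 * (c:K)^2 := by
    rw [hM]; linear_combination (-1) * v2 - v4 + S * hy
  have hAw : AO R w = -2 * S := by
    rw [hA, v1]; linear_combination (y^2 * S) * hwy - 2 * S * (y-1) * hy
  have hAi' : AO R w⁻¹ = - S := by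
    have t6 : (6:K) ≠ 0 := by
      intro h; have : (2:K)*3 = 0 := by linear_combination h
      rcases mul_eq_zero.mp this with h | h
      · exact t2 h
      · exact t3 h
    apply mul_left_cancel₀ t6
    rw [hAi]
    linear_combination (-3) * (1 + v) * v2 - (1-y) * S * hv3 + (1-y) * S * hwy + 2 * S * hy
  have t4 : (4:K) ≠ 0 := by
    intro h; have : (2:K)*2 = 0 := by linear_combination h
    rcases mul_eq_zero.mp this with h | h <;> exact t2 h
  have hMi : M R w⁻¹ = 2 * (Di + Di') + S := by linear_combination hAi' * (-1) - hDi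
  have F : 8 * (Dw + Dw') = 8 * (c:K)^2 - 20 * S := by
    linear_combination 4 * hDw + 4 * hMw + 4 * hAw
  apply mul_left_cancel₀ t4
  rw [hMi, hAi', hMw, hAw, a1', a2', hS3]
  linear_combination 15 * E3' + 15 * E4' - 216 * i2 - 216 * i4 - 21 * (F - E1 - E2) +
    (30 * U + 30 * U' + 240 * (c:K) * b - 192 * (c:K)^2 - 48 * (b:K)^2) * hω

end field

end Pool.Agent.Helper857.Fl
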